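import Pool.Agent.Helper8.XS.QuadBasics

set_option autoImplicit false

/-! XS-13 -/

open scoped TensorProduct
open MvPolynomial

namespace Pool.Agent.Helper8.XS

open Pool.Agent.Helper8.BR Pool.Agent.Helper8.DP2

theorem biquad (K M : Type) [Field K] [Field M] [Algebra K M] [CharZero K] (w : M)
    (τ : M ≃+* M) (hM : QuadExt K M w τ) (d : K) (hd : ¬ IsSquare (algebraMap K M d)) (g : M)
    (hg : g ≠ 0) (x y : K) (h : algebraMap K M (x ^ 2 - d * y ^ 2) = g * τ g) :
    ∃ (t : K) (u v : M), t ≠ 0 ∧
      g = algebraMap K M t * (u ^ 2 - algebraMap K M d * v ^ 2) := by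
  obtain ⟨p, q, hpq⟩ := hM.gen g
  have hτ : τ g = algebraMap K M p - algebraMap K M q * w := by
    rw [hpq, map_add, map_mul, hM.fix, hM.fix, hM.conj]; ring
  -- the general step
  have key : ∀ s : K, s ^ 2 = x ^ 2 → p + s ≠ 0 → ∃ (t : K) (u v : M), t ≠ 0 ∧
      g = algebraMap K M t * (u ^ 2 - algebraMap K M d * v ^ 2) := by
    intro s hs hps
    refine ⟨(2 * (p + s))⁻¹, g + algebraMap K M s, algebraMap K M y, ?_, ?_⟩
    · exact inv_ne_zero (mul_ne_zero two_ne_zero hps)
    · have h1 : (g + algebraMap K M s) ^ 2 - algebraMap K M d * algebraMap K M y ^ 2 =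
          algebraMap K M (2 * (p + s)) * g := by
        have h2 : g * τ g = algebraMap K M (s ^ 2 - d * y ^ 2) := by rw [← h, hs]
        have h3 : g + τ g = algebraMap K M (2 * p) := by
          rw [hτ, hpq, map_mul, map_ofNat]; ring
        have h4 : (g + algebraMap K M s) ^ 2 - algebraMap K M d * algebraMap K M y ^ 2 =
            g * g + 2 * algebraMap K M s * g + algebraMap K M (s ^ 2 - d * y ^ 2) := by
          simp only [map_sub, map_mul, map_pow]; ring
        rw [h4, ← h2, map_mul, map_add, map_ofNat]
        have h5 : g * g + 2 * algebraMap K M s * g + g * τ g =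
            (g + τ g) * g + 2 * algebraMap K M s * g := by ring
        rw [h5, h3, map_mul, map_ofNat]
        ring
      rw [h1, ← mul_assoc, ← map_mul, inv_mul_cancel₀ (mul_ne_zero two_ne_zero hps), map_one,
        one_mul]
  by_cases h1 : p + x = 0
  · by_cases h2 : p + (-x) = 0
    · exfalso
      have hp : p = 0 := by
        have h3 : (2 : K) * p = 0 := by linear_combination h1 + h2
        rcases mul_eq_zero.1 h3 with h4 | h4
        · exact absurd h4 two_ne_zero
        · exact h4
      have hx : x = 0 := by rw [hp, zero_add] at h1; exact h1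
      have hg' : g = algebraMap K M q * w := by rw [hpq, hp, map_zero, zero_add]
      rw [hτ, hg', hp, hx] at h
      have h5 : algebraMap K M d * algebraMap K M y ^ 2 = (algebraMap K M q * w) ^ 2 := by
        simp only [map_sub, map_mul, map_pow, map_zero] at h
        linear_combination -h
      have hy : algebraMap K M y ≠ 0 := by
        intro hy
        rw [hy] at h5
        apply hg
        rw [hg']
        have : (algebraMap K M q * w) ^ 2 = 0 := by rw [← h5]; ring
        exact pow_eq_zero_iff (two_ne_zero) |>.1 this
      apply hd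
      refine ⟨algebraMap K M q * w / algebraMap K M y, ?_⟩
      rw [← sq, div_pow, ← h5, mul_div_assoc, div_self (pow_ne_zero 2 hy), mul_one]
    · exact key (-x) (by ring) h2
  · exact key x rfl h1

end Pool.Agent.Helper8.XS
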