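import Pool.Agent.Helper8.XS.Defs

set_option autoImplicit false

/-! XS-4 -/

open scoped TensorProduct
open MvPolynomial

namespace Pool.Agent.Helper8.XS

open Pool.Agent.Helper8.BR Pool.Agent.Helper8.DP2

theorem exists_quadExt (K : Type) [Field K] [CharZero K] (D : K) (hD : ¬ IsSquare D) :
    ∃ (L : Type) (_ : Field L) (_ : Algebra K L) (δ : L) (σ : L ≃+* L),
      QuadExt K L δ σ ∧ δ ^ 2 = algebraMap K L D := by
  classical
  let f : Polynomial K := Polynomial.X ^ 2 - Polynomial.C D
  have hdeg : f.natDegree = 2 := Polynomial.natDegree_X_pow_sub_C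
  have hmonic : f.Monic := Polynomial.monic_X_pow_sub_C D two_ne_zero
  have hirr : Irreducible f := by
    rw [Polynomial.irreducible_iff_roots_eq_zero_of_degree_le_three (by rw [hdeg])
      (by rw [hdeg]; norm_num)]
    rw [Multiset.eq_zero_iff_forall_notMem]
    intro x hx
    rw [Polynomial.mem_roots hmonic.ne_zero] at hx
    apply hD
    refine ⟨x, ?_⟩
    have h1 : x ^ 2 - D = 0 := by simpa [f] using hx
    rw [← pow_two]
    exact (sub_eq_zero.mp h1).symm
  haveI : Fact (Irreducible f) := ⟨hirr⟩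
  let L := AdjoinRoot f
  let δ : L := AdjoinRoot.root f
  have hδ : δ ^ 2 = algebraMap K L D := by
    have h1 : Polynomial.aeval δ f = 0 := by
      rw [AdjoinRoot.aeval_eq, AdjoinRoot.mk_self]
    have h2 : δ ^ 2 - algebraMap K L D = 0 := by
      simpa [f] using h1
    exact sub_eq_zero.mp h2
  have hδ' : Polynomial.aeval (-δ) f = 0 := by
    have : (-δ) ^ 2 - algebraMap K L D = 0 := by rw [neg_sq, hδ, sub_self]
    simpa [f] using this
  let s : L →ₐ[K] L := AdjoinRoot.liftAlgHom f (Algebra.ofId K L) (-δ) (by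
    simpa [Polynomial.aeval_def, Algebra.ofId] using hδ')
  have hs : s δ = -δ := AdjoinRoot.liftAlgHom_root ..
  have hss : s.comp s = AlgHom.id K L := by
    apply AdjoinRoot.algHom_ext
    change s (s δ) = δ
    rw [hs, map_neg, hs, neg_neg]
  let σ : L ≃ₐ[K] L := AlgEquiv.ofAlgHom s s hss hss
  refine ⟨L, inferInstance, inferInstance, δ, σ.toRingEquiv, ⟨⟨D, hδ⟩, ?_, ?_, hs, ?_⟩, hδ⟩
  · intro x hx
    apply hD
    refine ⟨x, ?_⟩
    have h1 : algebraMap K L (x * x) = algebraMap K L D := by
      rw [map_mul, hx, ← pow_two, hδ]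
    exact ((algebraMap K L).injective h1).symm
  · intro x
    obtain ⟨p, rfl⟩ := AdjoinRoot.mk_surjective x
    have h1 : AdjoinRoot.mk f p = AdjoinRoot.mk f (p %ₘ f) := by
      conv_lhs => rw [← Polynomial.modByMonic_add_div p f]
      rw [map_add, map_mul, AdjoinRoot.mk_self, zero_mul, add_zero]
    have h2 : (p %ₘ f).natDegree ≤ 1 := by
      have := Polynomial.natDegree_modByMonic_lt p hmonic (by
        intro h
        rw [h] at hdeg
        simp at hdeg)
      omega
    obtain ⟨a, b, hab⟩ := Polynomial.exists_eq_X_add_C_of_natDegree_le_one h2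
    refine ⟨b, a, ?_⟩
    rw [h1, hab, map_add, map_mul, AdjoinRoot.mk_X, AdjoinRoot.mk_C, AdjoinRoot.mk_C]
    rw [add_comm]
    rfl
  · intro x
    exact s.commutes x

theorem QuadExt.conj_conj {K L : Type} [Field K] [Field L] [Algebra K L] {δ : L} {σ : L ≃+* L}
    (h : QuadExt K L δ σ) (x : L) : σ (σ x) = x := by
  obtain ⟨a, b, rfl⟩ := h.gen x
  simp only [map_add, map_mul, map_neg, h.fix, h.conj, neg_neg]

theorem QuadExt.exists_of_fixed {K L : Type} [Field K] [Field L] [Algebra K L] [CharZero K]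
    {δ : L} {σ : L ≃+* L} (h : QuadExt K L δ σ) (x : L) (hx : σ x = x) :
    ∃ a : K, x = algebraMap K L a := by
  have hL : CharZero L := charZero_of_injective_algebraMap (algebraMap K L).injective
  obtain ⟨a, b, rfl⟩ := h.gen x
  have hδ : δ ≠ 0 := by
    intro h0
    exact h.notin 0 (by rw [map_zero, h0])
  simp only [map_add, map_mul, h.fix, h.conj] at hx
  have h1 : 2 * (algebraMap K L b * δ) = 0 := by linear_combination -hx
  have h2 : algebraMap K L b * δ = 0 := (mul_eq_zero.mp h1).resolve_left two_ne_zero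
  exact ⟨a, by rw [h2, add_zero]⟩

theorem QuadExt.norm_eq {K L : Type} [Field K] [Field L] [Algebra K L] {δ : L} {σ : L ≃+* L}
    (h : QuadExt K L δ σ) (D : K) (hD : δ ^ 2 = algebraMap K L D) (a b : K) :
    (algebraMap K L a + algebraMap K L b * δ) * σ (algebraMap K L a + algebraMap K L b * δ) =
      algebraMap K L (a ^ 2 - D * b ^ 2) := by
  simp only [map_add, map_mul, map_sub, map_pow, h.fix, h.conj]
  linear_combination (-(algebraMap K L b) ^ 2) * hD

end Pool.Agent.Helper8.XS
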