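import Pool.Agent.Helper8.XS.ThmA
import Pool.Agent.Helper8.XS.QuadBasics
import Pool.Agent.Helper8.BR.Descent
import Pool.Agent.Helper8.BR.Morita

set_option autoImplicit false

/-! XS-5: subtracting a constant class -/

open scoped TensorProduct
open MvPolynomial

namespace Pool.Agent.Helper8.XS

open Pool.Agent.Helper8.BR Pool.Agent.Helper8.DP2

/-- image of a point under a ring homomorphism -/
private noncomputable def constMap {m n d : ℤ} {R S : Type} [CommRing R] [CommRing S]
    (f : R →+* S) (P : RPt m n d R) : RPt m n d S where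
  x := f P.x
  y := f P.y
  z := f P.z
  w := f P.w
  unimod := by
    have h1 : (Ideal.span {P.x, P.y, P.z}).map f = ⊤ := by rw [P.unimod, Ideal.map_top]
    rw [Ideal.map_span, Set.image_insert_eq, Set.image_insert_eq, Set.image_singleton] at h1
    exact h1
  eq := by
    rw [F_map, ← map_pow, P.eq, map_mul, map_intCast]

private theorem const_isImage {m n d : ℤ} {R S : Type} [CommRing R] [CommRing S]
    (f : R →+* S) (P : RPt m n d R) : IsImage f P (constMap f P) :=
  ⟨1, isUnit_one, by simp [constMap], by simp [constMap], by simp [constMap], by simp [constMap]⟩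

/-- a quadratic extension of the rationals maps to a field with a root -/
private theorem const_hom {L K : Type} [Field L] [Field K] [Algebra ℚ L] [CharZero K] {δ : L}
    {σ : L ≃+* L} (hL : QuadExt ℚ L δ σ) {d : ℤ} (hδL : δ ^ 2 = (d : L)) (δK : K)
    (hδK : δK ^ 2 = (d : K)) : ∃ _ : L →+* K, True := by
  have huniq : ∀ a b a' b' : ℚ, algebraMap ℚ L a + algebraMap ℚ L b * δ
      = algebraMap ℚ L a' + algebraMap ℚ L b' * δ → a = a' ∧ b = b' := by
    intro a b a' b' h
    by_cases hb : b = b'
    · subst hb
      exact ⟨(algebraMap ℚ L).injective (add_right_cancel h), rfl⟩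
    · exfalso
      apply hL.notin ((a' - a) / (b - b'))
      have hb2 : algebraMap ℚ L (b - b') ≠ 0 := by
        rw [map_ne_zero]
        exact sub_ne_zero.2 hb
      rw [map_div₀, div_eq_iff hb2, map_sub, map_sub]
      linear_combination -h
  choose a b hab using hL.gen
  let j : ℚ →+* K := Rat.castHom K
  have key : ∀ u v : ℚ, j (a (algebraMap ℚ L u + algebraMap ℚ L v * δ))
      + j (b (algebraMap ℚ L u + algebraMap ℚ L v * δ)) * δK = j u + j v * δK := by
    intro u v
    obtain ⟨h1, h2⟩ := huniq _ _ _ _ (hab (algebraMap ℚ L u + algebraMap ℚ L v * δ))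
    rw [← h1, ← h2]
  have hd1 : algebraMap ℚ L (d : ℚ) = (d : L) := by simp
  have hd2 : j (d : ℚ) = (d : K) := by simp
  refine ⟨{ toFun := fun x => j (a x) + j (b x) * δK, map_one' := ?_, map_mul' := ?_,
            map_zero' := ?_, map_add' := ?_ }, trivial⟩
  · have := key 1 0
    rw [map_one, map_zero, zero_mul, add_zero, map_one, map_zero, zero_mul, add_zero] at this
    exact this
  · intro x y
    have h1 : x * y = algebraMap ℚ L (a x * a y + b x * b y * d)
        + algebraMap ℚ L (a x * b y + b x * a y) * δ := by
      have hx := hab x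
      have hy := hab y
      rw [map_add, map_add, map_mul, map_mul, map_mul, map_mul, map_mul, hd1]
      calc x * y = (algebraMap ℚ L (a x) + algebraMap ℚ L (b x) * δ)
          * (algebraMap ℚ L (a y) + algebraMap ℚ L (b y) * δ) := by rw [← hx, ← hy]
        _ = _ := by linear_combination (algebraMap ℚ L (b x) * algebraMap ℚ L (b y)) * hδL
    have h2 := key (a x * a y + b x * b y * d) (a x * b y + b x * a y)
    rw [← h1] at h2
    rw [h2, map_add, map_add, map_mul, map_mul, map_mul, map_mul, map_mul, hd2]
    linear_combination (-(j (b x) * j (b y))) * hδK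
  · have := key 0 0
    rw [map_zero, zero_mul, add_zero, map_zero, zero_mul, add_zero] at this
    exact this
  · intro x y
    have h1 : x + y = algebraMap ℚ L (a x + a y) + algebraMap ℚ L (b x + b y) * δ := by
      have hx := hab x
      have hy := hab y
      rw [map_add, map_add]
      calc x + y = (algebraMap ℚ L (a x) + algebraMap ℚ L (b x) * δ)
          + (algebraMap ℚ L (a y) + algebraMap ℚ L (b y) * δ) := by rw [← hx, ← hy]
        _ = _ := by ring
    have h2 := key (a x + a y) (b x + b y)
    rw [← h1] at h2
    rw [h2, map_add, map_add]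
    ring

theorem exists_const {m n d : ℤ} (hb : bad m n ≠ 0) (hd : ¬ IsSquare (d : ℚ))
    (α : Fam m n d) : ∃ c : Br ℚ, Van (α.sub (famConst m n d c)) := by
  have hd0 : d ≠ 0 := by
    rintro rfl
    apply hd
    simp
  obtain ⟨L, _, _, δ, σ, hL, hδ⟩ := exists_quadExt ℚ (d : ℚ) hd
  have hcL : CharZero L := charZero_of_injective_algebraMap (algebraMap ℚ L).injective
  have hδL : δ ^ 2 = (d : L) := by
    rw [hδ]
    simp
  -- a point over `L`
  let P0 : RPt m n d L :=
    { x := 1
      y := -1
      z := 0
      w := 2 * m * n * δ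
      unimod := by
        rw [Ideal.eq_top_iff_one]
        exact Ideal.subset_span (by simp)
      eq := by
        unfold F
        linear_combination (4 * (m : L) ^ 2 * (n : L) ^ 2) * hδL }
  let c1 : Br L := α.val L (qring_field L) P0
  have hc1 : Br.map (σ : L →+* L) c1 = c1 := by
    have h1 := α.nat L L (σ : L →+* L) (qring_field L) (qring_field L) P0
      (constMap (σ : L →+* L) P0) (const_isImage _ P0)
    rw [h1]
    exact constancy hb hd0 α L δ hδL _ _
  obtain ⟨c, hc⟩ := Br.descent ℚ L δ σ hL c1 hc1
  refine ⟨c, ?_⟩
  intro R _ _ _ _ hR δR hδR P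
  -- the fraction field
  let K := FractionRing R
  have hQR : QRing K := by
    intro k hk
    have := (hR k hk).map (algebraMap R K)
    rwa [map_natCast] at this
  have hcK : CharZero K := by
    refine charZero_of_inj_zero fun k hk => ?_
    by_contra hk0
    exact (hQR k hk0).ne_zero hk
  apply Br.map_injective R K
  rw [map_zero]
  have h1 : Br.map (algebraMap R K) ((α.sub (famConst m n d c)).val R hR P)
      = (α.sub (famConst m n d c)).val K (qring_field K) (constMap (algebraMap R K) P) :=
    (α.sub (famConst m n d c)).nat R K (algebraMap R K) hR (qring_field K) P _ (const_isImage _ P)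
  rw [h1]
  change α.val K (qring_field K) (constMap (algebraMap R K) P)
    - Br.map (QRing.hom (qring_field K)) c = 0
  rw [sub_eq_zero]
  -- embed `L` into `K`
  set δK : K := algebraMap R K δR with hδK
  have hδK2 : δK ^ 2 = (d : K) := by
    rw [hδK, ← map_pow, hδR, map_intCast]
  obtain ⟨g, -⟩ := const_hom hL hδL δK hδK2
  have h2 : α.val K (qring_field K) (constMap (algebraMap R K) P)
      = α.val K (qring_field K) (constMap g P0) := constancy hb hd0 α K δK hδK2 _ _
  have h3 := α.nat L K g (qring_field L) (qring_field K) P0 (constMap g P0) (const_isImage _ P0)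
  rw [h2, ← h3]
  change Br.map g c1 = _
  rw [← hc, Br.map_map, Subsingleton.elim (g.comp (algebraMap ℚ L)) (QRing.hom (qring_field K))]

end Pool.Agent.Helper8.XS
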