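import Pool.Agent.Helper8.XS.Defs

set_option autoImplicit false

/-! XS-12 -/

open scoped TensorProduct
open MvPolynomial

namespace Pool.Agent.Helper8.XS

open Pool.Agent.Helper8.BR Pool.Agent.Helper8.DP2

/-- the restriction to the line `X0 + X1 + 1 = 0` -/
private noncomputable def cnPhi : A2 →ₐ[ℚ] A2 := MvPolynomial.aeval ![X 0, -1 - X 0]

/-- a rational point of the line -/
private def cnPt (t : ℚ) : Fin 2 → ℚ := ![t, -1 - t]

private theorem cn_eval_phi (v : Fin 2 → ℚ) (G : A2) :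
    MvPolynomial.eval v (cnPhi G) = MvPolynomial.eval (cnPt (v 0)) G := by
  have h : (MvPolynomial.aeval v : A2 →ₐ[ℚ] ℚ).comp cnPhi =
      (MvPolynomial.aeval (cnPt (v 0)) : A2 →ₐ[ℚ] ℚ) := by
    apply MvPolynomial.algHom_ext
    intro i
    unfold cnPhi cnPt
    fin_cases i <;> simp
  have h2 := congrArg (fun f => f G) h
  simp only [AlgHom.comp_apply] at h2
  rw [← MvPolynomial.aeval_eq_eval, ← MvPolynomial.aeval_eq_eval]
  exact h2

private theorem cn_dvd (G : A2) (h : ∀ t : ℚ, MvPolynomial.eval (cnPt t) G = 0) :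
    (X 0 + X 1 + 1 : A2) ∣ G := by
  have h1 : cnPhi G = 0 := by
    apply MvPolynomial.funext
    intro v
    rw [cn_eval_phi, h, map_zero]
  have h2 : (Ideal.Quotient.mkₐ ℚ (Ideal.span {(X 0 + X 1 + 1 : A2)})) =
      (Ideal.Quotient.mkₐ ℚ (Ideal.span {(X 0 + X 1 + 1 : A2)})).comp cnPhi := by
    apply MvPolynomial.algHom_ext
    intro i
    rw [AlgHom.comp_apply]
    unfold cnPhi
    rw [MvPolynomial.aeval_X]
    fin_cases i
    · rfl
    · simp only [Fin.mk_one, Fin.isValue, Matrix.cons_val_one, Matrix.cons_val_zero,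
        Ideal.Quotient.mkₐ_eq_mk]
      rw [Ideal.Quotient.eq, Ideal.mem_span_singleton]
      exact ⟨1, by ring⟩
  have h3 := congrArg (fun f => f G) h2
  simp only [AlgHom.comp_apply, h1, map_zero] at h3
  rw [Ideal.Quotient.mkₐ_eq_mk, Ideal.Quotient.eq_zero_iff_mem, Ideal.mem_span_singleton] at h3
  exact h3

private theorem cn_eval_F0 (m n : ℤ) (t : ℚ) : MvPolynomial.eval (cnPt t) (F0 m n) =
    ((m : ℚ) * n * (t ^ 2 + (1 + t) ^ 2 + 1)) ^ 2 := by
  unfold F0
  rw [← F_map]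
  unfold cnPt F
  simp only [MvPolynomial.eval_X, map_one, Matrix.cons_val_zero, Matrix.cons_val_one]
  ring

private theorem cn_point {d : ℤ} (hd : ¬ IsSquare (d : ℚ)) (c : ℚ) (g p q x y : ℚ)
    (hg : g ≠ 0) (hne : ¬ (p = 0 ∧ q = 0 ∧ x = 0 ∧ y = 0))
    (h : c * (x ^ 2 - d * y ^ 2) = p ^ 2 - d * g ^ 2 * q ^ 2) :
    ∃ u v : ℚ, c = u ^ 2 - (d : ℚ) * v ^ 2 := by
  have aniso : ∀ a b : ℚ, a ^ 2 - d * b ^ 2 = 0 → a = 0 ∧ b = 0 := by
    intro a b hab
    by_cases hb : b = 0
    · subst hb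
      simp at hab
      exact ⟨hab, rfl⟩
    · exfalso
      apply hd
      refine ⟨a / b, ?_⟩
      field_simp
      linarith
  have hN : x ^ 2 - d * y ^ 2 ≠ 0 := by
    intro h0
    obtain ⟨hx, hy⟩ := aniso x y h0
    apply hne
    rw [h0, mul_zero] at h
    obtain ⟨hp, hq⟩ := aniso p (g * q) (by rw [mul_pow, ← mul_assoc]; exact h.symm)
    exact ⟨hp, (mul_eq_zero.1 hq).resolve_left hg, hx, hy⟩
  refine ⟨(p * x + d * (g * q) * y) / (x ^ 2 - d * y ^ 2),
    (p * y + (g * q) * x) / (x ^ 2 - d * y ^ 2), ?_⟩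
  have hc : c = (p ^ 2 - d * g ^ 2 * q ^ 2) / (x ^ 2 - d * y ^ 2) := by
    rw [eq_div_iff hN]
    exact h
  rw [hc, div_pow, div_pow, mul_div_assoc', ← sub_div, div_eq_div_iff hN (pow_ne_zero 2 hN)]
  ring

private theorem cn_poly {m n : ℤ} (hmn : m * n ≠ 0) (d : ℤ) (hd : ¬ IsSquare (d : ℚ)) (c : ℚ) :
    ∀ (k : ℕ) (p q x y : A2), ¬ (p = 0 ∧ q = 0) → p.totalDegree + q.totalDegree < k →
      (MvPolynomial.C c) * (x ^ 2 - (d : A2) * y ^ 2) = p ^ 2 - ((d : A2) * F0 m n) * q ^ 2 →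
      ∃ u v : ℚ, c = u ^ 2 - (d : ℚ) * v ^ 2 := by
  intro k
  induction k with
  | zero => intro p q x y _ h; omega
  | succ k ih =>
    intro p q x y hpq hdeg h
    by_cases hall : ∀ t : ℚ, MvPolynomial.eval (cnPt t) p = 0 ∧ MvPolynomial.eval (cnPt t) q = 0 ∧
      MvPolynomial.eval (cnPt t) x = 0 ∧ MvPolynomial.eval (cnPt t) y = 0
    · obtain ⟨p', rfl⟩ := cn_dvd p fun t => (hall t).1
      obtain ⟨q', rfl⟩ := cn_dvd q fun t => (hall t).2.1
      obtain ⟨x', rfl⟩ := cn_dvd x fun t => (hall t).2.2.1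
      obtain ⟨y', rfl⟩ := cn_dvd y fun t => (hall t).2.2.2
      have hl : (X 0 + X 1 + 1 : A2) ≠ 0 := by
        intro h0
        have := congrArg (MvPolynomial.eval (fun _ => (0 : ℚ))) h0
        simp at this
      have hldeg : 1 ≤ (X 0 + X 1 + 1 : A2).totalDegree := by
        by_contra hcon
        have h0 : (X 0 + X 1 + 1 : A2).totalDegree = 0 := by omega
        rw [MvPolynomial.totalDegree_eq_zero_iff_eq_C] at h0
        have e1 := congrArg (MvPolynomial.eval (fun _ => (0 : ℚ))) h0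
        have e2 := congrArg (MvPolynomial.eval (fun _ => (1 : ℚ))) h0
        simp only [map_add, MvPolynomial.eval_X, map_one, MvPolynomial.eval_C] at e1 e2
        rw [← e1] at e2
        norm_num at e2
      have hdeg' : ∀ a : A2, a ≠ 0 →
          ((X 0 + X 1 + 1 : A2) * a).totalDegree = (X 0 + X 1 + 1 : A2).totalDegree +
            a.totalDegree := fun a ha => MvPolynomial.totalDegree_mul_of_isDomain hl ha
      have hle : ∀ a : A2, a.totalDegree ≤ ((X 0 + X 1 + 1 : A2) * a).totalDegree := by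
        intro a
        by_cases ha : a = 0
        · rw [ha, mul_zero]
        · rw [hdeg' a ha]; omega
      apply ih p' q' x' y'
      · rintro ⟨rfl, rfl⟩
        exact hpq ⟨mul_zero _, mul_zero _⟩
      · by_cases hp : p' = 0
        · have hq : q' ≠ 0 := by
            rintro rfl
            exact hpq ⟨by rw [hp, mul_zero], mul_zero _⟩
          have := hdeg' q' hq
          have := hle p'
          omega
        · have := hdeg' p' hp
          have := hle q'
          omega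
      · have hl2 : ((X 0 + X 1 + 1 : A2)) ^ 2 ≠ 0 := pow_ne_zero 2 hl
        apply mul_left_cancel₀ hl2
        linear_combination h
    · push Not at hall
      obtain ⟨t, ht⟩ := hall
      have h2 := congrArg (MvPolynomial.eval (cnPt t)) h
      simp only [map_mul, map_sub, map_pow, MvPolynomial.eval_C, map_intCast] at h2
      rw [cn_eval_F0] at h2
      refine cn_point hd c ((m : ℚ) * n * (t ^ 2 + (1 + t) ^ 2 + 1)) _ _ _ _ ?_ ?_ h2
      · have h3 : (m : ℚ) * n ≠ 0 := by exact_mod_cast hmn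
        have h4 : t ^ 2 + (1 + t) ^ 2 + 1 ≠ 0 := by positivity
        exact mul_ne_zero h3 h4
      · rintro ⟨a1, a2, a3, a4⟩
        exact ht a1 a2 a3 a4

theorem const_norm {m n : ℤ} (hmn : m * n ≠ 0) (K : Type) [Field K] [Algebra A2 K]
    [IsFractionRing A2 K] (d : ℤ) (hd : ¬ IsSquare (d : ℚ)) (c : ℚ) (hc : c ≠ 0)
    (p q x y : K) (hpq : ¬ (p = 0 ∧ q = 0))
    (h : algebraMap A2 K (MvPolynomial.C c) * (x ^ 2 - (d : K) * y ^ 2) =
      p ^ 2 - algebraMap A2 K ((d : A2) * F0 m n) * q ^ 2) :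
    ∃ u v : ℚ, c = u ^ 2 - (d : ℚ) * v ^ 2 := by
  obtain ⟨b, hb⟩ := IsLocalization.exist_integer_multiples_of_finite (nonZeroDivisors A2)
    ![p, q, x, y]
  have hb0 : algebraMap A2 K (b : A2) ≠ 0 := by
    have := IsFractionRing.to_map_ne_zero_of_mem_nonZeroDivisors (K := K) b.2
    exact this
  obtain ⟨p', hp⟩ := hb 0
  obtain ⟨q', hq⟩ := hb 1
  obtain ⟨x', hx⟩ := hb 2
  obtain ⟨y', hy⟩ := hb 3
  simp only [Matrix.cons_val_zero, Matrix.cons_val_one, Matrix.cons_val, Algebra.smul_def]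
    at hp hq hx hy
  have hinj : Function.Injective (algebraMap A2 K) := IsFractionRing.injective A2 K
  apply cn_poly hmn d hd c (p'.totalDegree + q'.totalDegree + 1) p' q' x' y' _
    (Nat.lt_succ_self _)
  · apply hinj
    simp only [map_mul, map_sub, map_pow, hp, hq, hx, hy, map_intCast]
    rw [map_mul, map_intCast] at h
    linear_combination (algebraMap A2 K b) ^ 2 * h
  · rintro ⟨rfl, rfl⟩
    apply hpq
    rw [map_zero] at hp hq
    exact ⟨(mul_eq_zero.1 hp.symm).resolve_left hb0, (mul_eq_zero.1 hq.symm).resolve_left hb0⟩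

end Pool.Agent.Helper8.XS
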