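import Pool.Agent.Helper8.XS.QuadBasics

set_option autoImplicit false

/-! XS-9: ramified places, places are principal -/

open scoped TensorProduct
open MvPolynomial

namespace Pool.Agent.Helper8.XS

open Pool.Agent.Helper8.BR Pool.Agent.Helper8.DP2

section Loc

variable {A K : Type} [CommRing A] [IsDomain A] [Field K] [Algebra A K] [IsFractionRing A K]

/-- the localization of `A` at the prime `f` inside `K` -/
private def Af (A K : Type) [CommRing A] [IsDomain A] [Field K] [Algebra A K] (f : A)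
    (hf : Prime f) : Subring K where
  carrier := {x | ∃ a b : A, ¬ f ∣ b ∧ x * algebraMap A K b = algebraMap A K a}
  mul_mem' := by
    rintro x y ⟨a, b, hb, h1⟩ ⟨c, d, hd, h2⟩
    refine ⟨a * c, b * d, fun h => (hf.dvd_or_dvd h).elim hb hd, ?_⟩
    rw [map_mul, map_mul, ← h1, ← h2]
    ring
  one_mem' := ⟨1, 1, fun h => hf.not_unit (isUnit_of_dvd_one h), by simp⟩
  add_mem' := by
    rintro x y ⟨a, b, hb, h1⟩ ⟨c, d, hd, h2⟩
    refine ⟨a * d + c * b, b * d, fun h => (hf.dvd_or_dvd h).elim hb hd, ?_⟩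
    rw [map_mul, map_add, map_mul, map_mul, ← h1, ← h2]
    ring
  zero_mem' := ⟨0, 1, fun h => hf.not_unit (isUnit_of_dvd_one h), by simp⟩
  neg_mem' := by
    rintro x ⟨a, b, hb, h1⟩
    exact ⟨-a, b, hb, by rw [map_neg, ← h1]; ring⟩

private lemma af_alg {f : A} (hf : Prime f) (a : A) : algebraMap A K a ∈ Af A K f hf :=
  ⟨a, 1, fun h => hf.not_unit (isUnit_of_dvd_one h), by simp⟩

private lemma ne_of_ndvd {f : A} {b : A} (hb : ¬ f ∣ b) : algebraMap A K b ≠ 0 := by
  intro h
  apply hb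
  have : b = 0 := (IsFractionRing.injective A K) (by rw [h, map_zero])
  rw [this]
  exact dvd_zero f

private lemma af_inv {f : A} (hf : Prime f) {b : A} (hb : ¬ f ∣ b) :
    (algebraMap A K b)⁻¹ ∈ Af A K f hf :=
  ⟨1, b, hb, by rw [inv_mul_cancel₀ (ne_of_ndvd hb), map_one]⟩

private lemma af_one_sub {f : A} (hf : Prime f) {s : K} (hs : s ∈ Af A K f hf) :
    1 - algebraMap A K f * s ≠ 0 ∧ (1 - algebraMap A K f * s)⁻¹ ∈ Af A K f hf := by
  obtain ⟨a, b, hb, h1⟩ := hs
  have hb0 : algebraMap A K b ≠ 0 := ne_of_ndvd hb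
  have hnd : ¬ f ∣ b - f * a := fun h => hb ((dvd_sub_left (dvd_mul_right f a)).mp h)
  have hnd0 : algebraMap A K (b - f * a) ≠ 0 := ne_of_ndvd hnd
  have e1 : (1 - algebraMap A K f * s) * algebraMap A K b = algebraMap A K (b - f * a) := by
    rw [map_sub, map_mul, ← h1]
    ring
  have hne : 1 - algebraMap A K f * s ≠ 0 := by
    intro h
    rw [h, zero_mul] at e1
    exact hnd0 e1.symm
  refine ⟨hne, b, b - f * a, hnd, ?_⟩
  rw [← e1]
  field_simp

private lemma af_form [UniqueFactorizationMonoid A] {f : A} (hf : Prime f) {p : K} (hp : p ≠ 0) :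
    ∃ (k : ℤ) (u : K), u ∈ Af A K f hf ∧ u⁻¹ ∈ Af A K f hf ∧ u ≠ 0 ∧
      p = u * algebraMap A K f ^ k := by
  obtain ⟨a, b, hb, rfl⟩ := IsFractionRing.div_surjective (A := A) p
  have hb0 : b ≠ 0 := nonZeroDivisors.ne_zero hb
  have ha0 : a ≠ 0 := by
    rintro rfl
    apply hp
    simp
  have hfa : FiniteMultiplicity f a := FiniteMultiplicity.of_prime_left hf ha0
  have hfb : FiniteMultiplicity f b := FiniteMultiplicity.of_prime_left hf hb0
  obtain ⟨a', ha', hna⟩ := hfa.exists_eq_pow_mul_and_not_dvd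
  obtain ⟨b', hb', hnb⟩ := hfb.exists_eq_pow_mul_and_not_dvd
  have hf0 : algebraMap A K f ≠ 0 := by
    intro h
    exact hf.ne_zero ((IsFractionRing.injective A K) (by rw [h, map_zero]))
  have ha'0 : algebraMap A K a' ≠ 0 := ne_of_ndvd hna
  have hb'0 : algebraMap A K b' ≠ 0 := ne_of_ndvd hnb
  refine ⟨(multiplicity f a : ℤ) - multiplicity f b, algebraMap A K a' / algebraMap A K b',
    ?_, ?_, div_ne_zero ha'0 hb'0, ?_⟩
  · rw [div_eq_mul_inv]
    exact mul_mem (af_alg hf a') (af_inv hf hnb)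
  · rw [inv_div, div_eq_mul_inv]
    exact mul_mem (af_alg hf b') (af_inv hf hna)
  · rw [zpow_sub₀ hf0, zpow_natCast, zpow_natCast]
    nth_rewrite 1 [ha', hb']
    rw [map_mul, map_mul, map_pow, map_pow]
    field_simp

private lemma af_dich [UniqueFactorizationMonoid A] {f : A} (hf : Prime f) (c : K) :
    c ∈ Af A K f hf ∨ (c ≠ 0 ∧ c⁻¹ * (algebraMap A K f)⁻¹ ∈ Af A K f hf) := by
  by_cases hc : c = 0
  · left
    rw [hc]
    exact zero_mem _
  obtain ⟨k, u, hu, hui, hu0, hck⟩ := af_form hf hc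
  have hf0 : algebraMap A K f ≠ 0 := by
    intro h
    exact hf.ne_zero ((IsFractionRing.injective A K) (by rw [h, map_zero]))
  rcases le_or_gt 0 k with hk | hk
  · left
    obtain ⟨m, rfl⟩ := Int.eq_ofNat_of_zero_le hk
    rw [hck, zpow_natCast]
    exact mul_mem hu (pow_mem (af_alg hf f) m)
  · right
    refine ⟨hc, ?_⟩
    obtain ⟨m, hm⟩ : ∃ m : ℕ, -k = (m : ℤ) + 1 := ⟨(-k - 1).toNat, by omega⟩
    have e : c⁻¹ * (algebraMap A K f)⁻¹ = u⁻¹ * algebraMap A K f ^ m := by
      rw [hck, mul_inv, ← zpow_neg, hm, zpow_add_one₀ hf0, zpow_natCast]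
      field_simp
    rw [e]
    exact mul_mem hui (pow_mem (af_alg hf f) m)

end Loc

theorem place_ram (A K M : Type) [CommRing A] [IsDomain A] [UniqueFactorizationMonoid A]
    [Field K] [Field M] [Algebra A K] [Algebra K M] [Algebra A M] [IsScalarTower A K M]
    [IsFractionRing A K] (w : M) (τ : M ≃+* M) (hM : QuadExt K M w τ) (D f : A)
    (hw : w ^ 2 = algebraMap A M D) (hf : Prime f) (h2 : ¬ f ∣ 2) (hD : f ∣ D)
    (hD2 : ¬ f ^ 2 ∣ D) :
    ∃ O : ValuationSubring M, Place f w w O := by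
  classical
  obtain ⟨D', hD'⟩ := hD
  have hnD' : ¬ f ∣ D' := by
    rintro ⟨e, he⟩
    apply hD2
    rw [hD', he]
    exact ⟨e, by ring⟩
  set κ := algebraMap K M with hκ
  have hκA : ∀ a : A, algebraMap A M a = κ (algebraMap A K a) := fun a =>
    IsScalarTower.algebraMap_apply A K M a
  have hf0 : algebraMap A K f ≠ 0 := by
    intro h
    exact hf.ne_zero ((IsFractionRing.injective A K) (by rw [h, map_zero]))
  have hD'0 : algebraMap A K D' ≠ 0 := ne_of_ndvd hnD'
  have hκf0 : κ (algebraMap A K f) ≠ 0 := by simpa using hf0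
  have hκD'0 : κ (algebraMap A K D') ≠ 0 := by simpa using hD'0
  have hw2 : w * w = κ (algebraMap A K f) * κ (algebraMap A K D') := by
    rw [← sq, hw, hκA, hD', map_mul, map_mul]
  have hw0 : w ≠ 0 := by
    intro h
    rw [h, mul_zero] at hw2
    exact mul_ne_zero hκf0 hκD'0 hw2.symm
  -- uniqueness of coordinates
  have huniq : ∀ p q p' q' : K, κ p + κ q * w = κ p' + κ q' * w → p = p' ∧ q = q' := by
    intro p q p' q' h
    have hq : q = q' := by
      by_contra hne
      have hne' : q - q' ≠ 0 := sub_ne_zero.mpr hne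
      apply hM.notin ((p' - p) / (q - q'))
      rw [← hκ, map_div₀, map_sub, map_sub]
      have hne'' : κ q - κ q' ≠ 0 := by
        rw [← map_sub]
        exact (map_ne_zero κ).mpr hne'
      rw [div_eq_iff hne'']
      linear_combination -h
    refine ⟨?_, hq⟩
    rw [hq] at h
    exact κ.injective (by linear_combination h)
  -- the ring
  let S : Subring M :=
    { carrier := {x | ∃ p ∈ Af A K f hf, ∃ q ∈ Af A K f hf, x = κ p + κ q * w}
      mul_mem' := by
        rintro x y ⟨p, hp, q, hq, rfl⟩ ⟨p', hp', q', hq', rfl⟩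
        refine ⟨p * p' + q * q' * (algebraMap A K f * algebraMap A K D'), ?_, p * q' + p' * q,
          ?_, ?_⟩
        · exact add_mem (mul_mem hp hp') (mul_mem (mul_mem hq hq')
            (mul_mem (af_alg hf f) (af_alg hf D')))
        · exact add_mem (mul_mem hp hq') (mul_mem hp' hq)
        · simp only [map_add, map_mul]
          linear_combination κ q * κ q' * hw2
      one_mem' := ⟨1, one_mem _, 0, zero_mem _, by simp⟩
      add_mem' := by
        rintro x y ⟨p, hp, q, hq, rfl⟩ ⟨p', hp', q', hq', rfl⟩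
        refine ⟨p + p', add_mem hp hp', q + q', add_mem hq hq', ?_⟩
        simp only [map_add]
        ring
      zero_mem' := ⟨0, zero_mem _, 0, zero_mem _, by simp⟩
      neg_mem' := by
        rintro x ⟨p, hp, q, hq, rfl⟩
        refine ⟨-p, neg_mem hp, -q, neg_mem hq, ?_⟩
        simp only [map_neg]
        ring }
  have hSmem : ∀ x : M, x ∈ S ↔ ∃ p ∈ Af A K f hf, ∃ q ∈ Af A K f hf, x = κ p + κ q * w :=
    fun x => Iff.rfl
  have hSK : ∀ p ∈ Af A K f hf, κ p ∈ S := fun p hp => ⟨p, hp, 0, zero_mem _, by simp⟩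
  have hSw : w ∈ S := ⟨0, zero_mem _, 1, one_mem _, by simp⟩
  -- units
  have hunit : ∀ c ∈ Af A K f hf, 1 + κ c * w ∈ S ∧ (1 + κ c * w)⁻¹ ∈ S ∧ 1 + κ c * w ≠ 0 := by
    intro c hc
    have hs : c * c * algebraMap A K D' ∈ Af A K f hf := mul_mem (mul_mem hc hc) (af_alg hf D')
    obtain ⟨hn0, hni⟩ := af_one_sub hf hs
    set nn := 1 - algebraMap A K f * (c * c * algebraMap A K D') with hnn
    have hκn0 : κ nn ≠ 0 := by simpa using hn0
    have hprod : (1 + κ c * w) * (1 - κ c * w) = κ nn := by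
      rw [hnn]
      simp only [map_sub, map_mul, map_one]
      linear_combination (-κ c * κ c) * hw2
    have hne : 1 + κ c * w ≠ 0 := by
      intro h
      rw [h, zero_mul] at hprod
      exact hκn0 hprod.symm
    refine ⟨⟨1, one_mem _, c, hc, by simp⟩, ⟨nn⁻¹, hni, -c * nn⁻¹, mul_mem (neg_mem hc) hni, ?_⟩,
      hne⟩
    symm
    apply eq_inv_of_mul_eq_one_left
    have e1 : (κ nn⁻¹ + κ (-c * nn⁻¹) * w) * (1 + κ c * w) =
        κ nn⁻¹ * ((1 + κ c * w) * (1 - κ c * w)) := by
      simp only [map_mul, map_neg]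
      ring
    rw [e1, hprod, ← map_mul, inv_mul_cancel₀ hn0, map_one]
  -- units of K
  have hD'z : ∀ k : ℤ, algebraMap A K D' ^ k ∈ Af A K f hf := by
    intro k
    rcases Int.eq_nat_or_neg k with ⟨m, rfl | rfl⟩
    · rw [zpow_natCast]
      exact pow_mem (af_alg hf D') m
    · rw [zpow_neg, zpow_natCast, ← inv_pow]
      exact pow_mem (af_inv hf hnD') m
  have hwz : ∀ k : ℤ, κ (algebraMap A K f) ^ k = w ^ (2 * k) * κ (algebraMap A K D' ^ (-k)) := by
    intro k
    have e1 : κ (algebraMap A K f) = (w * w) * (κ (algebraMap A K D'))⁻¹ := by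
      rw [hw2]
      field_simp
    rw [e1, mul_zpow, map_zpow₀, zpow_mul, zpow_neg, inv_zpow]
    congr 2
    rw [zpow_two]
  have hKform : ∀ p : K, p ≠ 0 → ∃ (k : ℤ) (y : M), y ∈ S ∧ y⁻¹ ∈ S ∧ y ≠ 0 ∧
      κ p = w ^ (2 * k) * y := by
    intro p hp
    obtain ⟨k, u, hu, hui, hu0, hpk⟩ := af_form (A := A) hf hp
    refine ⟨k, κ (u * algebraMap A K D' ^ (-k)), hSK _ (mul_mem hu (hD'z _)), ?_, ?_, ?_⟩
    · rw [← map_inv₀, mul_inv, ← zpow_neg]
      exact hSK _ (mul_mem hui (hD'z _))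
    · exact (map_ne_zero κ).mpr (mul_ne_zero hu0 (zpow_ne_zero _ hD'0))
    · rw [hpk, map_mul, map_zpow₀, hwz, map_mul]
      ring
  have hform : ∀ x : M, x ≠ 0 → ∃ (j : ℤ) (y : M), y ∈ S ∧ y⁻¹ ∈ S ∧ y ≠ 0 ∧ x = w ^ j * y := by
    intro x hx
    obtain ⟨p, q, rfl⟩ := hM.gen x
    rw [← hκ] at hx ⊢
    by_cases hq : q = 0
    · rw [hq, map_zero, zero_mul, add_zero] at hx ⊢
      obtain ⟨k, y, h1, h2', h3, h4⟩ := hKform p (by rintro rfl; simp at hx)
      exact ⟨2 * k, y, h1, h2', h3, h4⟩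
    obtain ⟨kq, yq, q1, q2, q3, q4⟩ := hKform q hq
    by_cases hp : p = 0
    · rw [hp, map_zero, zero_add]
      refine ⟨2 * kq + 1, yq, q1, q2, q3, ?_⟩
      rw [q4, zpow_add_one₀ hw0]
      ring
    obtain ⟨kp, yp, p1, p2, p3, p4⟩ := hKform p hp
    have hκp : κ p ≠ 0 := (map_ne_zero κ).mpr hp
    have hκq : κ q ≠ 0 := (map_ne_zero κ).mpr hq
    rcases af_dich (A := A) hf (q / p) with hc | ⟨hc0, hc⟩
    · obtain ⟨u1, u2, u3⟩ := hunit _ hc
      refine ⟨2 * kp, yp * (1 + κ (q / p) * w), mul_mem p1 u1, ?_, mul_ne_zero p3 u3, ?_⟩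
      · rw [mul_inv]
        exact mul_mem p2 u2
      · rw [← mul_assoc, ← p4, map_div₀]
        field_simp
    · have hc' : (q / p)⁻¹ * (algebraMap A K f)⁻¹ * (algebraMap A K D')⁻¹ ∈ Af A K f hf :=
        mul_mem hc (af_inv hf hnD')
      obtain ⟨u1, u2, u3⟩ := hunit _ hc'
      refine ⟨2 * kq + 1, yq * (1 + κ ((q / p)⁻¹ * (algebraMap A K f)⁻¹ *
        (algebraMap A K D')⁻¹) * w), mul_mem q1 u1, ?_, mul_ne_zero q3 u3, ?_⟩
      · rw [mul_inv]
        exact mul_mem q2 u2
      · have e1 : κ q * w * (1 + κ ((q / p)⁻¹ * (algebraMap A K f)⁻¹ *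
            (algebraMap A K D')⁻¹) * w) = κ q * w + κ p := by
          rw [inv_div, map_mul, map_mul, map_inv₀, map_inv₀, map_div₀]
          field_simp
          linear_combination κ p * hw2
        rw [zpow_add_one₀ hw0, add_comm (κ p), ← e1, q4]
        ring
  -- the valuation ring
  have hSwz : ∀ j : ℤ, 0 ≤ j → w ^ j ∈ S := by
    intro j hj
    obtain ⟨m, rfl⟩ := Int.eq_ofNat_of_zero_le hj
    rw [zpow_natCast]
    exact pow_mem hSw m
  let O : ValuationSubring M :=
    { S with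
      mem_or_inv_mem' := by
        intro x
        by_cases hx : x = 0
        · left
          rw [hx]
          exact S.zero_mem
        obtain ⟨j, y, y1, y2, y3, rfl⟩ := hform x hx
        rcases le_total 0 j with hj | hj
        · left
          exact S.mul_mem (hSwz j hj) y1
        · right
          rw [mul_inv, ← zpow_neg]
          exact S.mul_mem (hSwz (-j) (by omega)) y2 }
  have hOmem : ∀ x : M, x ∈ O ↔ x ∈ S := fun x => Iff.rfl
  have hle : ∀ x ∈ S, O.valuation x ≤ 1 := fun x hx => (O.valuation_le_one_iff x).mpr hx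
  have hone : ∀ y, y ∈ S → y⁻¹ ∈ S → y ≠ 0 → O.valuation y = 1 := by
    intro y h1 h2' h3
    refine le_antisymm (hle y h1) ?_
    have e1 : O.valuation y * O.valuation y⁻¹ = 1 := by
      rw [← map_mul, mul_inv_cancel₀ h3, map_one]
    calc (1 : O.ValueGroup) = O.valuation y * O.valuation y⁻¹ := e1.symm
      _ ≤ O.valuation y * 1 := mul_le_mul_right (hle _ h2') _
      _ = O.valuation y := mul_one _
  have hAS : ∀ a : A, algebraMap A M a ∈ S := fun a => by
    rw [hκA]
    exact hSK _ (af_alg hf a)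
  have hAone : ∀ a : A, ¬ f ∣ a → O.valuation (algebraMap A M a) = 1 := by
    intro a ha
    refine hone _ (hAS a) ?_ ?_
    · rw [hκA, ← map_inv₀]
      exact hSK _ (af_inv hf ha)
    · rw [hκA]
      exact (map_ne_zero κ).mpr (ne_of_ndvd ha)
  have hwlt : O.valuation w < 1 := by
    refine lt_of_le_of_ne (hle w hSw) fun h1 => ?_
    have h3 : w⁻¹ ∈ S := by
      rw [← hOmem, ← O.valuation_le_one_iff, map_inv₀, h1, inv_one]
    obtain ⟨p, hp, q, hq, h4⟩ := h3
    have h5 : w⁻¹ = κ 0 + κ ((algebraMap A K f)⁻¹ * (algebraMap A K D')⁻¹) * w := by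
      rw [map_zero, zero_add, map_mul, map_inv₀, map_inv₀]
      field_simp
      linear_combination -hw2
    have h6 := (huniq _ _ _ _ (h4.symm.trans h5)).2
    have h7 : (algebraMap A K f)⁻¹ ∈ Af A K f hf := by
      have : (algebraMap A K f)⁻¹ = q * algebraMap A K D' := by
        rw [h6]
        field_simp
      rw [this]
      exact mul_mem hq (af_alg hf D')
    obtain ⟨a, b, hb, h8⟩ := h7
    apply hb
    refine ⟨a, ?_⟩
    apply IsFractionRing.injective A K
    rw [map_mul, ← h8]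
    field_simp
  refine ⟨O, ?_⟩
  constructor
  · exact fun a => hle _ (hAS a)
  · exact hle w hSw
  · exact hAone
  · have e1 : algebraMap A M f * algebraMap A M D' = w * w := by
      rw [hw2, hκA, hκA]
    have e2 : O.valuation (algebraMap A M f) = O.valuation w * O.valuation w := by
      rw [← map_mul, ← e1, map_mul, hAone D' hnD', mul_one]
    rw [e2]
    exact lt_of_le_of_lt (mul_le_of_le_one_left' hwlt.le) hwlt
  · exact hw0
  · exact hwlt
  · intro x hx
    obtain ⟨j, y, y1, y2, y3, rfl⟩ := hform x hx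
    refine ⟨j, ?_⟩
    rw [map_mul, hone y y1 y2 y3, mul_one, map_zpow₀]
  · intro x hx
    obtain ⟨p, ⟨a, b, hb, hp⟩, q, ⟨c, d, hd, hq⟩, rfl⟩ := (O.valuation_le_one_iff x).mp hx
    refine ⟨a * d, c * b, b * d, fun h => (hf.dvd_or_dvd h).elim hb hd, ?_⟩
    have e1 : (κ p + κ q * w) * algebraMap A M (b * d) - algebraMap A M (a * d) -
        algebraMap A M (c * b) * w = 0 := by
      rw [hκA, hκA, hκA, map_mul, map_mul (algebraMap A K) a d, map_mul (algebraMap A K) c b,
        ← hp, ← hq]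
      simp only [map_mul]
      ring
    rw [e1, map_zero]
    exact zero_lt_one

theorem place_pid {A M : Type} [CommRing A] [Field M] [Algebra A M] {f : A} {w π : M}
    {O : ValuationSubring M} (h : Place f w π O) :
    IsPrincipalIdealRing O ∧ Finite (MaximalSpectrum O) := by
  classical
  have hv0 : 0 < O.valuation π := by
    rw [zero_lt_iff]
    exact (Valuation.ne_zero_iff _).mpr h.pi_ne
  have hπO : π ∈ O := (O.valuation_le_one_iff π).mp h.pi_lt.le
  let p : O := ⟨π, hπO⟩
  have hnn : ∀ k : ℤ, O.valuation π ^ k ≤ 1 → 0 ≤ k := by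
    intro k hk
    by_contra hneg
    have h1 : (1 : O.ValueGroup) < O.valuation π ^ k :=
      one_lt_zpow_of_neg₀ hv0 h.pi_lt (by omega)
    exact absurd hk (not_le.mpr h1)
  -- unit criterion
  have hun : ∀ x : O, O.valuation (x : M) = 1 → IsUnit x := by
    intro x hx
    exact (O.valuation_eq_one_iff x).mpr hx
  have hform : ∀ x : O, x ≠ 0 → ∃ n : ℕ, O.valuation (x : M) = O.valuation π ^ n := by
    intro x hx
    have hx0 : (x : M) ≠ 0 := fun h0 => hx (Subtype.ext h0)
    obtain ⟨k, hk⟩ := h.pow x hx0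
    have hk0 : 0 ≤ k := hnn k (by rw [← hk]; exact O.valuation_le_one x)
    obtain ⟨n, rfl⟩ := Int.eq_ofNat_of_zero_le hk0
    exact ⟨n, by rw [hk, zpow_natCast]⟩
  have hassoc : ∀ x : O, x ≠ 0 → ∃ n : ℕ, Associated (p ^ n) x := by
    intro x hx
    obtain ⟨n, hn⟩ := hform x hx
    refine ⟨n, ?_⟩
    have hx0 : (x : M) ≠ 0 := fun h0 => hx (Subtype.ext h0)
    have hpn : (π ^ n : M) ≠ 0 := pow_ne_zero _ h.pi_ne
    have hval : O.valuation ((x : M) * (π ^ n)⁻¹) = 1 := by
      rw [map_mul, hn, map_inv₀, map_pow, mul_inv_cancel₀ (pow_ne_zero _ hv0.ne')]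
    let u : O := ⟨(x : M) * (π ^ n)⁻¹, (O.valuation_le_one_iff _).mp hval.le⟩
    have hu : IsUnit u := hun u hval
    refine ⟨hu.unit, Subtype.ext ?_⟩
    change π ^ n * ((x : M) * (π ^ n)⁻¹) = x
    field_simp
  have hirr : Irreducible p := by
    constructor
    · intro hu
      have := (O.valuation_eq_one_iff p).mp hu
      exact absurd this (ne_of_lt h.pi_lt)
    · intro a b hab
      have ha0 : a ≠ 0 := by
        rintro rfl
        rw [zero_mul] at hab
        exact h.pi_ne (congrArg Subtype.val hab)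
      have hb0 : b ≠ 0 := by
        rintro rfl
        rw [mul_zero] at hab
        exact h.pi_ne (congrArg Subtype.val hab)
      obtain ⟨i, hi⟩ := hform a ha0
      obtain ⟨j, hj⟩ := hform b hb0
      have e1 : O.valuation π ^ (1 : ℕ) = O.valuation π ^ (i + j) := by
        rw [pow_add, ← hi, ← hj, ← map_mul, pow_one]
        congr 1
        exact congrArg Subtype.val hab
      have e2 : 1 = i + j := (pow_right_strictAnti₀ hv0 h.pi_lt).injective e1
      rcases Nat.eq_zero_or_pos i with hi0 | hi0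
      · left
        apply hun
        rw [hi, hi0, pow_zero]
      · right
        apply hun
        rw [hj, show j = 0 by omega, pow_zero]
  have hdvr : IsDiscreteValuationRing O :=
    IsDiscreteValuationRing.ofHasUnitMulPowIrreducibleFactorization
      ⟨p, hirr, fun {x} hx => hassoc x hx⟩
  refine ⟨inferInstance, ?_⟩
  have hsub : Subsingleton (MaximalSpectrum O) := by
    refine ⟨fun a b => ?_⟩
    apply MaximalSpectrum.ext
    rw [IsLocalRing.eq_maximalIdeal a.isMaximal, IsLocalRing.eq_maximalIdeal b.isMaximal]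
  exact Finite.of_subsingleton

end Pool.Agent.Helper8.XS
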