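import Pool.Agent.Helper8.XS.QuadBasics

set_option autoImplicit false

/-! XS-8: unramified places -/

open scoped TensorProduct
open MvPolynomial

namespace Pool.Agent.Helper8.XS

open Pool.Agent.Helper8.BR Pool.Agent.Helper8.DP2

/-- a valuation ring of `M` dominating the localization of `A` at the prime `f` -/
private lemma PlaceU_dom (A M : Type) [CommRing A] [IsDomain A] [Field M] [Algebra A M]
    (hinj : Function.Injective (algebraMap A M)) (f : A) (hf : Prime f) :
    ∃ O : ValuationSubring M, (∀ a : A, O.valuation (algebraMap A M a) ≤ 1) ∧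
      (∀ a : A, ¬ f ∣ a → O.valuation (algebraMap A M a) = 1) ∧
      O.valuation (algebraMap A M f) < 1 := by
  have hP : (Ideal.span {f}).IsPrime := (Ideal.span_singleton_prime hf.ne_zero).2 hf
  have hu : ∀ y : (Ideal.span {f}).primeCompl, IsUnit (algebraMap A M y) := by
    intro y
    apply IsUnit.mk0
    intro h0
    have h1 : (y : A) = 0 := hinj (by rw [h0, map_zero])
    exact y.2 (by rw [h1]; exact Ideal.zero_mem _)
  obtain ⟨O, h, hloc⟩ := IsLocalRing.exists_factor_valuationRing
    (IsLocalization.lift (M := (Ideal.span {f}).primeCompl)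
      (S := Localization.AtPrime (Ideal.span {f})) hu)
  have hle : ∀ a : A, O.valuation (algebraMap A M a) ≤ 1 := by
    intro a
    rw [ValuationSubring.valuation_le_one_iff]
    have := h (algebraMap A (Localization.AtPrime (Ideal.span {f})) a)
    rwa [IsLocalization.lift_eq] at this
  refine ⟨O, hle, ?_, ?_⟩
  · intro a ha
    refine le_antisymm (hle a) ?_
    have hmem : a ∈ (Ideal.span {f}).primeCompl := fun h' => ha (Ideal.mem_span_singleton.1 h')
    have ha0 : algebraMap A M a ≠ 0 := (hu ⟨a, hmem⟩).ne_zero
    have h1 := h (IsLocalization.mk' (Localization.AtPrime (Ideal.span {f})) (1 : A) ⟨a, hmem⟩)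
    have h2 : (IsLocalization.lift (M := (Ideal.span {f}).primeCompl)
        (S := Localization.AtPrime (Ideal.span {f})) hu)
        (IsLocalization.mk' (Localization.AtPrime (Ideal.span {f})) (1 : A) ⟨a, hmem⟩) =
        (algebraMap A M a)⁻¹ := by
      rw [IsLocalization.lift_mk'_spec]
      rw [map_one]
      exact (mul_inv_cancel₀ ha0).symm
    rw [h2] at h1
    have h3 : O.valuation (algebraMap A M a)⁻¹ ≤ 1 := (O.valuation_le_one_iff _).2 h1
    have h4 : O.valuation (algebraMap A M a) * O.valuation (algebraMap A M a)⁻¹ = 1 := by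
      rw [← map_mul, mul_inv_cancel₀ ha0, map_one]
    calc (1 : O.ValueGroup) = O.valuation (algebraMap A M a) * O.valuation (algebraMap A M a)⁻¹ :=
          h4.symm
      _ ≤ O.valuation (algebraMap A M a) * 1 := mul_le_mul_right h3 _
      _ = _ := mul_one _
  · refine lt_of_le_of_ne (hle f) ?_
    intro h1
    have hmem : algebraMap A M f ∈ O := (O.valuation_le_one_iff _).1 (hle f)
    have h2 : IsUnit (⟨algebraMap A M f, hmem⟩ : O) := (O.valuation_eq_one_iff _).2 h1
    have h3 : IsUnit (algebraMap A (Localization.AtPrime (Ideal.span {f})) f) := by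
      apply hloc.map_nonunit
      have h4 : (⟨algebraMap A M f, hmem⟩ : O) = (IsLocalization.lift hu).codRestrict O.toSubring h
          (algebraMap A (Localization.AtPrime (Ideal.span {f})) f) := by
        apply Subtype.ext
        exact (IsLocalization.lift_eq hu f).symm
      rw [← h4]
      exact h2
    rw [IsLocalization.AtPrime.isUnit_to_map_iff _ (Ideal.span {f})] at h3
    exact h3 (Ideal.mem_span_singleton_self f)

/-- common power of `f` in a pair -/
private lemma PlaceU_pair (A : Type) [CommRing A] [IsDomain A] [UniqueFactorizationMonoid A]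
    (f : A) (hf : Prime f) (a b : A) (h : a ≠ 0 ∨ b ≠ 0) :
    ∃ (j : ℕ) (a' b' : A), a = f ^ j * a' ∧ b = f ^ j * b' ∧ ¬ (f ∣ a' ∧ f ∣ b') := by
  by_cases ha : a = 0
  · have hb : b ≠ 0 := by
      rcases h with h | h
      · exact absurd ha h
      · exact h
    obtain ⟨n, b', hb', hbe⟩ := WfDvdMonoid.max_power_factor hb hf.irreducible
    exact ⟨n, 0, b', by rw [ha, mul_zero], hbe, fun h => hb' h.2⟩
  · obtain ⟨n, a', ha', hae⟩ := WfDvdMonoid.max_power_factor ha hf.irreducible
    by_cases hb : b = 0
    · exact ⟨n, a', 0, hae, by rw [hb, mul_zero], fun h => ha' h.1⟩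
    · obtain ⟨k, b', hb', hbe⟩ := WfDvdMonoid.max_power_factor hb hf.irreducible
      rcases le_total n k with hnk | hnk
      · refine ⟨n, a', f ^ (k - n) * b', hae, ?_, fun h => ha' h.1⟩
        rw [← mul_assoc, ← pow_add, Nat.add_sub_cancel' hnk]; exact hbe
      · refine ⟨k, f ^ (n - k) * a', b', ?_, hbe, fun h => hb' h.2⟩
        rw [← mul_assoc, ← pow_add, Nat.add_sub_cancel' hnk]; exact hae

theorem place_unram (A K M : Type) [CommRing A] [IsDomain A] [UniqueFactorizationMonoid A]
    [Field K] [Field M] [Algebra A K] [Algebra K M] [Algebra A M] [IsScalarTower A K M]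
    [IsFractionRing A K] (w : M) (τ : M ≃+* M) (hM : QuadExt K M w τ) (D f : A)
    (hw : w ^ 2 = algebraMap A M D) (hf : Prime f) (h2 : ¬ f ∣ 2) (hD : ¬ f ∣ D) :
    ∃ O : ValuationSubring M, Place f w (algebraMap A M f) O := by
  have hinj : Function.Injective (algebraMap A M) := by
    rw [IsScalarTower.algebraMap_eq A K M]
    exact (algebraMap K M).injective.comp (IsFractionRing.injective A K)
  obtain ⟨O, hle, heq, hlt⟩ := PlaceU_dom A M hinj f hf
  have hf0 : algebraMap A M f ≠ 0 := fun h => hf.ne_zero (hinj (by rw [h, map_zero]))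
  have hvf0 : O.valuation (algebraMap A M f) ≠ 0 := (O.valuation.ne_zero_iff).2 hf0
  have hvw : O.valuation w = 1 := by
    have h1 : O.valuation w ^ 2 = 1 := by rw [← map_pow, hw, heq D hD]
    rcases lt_trichotomy (O.valuation w) 1 with h | h | h
    · exact absurd h1 (pow_lt_one₀ zero_le h two_ne_zero).ne
    · exact h
    · exact absurd h1 (one_lt_pow₀ h two_ne_zero).ne'
  have hw1 : O.valuation w ≤ 1 := hvw.le
  -- decomposition
  have hdec : ∀ x : M, x ≠ 0 → ∃ (k : ℤ) (r a b : A), ¬ f ∣ r ∧ ¬ (f ∣ a ∧ f ∣ b) ∧
      x * algebraMap A M r = algebraMap A M f ^ k * (algebraMap A M a + algebraMap A M b * w) := by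
    intro x hx
    obtain ⟨α, β, hx'⟩ := hM.gen x
    obtain ⟨a1, s1, hs1, hα⟩ := IsFractionRing.div_surjective (A := A) α
    obtain ⟨b1, s2, hs2, hβ⟩ := IsFractionRing.div_surjective (A := A) β
    have hs1' : s1 ≠ 0 := nonZeroDivisors.ne_zero hs1
    have hs2' : s2 ≠ 0 := nonZeroDivisors.ne_zero hs2
    have hs1K : algebraMap A M s1 ≠ 0 := fun h => hs1' (hinj (by rw [h, map_zero]))
    have hs2K : algebraMap A M s2 ≠ 0 := fun h => hs2' (hinj (by rw [h, map_zero]))
    have hαM : algebraMap K M α = algebraMap A M a1 / algebraMap A M s1 := by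
      rw [← hα, map_div₀, ← IsScalarTower.algebraMap_apply, ← IsScalarTower.algebraMap_apply]
    have hβM : algebraMap K M β = algebraMap A M b1 / algebraMap A M s2 := by
      rw [← hβ, map_div₀, ← IsScalarTower.algebraMap_apply, ← IsScalarTower.algebraMap_apply]
    have hx1 : x * algebraMap A M (s1 * s2) =
        algebraMap A M (a1 * s2) + algebraMap A M (b1 * s1) * w := by
      rw [hx', hαM, hβM, map_mul, map_mul, map_mul]
      field_simp
    have hne : a1 * s2 ≠ 0 ∨ b1 * s1 ≠ 0 := by
      by_contra hcon
      push Not at hcon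
      rw [hcon.1, hcon.2, map_zero, zero_mul, add_zero] at hx1
      rcases mul_eq_zero.1 hx1 with h | h
      · exact hx h
      · rw [map_mul] at h
        rcases mul_eq_zero.1 h with h | h
        · exact hs1K h
        · exact hs2K h
    obtain ⟨j, a, b, ha, hb, hab⟩ := PlaceU_pair A f hf _ _ hne
    obtain ⟨i, r, hr, hre⟩ := WfDvdMonoid.max_power_factor (mul_ne_zero hs1' hs2') hf.irreducible
    refine ⟨(j : ℤ) - i, r, a, b, hr, hab, ?_⟩
    rw [ha, hb, hre, map_mul, map_mul, map_mul, map_pow, map_pow] at hx1
    rw [zpow_sub₀ hf0, zpow_natCast, zpow_natCast]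
    have hfi : algebraMap A M f ^ i ≠ 0 := pow_ne_zero _ hf0
    field_simp
    linear_combination hx1
  -- units
  have hab1 : ∀ a b : A, O.valuation (algebraMap A M a + algebraMap A M b * w) ≤ 1 := by
    intro a b
    refine (O.valuation.map_add _ _).trans (max_le (hle a) ?_)
    rw [map_mul, hvw, mul_one]
    exact hle b
  have hab1' : ∀ a b : A, O.valuation (algebraMap A M a - algebraMap A M b * w) ≤ 1 := by
    intro a b
    have := hab1 a (-b)
    rwa [map_neg, neg_mul, ← sub_eq_add_neg] at this
  have hab2 : ∀ a b : A, ¬ (f ∣ a ∧ f ∣ b) →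
      O.valuation (algebraMap A M a + algebraMap A M b * w) < 1 →
      O.valuation (algebraMap A M a - algebraMap A M b * w) = 1 := by
    intro a b hab h1
    refine le_antisymm (hab1' a b) ?_
    by_contra hcon
    push Not at hcon
    apply hab
    have e1 : O.valuation (algebraMap A M (2 * a)) < 1 := by
      have : algebraMap A M (2 * a) = (algebraMap A M a + algebraMap A M b * w) +
          (algebraMap A M a - algebraMap A M b * w) := by
        rw [map_mul, map_ofNat]; ring
      rw [this]
      exact (O.valuation.map_add _ _).trans_lt (max_lt h1 hcon)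
    have e2 : O.valuation (algebraMap A M (2 * b)) < 1 := by
      have h3 : O.valuation (algebraMap A M (2 * b) * w) < 1 := by
        have : algebraMap A M (2 * b) * w = (algebraMap A M a + algebraMap A M b * w) -
            (algebraMap A M a - algebraMap A M b * w) := by
          rw [map_mul, map_ofNat]; ring
        rw [this]
        exact (O.valuation.map_sub _ _).trans_lt (max_lt h1 hcon)
      rwa [map_mul, hvw, mul_one] at h3
    have key : ∀ c : A, O.valuation (algebraMap A M (2 * c)) < 1 → f ∣ c := by
      intro c hc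
      by_contra hfc
      have : ¬ f ∣ 2 * c := fun h => by
        rcases hf.dvd_or_dvd h with h | h
        · exact h2 h
        · exact hfc h
      rw [heq _ this] at hc
      exact lt_irrefl _ hc
    exact ⟨key a e1, key b e2⟩
  -- the norm
  have hnorm : ∀ a b : A, ¬ (f ∣ a ∧ f ∣ b) →
      O.valuation (algebraMap A M a + algebraMap A M b * w) < 1 →
      algebraMap A M a + algebraMap A M b * w ≠ 0 →
      ∃ (j : ℕ) (u : A), ¬ f ∣ u ∧ (algebraMap A M a + algebraMap A M b * w) *
        (algebraMap A M a - algebraMap A M b * w) = algebraMap A M f ^ j * algebraMap A M u := by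
    intro a b hab h1 hne
    have e1 : (algebraMap A M a + algebraMap A M b * w) *
        (algebraMap A M a - algebraMap A M b * w) = algebraMap A M (a ^ 2 - D * b ^ 2) := by
      rw [map_sub, map_mul, map_pow, map_pow, ← hw]; ring
    have hne2 : algebraMap A M a - algebraMap A M b * w ≠ 0 := by
      intro h0
      have := hab2 a b hab h1
      rw [h0, map_zero] at this
      exact zero_ne_one this
    have e2 : a ^ 2 - D * b ^ 2 ≠ 0 := by
      intro h0
      rw [h0, map_zero] at e1
      rcases mul_eq_zero.1 e1 with h | h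
      · exact hne h
      · exact hne2 h
    obtain ⟨j, u, hu, hue⟩ := WfDvdMonoid.max_power_factor e2 hf.irreducible
    refine ⟨j, u, hu, ?_⟩
    rw [e1, hue, map_mul, map_pow]
  refine ⟨O, hle, hw1, heq, hlt, hf0, hlt, ?_, ?_⟩
  · intro x hx
    obtain ⟨k, r, a, b, hr, hab, hx1⟩ := hdec x hx
    have hne : algebraMap A M a + algebraMap A M b * w ≠ 0 := by
      intro h0
      rw [h0, mul_zero] at hx1
      rcases mul_eq_zero.1 hx1 with h | h
      · exact hx h
      · apply hr
        have : r = 0 := hinj (by rw [h, map_zero])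
        rw [this]; exact dvd_zero _
    have hv : O.valuation x = O.valuation (algebraMap A M f) ^ k *
        O.valuation (algebraMap A M a + algebraMap A M b * w) := by
      have := congrArg O.valuation hx1
      rwa [map_mul, heq r hr, mul_one, map_mul, map_zpow₀] at this
    rcases lt_or_eq_of_le (hab1 a b) with h1 | h1
    · obtain ⟨j, u, hu, hn⟩ := hnorm a b hab h1 hne
      have h3 := congrArg O.valuation hn
      rw [map_mul, hab2 a b hab h1, mul_one, map_mul, heq u hu, mul_one, map_pow] at h3
      refine ⟨k + j, ?_⟩
      rw [hv, h3, zpow_add₀ hvf0, zpow_natCast]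
    · exact ⟨k, by rw [hv, h1, mul_one]⟩
  · intro x hx1
    rcases lt_or_eq_of_le hx1 with hx2 | hx2
    · refine ⟨0, 0, 1, fun h => ?_, ?_⟩
      · exact hf.not_isUnit (isUnit_of_dvd_one h)
      · rw [map_one, map_zero, mul_one, sub_zero, zero_mul, sub_zero]
        exact hx2
    have hx : x ≠ 0 := by
      intro h0
      rw [h0, map_zero] at hx2
      exact zero_ne_one hx2
    obtain ⟨k, r, a, b, hr, hab, hxe⟩ := hdec x hx
    have hne : algebraMap A M a + algebraMap A M b * w ≠ 0 := by
      intro h0
      rw [h0, mul_zero] at hxe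
      rcases mul_eq_zero.1 hxe with h | h
      · exact hx h
      · apply hr
        have : r = 0 := hinj (by rw [h, map_zero])
        rw [this]; exact dvd_zero _
    have hv : O.valuation x = O.valuation (algebraMap A M f) ^ k *
        O.valuation (algebraMap A M a + algebraMap A M b * w) := by
      have := congrArg O.valuation hxe
      rwa [map_mul, heq r hr, mul_one, map_mul, map_zpow₀] at this
    have hinj2 : ∀ k : ℤ, O.valuation (algebraMap A M f) ^ k = 1 → k = 0 := by
      intro k hk
      by_contra hk0
      rcases lt_or_gt_of_ne hk0 with h | h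
      · have h4 : O.valuation (algebraMap A M f) ^ (-k) = 1 := by rw [zpow_neg, hk, inv_one]
        obtain ⟨n, hn⟩ := Int.eq_ofNat_of_zero_le (show 0 ≤ -k by omega)
        rw [hn, zpow_natCast] at h4
        exact absurd h4 (pow_lt_one₀ zero_le hlt (by omega)).ne
      · obtain ⟨n, hn⟩ := Int.eq_ofNat_of_zero_le (show 0 ≤ k by omega)
        rw [hn, zpow_natCast] at hk
        exact absurd hk (pow_lt_one₀ zero_le hlt (by omega)).ne
    rcases lt_or_eq_of_le (hab1 a b) with h1 | h1
    · obtain ⟨j, u, hu, hn⟩ := hnorm a b hab h1 hne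
      have hσ := hab2 a b hab h1
      have h3 := congrArg O.valuation hn
      rw [map_mul, hσ, mul_one, map_mul, heq u hu, mul_one, map_pow] at h3
      have hkj : k + j = 0 := by
        apply hinj2
        rw [zpow_add₀ hvf0, zpow_natCast, ← h3, ← hv, hx2]
      have hfa : ¬ f ∣ a := by
        intro hfa
        have e1 : O.valuation (algebraMap A M a) < 1 := by
          obtain ⟨c, rfl⟩ := hfa
          rw [map_mul, map_mul]
          exact (mul_le_mul_right (hle c) _).trans_lt (by rw [mul_one]; exact hlt)
        have e2 : O.valuation (algebraMap A M b * w) < 1 := by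
          have : algebraMap A M b * w = (algebraMap A M a + algebraMap A M b * w) -
            algebraMap A M a := by ring
          rw [this]
          exact (O.valuation.map_sub _ _).trans_lt (max_lt h1 e1)
        have e3 : O.valuation (algebraMap A M a - algebraMap A M b * w) < 1 :=
          (O.valuation.map_sub _ _).trans_lt (max_lt e1 e2)
        rw [hσ] at e3
        exact lt_irrefl _ e3
      refine ⟨u, 0, r * (2 * a), ?_, ?_⟩
      · intro h
        rcases hf.dvd_or_dvd h with h | h
        · exact hr h
        · rcases hf.dvd_or_dvd h with h | h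
          · exact h2 h
          · exact hfa h
      · have hσ0 : algebraMap A M a - algebraMap A M b * w ≠ 0 := by
          intro h0
          rw [h0, map_zero] at hσ
          exact zero_ne_one hσ
        have e1 : x * algebraMap A M r * (algebraMap A M a - algebraMap A M b * w) =
            algebraMap A M u := by
          rw [hxe, mul_assoc, hn, ← mul_assoc, ← zpow_natCast, ← zpow_add₀ hf0, hkj, zpow_zero,
            one_mul]
        have e2 : x * algebraMap A M (r * (2 * a)) - algebraMap A M u - algebraMap A M 0 * w =
            x * algebraMap A M r * (algebraMap A M a + algebraMap A M b * w) := by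
          rw [← e1, map_zero, map_mul, map_mul, map_ofNat]; ring
        rw [e2, map_mul, map_mul, hx2, heq r hr, mul_one, one_mul]
        exact h1
    · have hk0 : k = 0 := by
        apply hinj2
        rw [← hx2, hv, h1, mul_one]
      refine ⟨a, b, r, hr, ?_⟩
      rw [hxe, hk0, zpow_zero, one_mul]
      have : algebraMap A M a + algebraMap A M b * w - algebraMap A M a - algebraMap A M b * w = 0 := by
        ring
      rw [this, map_zero]
      exact zero_lt_one

end Pool.Agent.Helper8.XS
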