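import Pool.Agent.Helper8.XS.EvenAt
import Pool.Agent.Helper8.XS.PlaceU
import Pool.Agent.Helper8.XS.PlaceR

set_option autoImplicit false

/-! XS-14 -/

open scoped TensorProduct
open MvPolynomial

namespace Pool.Agent.Helper8.XS

open Pool.Agent.Helper8.BR Pool.Agent.Helper8.DP2

private lemma Contact_lt_iff {M : Type} [Field M] [Algebra A2 M] {f : A2} {w π : M}
    {O : ValuationSubring M} (hp : Place f w π O) (a : A2) :
    O.valuation (algebraMap A2 M a) < 1 ↔ f ∣ a := by
  constructor
  · intro h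
    by_contra h2
    exact absurd (hp.eq_one a h2) h.ne
  · rintro ⟨b, rfl⟩
    rw [map_mul, map_mul]
    exact lt_of_le_of_lt (mul_le_of_le_one_right' (hp.le_one b)) hp.f_lt

private lemma Contact_unit {c : ℤ} (hc : c ≠ 0) : IsUnit (c : A2) := by
  have h : (c : A2) = C (c : ℚ) := by rw [map_intCast]
  rw [h]
  exact (isUnit_iff_ne_zero.2 (Int.cast_ne_zero.2 hc)).map C

private lemma Contact_not_dvd {f : A2} (hf : Prime f) {c : ℤ} (hc : c ≠ 0) : ¬ f ∣ (c : A2) :=
  fun h => hf.not_unit (isUnit_of_dvd_unit h (Contact_unit hc))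

/-- the homomorphism to the valuation ring -/
private noncomputable def Contact_j {M : Type} [Field M] [Algebra A2 M] {f : A2} {w π : M}
    {O : ValuationSubring M} (hp : Place f w π O) : A2 →+* O :=
  (algebraMap A2 M).codRestrict O.toSubring fun a => (O.valuation_le_one_iff _).1 (hp.le_one a)

private lemma Contact_j_coe {M : Type} [Field M] [Algebra A2 M] {f : A2} {w π : M}
    {O : ValuationSubring M} (hp : Place f w π O) (a : A2) :
    ((Contact_j hp a : O) : M) = algebraMap A2 M a := rfl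

private lemma Contact_res {M : Type} [Field M] {O : ValuationSubring M} (y : O) :
    IsLocalRing.residue O y = 0 ↔ O.valuation (y : M) < 1 := by
  rw [IsLocalRing.residue_eq_zero_iff]
  exact (O.valuation_lt_one_iff y)

/-- the case where `d` is a square in the residue field -/
private lemma Contact_case2 {m n d : ℤ} (hd0 : d ≠ 0) {M : Type} [Field M] [Algebra A2 M]
    {f : A2} (hf : Prime f) {w π : M} {O : ValuationSubring M} (hp : Place f w π O)
    (hw : w ^ 2 = algebraMap A2 M ((d : A2) * F0 m n)) (hns : ¬ SqMod f (d : A2)) (x : O)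
    (hx : x ^ 2 - (d : O) ∈ IsLocalRing.maximalIdeal O) : SqMod f (F0 m n) := by
  obtain ⟨p, q, r, hr, hpqr⟩ := hp.res x ((O.valuation_le_one_iff _).2 x.2)
  set φ : A2 →+* IsLocalRing.ResidueField O := (IsLocalRing.residue O).comp (Contact_j hp) with hφ
  have hφ0 : ∀ a, φ a = 0 ↔ f ∣ a := fun a => by
    rw [← Contact_lt_iff hp a, ← Contact_j_coe hp a, ← Contact_res]
    rfl
  let w' : O := ⟨w, (O.valuation_le_one_iff _).1 hp.w_le⟩
  set ω := IsLocalRing.residue O w' with hω
  set ξ := IsLocalRing.residue O x with hξ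
  have h1 : ξ * φ r = φ p + φ q * ω := by
    have h : IsLocalRing.residue O (x * Contact_j hp r - Contact_j hp p - Contact_j hp q * w') = 0 := by
      rw [Contact_res]
      exact hpqr
    rw [map_sub, map_sub, map_mul, map_mul] at h
    rw [hφ]
    simp only [RingHom.comp_apply]
    linear_combination h
  have h2 : ω ^ 2 = φ (d : A2) * φ (F0 m n) := by
    have h : w' ^ 2 = Contact_j hp ((d : A2) * F0 m n) := Subtype.ext hw
    rw [hω, ← map_pow, h, ← map_mul]
    rfl
  have h3 : ξ ^ 2 = φ (d : A2) := by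
    have h : IsLocalRing.residue O (x ^ 2 - (d : O)) = 0 := (IsLocalRing.residue_eq_zero_iff _).2 hx
    rw [map_sub, map_pow, map_intCast] at h
    rw [map_intCast]
    linear_combination h
  have hφr : φ r ≠ 0 := fun h => hr ((hφ0 r).1 h)
  have hφd : φ (d : A2) ≠ 0 := fun h => Contact_not_dvd hf hd0 ((hφ0 _).1 h)
  have hφ2 : φ 2 ≠ 0 := fun h => by
    have := (hφ0 _).1 h
    exact Contact_not_dvd hf (c := 2) (by norm_num) (by exact_mod_cast this)
  by_cases hq : φ q = 0
  · exfalso
    apply hns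
    refine ⟨p, r, hr, (hφ0 _).1 ?_⟩
    rw [hq] at h1
    rw [map_sub, map_mul, map_pow, map_pow, ← h3]
    linear_combination (-(ξ * φ r) - φ p) * h1
  · by_cases hp0 : φ p = 0
    · refine ⟨r, q, fun h => hq ((hφ0 q).2 h), (hφ0 _).1 ?_⟩
      rw [hp0] at h1
      have h4 : φ (d : A2) * φ (r ^ 2 - F0 m n * q ^ 2) = 0 := by
        rw [map_sub, map_mul, map_pow, map_pow]
        linear_combination (ξ * φ r + φ q * ω) * h1 - φ r ^ 2 * h3 + φ q ^ 2 * h2
      exact (mul_eq_zero.1 h4).resolve_left hφd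
    · exfalso
      apply hns
      have h5 : φ (p ^ 2 + q ^ 2 * ((d : A2) * F0 m n) - (d : A2) * r ^ 2) =
          - (φ 2 * φ p * φ q) * ω := by
        simp only [map_sub, map_mul, map_add, map_pow]
        have h6 : φ 2 = 2 := map_ofNat φ 2
        rw [h6]
        linear_combination (-(ξ * φ r) - φ p - φ q * ω) * h1 + φ r ^ 2 * h3 - φ q ^ 2 * h2
      refine ⟨p * (2 * p * q) - q * (p ^ 2 + q ^ 2 * ((d : A2) * F0 m n) - (d : A2) * r ^ 2),
        r * (2 * p * q), fun h => ?_, (hφ0 _).1 ?_⟩
      · have h7 := (hφ0 _).2 h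
        rw [map_mul, map_mul, map_mul] at h7
        exact (mul_ne_zero hφr (mul_ne_zero (mul_ne_zero hφ2 hp0) hq)) h7
      · rw [map_sub, map_pow, map_sub, map_mul φ q, h5]
        simp only [map_mul, map_pow]
        have h6 : φ 2 = 2 := map_ofNat φ 2
        rw [h6]
        rw [← h3]
        linear_combination (2 * φ p * φ q) ^ 2 * (-(ξ * φ r) - φ p - φ q * ω) * h1

/-- the case where `d` is not a square in the residue field -/
private lemma Contact_case1 {m n d : ℤ} (hd0 : d ≠ 0) (α : Fam m n d)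
    (hV : Van α) {K M : Type} [Field K] [Field M] [CharZero M] [Algebra K M] [Algebra A2 K]
    [Algebra A2 M] {w : M} {τ : M ≃+* M} (G : Gen m n d K M w τ) (t : K) (ht : t ≠ 0)
    (hs : α.val M (qring_field M) (eta G) = sym M (d : M) (algebraMap K M t)) (f : A2)
    (hf : Prime f) {O : ValuationSubring M} (hp : Place f w (algebraMap A2 M f) O)
    (hns : ∀ x : O, ¬ (x ^ 2 - (d : O) ∈ IsLocalRing.maximalIdeal O)) : EvenK A2 f t := by
  haveI := G.frac
  haveI := G.tower
  obtain ⟨hpid, hfin⟩ := place_pid hp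
  have hQ : QRing O := by
    intro k hk
    rw [ValuationSubring.valuation_eq_one_iff]
    have h := hp.eq_one (k : A2) (by
      have := Contact_not_dvd hf (c := (k : ℤ)) (by exact_mod_cast hk)
      exact_mod_cast this)
    rw [map_natCast] at h
    exact_mod_cast h
  let a' : O := Contact_j hp (X 0)
  let b' : O := Contact_j hp (X 1)
  let w' : O := ⟨w, (O.valuation_le_one_iff _).1 hp.w_le⟩
  let P : RPt m n d O :=
    { x := a'
      y := b'
      z := 1
      w := w'
      unimod := by
        rw [Ideal.eq_top_iff_one]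
        exact Ideal.subset_span (by simp)
      eq := by
        apply Subtype.ext
        have h1 := (eta G).eq
        have h2 := F_map O.subtype m n a' b' 1
        show w ^ 2 = O.subtype ((d : O) * F m n a' b' 1)
        rw [map_mul, ← h2, map_intCast, map_one]
        exact h1 }
  have hPQ : IsImage (algebraMap O M) P (eta G) :=
    ⟨1, isUnit_one, (one_mul _).symm, (one_mul _).symm, by
      show (1 : M) = 1 * algebraMap O M 1
      rw [map_one, one_mul], by
      rw [one_pow, one_mul]; rfl⟩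
  have htM : algebraMap K M t ≠ 0 := by
    rw [Ne, map_eq_zero]
    exact ht
  obtain ⟨u, t', hu, ht', heq⟩ := even_at hd0 α hV O M hQ (qring_field M) hns P (eta G) hPQ
    (algebraMap K M t) htM hs
  obtain ⟨k, hk⟩ := hp.pow t' ht'
  obtain ⟨x, y, hy, hxy⟩ := IsFractionRing.div_surjective (A := A2) t
  have hy0 : y ≠ 0 := nonZeroDivisors.ne_zero hy
  have hx0 : x ≠ 0 := by
    rintro rfl
    rw [map_zero, zero_div] at hxy
    exact ht hxy.symm
  obtain ⟨i, p, hpf, hxp⟩ := WfDvdMonoid.max_power_factor hx0 hf.irreducible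
  obtain ⟨j, q, hqf, hyq⟩ := WfDvdMonoid.max_power_factor hy0 hf.irreducible
  have hfK : algebraMap A2 K f ≠ 0 := by
    rw [Ne, map_eq_zero_iff _ (IsFractionRing.injective A2 K)]
    exact hf.ne_zero
  have hqK : algebraMap A2 K q ≠ 0 := by
    rw [Ne, map_eq_zero_iff _ (IsFractionRing.injective A2 K)]
    rintro rfl
    exact hqf (dvd_zero f)
  have htf : t * algebraMap A2 K q = algebraMap A2 K p * (algebraMap A2 K f) ^ ((i : ℤ) - j) := by
    rw [← hxy, hxp, hyq, map_mul, map_mul, map_pow, map_pow, zpow_sub₀ hfK, zpow_natCast,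
      zpow_natCast]
    field_simp
  set v := O.valuation (algebraMap A2 M f) with hv
  have hv1 : v < 1 := hp.f_lt
  have hv0 : v ≠ 0 := by
    rw [hv, Ne, map_eq_zero]
    exact hp.pi_ne
  have hval1 : O.valuation (algebraMap K M t) = v ^ (2 * k) := by
    rw [heq, map_mul, map_pow, hk]
    have h1 : O.valuation (algebraMap O M u) = 1 := (O.valuation_eq_one_iff u).1 hu
    rw [h1, one_mul, mul_comm 2 k, zpow_mul]
    norm_cast
  have hval2 : O.valuation (algebraMap K M t) = v ^ ((i : ℤ) - j) := by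
    have h1 := congrArg (fun s => O.valuation (algebraMap K M s)) htf
    simp only [map_mul, map_zpow₀] at h1
    rw [← IsScalarTower.algebraMap_apply, ← IsScalarTower.algebraMap_apply,
      ← IsScalarTower.algebraMap_apply, hp.eq_one q hqf, hp.eq_one p hpf, one_mul, mul_one] at h1
    exact h1
  have hij : (i : ℤ) - j = 2 * k := by
    rw [hval1] at hval2
    have hinj := zpow_right_injective₀ (zero_lt_iff.2 hv0) hv1.ne
    exact (hinj hval2).symm
  refine ⟨p, q, (algebraMap A2 K f) ^ k, hpf, hqf, zpow_ne_zero _ hfK, ?_⟩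
  rw [htf, hij, mul_comm 2 k, zpow_mul]
  norm_cast

theorem contact {m n d : ℤ} (hb : bad m n ≠ 0) (hd : ¬ IsSquare (d : ℚ)) (α : Fam m n d)
    (hV : Van α) {K M : Type} [Field K] [Field M] [CharZero M] [Algebra K M] [Algebra A2 K]
    [Algebra A2 M] {w : M} {τ : M ≃+* M} (G : Gen m n d K M w τ) (t : K) (ht : t ≠ 0)
    (hs : α.val M (qring_field M) (eta G) = sym M (d : M) (algebraMap K M t)) (f : A2)
    (hf : Prime f) (hns : ¬ SqMod f (d : A2)) (hF : ¬ f ∣ F0 m n) (hodd : ¬ EvenK A2 f t) :
    SqMod f (F0 m n) := by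
  haveI := G.frac
  haveI := G.tower
  have hd0 : d ≠ 0 := by
    rintro rfl
    exact hd ⟨0, by simp⟩
  have h2 : ¬ f ∣ 2 := by
    have := Contact_not_dvd hf (c := 2) (by norm_num)
    exact_mod_cast this
  have hD : ¬ f ∣ (d : A2) * F0 m n := fun h =>
    (hf.dvd_or_dvd h).elim (Contact_not_dvd hf hd0) hF
  obtain ⟨O, hp⟩ := place_unram A2 K M w τ G.quad ((d : A2) * F0 m n) f G.sq hf h2 hD
  by_cases hx : ∃ x : O, x ^ 2 - (d : O) ∈ IsLocalRing.maximalIdeal O
  · obtain ⟨x, hx⟩ := hx
    exact Contact_case2 hd0 hf hp G.sq hns x hx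
  · exfalso
    push Not at hx
    exact hodd (Contact_case1 hd0 α hV G t ht hs f hf hp hx)

end Pool.Agent.Helper8.XS
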