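import Pool.Agent.Helper8.XS.Defs
import Pool.Agent.Helper8.BR.P1Constant

set_option autoImplicit false

/-! XS-1: rational curves -/

open scoped TensorProduct
open MvPolynomial

namespace Pool.Agent.Helper8.XS

open Pool.Agent.Helper8.BR Pool.Agent.Helper8.DP2

private theorem curve_qring (E R : Type) [Field E] [CharZero E] [CommRing R] [Algebra E R] :
    QRing R := by
  intro n hn
  have h1 : IsUnit (n : E) := isUnit_iff_ne_zero.2 (Nat.cast_ne_zero.2 hn)
  have h2 := h1.map (algebraMap E R)
  rwa [map_natCast] at h2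

private theorem curve_aeval_map {E R S : Type} [Field E] [CommRing R] [Algebra E R] [CommRing S]
    [Algebra E S] (f : R →ₐ[E] S) (s t : R) (p : MvPolynomial (Fin 2) E) :
    aeval ![f s, f t] p = f (aeval ![s, t] p) := by
  have hv : (![f s, f t] : Fin 2 → S) = fun i => f (![s, t] i) := by
    funext i
    fin_cases i <;> rfl
  rw [hv, ← MvPolynomial.comp_aeval_apply]

private theorem curve_aeval_smul {E R : Type} [Field E] [CommRing R] [Algebra E R] (s t u : R)
    (p : MvPolynomial (Fin 2) E) (e : ℕ) (hp : p.IsHomogeneous e) :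
    aeval ![u * s, u * t] p = u ^ e * aeval ![s, t] p := by
  have hv : (![u * s, u * t] : Fin 2 → R) = fun i => u * ![s, t] i := by
    funext i
    fin_cases i <;> rfl
  rw [hv, MvPolynomial.aeval_def, MvPolynomial.aeval_def, MvPolynomial.eval₂_eq,
    MvPolynomial.eval₂_eq, Finset.mul_sum]
  refine Finset.sum_congr rfl fun d hd => ?_
  have h1 : d.degree = e := by
    have := hp (MvPolynomial.mem_support_iff.mp hd)
    rw [Finsupp.degree_eq_weight_one]
    exact this
  have h2 : ∏ i ∈ d.support, (u * ![s, t] i) ^ d i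
      = u ^ e * ∏ i ∈ d.support, (![s, t] i : R) ^ d i := by
    simp only [mul_pow]
    rw [Finset.prod_mul_distrib, Finset.prod_pow_eq_pow_sum, ← h1]
    rfl
  rw [h2]
  ring

/-- the point with coordinates `A, B, C, W` at `(s : t)` -/
private noncomputable def curvePt {m n d : ℤ} (E : Type) [Field E]
    (A B C W : MvPolynomial (Fin 2) E)
    (heq : W ^ 2 = (d : MvPolynomial (Fin 2) E) * F m n A B C)
    (h0 : ∀ (k : Type) [Field k] [Algebra E k] (v : Fin 2 → k), v ≠ 0 →
      ¬ (aeval v A = 0 ∧ aeval v B = 0 ∧ aeval v C = 0))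
    (R : Type) [CommRing R] [Algebra E R] (s t : R) (hst : IsCoprime s t) : RPt m n d R where
  x := aeval ![s, t] A
  y := aeval ![s, t] B
  z := aeval ![s, t] C
  w := aeval ![s, t] W
  unimod := by
    by_contra hne
    obtain ⟨I, hI, hle⟩ := Ideal.exists_le_maximal _ hne
    letI : Field (R ⧸ I) := Ideal.Quotient.field I
    let π : R →ₐ[E] R ⧸ I := Ideal.Quotient.mkₐ E I
    have hπ : ∀ p : MvPolynomial (Fin 2) E, aeval ![s, t] p ∈ I → aeval ![π s, π t] p = 0 := by
      intro p hp
      rw [curve_aeval_map]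
      exact Ideal.Quotient.eq_zero_iff_mem.mpr hp
    refine h0 (R ⧸ I) ![π s, π t] ?_ ⟨hπ A (hle (Ideal.subset_span (by simp))),
      hπ B (hle (Ideal.subset_span (by simp))), hπ C (hle (Ideal.subset_span (by simp)))⟩
    intro hv
    have hs : s ∈ I := Ideal.Quotient.eq_zero_iff_mem.mp (congrFun hv 0)
    have ht : t ∈ I := Ideal.Quotient.eq_zero_iff_mem.mp (congrFun hv 1)
    obtain ⟨a, b, hab⟩ := hst
    apply hI.ne_top
    rw [Ideal.eq_top_iff_one, ← hab]
    exact I.add_mem (I.mul_mem_left _ hs) (I.mul_mem_left _ ht)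
  eq := by
    have h1 := congrArg (aeval ![s, t] : MvPolynomial (Fin 2) E →ₐ[E] R) heq
    rw [map_pow, map_mul, map_intCast] at h1
    rw [h1]
    congr 1
    exact (F_map ((aeval ![s, t] : MvPolynomial (Fin 2) E →ₐ[E] R) :
      MvPolynomial (Fin 2) E →+* R) m n A B C).symm

theorem curve_const {m n d : ℤ} (α : Fam m n d) (E : Type) [Field E] [CharZero E] (e : ℕ)
    (A B C W : MvPolynomial (Fin 2) E) (hA : A.IsHomogeneous e) (hB : B.IsHomogeneous e)
    (hC : C.IsHomogeneous e) (hW : W.IsHomogeneous (2 * e))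
    (heq : W ^ 2 = (d : MvPolynomial (Fin 2) E) * F m n A B C)
    (h0 : ∀ (k : Type) [Field k] [Algebra E k] (v : Fin 2 → k), v ≠ 0 →
      ¬ (aeval v A = 0 ∧ aeval v B = 0 ∧ aeval v C = 0))
    (v v' : Fin 2 → E) (hv : v ≠ 0) (hv' : v' ≠ 0) (P P' : RPt m n d E)
    (h1 : P.x = eval v A ∧ P.y = eval v B ∧ P.z = eval v C ∧ P.w = eval v W)
    (h2 : P'.x = eval v' A ∧ P'.y = eval v' B ∧ P'.z = eval v' C ∧ P'.w = eval v' W) :
    α.val E (qring_field E) P = α.val E (qring_field E) P' := by
  let Fa : P1Fam E :=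
    { val := fun R _ _ _ _ s t hst =>
        α.val R (curve_qring E R) (curvePt E A B C W heq h0 R s t hst)
      nat := by
        intro R S _ _ _ _ _ _ _ _ f s t h h'
        refine α.nat R S (f : R →+* S) _ _ _ _ ⟨1, isUnit_one, ?_, ?_, ?_, ?_⟩ <;>
          simp only [curvePt, one_mul, one_pow] <;> exact curve_aeval_map f s t _
      scale := by
        intro R _ _ _ _ s t u hu h h'
        have h3 := α.nat R R (RingHom.id R) (curve_qring E R) (curve_qring E R)
          (curvePt E A B C W heq h0 R s t h) (curvePt E A B C W heq h0 R (u * s) (u * t) h')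
          ⟨u ^ e, hu.pow e, ?_, ?_, ?_, ?_⟩
        · rw [Br.map_id] at h3
          exact h3.symm
        · exact curve_aeval_smul s t u A e hA
        · exact curve_aeval_smul s t u B e hB
        · exact curve_aeval_smul s t u C e hC
        · rw [← pow_mul, mul_comm e 2]
          exact curve_aeval_smul s t u W (2 * e) hW }
  have hcop : ∀ u : Fin 2 → E, u ≠ 0 → IsCoprime (u 0) (u 1) := by
    intro u hu
    by_cases h3 : u 0 = 0
    · have h4 : u 1 ≠ 0 := by
        intro h4
        apply hu
        funext i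
        fin_cases i
        · exact h3
        · exact h4
      exact ⟨0, (u 1)⁻¹, by simp [h4]⟩
    · exact ⟨(u 0)⁻¹, 0, by simp [h3]⟩
  have hpt : ∀ (u : Fin 2 → E) (hu : u ≠ 0) (Q : RPt m n d E),
      (Q.x = eval u A ∧ Q.y = eval u B ∧ Q.z = eval u C ∧ Q.w = eval u W) →
      α.val E (qring_field E) Q = Fa.val E (u 0) (u 1) (hcop u hu) := by
    intro u hu Q hQ
    have hu2 : (![u 0, u 1] : Fin 2 → E) = u := by
      funext i
      fin_cases i <;> rfl
    have h3 : Q = curvePt E A B C W heq h0 E (u 0) (u 1) (hcop u hu) := by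
      rcases Q with ⟨x, y, z, w, hun, hq⟩
      obtain ⟨hx, hy, hz, hw⟩ := hQ
      simp only at hx hy hz hw
      subst hx hy hz hw
      unfold curvePt
      simp only [hu2]
      rfl
    rw [h3]
  rw [hpt v hv P h1, hpt v' hv' P' h2]
  exact p1_constant E Fa _ _ _ _ _ _

end Pool.Agent.Helper8.XS
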