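import Pool.Agent.Helper8.XS.Geom
import Pool.Agent.Helper8.BR.Sym
import Pool.Agent.Helper8.BR.DescentAlg

set_option autoImplicit false

/-!
# Families of Brauer classes on the surface (MP_55a891_nt), auxiliary definitions
-/

open scoped TensorProduct
open MvPolynomial

namespace Pool.Agent.Helper8.XS

open Pool.Agent.Helper8.BR Pool.Agent.Helper8.DP2

/-- a family of Brauer classes on the points of `X` with values in semilocal domains -/
structure Fam (m n d : ℤ) where
  val : ∀ (R : Type) [CommRing R] [IsDomain R] [Finite (MaximalSpectrum R)], QRing R →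
    RPt m n d R → Br R
  nat : ∀ (R S : Type) [CommRing R] [IsDomain R] [Finite (MaximalSpectrum R)] [CommRing S]
    [IsDomain S] [Finite (MaximalSpectrum S)] (f : R →+* S) (hR : QRing R) (hS : QRing S)
    (P : RPt m n d R) (Q : RPt m n d S), IsImage f P Q →
    Br.map f (val R hR P) = val S hS Q

/-- the family vanishes over all semilocal principal ideal domains containing a square root
of `d` -/
def Van {m n d : ℤ} (α : Fam m n d) : Prop :=
  ∀ (R : Type) [CommRing R] [IsDomain R] [IsPrincipalIdealRing R] [Finite (MaximalSpectrum R)]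
    (h : QRing R) (δ : R), δ ^ 2 = (d : R) → ∀ P : RPt m n d R, α.val R h P = 0

theorem QRing.exists_hom {R : Type} [CommRing R] (h : QRing R) : Nonempty (ℚ →+* R) := by
  have hu : ∀ y : nonZeroDivisors ℤ, IsUnit (Int.castRingHom R y) := by
    rintro ⟨y, hy⟩
    have hy0 : y ≠ 0 := nonZeroDivisors.ne_zero hy
    have h1 := h y.natAbs (Int.natAbs_ne_zero.2 hy0)
    change IsUnit ((y : ℤ) : R)
    rcases Int.natAbs_eq y with h2 | h2
    · rw [h2, Int.cast_natCast]; exact h1
    · rw [h2, Int.cast_neg, Int.cast_natCast]; exact h1.neg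
  exact ⟨IsLocalization.lift (M := nonZeroDivisors ℤ) (S := ℚ) hu⟩

/-- the homomorphism from the rational numbers -/
noncomputable def QRing.hom {R : Type} [CommRing R] (h : QRing R) : ℚ →+* R :=
  Classical.choice h.exists_hom

/-- the constant family -/
noncomputable def famConst (m n d : ℤ) (c : Br ℚ) : Fam m n d where
  val R _ _ _ h _ := Br.map h.hom c
  nat R S _ _ _ _ _ _ f hR hS P Q _ := by
    rw [Br.map_map, Subsingleton.elim (f.comp hR.hom) hS.hom]

/-- difference of families -/
noncomputable def Fam.sub {m n d : ℤ} (α β : Fam m n d) : Fam m n d where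
  val R _ _ _ h P := α.val R h P - β.val R h P
  nat R S _ _ _ _ _ _ f hR hS P Q hPQ := by
    rw [map_sub, α.nat R S f hR hS P Q hPQ, β.nat R S f hR hS P Q hPQ]

theorem F_swap {R : Type} [CommRing R] (m n : ℤ) (x y z : R) : F m n z y x = F m n x y z := by
  unfold F; ring

/-- exchange of the coordinates `x` and `z` -/
def RPt.swap {m n d : ℤ} {R : Type} [CommRing R] (P : RPt m n d R) : RPt m n d R where
  x := P.z
  y := P.y
  z := P.x
  w := P.w
  unimod := by
    rw [← P.unimod]
    congr 1
    ext a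
    simp only [Set.mem_insert_iff, Set.mem_singleton_iff]
    tauto
  eq := by rw [F_swap]; exact P.eq

/-- the family obtained by exchanging `x` and `z` -/
noncomputable def Fam.swap {m n d : ℤ} (α : Fam m n d) : Fam m n d where
  val R _ _ _ h P := α.val R h P.swap
  nat R S _ _ _ _ _ _ f hR hS P Q hPQ := by
    apply α.nat
    obtain ⟨u, hu, h1, h2, h3, h4⟩ := hPQ
    exact ⟨u, hu, h3, h2, h1, h4⟩

/-- the class of a `BrX` element as a family -/
noncomputable def toFam {m n d : ℤ} (α : BrX m n d) : Fam m n d where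
  val R _ _ _ h P := Br.mk R (α.val R h P)
  nat R S _ _ _ _ _ _ f hR hS P Q hPQ := by
    letI := f.toAlgebra
    have h1 : f = algebraMap R S := rfl
    rw [h1, Br.map_mk_eq_iff]
    exact α.nat R S hR hS P Q hPQ

/-- a family of classes comes from an element of the Brauer group -/
noncomputable def ofFam {m n d : ℤ} (α : Fam m n d) : BrX m n d where
  val R _ _ _ h P := Classical.choose (Br.exists_mk (α.val R h P))
  nat R S _ _ _ _ _ _ _ hR hS P Q hPQ := by
    rw [← Br.map_mk_eq_iff, ← Classical.choose_spec (Br.exists_mk (α.val R hR P)),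
      ← Classical.choose_spec (Br.exists_mk (α.val S hS Q))]
    exact α.nat R S _ hR hS P Q hPQ

theorem mk_ofFam {m n d : ℤ} (α : Fam m n d) (R : Type) [CommRing R] [IsDomain R]
    [Finite (MaximalSpectrum R)] (h : QRing R) (P : RPt m n d R) :
    Br.mk R ((ofFam α).val R h P) = α.val R h P :=
  (Classical.choose_spec (Br.exists_mk (α.val R h P))).symm

/-- a point over a field -/
def toPt {m n d : ℤ} {E : Type} [Field E] (P : RPt m n d E) : DP2.Pt m n d E where
  x := P.x
  y := P.y
  z := P.z
  w := P.w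
  ne := by
    rintro ⟨h1, h2, h3⟩
    have h := P.unimod
    rw [h1, h2, h3] at h
    have : (Ideal.span {(0 : E), 0, 0}) = ⊥ := by
      rw [Ideal.span_eq_bot]
      intro x hx
      simp only [Set.mem_insert_iff, Set.mem_singleton_iff, or_self] at hx
      exact hx
    rw [this] at h
    exact bot_ne_top h
  eq := P.eq

/-! ### Factorial rings, squares modulo primes -/

/-- `c` is a square in the fraction field of `A / f` -/
def SqMod {A : Type} [CommRing A] (f c : A) : Prop := ∃ r q : A, ¬ f ∣ q ∧ f ∣ r ^ 2 - c * q ^ 2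

/-- `t` has even order at the prime `f` -/
def EvenK (A : Type) {K : Type} [CommRing A] [Field K] [Algebra A K] (f : A) (t : K) : Prop :=
  ∃ (a b : A) (h : K), ¬ f ∣ a ∧ ¬ f ∣ b ∧ h ≠ 0 ∧ t * algebraMap A K b = algebraMap A K a * h ^ 2

/-- `O` is a discrete valuation ring of `M = K(w)` over the prime `f` of `A` with
uniformizer `π` -/
structure Place {A M : Type} [CommRing A] [Field M] [Algebra A M] (f : A) (w π : M)
    (O : ValuationSubring M) : Prop where
  le_one : ∀ a : A, O.valuation (algebraMap A M a) ≤ 1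
  w_le : O.valuation w ≤ 1
  eq_one : ∀ a : A, ¬ f ∣ a → O.valuation (algebraMap A M a) = 1
  f_lt : O.valuation (algebraMap A M f) < 1
  pi_ne : π ≠ 0
  pi_lt : O.valuation π < 1
  pow : ∀ x : M, x ≠ 0 → ∃ k : ℤ, O.valuation x = O.valuation π ^ k
  res : ∀ x : M, O.valuation x ≤ 1 → ∃ p q r : A, ¬ f ∣ r ∧
    O.valuation (x * algebraMap A M r - algebraMap A M p - algebraMap A M q * w) < 1

/-- the ring `ℚ[a, b]` -/
abbrev A2 : Type := MvPolynomial (Fin 2) ℚ

/-- the affine equation `F(a, b, 1)` -/
noncomputable def F0 (m n : ℤ) : A2 := F m n (X 0) (X 1) 1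

/-- `K = ℚ(a, b)` and `M = K(w)`, `w ^ 2 = e F(a, b, 1)`; for `e = d` it is the function field
of `X` -/
structure Gen (m n e : ℤ) (K M : Type) [Field K] [Field M] [Algebra K M] [Algebra A2 K]
    [Algebra A2 M] (w : M) (τ : M ≃+* M) : Prop where
  frac : IsFractionRing A2 K
  tower : IsScalarTower A2 K M
  quad : QuadExt K M w τ
  sq : w ^ 2 = algebraMap A2 M ((e : A2) * F0 m n)

theorem F_map {R S : Type} [CommRing R] [CommRing S] (f : R →+* S) (m n : ℤ) (x y z : R) :
    F m n (f x) (f y) (f z) = f (F m n x y z) := by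
  unfold F
  simp only [map_sub, map_mul, map_add, map_pow, map_ofNat, map_intCast]

/-- the generic point -/
noncomputable def eta {m n d : ℤ} {K M : Type} [Field K] [Field M] [Algebra K M]
    [Algebra A2 K] [Algebra A2 M] {w : M} {τ : M ≃+* M} (G : Gen m n d K M w τ) :
    RPt m n d M where
  x := algebraMap A2 M (X 0)
  y := algebraMap A2 M (X 1)
  z := 1
  w := w
  unimod := by
    rw [Ideal.eq_top_iff_one]
    exact Ideal.subset_span (by simp)
  eq := by
    rw [G.sq, map_mul, map_intCast]
    unfold F0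
    rw [← F_map, map_one]

/-- the forms `lin` at the generic point -/
noncomputable def linA (m n : ℤ) (i : Fin 7) : A2 := lin m n (X 0) (X 1) 1 i

/-- the 13 lines: `m x ± n y`, `n x ± m y` and cyclically, and `x + y + z` -/
def lin13 {R : Type} [CommRing R] (m n : ℤ) (x y z : R) : Fin 13 → R :=
  ![(m : R) * x - n * y, (m : R) * x + n * y, (n : R) * x - m * y, (n : R) * x + m * y,
    (m : R) * y - n * z, (m : R) * y + n * z, (n : R) * y - m * z, (n : R) * y + m * z,
    (m : R) * z - n * x, (m : R) * z + n * x, (n : R) * z - m * x, (n : R) * z + m * x,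
    x + y + z]

/-- the quadratic form `Q` -/
def qQ {R : Type} [CommRing R] (m n : ℤ) (x y z : R) : R :=
  ((m : R) ^ 2 + n ^ 2) ^ 2 * z ^ 2 - ((m : R) ^ 4 + n ^ 4) * (x ^ 2 + y ^ 2)

/-- the quadratic form `N` -/
def qN {R : Type} [CommRing R] (m n : ℤ) (x y : R) : R := (m : R) ^ 2 * x ^ 2 - n ^ 2 * y ^ 2

/-- the quadratic form `N'` -/
def qN' {R : Type} [CommRing R] (m n : ℤ) (x y : R) : R := (n : R) ^ 2 * x ^ 2 - m ^ 2 * y ^ 2

/-- the coefficients of the conic `C_ν = ca x ^ 2 + cb y ^ 2 + cc z ^ 2` -/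
def ca {R : Type} [CommRing R] (m n : ℤ) (v : R) : R :=
  ((m : R) ^ 2 * v - kap m n) * (v + (n : R) ^ 2)

/-- second coefficient -/
def cb {R : Type} [CommRing R] (m n : ℤ) (v : R) : R :=
  -((v - (m : R) ^ 2) * ((n : R) ^ 2 * v + kap m n))

/-- third coefficient -/
def cc {R : Type} [CommRing R] (m n : ℤ) (v : R) : R := ((m : R) ^ 2 + n ^ 2) ^ 2 * v

/-- the constant `m^2 - m n + n^2` -/
def rho {R : Type} [CommRing R] (m n : ℤ) : R := (m : R) ^ 2 - m * n + n ^ 2

/-- the section `S(ν)` of the conic bundle (a point of the line `x + y + z = 0`) -/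
def sx {R : Type} [CommRing R] (m n : ℤ) (v : R) : R := n * v + rho m n * m

/-- second coordinate of the section -/
def sy {R : Type} [CommRing R] (m n : ℤ) (v : R) : R := rho m n * n - m * v

/-- third coordinate of the section -/
def sz {R : Type} [CommRing R] (m n : ℤ) (v : R) : R :=
  ((m : R) - n) * v - rho m n * ((m : R) + n)

/-- the conic `C_ν` for the root `ν = ρ (m + n) / (m - n)` of `sz`, cleared of denominators -/
def conZ {R : Type} [CommRing R] (m n : ℤ) (x y z : R) : R :=
  ((m : R) ^ 2 * (rho m n * ((m : R) + n)) - kap m n * ((m : R) - n)) *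
      (rho m n * ((m : R) + n) + (n : R) ^ 2 * ((m : R) - n)) * x ^ 2
    - (rho m n * ((m : R) + n) - (m : R) ^ 2 * ((m : R) - n)) *
      ((n : R) ^ 2 * (rho m n * ((m : R) + n)) + kap m n * ((m : R) - n)) * y ^ 2
    + ((m : R) ^ 2 + n ^ 2) ^ 2 * (rho m n * ((m : R) + n)) * ((m : R) - n) * z ^ 2

/-- the 13 lines as polynomials in `a, b` -/
noncomputable def lines13 (m n : ℤ) (i : Fin 13) : A2 := lin13 m n (X 0) (X 1) 1 i

/-- the conic `conZ` as a polynomial in `a, b` -/
noncomputable def conicZ (m n : ℤ) : A2 := conZ m n (X 0) (X 1) 1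

end Pool.Agent.Helper8.XS
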