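import Pool.Agent.Helper8.XS.Trans
import Pool.Agent.Helper8.BR.Morita
import Pool.Agent.Helper8.DP2.Final

set_option autoImplicit false

/-! XS-28 -/

open scoped TensorProduct
open MvPolynomial

namespace Pool.Agent.Helper8.XS

open Pool.Agent.Helper8.BR Pool.Agent.Helper8.DP2

/-- the homogenisation of a polynomial in two variables -/
private noncomputable def evGh {S : Type} [CommRing S] [Algebra ℚ S] (G : A2) (e : ℕ)
    (u v w : S) : S :=
  ∑ s ∈ G.support, algebraMap ℚ S (G.coeff s) * (u ^ s 0 * v ^ s 1 * w ^ (e - s 0 - s 1))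

private lemma evGh_map {S S' : Type} [CommRing S] [Algebra ℚ S] [CommRing S'] [Algebra ℚ S']
    (f : S →+* S') (G : A2) (e : ℕ) (u v w : S) :
    f (evGh G e u v w) = evGh G e (f u) (f v) (f w) := by
  unfold evGh
  rw [map_sum]
  refine Finset.sum_congr rfl fun s _ => ?_
  rw [map_mul, map_mul, map_mul, map_pow, map_pow, map_pow, RingHom.map_rat_algebraMap]

private lemma evGh_div {L : Type} [Field L] [Algebra ℚ L] (G : A2) (e : ℕ)
    (he : ∀ s ∈ G.support, s 0 + s 1 ≤ e) (u v w : L) (hw : w ≠ 0) :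
    w ^ e * (aeval ![u / w, v / w] : A2 →ₐ[ℚ] L) G = evGh G e u v w := by
  rw [aeval_def, eval₂_eq', Finset.mul_sum]
  unfold evGh
  refine Finset.sum_congr rfl fun s hs => ?_
  rw [Fin.prod_univ_two]
  have h1 : w ^ e = w ^ (s 0) * w ^ (s 1) * w ^ (e - s 0 - s 1) := by
    rw [← pow_add, ← pow_add]
    congr 1
    have := he s hs
    omega
  rw [h1]
  simp only [Matrix.cons_val_zero, Matrix.cons_val_one, div_pow]
  have h2 : w ^ (s 0) ≠ 0 := pow_ne_zero _ hw
  have h3 : w ^ (s 1) ≠ 0 := pow_ne_zero _ hw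
  field_simp

private lemma ev_hom {L : Type} [Field L] (m n : ℤ) (x y z : L) (hz : z ≠ 0) :
    F m n x y z = z ^ 4 * F m n (x / z) (y / z) 1 := by
  unfold F
  field_simp

private lemma ev_aux1 {L : Type} [Field L] (d f z : L) (hz : z ≠ 0) :
    d * (z ^ 4 * f) / (z ^ 2) ^ 2 = d * f := by
  field_simp

private lemma ev_aux2 {L : Type} [Field L] (x z : L) (hz : z ≠ 0) : x = z * (x / z) := by
  field_simp

private lemma ev_aux3 {L : Type} [Field L] (x z : L) (hz : z ≠ 0) :
    x = z ^ 2 * (x / z ^ 2) := by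
  field_simp

private lemma evGh_coeff {E : Type} [Field E] [CharZero E] (G : A2) (e : ℕ)
    (he : ∀ s ∈ G.support, s 0 + s 1 ≤ e) (p₁ p₂ p₃ θ₁ θ₂ : E) :
    (evGh G e (Polynomial.C p₁ + Polynomial.C θ₁ * Polynomial.X)
      (Polynomial.C p₂ + Polynomial.C θ₂ * Polynomial.X)
      (Polynomial.C p₃ + Polynomial.X)).coeff e =
      eval₂ (algebraMap ℚ E) ![θ₁, θ₂] G := by
  rw [eval₂_eq']
  unfold evGh
  rw [Polynomial.finsetSum_coeff]
  refine Finset.sum_congr rfl fun s hs => ?_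
  rw [Fin.prod_univ_two]
  simp only [Matrix.cons_val_zero, Matrix.cons_val_one]
  have hs' := he s hs
  have h0 : algebraMap ℚ (Polynomial E) (G.coeff s) =
      Polynomial.C (algebraMap ℚ E (G.coeff s)) :=
    (RingHom.map_rat_algebraMap (Polynomial.C : E →+* Polynomial E) (G.coeff s)).symm
  rw [h0, Polynomial.coeff_C_mul]
  congr 1
  have d1 : (Polynomial.C p₁ + Polynomial.C θ₁ * Polynomial.X : Polynomial E).natDegree ≤ 1 := by
    compute_degree
  have d2 : (Polynomial.C p₂ + Polynomial.C θ₂ * Polynomial.X : Polynomial E).natDegree ≤ 1 := by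
    compute_degree
  have d3 : (Polynomial.C p₃ + Polynomial.X : Polynomial E).natDegree ≤ 1 := by
    compute_degree
  have c1 : (Polynomial.C p₁ + Polynomial.C θ₁ * Polynomial.X : Polynomial E).coeff 1 = θ₁ := by
    simp [Polynomial.coeff_C]
  have c2 : (Polynomial.C p₂ + Polynomial.C θ₂ * Polynomial.X : Polynomial E).coeff 1 = θ₂ := by
    simp [Polynomial.coeff_C]
  have c3 : (Polynomial.C p₃ + Polynomial.X : Polynomial E).coeff 1 = 1 := by
    simp [Polynomial.coeff_C]
  have e1 : ∀ {q : Polynomial E} (k : ℕ), q.natDegree ≤ 1 →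
      (q ^ k).natDegree ≤ k ∧ (q ^ k).coeff k = q.coeff 1 ^ k := by
    intro q k hq
    refine ⟨?_, ?_⟩
    · refine Polynomial.natDegree_pow_le.trans ?_
      calc k * q.natDegree ≤ k * 1 := Nat.mul_le_mul_left _ hq
        _ = k := mul_one k
    · have := Polynomial.coeff_pow_of_natDegree_le (m := k) hq
      rwa [mul_one] at this
  have a1 := e1 (s 0) d1
  have a2 := e1 (s 1) d2
  have a3 := e1 (e - s 0 - s 1) d3
  have hsum : e = s 0 + s 1 + (e - s 0 - s 1) := by omega
  have b1 : ((Polynomial.C p₁ + Polynomial.C θ₁ * Polynomial.X : Polynomial E) ^ s 0 *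
      (Polynomial.C p₂ + Polynomial.C θ₂ * Polynomial.X) ^ s 1).natDegree ≤ s 0 + s 1 :=
    Polynomial.natDegree_mul_le.trans (add_le_add a1.1 a2.1)
  conv_lhs => rw [hsum]
  rw [show s 0 + s 1 + (e - s 0 - s 1) - s 0 - s 1 = e - s 0 - s 1 by omega,
    Polynomial.coeff_mul_add_eq_of_natDegree_le b1 a3.1, Polynomial.coeff_mul_add_eq_of_natDegree_le a1.1 a2.1,
    a1.2, a2.2, a3.2, c1, c2, c3, one_pow, mul_one]

/-- extension of a homomorphism to a quadratic extension -/
private lemma ev_exists_ext {K M Ω : Type} [Field K] [Field M] [Field Ω] [Algebra K M] {w : M}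
    {τ : M ≃+* M} (h : QuadExt K M w τ) (ψ : K →+* Ω) (ω : Ω) (D : K)
    (hD : w ^ 2 = algebraMap K M D) (hω : ω ^ 2 = ψ D) :
    ∃ Ψ : M →+* Ω, (∀ x, Ψ (algebraMap K M x) = ψ x) ∧ Ψ w = ω := by
  have uniq : ∀ a b a' b' : K, algebraMap K M a + algebraMap K M b * w =
      algebraMap K M a' + algebraMap K M b' * w → a = a' ∧ b = b' := by
    intro a b a' b' he
    have hb : b = b' := by
      by_contra hne
      have hne' : algebraMap K M (b' - b) ≠ 0 := by
        rw [Ne, map_eq_zero]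
        exact sub_ne_zero.2 (Ne.symm hne)
      apply h.notin ((a - a') / (b' - b))
      rw [map_div₀]
      rw [div_eq_iff hne', map_sub, map_sub]
      linear_combination he
    refine ⟨?_, hb⟩
    rw [hb] at he
    exact (algebraMap K M).injective (add_right_cancel he)
  choose a b hab using h.gen
  have ha : ∀ x : K, a (algebraMap K M x) = x ∧ b (algebraMap K M x) = 0 := by
    intro x
    apply uniq
    rw [← hab, map_zero, zero_mul, add_zero]
  have hw : a w = 0 ∧ b w = 1 := by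
    apply uniq
    rw [← hab, map_zero, map_one, one_mul, zero_add]
  have hadd : ∀ x y : M, a (x + y) = a x + a y ∧ b (x + y) = b x + b y := by
    intro x y
    apply uniq
    rw [← hab, map_add, map_add]
    conv_lhs => rw [hab x, hab y]
    ring
  have hmul : ∀ x y : M, a (x * y) = a x * a y + b x * b y * D ∧
      b (x * y) = a x * b y + b x * a y := by
    intro x y
    apply uniq
    rw [← hab, map_add, map_add, map_mul, map_mul, map_mul, map_mul, map_mul, ← hD]
    conv_lhs => rw [hab x, hab y]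
    ring
  have h1 := ha 1
  have h0 := ha 0
  rw [map_one] at h1
  rw [map_zero] at h0
  refine ⟨{ toFun := fun x => ψ (a x) + ψ (b x) * ω
            map_one' := ?_
            map_zero' := ?_
            map_add' := ?_
            map_mul' := ?_ }, ?_, ?_⟩
  · rw [h1.1, h1.2, map_one, map_zero, zero_mul, add_zero]
  · intro x y
    rw [(hmul x y).1, (hmul x y).2, map_add, map_add, map_mul, map_mul, map_mul, map_mul,
      map_mul, ← hω]
    ring
  · rw [h0.1, h0.2, map_zero, zero_mul, add_zero]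
  · intro x y
    rw [(hadd x y).1, (hadd x y).2, map_add, map_add]
    ring
  · intro x
    change ψ (a (algebraMap K M x)) + ψ (b (algebraMap K M x)) * ω = ψ x
    rw [(ha x).1, (ha x).2, map_zero, zero_mul, add_zero]
  · change ψ (a w) + ψ (b w) * ω = ω
    rw [hw.1, hw.2, map_zero, map_one, one_mul, zero_add]

/-- the quartic along a line -/
private lemma ev_F_line {R : Type} [CommRing R] (m n : ℤ) (x y z a b c : R) :
    ∃ r₂ r₃ r₄ : R, ∀ ε : R, F m n (x + ε * a) (y + ε * b) (z + ε * c) =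
      F m n x y z +
      ε * (4 * (((m : R) ^ 2 + (n : R) ^ 2) ^ 2 * x ^ 3
          - ((m : R) ^ 4 + (n : R) ^ 4) * x * (y ^ 2 + z ^ 2)) * a +
        4 * (((m : R) ^ 2 + (n : R) ^ 2) ^ 2 * y ^ 3
          - ((m : R) ^ 4 + (n : R) ^ 4) * y * (z ^ 2 + x ^ 2)) * b +
        4 * (((m : R) ^ 2 + (n : R) ^ 2) ^ 2 * z ^ 3
          - ((m : R) ^ 4 + (n : R) ^ 4) * z * (x ^ 2 + y ^ 2)) * c) +
      ε ^ 2 * r₂ + ε ^ 3 * r₃ + ε ^ 4 * r₄ := by
  refine ⟨((m : R) ^ 2 + (n : R) ^ 2) ^ 2 * (6 * (x ^ 2 * a ^ 2 + y ^ 2 * b ^ 2 +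
      z ^ 2 * c ^ 2)) - 2 * ((m : R) ^ 4 + (n : R) ^ 4) *
      (x ^ 2 * b ^ 2 + 4 * x * y * a * b + y ^ 2 * a ^ 2 + y ^ 2 * c ^ 2 + 4 * y * z * b * c +
        z ^ 2 * b ^ 2 + z ^ 2 * a ^ 2 + 4 * z * x * c * a + x ^ 2 * c ^ 2),
    ((m : R) ^ 2 + (n : R) ^ 2) ^ 2 * (4 * (x * a ^ 3 + y * b ^ 3 + z * c ^ 3)) -
      2 * ((m : R) ^ 4 + (n : R) ^ 4) * (2 * x * a * b ^ 2 + 2 * y * b * a ^ 2 +
        2 * y * b * c ^ 2 + 2 * z * c * b ^ 2 + 2 * z * c * a ^ 2 + 2 * x * a * c ^ 2),
    F m n a b c, fun ε => ?_⟩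
  unfold F
  ring

/-- the gradient of the quartic in the direction `(a, b, 1)` -/
private def evGrad {R : Type} [CommRing R] (m n : ℤ) (x y z a b : R) : R :=
  4 * (((m : R) ^ 2 + (n : R) ^ 2) ^ 2 * x ^ 3
          - ((m : R) ^ 4 + (n : R) ^ 4) * x * (y ^ 2 + z ^ 2)) * a +
        4 * (((m : R) ^ 2 + (n : R) ^ 2) ^ 2 * y ^ 3
          - ((m : R) ^ 4 + (n : R) ^ 4) * y * (z ^ 2 + x ^ 2)) * b +
        4 * (((m : R) ^ 2 + (n : R) ^ 2) ^ 2 * z ^ 3
          - ((m : R) ^ 4 + (n : R) ^ 4) * z * (x ^ 2 + y ^ 2)) * 1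

private lemma evGrad_map {R S : Type} [CommRing R] [CommRing S] (f : R →+* S) (m n : ℤ)
    (x y z a b : R) :
    evGrad m n (f x) (f y) (f z) (f a) (f b) = f (evGrad m n x y z a b) := by
  unfold evGrad
  simp only [map_sub, map_mul, map_add, map_pow, map_ofNat, map_intCast, map_one]

/-- the ramified case: `d F` along a curve is a square times a unit -/
private lemma ev_ram {m n d : ℤ} {E : Type} [Field E] (x y z a b c1 : E)
    (hF : F m n x y z = 0) (hc1 : evGrad m n x y z a b = c1) :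
    ∃ U : Polynomial E, U.coeff 0 = 1 ∧
      (d : Polynomial E) * F m n
        (Polynomial.C x + Polynomial.C a * (Polynomial.C ((d : E) * c1) * Polynomial.X ^ 2))
        (Polynomial.C y + Polynomial.C b * (Polynomial.C ((d : E) * c1) * Polynomial.X ^ 2))
        (Polynomial.C z + (Polynomial.C ((d : E) * c1) * Polynomial.X ^ 2)) =
      (Polynomial.C ((d : E) * c1) * Polynomial.X) ^ 2 * U := by
  obtain ⟨r₂, r₃, r₄, hr⟩ := ev_F_line m n (Polynomial.C x) (Polynomial.C y)
      (Polynomial.C z) (Polynomial.C a) (Polynomial.C b) (1 : Polynomial E)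
  have hFC : F m n (Polynomial.C x) (Polynomial.C y) (Polynomial.C z) =
      (0 : Polynomial E) := by
    rw [F_map (Polynomial.C : E →+* Polynomial E), hF, map_zero]
  have hG : evGrad m n (Polynomial.C x) (Polynomial.C y) (Polynomial.C z) (Polynomial.C a)
      (Polynomial.C b) = Polynomial.C c1 := by
    rw [evGrad_map (Polynomial.C : E →+* Polynomial E), hc1]
  unfold evGrad at hG
  generalize hlam : Polynomial.C ((d : E) * c1) * Polynomial.X ^ 2 = lam
  have h1 := hr lam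
  rw [hFC, hG] at h1
  rw [mul_comm (Polynomial.C a) lam, mul_comm (Polynomial.C b) lam]
  rw [mul_one] at h1
  rw [h1]
  have hd : (Polynomial.C (d : E)) = (d : Polynomial E) := map_intCast _ _
  refine ⟨1 + Polynomial.X ^ 2 * ((d : Polynomial E) * r₂ +
      (d : Polynomial E) * lam * r₃ + (d : Polynomial E) * lam ^ 2 * r₄), ?_, ?_⟩
  · rw [Polynomial.coeff_add, Polynomial.coeff_one_zero, Polynomial.mul_coeff_zero,
      Polynomial.coeff_X_pow]
    simp
  · rw [← hlam, map_mul, hd]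
    ring

/-- the main construction: a point over the power series ring through `P`, generic over the
fraction field -/
private lemma ev_main {m n d : ℤ} (hb : bad m n ≠ 0) (hd : d ≠ 0) (E : Type) [Field E]
    [CharZero E] [Uncountable E] (P : RPt m n d E) (ι : Polynomial E →+* PowerSeries E)
    (hι : ∀ p : Polynomial E, ι p = (p : PowerSeries E)) :
    ∃ (θ₁ θ₂ : E) (lam : Polynomial E) (W : PowerSeries E),
      (∀ G : A2, G ≠ 0 → eval₂ (algebraMap ℚ E) ![θ₁, θ₂] G ≠ 0) ∧ 0 < lam.natDegree ∧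
      lam.coeff 0 = 0 ∧ PowerSeries.constantCoeff W = P.w ∧
      W ^ 2 = (d : PowerSeries E) * F m n
        (ι (Polynomial.C P.x + Polynomial.C θ₁ * lam))
        (ι (Polynomial.C P.y + Polynomial.C θ₂ * lam))
        (ι (Polynomial.C P.z + lam)) := by
  have hdE : (d : E) ≠ 0 := Int.cast_ne_zero.2 hd
  have hPne : ¬ (P.x = 0 ∧ P.y = 0 ∧ P.z = 0) := (toPt P).ne
  have hbE : ((bad m n : ℤ) : E) ≠ 0 := Int.cast_ne_zero.2 hb
  -- the gradient
  obtain ⟨gx, hgx⟩ : ∃ g : E, g = 4 * (((m : E) ^ 2 + (n : E) ^ 2) ^ 2 * P.x ^ 3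
          - ((m : E) ^ 4 + (n : E) ^ 4) * P.x * (P.y ^ 2 + P.z ^ 2)) := ⟨_, rfl⟩
  obtain ⟨gy, hgy⟩ : ∃ g : E, g = 4 * (((m : E) ^ 2 + (n : E) ^ 2) ^ 2 * P.y ^ 3
          - ((m : E) ^ 4 + (n : E) ^ 4) * P.y * (P.z ^ 2 + P.x ^ 2)) := ⟨_, rfl⟩
  obtain ⟨gz, hgz⟩ : ∃ g : E, g = 4 * (((m : E) ^ 2 + (n : E) ^ 2) ^ 2 * P.z ^ 3
          - ((m : E) ^ 4 + (n : E) ^ 4) * P.z * (P.x ^ 2 + P.y ^ 2)) := ⟨_, rfl⟩
  have hgrad : ¬ (gz = 0 ∧ gx = 0 ∧ gy = 0) := by
    rintro ⟨h3, h1, h2⟩
    rw [hgz] at h3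
    rw [hgx] at h1
    rw [hgy] at h2
    exact hPne (no_singular hbE P.x P.y P.z h1 h2 h3)
  obtain ⟨θ₁, θ₂, hlin, htr⟩ := exists_trans E gz gx gy hgrad
  by_cases hw : P.w = 0
  · -- a ramification point
    obtain ⟨c1, hc1⟩ : ∃ c : E, evGrad m n P.x P.y P.z θ₁ θ₂ = c := ⟨_, rfl⟩
    have hc10 : c1 ≠ 0 := by
      intro h0
      apply hlin
      rw [← h0, ← hc1, hgx, hgy, hgz]
      unfold evGrad
      ring
    have hF0 : F m n P.x P.y P.z = 0 := by
      have h1 := P.eq
      rw [hw] at h1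
      have h2 : (d : E) * F m n P.x P.y P.z = 0 := by rw [← h1]; ring
      exact (mul_eq_zero.1 h2).resolve_left hdE
    obtain ⟨U, hU0, hU⟩ := ev_ram (d := d) P.x P.y P.z θ₁ θ₂ c1 hF0 hc1
    obtain ⟨g, hg1, hg2⟩ := exists_sqrt_ps E (U : PowerSeries E) 1 one_ne_zero (by
      rw [Polynomial.constantCoeff_coe, hU0, one_pow])
    refine ⟨θ₁, θ₂, Polynomial.C ((d : E) * c1) * Polynomial.X ^ 2,
      ι (Polynomial.C ((d : E) * c1) * Polynomial.X) * g, htr, ?_, ?_, ?_, ?_⟩
    · rw [Polynomial.natDegree_C_mul_X_pow _ _ (mul_ne_zero hdE hc10)]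
      norm_num
    · simp
    · rw [map_mul, hι, Polynomial.constantCoeff_coe, hw]
      simp
    · have h2 := congrArg ι hU
      rw [map_mul ι, map_mul ι, map_pow ι, map_intCast ι, ← F_map ι] at h2
      rw [h2, mul_pow, hg1, hι U]
  · -- an unramified point
    obtain ⟨V, hV⟩ : ∃ V : Polynomial E, V = (d : Polynomial E) *
      F m n (Polynomial.C P.x + Polynomial.C θ₁ * Polynomial.X)
        (Polynomial.C P.y + Polynomial.C θ₂ * Polynomial.X)
        (Polynomial.C P.z + Polynomial.X) := ⟨_, rfl⟩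
    have hV0 : PowerSeries.constantCoeff (V : PowerSeries E) = P.w ^ 2 := by
      rw [Polynomial.constantCoeff_coe, P.eq, Polynomial.coeff_zero_eq_eval_zero, hV,
        Polynomial.eval_mul, Polynomial.eval_intCast]
      congr 1
      have h3 := F_map (Polynomial.evalRingHom (0 : E)) m n
        (Polynomial.C P.x + Polynomial.C θ₁ * Polynomial.X)
        (Polynomial.C P.y + Polynomial.C θ₂ * Polynomial.X) (Polynomial.C P.z + Polynomial.X)
      rw [Polynomial.coe_evalRingHom] at h3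
      rw [← h3]
      simp
    obtain ⟨W, hW1, hW2⟩ := exists_sqrt_ps E (V : PowerSeries E) P.w hw hV0
    refine ⟨θ₁, θ₂, Polynomial.X, W, htr, ?_, ?_, hW2, ?_⟩
    · rw [Polynomial.natDegree_X]
      norm_num
    · rw [Polynomial.coeff_X_zero]
    · rw [hW1, ← hι, hV, map_mul, map_intCast, F_map]

theorem eval_zero {m n d : ℤ} (hb : bad m n ≠ 0) (hd : d ≠ 0) (γ : Fam m n d) {K M : Type}
    [Field K] [Field M] [CharZero M] [Algebra K M] [Algebra A2 K] [Algebra A2 M] {w : M}
    {τ : M ≃+* M} (G : Gen m n d K M w τ) (h0 : γ.val M (qring_field M) (eta G) = 0)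
    (E : Type) [Field E] [CharZero E] [Uncountable E] (P : RPt m n d E) :
    γ.val E (qring_field E) P = 0 := by
  classical
  obtain ⟨ι, hι⟩ : ∃ ι : Polynomial E →+* PowerSeries E,
      ∀ p : Polynomial E, ι p = (p : PowerSeries E) :=
    ⟨Polynomial.coeToPowerSeries.ringHom, fun _ => rfl⟩
  have hιinj : Function.Injective ι := by
    intro p q hpq
    rw [hι, hι] at hpq
    exact Polynomial.coe_injective E hpq
  obtain ⟨θ₁, θ₂, lam, W, htr, hlam, hlam0, hW0, hW⟩ := ev_main hb hd E P ι hι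
  obtain ⟨X', hX'⟩ : ∃ q : Polynomial E, q = Polynomial.C P.x + Polynomial.C θ₁ * lam := ⟨_, rfl⟩
  obtain ⟨Y', hY'⟩ : ∃ q : Polynomial E, q = Polynomial.C P.y + Polynomial.C θ₂ * lam := ⟨_, rfl⟩
  obtain ⟨Z', hZ'⟩ : ∃ q : Polynomial E, q = Polynomial.C P.z + lam := ⟨_, rfl⟩
  rw [← hX', ← hY', ← hZ'] at hW
  have cX : PowerSeries.constantCoeff (ι X') = P.x := by
    rw [hι, Polynomial.constantCoeff_coe, hX', Polynomial.coeff_add, Polynomial.coeff_C_zero,
      Polynomial.coeff_C_mul, hlam0, mul_zero, add_zero]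
  have cY : PowerSeries.constantCoeff (ι Y') = P.y := by
    rw [hι, Polynomial.constantCoeff_coe, hY', Polynomial.coeff_add, Polynomial.coeff_C_zero,
      Polynomial.coeff_C_mul, hlam0, mul_zero, add_zero]
  have cZ : PowerSeries.constantCoeff (ι Z') = P.z := by
    rw [hι, Polynomial.constantCoeff_coe, hZ', Polynomial.coeff_add, Polynomial.coeff_C_zero,
      hlam0, add_zero]
  have hPne : ¬ (P.x = 0 ∧ P.y = 0 ∧ P.z = 0) := (toPt P).ne
  -- the point over the power series ring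
  have huni : Ideal.span {ι X', ι Y', ι Z'} = (⊤ : Ideal (PowerSeries E)) := by
    have key : ∀ q : PowerSeries E, PowerSeries.constantCoeff q ≠ 0 →
        q ∈ Ideal.span {ι X', ι Y', ι Z'} →
        Ideal.span {ι X', ι Y', ι Z'} = (⊤ : Ideal (PowerSeries E)) := by
      intro q hq hmem
      refine Ideal.eq_top_of_isUnit_mem _ hmem ?_
      rw [PowerSeries.isUnit_iff_constantCoeff]
      exact isUnit_iff_ne_zero.2 hq
    by_cases h1 : P.x = 0
    · by_cases h2 : P.y = 0
      · have h3 : P.z ≠ 0 := fun h3 => hPne ⟨h1, h2, h3⟩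
        exact key (ι Z') (by rw [cZ]; exact h3) (Ideal.subset_span (by simp))
      · exact key (ι Y') (by rw [cY]; exact h2) (Ideal.subset_span (by simp))
    · exact key (ι X') (by rw [cX]; exact h1) (Ideal.subset_span (by simp))
  let PR : RPt m n d (PowerSeries E) := ⟨ι X', ι Y', ι Z', W, huni, hW⟩
  have hQR : QRing (PowerSeries E) := by
    intro k hk
    rw [PowerSeries.isUnit_iff_constantCoeff, map_natCast]
    exact isUnit_iff_ne_zero.2 (Nat.cast_ne_zero.2 hk)
  have hfinM : Finite (MaximalSpectrum (PowerSeries E)) := inferInstance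
  -- the fraction field
  let Ω := FractionRing (PowerSeries E)
  obtain ⟨j, hj⟩ : ∃ j : PowerSeries E →+* Ω, j = algebraMap (PowerSeries E) Ω := ⟨_, rfl⟩
  have hjinj : Function.Injective j := by
    rw [hj]
    exact IsFractionRing.injective (PowerSeries E) Ω
  have hchar : CharZero Ω := by
    have : CharZero (PowerSeries E) :=
      charZero_of_injective_ringHom (PowerSeries.C_injective (R := E))
    exact charZero_of_injective_ringHom hjinj
  obtain ⟨x, hx⟩ : ∃ x : Ω, x = j (ι X') := ⟨_, rfl⟩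
  obtain ⟨y, hy⟩ : ∃ y : Ω, y = j (ι Y') := ⟨_, rfl⟩
  obtain ⟨z, hz⟩ : ∃ z : Ω, z = j (ι Z') := ⟨_, rfl⟩
  have hz0 : z ≠ 0 := by
    rw [hz, Ne, map_eq_zero_iff j hjinj, map_eq_zero_iff ι hιinj, hZ']
    intro h
    have h1 : lam = Polynomial.C (-P.z) := by
      rw [Polynomial.C_neg]
      linear_combination h
    rw [h1, Polynomial.natDegree_C] at hlam
    exact lt_irrefl _ hlam
  -- the homomorphism from the polynomial ring
  obtain ⟨ψ₀, hψ₀⟩ : ∃ ψ : A2 →+* Ω, ψ = (aeval ![x / z, y / z] : A2 →ₐ[ℚ] Ω).toRingHom :=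
    ⟨_, rfl⟩
  have hψX0 : ψ₀ (X 0) = x / z := by
    rw [hψ₀]
    simp
  have hψX1 : ψ₀ (X 1) = y / z := by
    rw [hψ₀]
    simp
  have hinj : Function.Injective ψ₀ := by
    rw [injective_iff_map_eq_zero]
    intro g hg
    by_contra hg0
    have he : ∀ s ∈ g.support, s 0 + s 1 ≤ g.totalDegree := by
      intro s hs
      have h1 := le_totalDegree hs
      rwa [Finsupp.sum_fintype _ _ (fun _ => rfl), Fin.sum_univ_two] at h1
    have h1 := evGh_div g g.totalDegree he x y z hz0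
    have h2 : (aeval ![x / z, y / z] : A2 →ₐ[ℚ] Ω) g = 0 := by
      rw [hψ₀] at hg
      exact hg
    rw [h2, mul_zero, hx, hy, hz, ← evGh_map j, ← evGh_map ι] at h1
    have h3 := (map_eq_zero_iff ι hιinj).1 ((map_eq_zero_iff j hjinj).1 h1.symm)
    have h4 := evGh_map (Polynomial.compRingHom lam) g g.totalDegree
      (Polynomial.C P.x + Polynomial.C θ₁ * Polynomial.X)
      (Polynomial.C P.y + Polynomial.C θ₂ * Polynomial.X)
      (Polynomial.C P.z + Polynomial.X)
    have h5 : ∀ a b : E, Polynomial.compRingHom lam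
        (Polynomial.C a + Polynomial.C b * Polynomial.X) =
        Polynomial.C a + Polynomial.C b * lam := by
      intro a b
      simp
    have h6 : Polynomial.compRingHom lam (Polynomial.C P.z + Polynomial.X) =
        Polynomial.C P.z + lam := by
      simp
    rw [h5, h5, h6, ← hX', ← hY', ← hZ', h3] at h4
    have h7 : (evGh g g.totalDegree (Polynomial.C P.x + Polynomial.C θ₁ * Polynomial.X)
      (Polynomial.C P.y + Polynomial.C θ₂ * Polynomial.X)
      (Polynomial.C P.z + Polynomial.X)).comp lam = 0 := h4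
    rw [Polynomial.comp_eq_zero_iff] at h7
    rcases h7 with h7 | ⟨-, h7⟩
    · have h8 := evGh_coeff g g.totalDegree he P.x P.y P.z θ₁ θ₂
      rw [h7, Polynomial.coeff_zero] at h8
      exact htr g hg0 h8.symm
    · rw [h7, Polynomial.natDegree_C] at hlam
      exact lt_irrefl _ hlam
  have := G.frac
  have := G.tower
  obtain ⟨ψ, hψ⟩ : ∃ ψ : K →+* Ω, ∀ q : A2, ψ (algebraMap A2 K q) = ψ₀ q :=
    ⟨IsFractionRing.lift hinj, fun q => IsFractionRing.lift_algebraMap hinj q⟩
  have hD : w ^ 2 = algebraMap K M (algebraMap A2 K ((d : A2) * F0 m n)) := by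
    rw [G.sq, ← IsScalarTower.algebraMap_apply]
  have hjW : (j W) ^ 2 = (d : Ω) * F m n x y z := by
    have h1 := congrArg j hW
    rw [map_pow, map_mul, map_intCast, ← F_map j, ← hx, ← hy, ← hz] at h1
    exact h1
  have hF0 : ψ₀ ((d : A2) * F0 m n) = (d : Ω) * F m n (x / z) (y / z) 1 := by
    rw [map_mul, map_intCast]
    unfold F0
    rw [← F_map ψ₀, hψX0, hψX1, map_one]
  have hhom : F m n x y z = z ^ 4 * F m n (x / z) (y / z) 1 := ev_hom m n x y z hz0
  have hω : (j W / z ^ 2) ^ 2 = ψ (algebraMap A2 K ((d : A2) * F0 m n)) := by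
    rw [hψ, hF0, div_pow, hjW, hhom]
    exact ev_aux1 _ _ z hz0
  obtain ⟨Ψ, hΨ1, hΨ2⟩ := ev_exists_ext G.quad ψ (j W / z ^ 2) _ hD hω
  have hΨA : ∀ q : A2, Ψ (algebraMap A2 M q) = ψ₀ q := by
    intro q
    rw [IsScalarTower.algebraMap_apply A2 K M, hΨ1, hψ]
  -- the point over the fraction field
  have huniΩ : Ideal.span {x, y, z} = (⊤ : Ideal Ω) :=
    Ideal.eq_top_of_isUnit_mem _ (Ideal.subset_span (by simp) : z ∈ Ideal.span {x, y, z})
      (isUnit_iff_ne_zero.2 hz0)
  let PΩ : RPt m n d Ω := ⟨x, y, z, j W, huniΩ, hjW⟩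
  have n1 := γ.nat M Ω Ψ (qring_field M) (qring_field Ω) (eta G) PΩ
    ⟨z, isUnit_iff_ne_zero.2 hz0, by
      change x = z * Ψ (algebraMap A2 M (X 0))
      rw [hΨA, hψX0]
      exact ev_aux2 x z hz0, by
      change y = z * Ψ (algebraMap A2 M (X 1))
      rw [hΨA, hψX1]
      exact ev_aux2 y z hz0, by
      change z = z * Ψ 1
      rw [map_one, mul_one], by
      change j W = z ^ 2 * Ψ w
      rw [hΨ2]
      exact ev_aux3 (j W) z hz0⟩
  have n2 := γ.nat (PowerSeries E) Ω j hQR (qring_field Ω) PR PΩ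
    ⟨1, isUnit_one, by
      change x = 1 * j (ι X')
      rw [one_mul, hx], by
      change y = 1 * j (ι Y')
      rw [one_mul, hy], by
      change z = 1 * j (ι Z')
      rw [one_mul, hz], by
      change j W = 1 ^ 2 * j W
      rw [one_pow, one_mul]⟩
  have n3 := γ.nat (PowerSeries E) E PowerSeries.constantCoeff hQR (qring_field E) PR P
    ⟨1, isUnit_one, by
      change P.x = 1 * PowerSeries.constantCoeff (ι X')
      rw [one_mul, cX], by
      change P.y = 1 * PowerSeries.constantCoeff (ι Y')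
      rw [one_mul, cY], by
      change P.z = 1 * PowerSeries.constantCoeff (ι Z')
      rw [one_mul, cZ], by
      change P.w = 1 ^ 2 * PowerSeries.constantCoeff W
      rw [one_pow, one_mul, hW0]⟩
  rw [h0, map_zero] at n1
  have n4 : γ.val (PowerSeries E) hQR PR = 0 := by
    apply Br.map_injective (PowerSeries E) Ω
    rw [map_zero, ← hj, n2, ← n1]
  rw [n4, map_zero] at n3
  exact n3.symm

end Pool.Agent.Helper8.XS
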