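import Pool.Agent.Helper8.XS.VanSym

set_option autoImplicit false

/-! XS-7 -/

open scoped TensorProduct
open MvPolynomial

namespace Pool.Agent.Helper8.XS

open Pool.Agent.Helper8.BR Pool.Agent.Helper8.DP2

private theorem ea_isUnit_int {R : Type} [CommRing R] (h : QRing R) {d : ℤ} (hd : d ≠ 0) :
    IsUnit (d : R) := by
  have h1 := h d.natAbs (Int.natAbs_ne_zero.2 hd)
  rcases Int.natAbs_eq d with h2 | h2
  · rw [h2, Int.cast_natCast]; exact h1
  · rw [h2, Int.cast_neg, Int.cast_natCast]; exact h1.neg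

/-- primitive part of a pair of elements of a principal ideal domain -/
private theorem ea_prim {R : Type} [CommRing R] [IsDomain R] [IsPrincipalIdealRing R]
    (x y : R) (hxy : ¬ (x = 0 ∧ y = 0)) :
    ∃ e x1 y1 a b : R, e ≠ 0 ∧ x = e * x1 ∧ y = e * y1 ∧ a * x1 + b * y1 = 1 := by
  obtain ⟨e, he⟩ := (IsPrincipalIdealRing.principal (Ideal.span {x, y})).principal
  have hx : x ∈ Ideal.span {e} := by
    rw [Ideal.submodule_span_eq] at he
    rw [← he]; exact Ideal.subset_span (by simp)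
  have hy : y ∈ Ideal.span {e} := by
    rw [Ideal.submodule_span_eq] at he
    rw [← he]; exact Ideal.subset_span (by simp)
  have hee : e ∈ Ideal.span {x, y} := by
    rw [Ideal.submodule_span_eq] at he
    rw [he]; exact Ideal.subset_span (by simp)
  obtain ⟨x1, hx1⟩ := Ideal.mem_span_singleton.1 hx
  obtain ⟨y1, hy1⟩ := Ideal.mem_span_singleton.1 hy
  obtain ⟨a, b, hab⟩ := Ideal.mem_span_pair.1 hee
  have he0 : e ≠ 0 := by
    intro h0
    apply hxy
    rw [h0, zero_mul] at hx1 hy1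
    exact ⟨hx1, hy1⟩
  refine ⟨e, x1, y1, a, b, he0, hx1, hy1, ?_⟩
  apply mul_left_cancel₀ he0
  rw [mul_one]
  conv_rhs => rw [← hab]
  rw [hx1, hy1]
  ring

theorem even_at {m n d : ℤ} (hd : d ≠ 0) (α : Fam m n d) (hV : Van α) (R M : Type) [CommRing R]
    [IsDomain R] [IsPrincipalIdealRing R] [IsLocalRing R] [Finite (MaximalSpectrum R)]
    [Field M] [Algebra R M] [IsFractionRing R M] (h : QRing R) (hM : QRing M)
    (hns : ∀ x : R, ¬ (x ^ 2 - (d : R) ∈ IsLocalRing.maximalIdeal R))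
    (P : RPt m n d R) (Q : RPt m n d M) (hPQ : IsImage (algebraMap R M) P Q) (g : M)
    (hg : g ≠ 0) (hs : α.val M hM Q = sym M (d : M) g) :
    ∃ (u : R) (t : M), IsUnit u ∧ t ≠ 0 ∧ g = algebraMap R M u * t ^ 2 := by
  classical
  obtain ⟨u, hu, hu1⟩ := van_sym hd α hV R h hns P
  have h2R : IsUnit (2 : R) := by
    have := h 2 two_ne_zero
    rwa [Nat.cast_ofNat] at this
  have h2M : (2 : M) ≠ 0 := by
    have := (hM 2 two_ne_zero).ne_zero
    rwa [Nat.cast_ofNat] at this
  have hdR : IsUnit (d : R) := ea_isUnit_int h hd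
  have hdM : (d : M) ≠ 0 := (ea_isUnit_int hM hd).ne_zero
  set g' : M := algebraMap R M u with hg'
  have hg'u : IsUnit g' := hu.map _
  have hg'0 : g' ≠ 0 := hg'u.ne_zero
  have e1 : sym M (d : M) g = sym M (d : M) g' := by
    rw [← hs, ← α.nat R M (algebraMap R M) h hM P Q hPQ, hu1,
      sym_map R M (algebraMap R M) (d : R) u hu hdR h2R, map_intCast]
  have e2 : sym M (d : M) (g * g') = 0 := by
    rw [sym_mul M (d : M) g g' (IsUnit.mk0 g hg) hg'u, e1, ← sym_mul M (d : M) g' g' hg'u hg'u]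
    exact sym_norm M (d : M) (g' * g') g' 0 (hg'u.mul hg'u) (by ring)
  obtain ⟨x, y, hxy⟩ := sym_eq_zero M h2M (d : M) (g * g') hdM (mul_ne_zero hg hg'0) e2
  obtain ⟨⟨c, hc⟩, hcx⟩ := IsLocalization.exist_integer_multiples_of_finset
    (nonZeroDivisors R) ({x, y} : Finset M)
  obtain ⟨x0, hx0⟩ := hcx x (by simp)
  obtain ⟨y0, hy0⟩ := hcx y (by simp)
  simp only [Algebra.smul_def] at hx0 hy0
  have hc0 : algebraMap R M c ≠ 0 := by
    have := nonZeroDivisors.ne_zero hc
    exact fun h0 => this ((IsFractionRing.injective R M) (by rw [h0, map_zero]))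
  have hne : ¬ (x0 = 0 ∧ y0 = 0) := by
    rintro ⟨h1, h2⟩
    rw [h1, map_zero] at hx0
    rw [h2, map_zero] at hy0
    have hx : x = 0 := (mul_eq_zero.1 hx0.symm).resolve_left hc0
    have hy : y = 0 := (mul_eq_zero.1 hy0.symm).resolve_left hc0
    rw [hx, hy] at hxy
    apply mul_ne_zero hg hg'0
    rw [hxy]; ring
  obtain ⟨e, x1, y1, a, b, he, hx1, hy1, hab⟩ := ea_prim x0 y0 hne
  have he0 : algebraMap R M e ≠ 0 :=
    fun h0 => he ((IsFractionRing.injective R M) (by rw [h0, map_zero]))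
  -- the value of the form at the primitive pair is a unit
  have hv : IsUnit (x1 ^ 2 - (d : R) * y1 ^ 2) := by
    by_contra hnu
    have hm : x1 ^ 2 - (d : R) * y1 ^ 2 ∈ IsLocalRing.maximalIdeal R :=
      (IsLocalRing.mem_maximalIdeal _).2 hnu
    by_cases hy : IsUnit y1
    · obtain ⟨z, hz⟩ := hy.exists_right_inv
      apply hns (x1 * z)
      have : (x1 * z) ^ 2 - (d : R) = (x1 ^ 2 - (d : R) * y1 ^ 2) * z ^ 2 := by
        linear_combination (d : R) * (y1 * z + 1) * hz
      rw [this]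
      exact Ideal.mul_mem_right _ _ hm
    · have hym : y1 ∈ IsLocalRing.maximalIdeal R := (IsLocalRing.mem_maximalIdeal _).2 hy
      have hxm2 : x1 ^ 2 ∈ IsLocalRing.maximalIdeal R := by
        have : x1 ^ 2 = (x1 ^ 2 - (d : R) * y1 ^ 2) + ((d : R) * y1) * y1 := by ring
        rw [this]
        exact Ideal.add_mem _ hm (Ideal.mul_mem_left _ _ hym)
      have hxm : x1 ∈ IsLocalRing.maximalIdeal R :=
        (IsLocalRing.maximalIdeal.isMaximal R).isPrime.mem_of_pow_mem 2 hxm2
      have h1 : (1 : R) ∈ IsLocalRing.maximalIdeal R := by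
        rw [← hab]
        exact Ideal.add_mem _ (Ideal.mul_mem_left _ _ hxm) (Ideal.mul_mem_left _ _ hym)
      exact (IsLocalRing.maximalIdeal.isMaximal R).ne_top ((Ideal.eq_top_iff_one _).2 h1)
  obtain ⟨u', hu'⟩ := hu.exists_right_inv
  have hu'u : IsUnit u' := IsUnit.of_mul_eq_one u (by rw [mul_comm]; exact hu')
  refine ⟨u' * (x1 ^ 2 - (d : R) * y1 ^ 2), algebraMap R M e / algebraMap R M c,
    hu'u.mul hv, div_ne_zero he0 hc0, ?_⟩
  have hx : x = algebraMap R M e * algebraMap R M x1 / algebraMap R M c := by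
    rw [eq_div_iff hc0, ← map_mul, ← hx1, hx0]; ring
  have hy : y = algebraMap R M e * algebraMap R M y1 / algebraMap R M c := by
    rw [eq_div_iff hc0, ← map_mul, ← hy1, hy0]; ring
  have hu'' : g' * algebraMap R M u' = 1 := by
    rw [hg', ← map_mul, hu', map_one]
  have : g = (g * g') * algebraMap R M u' := by
    rw [mul_assoc, hu'', mul_one]
  rw [this, hxy, hx, hy]
  simp only [map_mul, map_sub, map_pow, map_intCast]
  field_simp

end Pool.Agent.Helper8.XS
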