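import Pool.Agent.Helper8.XS.Defs

set_option autoImplicit false

/-! XS-16: irreducibility of the quartic and of the conic -/

open scoped TensorProduct
open MvPolynomial

namespace Pool.Agent.Helper8.XS

open Pool.Agent.Helper8.BR Pool.Agent.Helper8.DP2

/-- the homomorphism `ℚ[b] → ℚ[X]` -/
private noncomputable def firrHom : MvPolynomial (Fin 1) ℚ →+* Polynomial ℚ :=
  (MvPolynomial.aeval (fun _ => (Polynomial.X : Polynomial ℚ))).toRingHom

private lemma firrHom_C (c : ℚ) : firrHom (MvPolynomial.C c) = Polynomial.C c := by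
  simp [firrHom]

private lemma firrHom_X (i : Fin 1) : firrHom (MvPolynomial.X i) = Polynomial.X := by
  simp [firrHom]

private lemma firr_coeffs (e4 e3 e2 e1 e0 f : ℚ)
    (h : (Polynomial.C e4 * Polynomial.X ^ 4 + Polynomial.C e3 * Polynomial.X ^ 3 +
      Polynomial.C e2 * Polynomial.X ^ 2 +
      Polynomial.C e1 * Polynomial.X + Polynomial.C e0 : Polynomial ℚ) =
      Polynomial.X ^ 4 - Polynomial.C f * Polynomial.X ^ 2 + 1) :
    e4 = 1 ∧ e3 = 0 ∧ e2 = -f ∧ e0 = 1 := by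
  have k4 := congrArg (fun P => Polynomial.coeff P 4) h
  have k3 := congrArg (fun P => Polynomial.coeff P 3) h
  have k2 := congrArg (fun P => Polynomial.coeff P 2) h
  have k0 := congrArg (fun P => Polynomial.coeff P 0) h
  simp [Polynomial.coeff_X, Polynomial.coeff_one, Polynomial.coeff_C] at k4 k3 k2 k0
  exact ⟨k4, k3, k2, k0⟩

/-- no polynomial has the square `X ^ 4 - 2 β X ^ 2 + 1` -/
private lemma firr_sq {β : ℚ} (h1 : β ^ 2 ≠ 1) (Q : Polynomial ℚ)
    (h : Q ^ 2 = Polynomial.X ^ 4 - Polynomial.C (2 * β) * Polynomial.X ^ 2 + 1) : False := by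
  have hd : (Polynomial.X ^ 4 - Polynomial.C (2 * β) * Polynomial.X ^ 2 + 1 :
      Polynomial ℚ).natDegree = 4 := by compute_degree!
  have hQ : Q.natDegree = 2 := by
    have := congrArg Polynomial.natDegree h
    rw [hd, Polynomial.natDegree_pow] at this
    omega
  obtain ⟨c0, c1, c2, hc⟩ : ∃ c0 c1 c2 : ℚ, Q = Polynomial.C c0 + Polynomial.C c1 * Polynomial.X +
      Polynomial.C c2 * Polynomial.X ^ 2 := by
    refine ⟨Q.coeff 0, Q.coeff 1, Q.coeff 2, ?_⟩
    conv_lhs => rw [Q.as_sum_range_C_mul_X_pow, hQ]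
    simp [Finset.sum_range_succ]
  obtain ⟨k4, k3, k2, k0⟩ := firr_coeffs (c2 ^ 2) (2 * c1 * c2) (c1 ^ 2 + 2 * c0 * c2) (2 * c0 * c1)
    (c0 ^ 2) (2 * β) (by
      rw [← h, hc]
      simp only [map_pow, map_mul, map_add, map_ofNat]
      ring)
  have hc2 : c2 ≠ 0 := by
    rintro rfl
    norm_num at k4
  have hc1 : c1 = 0 := by
    rcases mul_eq_zero.1 k3 with k3 | k3
    · linarith
    · exact absurd k3 hc2
  subst hc1
  apply h1
  have e : β = -(c0 * c2) := by linarith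
  rw [e]
  calc (-(c0 * c2)) ^ 2 = c0 ^ 2 * c2 ^ 2 := by ring
    _ = 1 := by rw [k0, k4]; norm_num

/-- the normalised quartic -/
private noncomputable def firrP (β : ℚ) : Polynomial (MvPolynomial (Fin 1) ℚ) :=
  Polynomial.X ^ 4 + Polynomial.C (-(MvPolynomial.C (2 * β)) * (MvPolynomial.X 0 ^ 2 + 1)) *
    Polynomial.X ^ 2 + Polynomial.C (MvPolynomial.X 0 ^ 4 + 1 -
      MvPolynomial.C (2 * β) * MvPolynomial.X 0 ^ 2)

private lemma firr_disc {β : ℚ} (h0 : 0 < β) (h1 : β < 1) (u v : MvPolynomial (Fin 1) ℚ)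
    (hs : u + v = -(MvPolynomial.C (2 * β)) * (MvPolynomial.X 0 ^ 2 + 1))
    (hp : u * v = MvPolynomial.X 0 ^ 4 + 1 - MvPolynomial.C (2 * β) * MvPolynomial.X 0 ^ 2) :
    False := by
  obtain ⟨b, hb⟩ : ∃ b : ℚ, b = 1 + 2 * β / (1 - β) := ⟨_, rfl⟩
  have h2 : 0 < 1 - β := by linarith
  have hb1 : 1 ≤ b := by
    rw [hb]; have : 0 ≤ 2 * β / (1 - β) := by positivity
    linarith
  have hb2 : 2 * β ≤ (1 - β) * b := by
    rw [hb]; field_simp; nlinarith
  have hb3 : 2 * β ≤ (1 - β) * b ^ 2 := by nlinarith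
  have e1 := congrArg (MvPolynomial.eval (fun _ => b)) hs
  have e2 := congrArg (MvPolynomial.eval (fun _ => b)) hp
  simp only [map_add, map_mul, map_neg, map_sub, map_pow, MvPolynomial.eval_C,
    MvPolynomial.eval_X, map_one] at e1 e2
  generalize MvPolynomial.eval (fun _ => b) u = U at *
  generalize MvPolynomial.eval (fun _ => b) v = V at *
  have h3 : (U - V) ^ 2 = 4 * ((1 + β) * (-(1 - β) * (b ^ 4 + 1) + 2 * β * b ^ 2)) := by
    have : (U - V) ^ 2 = (U + V) ^ 2 - 4 * (U * V) := by ring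
    rw [this, e1, e2]; ring
  have h4 : (-(1 - β) * (b ^ 4 + 1) + 2 * β * b ^ 2) < 0 := by
    have : 2 * β * b ^ 2 ≤ (1 - β) * b ^ 2 * b ^ 2 := mul_le_mul_of_nonneg_right hb3 (by positivity)
    nlinarith
  have h5 : 0 ≤ (U - V) ^ 2 := sq_nonneg _
  have h6 : 0 < 1 + β := by linarith
  nlinarith [mul_pos h6 (neg_pos.2 h4)]

private lemma firrP_irr {β : ℚ} (h0 : 0 < β) (h1 : β < 1) : Irreducible (firrP β) := by
  have hdeg : (firrP β).natDegree = 4 := by
    unfold firrP; compute_degree!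
  have hmon : (firrP β).Monic := by
    unfold firrP; monicity!
  rw [hmon.irreducible_iff_natDegree']
  refine ⟨fun h => by rw [h] at hdeg; simp at hdeg, ?_⟩
  intro f g hf hg hfg hmem
  rw [hdeg] at hmem
  simp only [Finset.mem_Ioc] at hmem
  have hfd : f.natDegree + g.natDegree = 4 := by
    rw [← hf.natDegree_mul hg, hfg, hdeg]
  rcases (show g.natDegree = 1 ∨ g.natDegree = 2 by omega) with h | h
  · -- a root
    obtain ⟨c, hc⟩ : ∃ c, g = Polynomial.X + Polynomial.C c := by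
      refine ⟨g.coeff 0, ?_⟩
      conv_lhs => rw [g.as_sum_range_C_mul_X_pow, h]
      have hl : g.coeff 1 = 1 := by
        have := hg.coeff_natDegree
        rwa [h] at this
      simp [Finset.sum_range_succ, hl, add_comm]
    have hr : (firrP β).eval (-c) = 0 := by
      rw [← hfg, hc]; simp
    unfold firrP at hr
    simp only [Polynomial.eval_add, Polynomial.eval_mul, Polynomial.eval_pow, Polynomial.eval_X,
      Polynomial.eval_C] at hr
    refine firr_disc h0 h1 (-c ^ 2) (-(MvPolynomial.C (2 * β)) * (MvPolynomial.X 0 ^ 2 + 1) + c ^ 2)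
      (by ring) ?_
    linear_combination -hr
  · have hf2 : f.natDegree = 2 := by omega
    obtain ⟨q0, q1, hq⟩ : ∃ q0 q1, g = Polynomial.X ^ 2 + Polynomial.C q1 * Polynomial.X +
        Polynomial.C q0 := by
      refine ⟨g.coeff 0, g.coeff 1, ?_⟩
      conv_lhs => rw [g.as_sum_range_C_mul_X_pow, h]
      have hl : g.coeff 2 = 1 := by
        have := hg.coeff_natDegree
        rwa [h] at this
      simp [Finset.sum_range_succ, hl]
      ring
    obtain ⟨r0, r1, hr⟩ : ∃ r0 r1, f = Polynomial.X ^ 2 + Polynomial.C r1 * Polynomial.X +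
        Polynomial.C r0 := by
      refine ⟨f.coeff 0, f.coeff 1, ?_⟩
      conv_lhs => rw [f.as_sum_range_C_mul_X_pow, hf2]
      have hl : f.coeff 2 = 1 := by
        have := hf.coeff_natDegree
        rwa [hf2] at this
      simp [Finset.sum_range_succ, hl]
      ring
    have key : ∀ (A3 A2' A1 A0 B2 B0 : MvPolynomial (Fin 1) ℚ),
        (Polynomial.X ^ 4 + Polynomial.C A3 * Polynomial.X ^ 3 + Polynomial.C A2' * Polynomial.X ^ 2 +
        Polynomial.C A1 * Polynomial.X + Polynomial.C A0 : Polynomial (MvPolynomial (Fin 1) ℚ)) =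
        Polynomial.X ^ 4 + Polynomial.C B2 * Polynomial.X ^ 2 + Polynomial.C B0 →
        A3 = 0 ∧ A2' = B2 ∧ A1 = 0 ∧ A0 = B0 := by
      intro A3 A2' A1 A0 B2 B0 h
      have k3 := congrArg (fun P => Polynomial.coeff P 3) h
      have k2 := congrArg (fun P => Polynomial.coeff P 2) h
      have k1 := congrArg (fun P => Polynomial.coeff P 1) h
      have k0 := congrArg (fun P => Polynomial.coeff P 0) h
      simp [Polynomial.coeff_X, Polynomial.coeff_C] at k3 k2 k1 k0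
      exact ⟨k3, k2, k1, k0⟩
    obtain ⟨k3, k2, k1, k0⟩ := key (r1 + q1) (r0 + q0 + r1 * q1) (r1 * q0 + r0 * q1) (r0 * q0)
      (-(MvPolynomial.C (2 * β)) * (MvPolynomial.X 0 ^ 2 + 1)) (MvPolynomial.X 0 ^ 4 + 1 -
      MvPolynomial.C (2 * β) * MvPolynomial.X 0 ^ 2) (by
        have : f * g = firrP β := hfg
        unfold firrP at this
        rw [← this, hr, hq]
        simp only [Polynomial.C_add, Polynomial.C_mul]
        ring)
    have hr1 : r1 = -q1 := by linear_combination k3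
    subst hr1
    have h3 : q1 * (r0 - q0) = 0 := by linear_combination k1
    rcases mul_eq_zero.1 h3 with h4 | h4
    · subst h4
      exact firr_disc h0 h1 r0 q0 (by linear_combination k2) k0
    · have h5 : r0 = q0 := by linear_combination h4
      subst h5
      have h6 := congrArg firrHom k0
      simp only [map_add, map_mul, map_sub, map_pow, map_one, firrHom_C, firrHom_X] at h6
      refine firr_sq (β := β) (by nlinarith) (firrHom r0) ?_
      rw [sq, h6, ← Polynomial.C_mul]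
      ring

/-- linear polynomials are irreducible -/
private lemma firr_lin (α β γ : ℚ) (h : α ≠ 0 ∨ β ≠ 0) :
    Prime (MvPolynomial.C α * X 0 + MvPolynomial.C β * X 1 + MvPolynomial.C γ : A2) := by
  have key : ∀ α β γ : ℚ, α ≠ 0 →
      Prime (MvPolynomial.C α * X 0 + MvPolynomial.C β * X 1 + MvPolynomial.C γ : A2) := by
    intro α β γ hα
    have e : (MvPolynomial.finSuccEquiv ℚ 1) (MvPolynomial.C α * X 0 + MvPolynomial.C β * X 1 +
        MvPolynomial.C γ : A2) = Polynomial.C (MvPolynomial.C α) * (Polynomial.X -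
        Polynomial.C (-(MvPolynomial.C (α⁻¹ * β) * X 0 + MvPolynomial.C (α⁻¹ * γ)))) := by
      have h1 : (MvPolynomial.finSuccEquiv ℚ 1) (X 1) = Polynomial.C (X 0) :=
        MvPolynomial.finSuccEquiv_X_succ (j := 0)
      have h2 : ∀ c : ℚ, (MvPolynomial.finSuccEquiv ℚ 1) (MvPolynomial.C c) =
          Polynomial.C (MvPolynomial.C c) := fun c => by
        simp [MvPolynomial.finSuccEquiv_apply]
      rw [map_add, map_add, map_mul, map_mul, h1, h2, h2, h2, MvPolynomial.finSuccEquiv_X_zero]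
      have h3 : Polynomial.C (MvPolynomial.C α : MvPolynomial (Fin 1) ℚ) * Polynomial.C (MvPolynomial.C (α⁻¹ * β)) =
          Polynomial.C (MvPolynomial.C β) := by
        rw [← Polynomial.C_mul, ← MvPolynomial.C_mul]; congr 2; field_simp
      have h4 : Polynomial.C (MvPolynomial.C α : MvPolynomial (Fin 1) ℚ) * Polynomial.C (MvPolynomial.C (α⁻¹ * γ)) =
          Polynomial.C (MvPolynomial.C γ) := by
        rw [← Polynomial.C_mul, ← MvPolynomial.C_mul]; congr 2; field_simp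
      rw [← h3, ← h4]
      simp only [map_neg, map_add, map_mul]
      ring
    rw [← MulEquiv.prime_iff (MvPolynomial.finSuccEquiv ℚ 1).toMulEquiv]
    change Prime ((MvPolynomial.finSuccEquiv ℚ 1) _)
    rw [e]
    have hu : IsUnit (Polynomial.C (MvPolynomial.C α : MvPolynomial (Fin 1) ℚ)) := by
      apply IsUnit.map Polynomial.C
      exact (IsUnit.mk0 α hα).map MvPolynomial.C
    rw [Associated.prime_iff (associated_unit_mul_left _ _ hu)]
    exact Polynomial.prime_X_sub_C _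
  rcases h with h | h
  · exact key α β γ h
  · have := key β α γ h
    rw [← MulEquiv.prime_iff (MvPolynomial.renameEquiv ℚ (Equiv.swap (0 : Fin 2) 1)).toMulEquiv] at this
    convert this using 1
    change _ = (MvPolynomial.renameEquiv ℚ (Equiv.swap (0 : Fin 2) 1)) _
    simp
    ring

private lemma firr_ne {m n : ℤ} (hb : bad m n ≠ 0) : (m : ℚ) ≠ 0 ∧ (n : ℚ) ≠ 0 ∧
    (m : ℚ) ^ 2 - n ^ 2 ≠ 0 ∧ (m : ℚ) ^ 2 + n ^ 2 ≠ 0 ∧ (kap m n : ℚ) ≠ 0 := by
  unfold bad at hb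
  have h1 := right_ne_zero_of_mul hb
  have h2 := left_ne_zero_of_mul hb
  have h3 := right_ne_zero_of_mul h2
  have h4 := left_ne_zero_of_mul h2
  have h5 := right_ne_zero_of_mul h4
  have h6 := left_ne_zero_of_mul h4
  have h7 := right_ne_zero_of_mul h6
  have h8 := left_ne_zero_of_mul h6
  have h9 := right_ne_zero_of_mul h8
  refine ⟨by exact_mod_cast h9, by exact_mod_cast h7, by exact_mod_cast h5,
    by exact_mod_cast h3, ?_⟩
  have : (kap m n : ℚ) = ((kap m n : ℤ) : ℚ) := by unfold kap; push_cast; rfl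
  rw [this]; exact_mod_cast h1

private lemma firr_beta {m n : ℤ} (hb : bad m n ≠ 0) :
    0 < ((m : ℚ) ^ 4 + n ^ 4) / ((m : ℚ) ^ 2 + n ^ 2) ^ 2 ∧
    ((m : ℚ) ^ 4 + n ^ 4) / ((m : ℚ) ^ 2 + n ^ 2) ^ 2 < 1 := by
  obtain ⟨hm, hn, -, -, -⟩ := firr_ne hb
  have hm2 : 0 < (m : ℚ) ^ 2 := by positivity
  have hn2 : 0 < (n : ℚ) ^ 2 := by positivity
  refine ⟨by positivity, ?_⟩
  rw [div_lt_one (by positivity)]
  nlinarith [mul_pos hm2 hn2]

private lemma firr_F0 (m n : ℤ) : F0 m n = MvPolynomial.C (((m : ℚ) ^ 2 + n ^ 2) ^ 2) *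
      (X 0 ^ 4 + X 1 ^ 4 + 1) - MvPolynomial.C (2 * ((m : ℚ) ^ 4 + n ^ 4)) *
      (X 0 ^ 2 * X 1 ^ 2 + X 1 ^ 2 + X 0 ^ 2) := by
  have h3 : (MvPolynomial.C (((m : ℚ) ^ 2 + n ^ 2) ^ 2) : A2) = ((m : A2) ^ 2 + n ^ 2) ^ 2 := by
    simp
  have h4 : (MvPolynomial.C (2 * ((m : ℚ) ^ 4 + n ^ 4)) : A2) = 2 * ((m : A2) ^ 4 + n ^ 4) := by
    rw [map_mul, map_add, map_pow, map_pow, map_intCast, map_intCast, map_ofNat]
  rw [h3, h4]
  unfold F0 F
  ring

theorem F0_prime {m n : ℤ} (hb : bad m n ≠ 0) : Prime (F0 m n) := by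
  obtain ⟨hβ0, hβ1⟩ := firr_beta hb
  obtain ⟨hm, hn, -, hs, -⟩ := firr_ne hb
  have hI := firrP_irr hβ0 hβ1
  have hs2 : ((m : ℚ) ^ 2 + n ^ 2) ^ 2 ≠ 0 := pow_ne_zero 2 hs
  have h1 : (MvPolynomial.finSuccEquiv ℚ 1) (X 1) = Polynomial.C (X 0) :=
    MvPolynomial.finSuccEquiv_X_succ (j := 0)
  have h2 : ∀ c : ℚ, (MvPolynomial.finSuccEquiv ℚ 1) (MvPolynomial.C c) =
      Polynomial.C (MvPolynomial.C c) := fun c => by
    simp [MvPolynomial.finSuccEquiv_apply]
  have e : (MvPolynomial.finSuccEquiv ℚ 1) (F0 m n) =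
      Polynomial.C (MvPolynomial.C (((m : ℚ) ^ 2 + n ^ 2) ^ 2)) *
        firrP (((m : ℚ) ^ 4 + n ^ 4) / ((m : ℚ) ^ 2 + n ^ 2) ^ 2) := by
    have h3 : Polynomial.C (MvPolynomial.C (((m : ℚ) ^ 2 + n ^ 2) ^ 2) : MvPolynomial (Fin 1) ℚ) *
        Polynomial.C (MvPolynomial.C (2 * (((m : ℚ) ^ 4 + n ^ 4) / ((m : ℚ) ^ 2 + n ^ 2) ^ 2))) =
        Polynomial.C (MvPolynomial.C (2 * ((m : ℚ) ^ 4 + n ^ 4))) := by
      rw [← Polynomial.C_mul, ← MvPolynomial.C_mul]; congr 2; field_simp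
    rw [firr_F0]
    unfold firrP
    generalize (MvPolynomial.C (2 * (((m : ℚ) ^ 4 + n ^ 4) / ((m : ℚ) ^ 2 + n ^ 2) ^ 2)) :
      MvPolynomial (Fin 1) ℚ) = BB at *
    simp only [map_sub, map_add, map_pow, map_one, map_neg, h2, Polynomial.C_mul,
      MvPolynomial.finSuccEquiv_X_zero, h1, map_mul (MvPolynomial.finSuccEquiv ℚ 1)]
    simp only [map_add, map_pow] at h3
    linear_combination ((Polynomial.X ^ 2 * Polynomial.C (X 0) ^ 2 + Polynomial.C (X 0) ^ 2 + Polynomial.X ^ 2)) * h3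
  have hp : Irreducible (F0 m n) := by
    rw [← MulEquiv.irreducible_iff (MvPolynomial.finSuccEquiv ℚ 1).toMulEquiv]
    change Irreducible ((MvPolynomial.finSuccEquiv ℚ 1) _)
    rw [e]
    have hu : IsUnit (Polynomial.C (MvPolynomial.C (((m : ℚ) ^ 2 + n ^ 2) ^ 2) :
        MvPolynomial (Fin 1) ℚ)) := by
      apply IsUnit.map Polynomial.C
      exact (IsUnit.mk0 _ hs2).map MvPolynomial.C
    rw [Associated.irreducible_iff (associated_unit_mul_left _ _ hu)]
    exact hI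
  exact hp.prime

theorem conicZ_prime {m n : ℤ} (hb : bad m n ≠ 0) : Prime (conicZ m n) := by
  obtain ⟨hm, hn, hr, hs, hk⟩ := firr_ne hb
  obtain ⟨γ, hγ⟩ : ∃ γ : ℚ, γ = ((m : ℚ) ^ 2 - n ^ 2) / (m * n) := ⟨_, rfl⟩
  have hγ0 : γ ≠ 0 := by rw [hγ]; exact div_ne_zero hr (mul_ne_zero hm hn)
  have hρ : ((m : ℚ) ^ 2 - m * n + n ^ 2) ≠ 0 := by
    intro h
    apply hk
    have : (kap m n : ℚ) = ((m : ℚ) ^ 2 - m * n + n ^ 2) * (m ^ 2 + m * n + n ^ 2) := by
      unfold kap; ring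
    rw [this, h, zero_mul]
  obtain ⟨κ, hκ⟩ : ∃ κ : ℚ, κ = ((m : ℚ) ^ 2 - m * n + n ^ 2) * ((m : ℚ) ^ 2 + n ^ 2) ^ 2 * (m * n) :=
    ⟨_, rfl⟩
  have hκ0 : κ ≠ 0 := by
    rw [hκ]; exact mul_ne_zero (mul_ne_zero hρ (pow_ne_zero 2 hs)) (mul_ne_zero hm hn)
  have hκγ : κ * γ = ((m : ℚ) ^ 2 - m * n + n ^ 2) * ((m : ℚ) ^ 2 + n ^ 2) ^ 2 * ((m : ℚ) ^ 2 - n ^ 2) := by
    rw [hκ, hγ]; field_simp
  have h3 : (MvPolynomial.C κ : A2) = ((m : A2) ^ 2 - m * n + n ^ 2) * ((m : A2) ^ 2 + n ^ 2) ^ 2 *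
      (m * n) := by rw [hκ]; simp
  have h4 : (MvPolynomial.C κ * MvPolynomial.C γ : A2) =
      ((m : A2) ^ 2 - m * n + n ^ 2) * ((m : A2) ^ 2 + n ^ 2) ^ 2 * ((m : A2) ^ 2 - n ^ 2) := by
    rw [← MvPolynomial.C_mul, hκγ]; simp
  have e0 : conicZ m n = MvPolynomial.C κ * (X 0 ^ 2 - X 1 ^ 2 + MvPolynomial.C γ) := by
    rw [mul_add, h4, h3]
    unfold conicZ conZ rho kap
    ring
  have h1 : (MvPolynomial.finSuccEquiv ℚ 1) (X 1) = Polynomial.C (X 0) :=
    MvPolynomial.finSuccEquiv_X_succ (j := 0)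
  have h2 : ∀ c : ℚ, (MvPolynomial.finSuccEquiv ℚ 1) (MvPolynomial.C c) =
      Polynomial.C (MvPolynomial.C c) := fun c => by
    simp [MvPolynomial.finSuccEquiv_apply]
  have hI : Irreducible (Polynomial.X ^ 2 + Polynomial.C (MvPolynomial.C γ - X 0 ^ 2) :
      Polynomial (MvPolynomial (Fin 1) ℚ)) := by
    have hdeg : (Polynomial.X ^ 2 + Polynomial.C (MvPolynomial.C γ - X 0 ^ 2) :
      Polynomial (MvPolynomial (Fin 1) ℚ)).natDegree = 2 := by compute_degree!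
    have hmon : (Polynomial.X ^ 2 + Polynomial.C (MvPolynomial.C γ - X 0 ^ 2) :
      Polynomial (MvPolynomial (Fin 1) ℚ)).Monic := by monicity!
    rw [hmon.irreducible_iff_natDegree']
    refine ⟨fun h => by rw [h] at hdeg; simp at hdeg, ?_⟩
    intro f g hf hg hfg hmem
    rw [hdeg] at hmem
    simp only [Finset.mem_Ioc] at hmem
    have h : g.natDegree = 1 := by omega
    obtain ⟨c, hc⟩ : ∃ c, g = Polynomial.X + Polynomial.C c := by
      refine ⟨g.coeff 0, ?_⟩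
      conv_lhs => rw [g.as_sum_range_C_mul_X_pow, h]
      have hl : g.coeff 1 = 1 := by
        have := hg.coeff_natDegree
        rwa [h] at this
      simp [Finset.sum_range_succ, hl, add_comm]
    have hr : (Polynomial.X ^ 2 + Polynomial.C (MvPolynomial.C γ - X 0 ^ 2) :
      Polynomial (MvPolynomial (Fin 1) ℚ)).eval (-c) = 0 := by
      rw [← hfg, hc]; simp
    simp only [Polynomial.eval_add, Polynomial.eval_pow, Polynomial.eval_X,
      Polynomial.eval_C] at hr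
    have h6 : (firrHom c) ^ 2 = Polynomial.X ^ 2 - Polynomial.C γ := by
      have h7 := congrArg firrHom hr
      simp only [map_add, map_sub, map_pow, map_neg, map_zero, firrHom_C, firrHom_X] at h7
      linear_combination h7
    have hd : (Polynomial.X ^ 2 - Polynomial.C γ : Polynomial ℚ).natDegree = 2 := by compute_degree!
    have hQ : (firrHom c).natDegree = 1 := by
      have := congrArg Polynomial.natDegree h6
      rw [hd, Polynomial.natDegree_pow] at this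
      omega
    obtain ⟨c0, c1, hcc⟩ : ∃ c0 c1 : ℚ, firrHom c = Polynomial.C c0 + Polynomial.C c1 * Polynomial.X := by
      refine ⟨(firrHom c).coeff 0, (firrHom c).coeff 1, ?_⟩
      conv_lhs => rw [(firrHom c).as_sum_range_C_mul_X_pow, hQ]
      simp [Finset.sum_range_succ]
    have key : ∀ e2 e1 e0 : ℚ, (Polynomial.C e2 * Polynomial.X ^ 2 + Polynomial.C e1 * Polynomial.X +
        Polynomial.C e0 : Polynomial ℚ) = Polynomial.X ^ 2 - Polynomial.C γ →
        e2 = 1 ∧ e1 = 0 ∧ e0 = -γ := by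
      intro e2 e1 e0 h
      have k2 := congrArg (fun P => Polynomial.coeff P 2) h
      have k1 := congrArg (fun P => Polynomial.coeff P 1) h
      have k0 := congrArg (fun P => Polynomial.coeff P 0) h
      simp [Polynomial.coeff_X, Polynomial.coeff_C] at k2 k1 k0
      exact ⟨k2, k1, k0⟩
    obtain ⟨k2, k1, k0⟩ := key (c1 ^ 2) (2 * c0 * c1) (c0 ^ 2) (by
      rw [← h6, hcc]
      simp only [map_pow, map_mul, map_ofNat]
      ring)
    have hc1 : c1 ≠ 0 := by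
      rintro rfl
      norm_num at k2
    have hc0 : c0 = 0 := by
      rcases mul_eq_zero.1 k1 with k | k
      · linarith
      · exact absurd k hc1
    rw [hc0] at k0
    apply hγ0
    linarith
  have hp : Irreducible (conicZ m n) := by
    rw [← MulEquiv.irreducible_iff (MvPolynomial.finSuccEquiv ℚ 1).toMulEquiv]
    change Irreducible ((MvPolynomial.finSuccEquiv ℚ 1) _)
    have e : (MvPolynomial.finSuccEquiv ℚ 1) (conicZ m n) = Polynomial.C (MvPolynomial.C κ) *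
        (Polynomial.X ^ 2 + Polynomial.C (MvPolynomial.C γ - X 0 ^ 2)) := by
      rw [e0, map_mul, map_add, map_sub, map_pow, map_pow, h1, h2, h2,
        MvPolynomial.finSuccEquiv_X_zero]
      simp only [map_sub, map_pow]
      ring
    rw [e]
    have hu : IsUnit (Polynomial.C (MvPolynomial.C κ : MvPolynomial (Fin 1) ℚ)) := by
      apply IsUnit.map Polynomial.C
      exact (IsUnit.mk0 _ hκ0).map MvPolynomial.C
    rw [Associated.irreducible_iff (associated_unit_mul_left _ _ hu)]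
    exact hI
  exact hp.prime

theorem lines13_prime {m n : ℤ} (hb : bad m n ≠ 0) (i : Fin 13) : Prime (lines13 m n i) := by
  obtain ⟨hm, hn, -, -, -⟩ := firr_ne hb
  have hm' : -(m : ℚ) ≠ 0 := neg_ne_zero.2 hm
  have hn' : -(n : ℚ) ≠ 0 := neg_ne_zero.2 hn
  have key : ∀ (a b c : ℚ) (P : A2), (a ≠ 0 ∨ b ≠ 0) →
      P = MvPolynomial.C a * X 0 + MvPolynomial.C b * X 1 + MvPolynomial.C c → Prime P := by
    rintro a b c P h rfl
    exact firr_lin a b c h
  have hC : ∀ k : ℤ, (MvPolynomial.C (k : ℚ) : A2) = (k : A2) := fun k => by simp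
  fin_cases i
  · refine key m (-n) 0 _ (Or.inl hm) ?_
    simp [lines13, lin13]; ring
  · refine key m n 0 _ (Or.inl hm) ?_
    simp [lines13, lin13]
  · refine key n (-m) 0 _ (Or.inl hn) ?_
    simp [lines13, lin13]; ring
  · refine key n m 0 _ (Or.inl hn) ?_
    simp [lines13, lin13]
  · refine key 0 m (-n) _ (Or.inr hm) ?_
    simp [lines13, lin13]; ring
  · refine key 0 m n _ (Or.inr hm) ?_
    simp [lines13, lin13]
  · refine key 0 n (-m) _ (Or.inr hn) ?_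
    simp [lines13, lin13]; ring
  · refine key 0 n m _ (Or.inr hn) ?_
    simp [lines13, lin13]
  · refine key (-n) 0 m _ (Or.inl hn') ?_
    simp [lines13, lin13]; ring
  · refine key n 0 m _ (Or.inl hn) ?_
    simp [lines13, lin13]; ring
  · refine key (-m) 0 n _ (Or.inl hm') ?_
    simp [lines13, lin13]; ring
  · refine key m 0 n _ (Or.inl hm) ?_
    simp [lines13, lin13]; ring
  · refine key 1 1 1 _ (Or.inl one_ne_zero) ?_
    simp [lines13, lin13]

/-- the quartic is not a square modulo the coordinate line `a = 0` -/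
theorem F0_coord {m n : ℤ} (hb : bad m n ≠ 0) : ¬ SqMod (X 0 : A2) (F0 m n) := by
  rintro ⟨r, q, hq, hd⟩
  obtain ⟨hβ0, hβ1⟩ := firr_beta hb
  obtain ⟨hm, hn, -, hs, -⟩ := firr_ne hb
  have hs2 : ((m : ℚ) ^ 2 + n ^ 2) ^ 2 ≠ 0 := pow_ne_zero 2 hs
  have h1 : (MvPolynomial.finSuccEquiv ℚ 1) (X 1) = Polynomial.C (X 0) :=
    MvPolynomial.finSuccEquiv_X_succ (j := 0)
  have h2 : ∀ c : ℚ, (MvPolynomial.finSuccEquiv ℚ 1) (MvPolynomial.C c) =
      Polynomial.C (MvPolynomial.C c) := fun c => by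
    simp [MvPolynomial.finSuccEquiv_apply]
  have hdvd : ∀ g : A2, X 0 ∣ g ↔ ((MvPolynomial.finSuccEquiv ℚ 1) g).coeff 0 = 0 := by
    intro g
    rw [← Polynomial.X_dvd_iff, ← MvPolynomial.finSuccEquiv_X_zero]
    exact (map_dvd_iff (MvPolynomial.finSuccEquiv ℚ 1)).symm
  rw [hdvd] at hq hd
  obtain ⟨φ, hφ⟩ : ∃ φ : A2 →+* MvPolynomial (Fin 1) ℚ, ∀ g, φ g =
      ((MvPolynomial.finSuccEquiv ℚ 1) g).coeff 0 :=
    ⟨(Polynomial.constantCoeff).comp (MvPolynomial.finSuccEquiv ℚ 1).toAlgHom.toRingHom, fun g => rfl⟩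
  rw [← hφ] at hq hd
  rw [map_sub, map_mul, map_pow, map_pow] at hd
  have hx0 : φ (X 0) = 0 := by rw [hφ, MvPolynomial.finSuccEquiv_X_zero]; simp
  have hx1 : φ (X 1) = X 0 := by rw [hφ, h1]; simp
  have hC : ∀ c : ℚ, φ (MvPolynomial.C c) = MvPolynomial.C c := fun c => by rw [hφ, h2]; simp
  have hF : φ (F0 m n) = MvPolynomial.C (((m : ℚ) ^ 2 + n ^ 2)) ^ 2 * (X 0 ^ 4 -
      MvPolynomial.C (2 * (((m : ℚ) ^ 4 + n ^ 4) / ((m : ℚ) ^ 2 + n ^ 2) ^ 2)) * X 0 ^ 2 + 1) := by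
    have h3 : (MvPolynomial.C (((m : ℚ) ^ 2 + n ^ 2)) : MvPolynomial (Fin 1) ℚ) ^ 2 *
        MvPolynomial.C (2 * (((m : ℚ) ^ 4 + n ^ 4) / ((m : ℚ) ^ 2 + n ^ 2) ^ 2)) =
        MvPolynomial.C (2 * ((m : ℚ) ^ 4 + n ^ 4)) := by
      rw [← map_pow, ← MvPolynomial.C_mul]; congr 1; field_simp
    rw [firr_F0]
    simp only [map_sub, map_mul φ, map_add φ, map_pow φ, map_one, hx0, hx1, hC]
    have h4 : (MvPolynomial.C ((((m : ℚ) ^ 2 + n ^ 2)) ^ 2) : MvPolynomial (Fin 1) ℚ) =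
      MvPolynomial.C (((m : ℚ) ^ 2 + n ^ 2)) ^ 2 := map_pow _ _ _
    rw [h4, ← h3]
    ring
  rw [hF] at hd
  have hdv : φ q ^ 2 ∣ φ r ^ 2 := ⟨MvPolynomial.C (((m : ℚ) ^ 2 + n ^ 2)) ^ 2 * (X 0 ^ 4 -
      MvPolynomial.C (2 * (((m : ℚ) ^ 4 + n ^ 4) / ((m : ℚ) ^ 2 + n ^ 2) ^ 2)) * X 0 ^ 2 + 1), by
    linear_combination hd⟩
  rw [IsIntegrallyClosed.pow_dvd_pow_iff two_ne_zero] at hdv
  obtain ⟨k, hk⟩ := hdv
  have hk2 : k ^ 2 = MvPolynomial.C (((m : ℚ) ^ 2 + n ^ 2)) ^ 2 * (X 0 ^ 4 -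
      MvPolynomial.C (2 * (((m : ℚ) ^ 4 + n ^ 4) / ((m : ℚ) ^ 2 + n ^ 2) ^ 2)) * X 0 ^ 2 + 1) := by
    have : φ q ^ 2 ≠ 0 := pow_ne_zero 2 hq
    apply mul_left_cancel₀ this
    rw [hk] at hd
    linear_combination hd
  have h6 := congrArg firrHom hk2
  simp only [map_mul firrHom, map_sub, map_add firrHom, map_pow firrHom, map_one, firrHom_C,
    firrHom_X] at h6
  refine firr_sq (β := ((m : ℚ) ^ 4 + n ^ 4) / ((m : ℚ) ^ 2 + n ^ 2) ^ 2) (by nlinarith)
    (Polynomial.C (((m : ℚ) ^ 2 + n ^ 2)⁻¹) * firrHom k) ?_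
  have h7 : (Polynomial.C (((m : ℚ) ^ 2 + n ^ 2)⁻¹) : Polynomial ℚ) *
      Polynomial.C ((m : ℚ) ^ 2 + n ^ 2) = 1 := by
    rw [← Polynomial.C_mul, inv_mul_cancel₀ hs, Polynomial.C_1]
  rw [mul_pow, h6, ← mul_assoc, ← mul_pow, h7, one_pow, one_mul]

end Pool.Agent.Helper8.XS
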