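import Pool.Agent.Helper8.XS.EvenAt
import Pool.Agent.Helper8.XS.PlaceU
import Pool.Agent.Helper8.XS.PlaceR
import Pool.Agent.Helper8.XS.FIrr

set_option autoImplicit false

/-! XS-10 -/

open scoped TensorProduct
open MvPolynomial

namespace Pool.Agent.Helper8.XS

open Pool.Agent.Helper8.BR Pool.Agent.Helper8.DP2

/-- a square root in the fraction field of a polynomial lies in the ring -/
private theorem evenNorm_sqrt {K : Type} [Field K] [Algebra A2 K] [IsFractionRing A2 K]
    (c : A2) (p : K) (h : p ^ 2 = algebraMap A2 K c) : ∃ a : A2, algebraMap A2 K a = p := by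
  have hint : IsIntegral A2 p := by
    refine ⟨Polynomial.X ^ 2 - Polynomial.C c, Polynomial.monic_X_pow_sub_C c two_ne_zero, ?_⟩
    simp [h]
  exact IsIntegrallyClosed.isIntegral_iff.1 hint

/-- `d` is not a square in the function field of `X` -/
theorem gen_nonsq {m n d : ℤ} (hb : bad m n ≠ 0) (hd : ¬ IsSquare (d : ℚ)) {K M : Type}
    [Field K] [Field M] [Algebra K M] [Algebra A2 K] [Algebra A2 M] {w : M} {τ : M ≃+* M}
    (G : Gen m n d K M w τ) : ¬ IsSquare (d : M) := by
  have := G.frac
  have := G.tower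
  have hinj : Function.Injective (algebraMap A2 K) := IsFractionRing.injective A2 K
  have hinjM : Function.Injective (algebraMap K M) := (algebraMap K M).injective
  have hcharK : CharZero K := by
    have g : ℚ →+* K := (algebraMap A2 K).comp (C : ℚ →+* A2)
    exact charZero_of_injective_ringHom g.injective
  have hd0 : (d : ℚ) ≠ 0 := by
    intro h
    exact hd (by rw [h]; exact ⟨0, by ring⟩)
  have hdK : (d : K) ≠ 0 := by
    have : d ≠ 0 := by exact_mod_cast hd0
    exact_mod_cast this
  rintro ⟨z, hz⟩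
  obtain ⟨p, q, rfl⟩ := G.quad.gen z
  have hw2 : w ^ 2 = algebraMap K M ((d : K) * algebraMap A2 K (F0 m n)) := by
    rw [G.sq, IsScalarTower.algebraMap_apply A2 K M, map_mul (algebraMap A2 K), map_intCast]
  have h1 : algebraMap K M ((d : K) - p ^ 2 - q ^ 2 * (d * algebraMap A2 K (F0 m n))) =
      algebraMap K M (2 * p * q) * w := by
    rw [map_sub, map_sub, map_mul, ← hw2, map_intCast, hz]
    simp only [map_pow, map_mul, map_ofNat]
    ring
  have h2 : 2 * p * q = 0 := by
    by_contra hne
    apply G.quad.notin (((d : K) - p ^ 2 - q ^ 2 * (d * algebraMap A2 K (F0 m n))) / (2 * p * q))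
    rw [map_div₀, h1, mul_div_assoc, mul_comm, div_mul_cancel₀]
    intro h
    exact hne (hinjM (by rw [h, map_zero]))
  rw [h2, map_zero, zero_mul] at h1
  have h3 : (d : K) - p ^ 2 - q ^ 2 * (d * algebraMap A2 K (F0 m n)) = 0 :=
    hinjM (by rw [h1, map_zero])
  rcases mul_eq_zero.1 h2 with h4 | h4
  · have hp : p = 0 := (mul_eq_zero.1 h4).resolve_left two_ne_zero
    have hq : q ≠ 0 := by
      intro h
      rw [hp, h] at h3
      apply hdK
      linear_combination h3
    have h5 : (q⁻¹) ^ 2 = algebraMap A2 K (F0 m n) := by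
      have h6 : (d : K) * (1 - q ^ 2 * algebraMap A2 K (F0 m n)) = 0 := by
        rw [hp] at h3
        linear_combination h3
      have h7 := (mul_eq_zero.1 h6).resolve_left hdK
      field_simp
      linear_combination h7
    obtain ⟨a, ha⟩ := evenNorm_sqrt _ _ h5
    have h8 : F0 m n = a * a := by
      apply hinj
      rw [map_mul, ha, ← h5]
      ring
    have hirr := (F0_prime hb).irreducible
    rcases hirr.isUnit_or_isUnit h8 with h9 | h9 <;>
    · apply hirr.not_isUnit
      rw [h8]
      exact h9.mul h9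
  · rw [h4] at h3
    have h5 : p ^ 2 = algebraMap A2 K (d : A2) := by
      rw [map_intCast]
      linear_combination -h3
    obtain ⟨a, ha⟩ := evenNorm_sqrt _ _ h5
    have h8 : a * a = (d : A2) := by
      apply hinj
      rw [map_mul, ha, ← h5]
      ring
    apply hd
    have h9 := congrArg (MvPolynomial.eval (fun _ => (0 : ℚ))) h8
    rw [map_mul, map_intCast] at h9
    exact ⟨_, h9.symm⟩

/-- decomposition of an element of the fraction field at a prime -/
private theorem evenNorm_dec {K : Type} [Field K] [Algebra A2 K] [IsFractionRing A2 K]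
    (f : A2) (hf : Prime f) (N : K) (hN : N ≠ 0) : ∃ (j : ℤ) (a b : A2), ¬ f ∣ a ∧ ¬ f ∣ b ∧
      N * algebraMap A2 K b = algebraMap A2 K a * (algebraMap A2 K f) ^ j := by
  have hinj : Function.Injective (algebraMap A2 K) := IsFractionRing.injective A2 K
  obtain ⟨a, b, hb, rfl⟩ := IsFractionRing.div_surjective (A := A2) N
  have hb0 : b ≠ 0 := nonZeroDivisors.ne_zero hb
  have ha0 : a ≠ 0 := by
    rintro rfl
    apply hN
    rw [map_zero, zero_div]
  have hfin : ∀ c : A2, c ≠ 0 → FiniteMultiplicity f c := fun c hc =>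
    FiniteMultiplicity.of_prime_left hf hc
  obtain ⟨a', ha', ha''⟩ := (hfin a ha0).exists_eq_pow_mul_and_not_dvd
  obtain ⟨b', hb', hb''⟩ := (hfin b hb0).exists_eq_pow_mul_and_not_dvd
  have hfK : algebraMap A2 K f ≠ 0 := fun h => hf.ne_zero (hinj (by rw [h, map_zero]))
  have hbK : algebraMap A2 K b ≠ 0 := fun h => hb0 (hinj (by rw [h, map_zero]))
  refine ⟨(multiplicity f a : ℤ) - multiplicity f b, a', b', ha'', hb'', ?_⟩
  have e1 : algebraMap A2 K a = algebraMap A2 K f ^ (multiplicity f a) * algebraMap A2 K a' := by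
    conv_lhs => rw [ha']
    rw [map_mul, map_pow]
  have e2 : algebraMap A2 K b = algebraMap A2 K f ^ (multiplicity f b) * algebraMap A2 K b' := by
    conv_lhs => rw [hb']
    rw [map_mul, map_pow]
  rw [zpow_sub₀ hfK, zpow_natCast, zpow_natCast, div_mul_eq_mul_div, div_eq_iff hbK, e1]
  have hfp : algebraMap A2 K f ^ (multiplicity f b) ≠ 0 := pow_ne_zero _ hfK
  field_simp
  rw [e2]
  ring

private theorem evenNorm_of_even {K : Type} [Field K] [Algebra A2 K] [IsFractionRing A2 K]
    (f : A2) (hf : Prime f) (N : K) (j k : ℤ) (a b : A2) (ha : ¬ f ∣ a) (hb : ¬ f ∣ b)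
    (h : N * algebraMap A2 K b = algebraMap A2 K a * (algebraMap A2 K f) ^ j)
    (hj : j = k + k) : EvenK A2 f N := by
  have hinj : Function.Injective (algebraMap A2 K) := IsFractionRing.injective A2 K
  have hfK : algebraMap A2 K f ≠ 0 := fun h => hf.ne_zero (hinj (by rw [h, map_zero]))
  refine ⟨a, b, (algebraMap A2 K f) ^ k, ha, hb, zpow_ne_zero _ hfK, ?_⟩
  rw [h, hj, zpow_add₀ hfK, pow_two]

private theorem evenNorm_val {K M : Type} [Field K] [Field M] [Algebra K M] [Algebra A2 K]
    [Algebra A2 M] [IsScalarTower A2 K M] {f : A2} {w π : M} {O : ValuationSubring M}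
    (hO : Place f w π O) (N : K) (j : ℤ) (a b : A2) (ha : ¬ f ∣ a) (hb : ¬ f ∣ b)
    (h : N * algebraMap A2 K b = algebraMap A2 K a * (algebraMap A2 K f) ^ j) :
    O.valuation (algebraMap K M N) = O.valuation (algebraMap A2 M f) ^ j := by
  have h1 := congrArg (algebraMap K M) h
  rw [map_mul, map_mul, map_zpow₀, ← IsScalarTower.algebraMap_apply,
    ← IsScalarTower.algebraMap_apply, ← IsScalarTower.algebraMap_apply] at h1
  have h2 := congrArg O.valuation h1
  rw [map_mul, map_mul, map_zpow₀, hO.eq_one a ha, hO.eq_one b hb, mul_one, one_mul] at h2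
  exact h2

/-- the point `(a, b, 1, w')` over a valuation ring -/
private noncomputable def evenNorm_pt (m n d : ℤ) {M : Type} [Field M] [Algebra A2 M]
    (O : ValuationSubring M) (h1 : ∀ a : A2, O.valuation (algebraMap A2 M a) ≤ 1) (w' : M)
    (hw : O.valuation w' ≤ 1) (hsq : w' ^ 2 = algebraMap A2 M ((d : A2) * F0 m n)) :
    RPt m n d O where
  x := ⟨algebraMap A2 M (X 0), (O.valuation_le_one_iff _).1 (h1 _)⟩
  y := ⟨algebraMap A2 M (X 1), (O.valuation_le_one_iff _).1 (h1 _)⟩
  z := 1
  w := ⟨w', (O.valuation_le_one_iff _).1 hw⟩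
  unimod := by
    rw [Ideal.eq_top_iff_one]
    exact Ideal.subset_span (by simp)
  eq := by
    apply Subtype.ext
    change w' ^ 2 = O.subtype ((d : O) * F m n _ _ 1)
    rw [hsq, map_mul, map_mul, map_intCast, map_intCast, ← F_map, map_one]
    unfold F0
    rw [← F_map, map_one]
    rfl

private theorem evenNorm_key {m n d : ℤ} (hd : ¬ IsSquare (d : ℚ)) (α : Fam m n d)
    (hV : Van α) {M : Type} [Field M] [CharZero M] [Algebra A2 M] {f : A2} (hf : Prime f)
    {w π : M} {O : ValuationSubring M} (hO : Place f w π O)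
    (hns : ∀ x : O, ¬ (x ^ 2 - (d : O) ∈ IsLocalRing.maximalIdeal O)) (w' : M)
    (hw' : O.valuation w' ≤ 1) (hsq : w' ^ 2 = algebraMap A2 M ((d : A2) * F0 m n))
    (Q : RPt m n d M) (hx : Q.x = algebraMap A2 M (X 0)) (hy : Q.y = algebraMap A2 M (X 1))
    (hz : Q.z = 1) (hw : Q.w = w') (g : M) (hg : g ≠ 0)
    (hs : α.val M (qring_field M) Q = sym M (d : M) g) :
    ∃ t : M, t ≠ 0 ∧ O.valuation g = O.valuation t ^ 2 := by
  have hd0 : d ≠ 0 := by
    rintro rfl
    exact hd ⟨0, by simp⟩
  obtain ⟨i1, i2⟩ := place_pid hO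
  have hQR : QRing O := by
    intro k hk
    rw [O.valuation_eq_one_iff]
    have h1 : (((k : O) : M)) = algebraMap A2 M (k : A2) := by
      rw [map_natCast]
      rfl
    rw [h1]
    apply hO.eq_one
    intro hdvd
    apply hf.irreducible.not_isUnit
    refine isUnit_of_dvd_unit hdvd ?_
    have h2 : IsUnit (C (k : ℚ) : A2) :=
      (isUnit_iff_ne_zero.2 (Nat.cast_ne_zero.2 hk)).map (C : ℚ →+* A2)
    rwa [map_natCast] at h2
  obtain ⟨u, t, hu, ht, hgt⟩ := even_at hd0 α hV O M hQR (qring_field M) hns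
    (evenNorm_pt m n d O hO.le_one w' hw' hsq) Q
    ⟨1, isUnit_one, by rw [hx, one_mul]; rfl, by rw [hy, one_mul]; rfl,
      by rw [hz, one_mul]; rfl, by rw [hw, one_pow, one_mul]; rfl⟩ g hg hs
  refine ⟨t, ht, ?_⟩
  rw [hgt, map_mul, map_pow, show O.valuation (algebraMap O M u) = 1 from
    (O.valuation_eq_one_iff u).1 hu, one_mul]

private theorem evenNorm_unram {K : Type} [Field K] [Algebra A2 K] [IsFractionRing A2 K]
    (f : A2) (hf : Prime f) (D : A2) (hD : ¬ SqMod f D) (p q : K) (h0 : ¬ (p = 0 ∧ q = 0)) :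
    EvenK A2 f (p ^ 2 - algebraMap A2 K D * q ^ 2) := by
  have hinj : Function.Injective (algebraMap A2 K) := IsFractionRing.injective A2 K
  obtain ⟨P, c, hc, rfl⟩ := IsFractionRing.div_surjective (A := A2) p
  obtain ⟨Q, c', hc', rfl⟩ := IsFractionRing.div_surjective (A := A2) q
  have hc0 : c ≠ 0 := nonZeroDivisors.ne_zero hc
  have hc0' : c' ≠ 0 := nonZeroDivisors.ne_zero hc'
  have hcK : algebraMap A2 K c ≠ 0 := fun h => hc0 (hinj (by rw [h, map_zero]))
  have hcK' : algebraMap A2 K c' ≠ 0 := fun h => hc0' (hinj (by rw [h, map_zero]))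
  have h1 : P * c' ≠ 0 ∨ Q * c ≠ 0 := by
    by_contra hcon
    push Not at hcon
    apply h0
    rw [(mul_eq_zero.1 hcon.1).resolve_right hc0', (mul_eq_zero.1 hcon.2).resolve_right hc0,
      map_zero, zero_div, zero_div]
    exact ⟨rfl, rfl⟩
  obtain ⟨a, b, e, hrel, he1, he2⟩ : ∃ a b e : A2, IsRelPrime a b ∧ e * a = P * c' ∧
      e * b = Q * c := by
    rcases h1 with h1 | h1
    · exact UniqueFactorizationMonoid.exists_reduced_factors _ h1 _
    · exact UniqueFactorizationMonoid.exists_reduced_factors' _ _ h1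
  have he0 : e ≠ 0 := by
    rintro rfl
    rw [zero_mul] at he1 he2
    rcases h1 with h1 | h1
    · exact h1 he1.symm
    · exact h1 he2.symm
  have heK : algebraMap A2 K e ≠ 0 := fun h => he0 (hinj (by rw [h, map_zero]))
  refine ⟨a ^ 2 - D * b ^ 2, 1, algebraMap A2 K e / (algebraMap A2 K c * algebraMap A2 K c'),
    ?_, ?_, ?_, ?_⟩
  · intro hdvd
    by_cases hb : f ∣ b
    · have h2 : f ∣ a ^ 2 := by
        have h3 : f ∣ D * b ^ 2 := Dvd.dvd.mul_left (Dvd.dvd.pow hb two_ne_zero) _
        have h4 := dvd_add hdvd h3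
        rwa [sub_add_cancel] at h4
      exact hf.irreducible.not_isUnit (hrel (hf.dvd_of_dvd_pow h2) hb)
    · exact hD ⟨a, b, hb, hdvd⟩
  · exact fun h => hf.irreducible.not_isUnit (isUnit_of_dvd_one h)
  · exact div_ne_zero heK (mul_ne_zero hcK hcK')
  · have h2 := congrArg (algebraMap A2 K) he1
    have h3 := congrArg (algebraMap A2 K) he2
    rw [map_mul, map_mul] at h2 h3
    rw [map_one, mul_one, map_sub, map_mul, map_pow, map_pow]
    field_simp
    linear_combination (-(algebraMap A2 K P * algebraMap A2 K c') -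
      algebraMap A2 K e * algebraMap A2 K a) * h2 + algebraMap A2 K D *
      (algebraMap A2 K Q * algebraMap A2 K c + algebraMap A2 K e * algebraMap A2 K b) * h3

private theorem evenNorm_sq {M : Type} [Field M] [Algebra A2 M] {d : ℤ} {f : A2} {w π : M}
    {O : ValuationSubring M} (hO : Place f w π O) (x : M) (hx1 : O.valuation x ≤ 1)
    (hx : O.valuation (x ^ 2 - d) < 1) (P R : A2) (hR : ¬ f ∣ R)
    (h : O.valuation (x * algebraMap A2 M R - algebraMap A2 M P) < 1) :
    SqMod f (d : A2) := by
  refine ⟨P, R, hR, ?_⟩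
  by_contra hcon
  have h1 := hO.eq_one _ hcon
  have h2 : algebraMap A2 M (P ^ 2 - (d : A2) * R ^ 2) =
      (x ^ 2 - d) * (algebraMap A2 M R) ^ 2 -
      (x * algebraMap A2 M R - algebraMap A2 M P) *
        (x * algebraMap A2 M R + algebraMap A2 M P) := by
    rw [map_sub, map_mul, map_pow, map_pow, map_intCast]
    ring
  have h3 : O.valuation ((x ^ 2 - d) * (algebraMap A2 M R) ^ 2) < 1 := by
    rw [map_mul]
    exact mul_lt_one_of_lt_of_le hx (by rw [map_pow]; exact pow_le_one₀ zero_le' (hO.le_one R))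
  have h4 : O.valuation ((x * algebraMap A2 M R - algebraMap A2 M P) *
        (x * algebraMap A2 M R + algebraMap A2 M P)) < 1 := by
    rw [map_mul]
    refine mul_lt_one_of_lt_of_le h ?_
    refine (Valuation.map_add _ _ _).trans (max_le ?_ (hO.le_one P))
    rw [map_mul]
    exact mul_le_one' hx1 (hO.le_one R)
  have h5 : O.valuation (algebraMap A2 M (P ^ 2 - (d : A2) * R ^ 2)) < 1 := by
    rw [h2]
    exact Valuation.map_sub_lt _ h3 h4
  exact h5.ne h1

private theorem evenNorm_inj {M : Type} [Field M] {O : ValuationSubring M} (π : M) (h0 : π ≠ 0)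
    (h1 : O.valuation π < 1) (i j : ℤ) (h : O.valuation π ^ i = O.valuation π ^ j) : i = j :=
  zpow_right_injective₀ (zero_lt_iff.2 ((Valuation.ne_zero_iff _).2 h0)) h1.ne h

theorem even_norm {m n d : ℤ} (hb : bad m n ≠ 0) (hd : ¬ IsSquare (d : ℚ)) (α : Fam m n d)
    (hV : Van α) {K M : Type} [Field K] [Field M] [CharZero M] [Algebra K M] [Algebra A2 K]
    [Algebra A2 M] {w : M} {τ : M ≃+* M} (G : Gen m n d K M w τ) (g : M) (hg : g ≠ 0)
    (hs : α.val M (qring_field M) (eta G) = sym M (d : M) g) (f : A2) (hf : Prime f)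
    (hns : ¬ SqMod f (d : A2)) (N : K) (hN : algebraMap K M N = g * τ g) : EvenK A2 f N := by
  have := G.frac
  have := G.tower
  have hinj : Function.Injective (algebraMap A2 K) := IsFractionRing.injective A2 K
  have hinjM : Function.Injective (algebraMap K M) := (algebraMap K M).injective
  have hd0 : d ≠ 0 := by
    rintro rfl
    exact hd ⟨0, by simp⟩
  have hτg : τ g ≠ 0 := fun h => hg (τ.injective (by rw [h, map_zero]))
  have hN0 : N ≠ 0 := by
    rintro rfl
    rw [map_zero] at hN
    exact mul_ne_zero hg hτg hN.symm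
  have hCu : ∀ q : ℚ, q ≠ 0 → IsUnit (C q : A2) := fun q hq =>
    (isUnit_iff_ne_zero.2 hq).map (C : ℚ →+* A2)
  have hdu : IsUnit (d : A2) := by
    have h1 := hCu (d : ℚ) (Int.cast_ne_zero.2 hd0)
    rwa [map_intCast] at h1
  have h2u : IsUnit (2 : A2) := by
    have h1 := hCu 2 two_ne_zero
    rwa [map_ofNat] at h1
  have hnu : ∀ u : A2, IsUnit u → ¬ f ∣ u := fun u hu h =>
    hf.irreducible.not_isUnit (isUnit_of_dvd_unit h hu)
  -- the conjugate point
  let Q' : RPt m n d M :=
    { x := algebraMap A2 M (X 0)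
      y := algebraMap A2 M (X 1)
      z := 1
      w := -w
      unimod := (eta G).unimod
      eq := by rw [neg_sq]; exact (eta G).eq }
  have hτA : ∀ a : A2, τ (algebraMap A2 M a) = algebraMap A2 M a := by
    intro a
    rw [IsScalarTower.algebraMap_apply A2 K M, G.quad.fix]
  have hs' : α.val M (qring_field M) Q' = sym M (d : M) (τ g) := by
    have h1 := α.nat M M (τ : M →+* M) (qring_field M) (qring_field M) (eta G) Q'
      ⟨1, isUnit_one, by rw [one_mul]; exact (hτA _).symm, by rw [one_mul]; exact (hτA _).symm,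
        by rw [one_mul]; exact (map_one τ).symm, by
          rw [one_pow, one_mul]
          exact G.quad.conj.symm⟩
    rw [← h1, hs, sym_map M M (τ : M →+* M) (d : M) g (IsUnit.mk0 g hg)
      (IsUnit.mk0 _ (Int.cast_ne_zero.2 hd0)) (IsUnit.mk0 _ two_ne_zero), map_intCast]
    rfl
  have hnsq : (-w) ^ 2 = algebraMap A2 M ((d : A2) * F0 m n) := by rw [neg_sq, G.sq]
  obtain ⟨j, a, b, ha, hb', hdec⟩ := evenNorm_dec f hf N hN0
  by_cases hfF : f ∣ F0 m n
  · -- ramified
    have hass : Associated f (F0 m n) :=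
      (hf.irreducible).associated_of_dvd (F0_prime hb).irreducible hfF
    obtain ⟨u, hu⟩ := hass
    have hD2 : ¬ f ^ 2 ∣ (d : A2) * F0 m n := by
      rw [← hu, show (d : A2) * (f * (u : A2)) = f * ((d : A2) * u) from by ring, pow_two]
      intro h
      exact hnu _ (hdu.mul u.isUnit) ((mul_dvd_mul_iff_left hf.ne_zero).1 h)
    obtain ⟨O, hO⟩ := place_ram A2 K M w τ G.quad ((d : A2) * F0 m n) f G.sq hf (hnu _ h2u)
      (Dvd.dvd.mul_left hfF _) hD2
    have hnsO : ∀ x : O, ¬ (x ^ 2 - (d : O) ∈ IsLocalRing.maximalIdeal O) := by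
      intro x hx
      rw [O.valuation_lt_one_iff] at hx
      obtain ⟨p, q, r, hr, hres⟩ := hO.res x (O.valuation_le_one x)
      refine hns (evenNorm_sq hO (x : M) (O.valuation_le_one x) hx p r hr ?_)
      have h1 : (x : M) * algebraMap A2 M r - algebraMap A2 M p =
          ((x : M) * algebraMap A2 M r - algebraMap A2 M p - algebraMap A2 M q * w) +
          algebraMap A2 M q * w := by ring
      rw [h1]
      refine Valuation.map_add_lt _ hres ?_
      rw [map_mul, mul_comm]
      exact mul_lt_one_of_lt_of_le hO.pi_lt (hO.le_one q)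
    obtain ⟨t, ht, hvt⟩ := evenNorm_key hd α hV hf hO hnsO w hO.w_le G.sq (eta G) rfl rfl rfl rfl
      g hg hs
    obtain ⟨t', ht', hvt'⟩ := evenNorm_key hd α hV hf hO hnsO (-w)
      (by rw [Valuation.map_neg]; exact hO.w_le) hnsq Q' rfl rfl rfl rfl (τ g) hτg hs'
    have hvf : O.valuation (algebraMap A2 M f) = O.valuation w ^ (2 : ℤ) := by
      have h1 : O.valuation (w ^ 2) = O.valuation (algebraMap A2 M f) := by
        rw [G.sq, ← hu, show (d : A2) * (f * (u : A2)) = ((d : A2) * u) * f from by ring,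
          map_mul, map_mul, hO.eq_one _ (hnu _ (hdu.mul u.isUnit)), one_mul]
      rw [← h1, map_pow]
      rfl
    have hval : ∀ (z : K), z ≠ 0 → ∃ i : ℤ, O.valuation (algebraMap K M z) =
        O.valuation w ^ (2 * i) := by
      intro z hz
      obtain ⟨i, a, b, ha, hb, h⟩ := evenNorm_dec f hf z hz
      refine ⟨i, ?_⟩
      rw [evenNorm_val hO z i a b ha hb h, hvf, zpow_mul]
    have hw0 : O.valuation w ≠ 0 := (Valuation.ne_zero_iff _).2 hO.pi_ne
    have hvg : O.valuation g = O.valuation (τ g) := by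
      obtain ⟨p, q, hpq⟩ := G.quad.gen g
      have h1 : τ g = algebraMap K M p + -(algebraMap K M q * w) := by
        rw [hpq, map_add, map_mul, G.quad.fix, G.quad.fix, G.quad.conj, mul_neg]
      by_cases hp : p = 0
      · rw [h1, hpq, hp, map_zero, zero_add, zero_add, Valuation.map_neg]
      · by_cases hq : q = 0
        · rw [h1, hpq, hq, map_zero, zero_mul, neg_zero]
        · have h2 : O.valuation (algebraMap K M p) ≠ O.valuation (algebraMap K M q * w) := by
            obtain ⟨i, hi⟩ := hval p hp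
            obtain ⟨l, hl⟩ := hval q hq
            rw [map_mul, hi, hl]
            intro h3
            have h4 : O.valuation w ^ (2 * l) * O.valuation w = O.valuation w ^ (2 * l + 1) := by
              rw [zpow_add₀ hw0, zpow_one]
            rw [h4] at h3
            have h5 := evenNorm_inj w hO.pi_ne hO.pi_lt _ _ h3
            omega
          rw [h1, hpq, Valuation.map_add_of_distinct_val _ h2,
            Valuation.map_add_of_distinct_val _ (by rwa [Valuation.map_neg]),
            Valuation.map_neg]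
    obtain ⟨k, hk⟩ := hO.pow t ht
    obtain ⟨k', hk'⟩ := hO.pow t' ht'
    have e1 : O.valuation g = O.valuation w ^ (k * 2) := by
      rw [hvt, hk, zpow_mul]
      rfl
    have e2 : O.valuation (τ g) = O.valuation w ^ (k' * 2) := by
      rw [hvt', hk', zpow_mul]
      rfl
    have e3 : k * 2 = k' * 2 := evenNorm_inj w hO.pi_ne hO.pi_lt _ _ (by rw [← e1, ← e2, hvg])
    have e4 : O.valuation (algebraMap K M N) = O.valuation w ^ (k * 2 + k' * 2) := by
      rw [hN, map_mul, e1, e2, zpow_add₀ hw0]
    have e5 : O.valuation (algebraMap K M N) = O.valuation w ^ (2 * j) := by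
      rw [evenNorm_val hO N j a b ha hb' hdec, hvf, zpow_mul]
    have e6 : k * 2 + k' * 2 = 2 * j := evenNorm_inj w hO.pi_ne hO.pi_lt _ _ (by rw [← e4, ← e5])
    exact evenNorm_of_even f hf N j k a b ha hb' hdec (by omega)
  · -- unramified
    obtain ⟨O, hO⟩ := place_unram A2 K M w τ G.quad ((d : A2) * F0 m n) f G.sq hf (hnu _ h2u)
      (fun h => (hf.dvd_or_dvd h).elim (hnu _ hdu) hfF)
    by_cases hnsO : ∀ x : O, ¬ (x ^ 2 - (d : O) ∈ IsLocalRing.maximalIdeal O)
    · obtain ⟨t, ht, hvt⟩ := evenNorm_key hd α hV hf hO hnsO w hO.w_le G.sq (eta G) rfl rfl rfl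
        rfl g hg hs
      obtain ⟨t', ht', hvt'⟩ := evenNorm_key hd α hV hf hO hnsO (-w)
        (by rw [Valuation.map_neg]; exact hO.w_le) hnsq Q' rfl rfl rfl rfl (τ g) hτg hs'
      obtain ⟨k, hk⟩ := hO.pow t ht
      obtain ⟨k', hk'⟩ := hO.pow t' ht'
      have hf0 : O.valuation (algebraMap A2 M f) ≠ 0 := (Valuation.ne_zero_iff _).2 hO.pi_ne
      have e1 : O.valuation g = O.valuation (algebraMap A2 M f) ^ (k * 2) := by
        rw [hvt, hk, zpow_mul]
        rfl
      have e2 : O.valuation (τ g) = O.valuation (algebraMap A2 M f) ^ (k' * 2) := by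
        rw [hvt', hk', zpow_mul]
        rfl
      have e4 : O.valuation (algebraMap K M N) =
          O.valuation (algebraMap A2 M f) ^ (k * 2 + k' * 2) := by
        rw [hN, map_mul, e1, e2, zpow_add₀ hf0]
      have e5 := evenNorm_val hO N j a b ha hb' hdec
      have e6 : k * 2 + k' * 2 = j :=
        evenNorm_inj _ hO.pi_ne hO.pi_lt _ _ (by rw [← e4, ← e5])
      exact evenNorm_of_even f hf N j (k + k') a b ha hb' hdec (by omega)
    · push Not at hnsO
      obtain ⟨x, hx⟩ := hnsO
      rw [O.valuation_lt_one_iff] at hx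
      have hD : ¬ SqMod f ((d : A2) * F0 m n) := by
        rintro ⟨r0, q0, hq0, hdvd⟩
        apply hns
        obtain ⟨c, hc⟩ := hdvd
        have h1 : O.valuation ((w * algebraMap A2 M q0 - algebraMap A2 M r0) *
            (w * algebraMap A2 M q0 + algebraMap A2 M r0)) < 1 := by
          have h2 : (w * algebraMap A2 M q0 - algebraMap A2 M r0) *
            (w * algebraMap A2 M q0 + algebraMap A2 M r0) =
            -(algebraMap A2 M f * algebraMap A2 M c) := by
            rw [← map_mul, ← hc, map_sub, map_mul, map_pow, map_pow, ← G.sq]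
            ring
          rw [h2, Valuation.map_neg, map_mul]
          exact mul_lt_one_of_lt_of_le hO.f_lt (hO.le_one c)
        obtain ⟨r1, hr1⟩ : ∃ r1 : A2, O.valuation (w * algebraMap A2 M q0 -
            algebraMap A2 M r1) < 1 := by
          by_contra hcon
          push Not at hcon
          have h2 := hcon r0
          have h3 := hcon (-r0)
          rw [map_neg, sub_neg_eq_add] at h3
          rw [map_mul] at h1
          exact absurd h1 (not_lt.2 (one_le_mul h2 h3))
        obtain ⟨p, q, r, hr, hres⟩ := hO.res x (O.valuation_le_one x)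
        refine evenNorm_sq hO (x : M) (O.valuation_le_one x) hx (p * q0 + q * r1) (r * q0)
          (fun h => (hf.dvd_or_dvd h).elim hr hq0) ?_
        have h2 : (x : M) * algebraMap A2 M (r * q0) - algebraMap A2 M (p * q0 + q * r1) =
            ((x : M) * algebraMap A2 M r - algebraMap A2 M p - algebraMap A2 M q * w) *
              algebraMap A2 M q0 +
            (w * algebraMap A2 M q0 - algebraMap A2 M r1) * algebraMap A2 M q := by
          simp only [map_mul, map_add]
          ring
        rw [h2]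
        refine Valuation.map_add_lt _ ?_ ?_
        · rw [map_mul]
          exact mul_lt_one_of_lt_of_le hres (hO.le_one q0)
        · rw [map_mul]
          exact mul_lt_one_of_lt_of_le hr1 (hO.le_one q)
      obtain ⟨p, q, hpq⟩ := G.quad.gen g
      have hw2 : w ^ 2 = algebraMap K M (algebraMap A2 K ((d : A2) * F0 m n)) := by
        rw [G.sq, IsScalarTower.algebraMap_apply A2 K M]
      have h1 := QuadExt.norm_eq G.quad _ hw2 p q
      rw [← hpq, ← hN] at h1
      rw [hinjM h1]
      apply evenNorm_unram f hf _ hD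
      rintro ⟨rfl, rfl⟩
      apply hg
      rw [hpq, map_zero, zero_mul, add_zero]

end Pool.Agent.Helper8.XS
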