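import Pool.Agent.Helper8.XS.Contact
import Pool.Agent.Helper8.XS.FIrr

set_option autoImplicit false

/-! XS-24 -/

open scoped TensorProduct
open MvPolynomial

namespace Pool.Agent.Helper8.XS

open Pool.Agent.Helper8.BR Pool.Agent.Helper8.DP2

/-- the homogenisation of a polynomial in two variables -/
private noncomputable def etGh {S : Type} [CommRing S] [Algebra ℚ S] (G : A2) (e : ℕ)
    (u v w : S) : S :=
  ∑ s ∈ G.support, algebraMap ℚ S (G.coeff s) * (u ^ s 0 * v ^ s 1 * w ^ (e - s 0 - s 1))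

private lemma etGh_map {S S' : Type} [CommRing S] [Algebra ℚ S] [CommRing S'] [Algebra ℚ S']
    (f : S →+* S') (G : A2) (e : ℕ) (u v w : S) :
    f (etGh G e u v w) = etGh G e (f u) (f v) (f w) := by
  unfold etGh
  rw [map_sum]
  refine Finset.sum_congr rfl fun s _ => ?_
  rw [map_mul, map_mul, map_mul, map_pow, map_pow, map_pow, RingHom.map_rat_algebraMap]

private lemma etGh_div {L : Type} [Field L] [Algebra ℚ L] (G : A2) (e : ℕ)
    (he : ∀ s ∈ G.support, s 0 + s 1 ≤ e) (u v w : L) (hw : w ≠ 0) :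
    w ^ e * (aeval ![u / w, v / w] : A2 →ₐ[ℚ] L) G = etGh G e u v w := by
  rw [aeval_def, eval₂_eq', Finset.mul_sum]
  unfold etGh
  refine Finset.sum_congr rfl fun s hs => ?_
  rw [Fin.prod_univ_two]
  have h1 : w ^ e = w ^ (s 0) * w ^ (s 1) * w ^ (e - s 0 - s 1) := by
    rw [← pow_add, ← pow_add]
    congr 1
    have := he s hs
    omega
  rw [h1]
  simp only [Matrix.cons_val_zero, Matrix.cons_val_one, div_pow]
  have h2 : w ^ (s 0) ≠ 0 := pow_ne_zero _ hw
  have h3 : w ^ (s 1) ≠ 0 := pow_ne_zero _ hw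
  field_simp

/-- extension of a homomorphism to a quadratic extension -/
private lemma et_exists_ext {K M Ω : Type} [Field K] [Field M] [Field Ω] [Algebra K M] {w : M}
    {τ : M ≃+* M} (h : QuadExt K M w τ) (ψ : K →+* Ω) (ω : Ω) (D : K)
    (hD : w ^ 2 = algebraMap K M D) (hω : ω ^ 2 = ψ D) :
    ∃ Ψ : M →+* Ω, (∀ x, Ψ (algebraMap K M x) = ψ x) ∧ Ψ w = ω := by
  have uniq : ∀ a b a' b' : K, algebraMap K M a + algebraMap K M b * w =
      algebraMap K M a' + algebraMap K M b' * w → a = a' ∧ b = b' := by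
    intro a b a' b' he
    have hb : b = b' := by
      by_contra hne
      have hne' : algebraMap K M (b' - b) ≠ 0 := by
        rw [Ne, map_eq_zero]
        exact sub_ne_zero.2 (Ne.symm hne)
      apply h.notin ((a - a') / (b' - b))
      rw [map_div₀]
      rw [div_eq_iff hne', map_sub, map_sub]
      linear_combination he
    refine ⟨?_, hb⟩
    rw [hb] at he
    exact (algebraMap K M).injective (add_right_cancel he)
  choose a b hab using h.gen
  have ha : ∀ x : K, a (algebraMap K M x) = x ∧ b (algebraMap K M x) = 0 := by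
    intro x
    apply uniq
    rw [← hab, map_zero, zero_mul, add_zero]
  have hw : a w = 0 ∧ b w = 1 := by
    apply uniq
    rw [← hab, map_zero, map_one, one_mul, zero_add]
  have hadd : ∀ x y : M, a (x + y) = a x + a y ∧ b (x + y) = b x + b y := by
    intro x y
    apply uniq
    rw [← hab, map_add, map_add]
    conv_lhs => rw [hab x, hab y]
    ring
  have hmul : ∀ x y : M, a (x * y) = a x * a y + b x * b y * D ∧
      b (x * y) = a x * b y + b x * a y := by
    intro x y
    apply uniq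
    rw [← hab, map_add, map_add, map_mul, map_mul, map_mul, map_mul, map_mul, ← hD]
    conv_lhs => rw [hab x, hab y]
    ring
  have h1 := ha 1
  have h0 := ha 0
  rw [map_one] at h1
  rw [map_zero] at h0
  refine ⟨{ toFun := fun x => ψ (a x) + ψ (b x) * ω
            map_one' := ?_
            map_zero' := ?_
            map_add' := ?_
            map_mul' := ?_ }, ?_, ?_⟩
  · rw [h1.1, h1.2, map_one, map_zero, zero_mul, add_zero]
  · intro x y
    rw [(hmul x y).1, (hmul x y).2, map_add, map_add, map_mul, map_mul, map_mul, map_mul,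
      map_mul, ← hω]
    ring
  · rw [h0.1, h0.2, map_zero, zero_mul, add_zero]
  · intro x y
    rw [(hadd x y).1, (hadd x y).2, map_add, map_add]
    ring
  · intro x
    change ψ (a (algebraMap K M x)) + ψ (b (algebraMap K M x)) * ω = ψ x
    rw [(ha x).1, (ha x).2, map_zero, zero_mul, add_zero]
  · change ψ (a w) + ψ (b w) * ω = ω
    rw [hw.1, hw.2, map_zero, map_one, one_mul, zero_add]

private lemma et_hom {L : Type} [Field L] (m n : ℤ) (x y : L) (hx : x ≠ 0) :
    F m n (1 / x) (y / x) 1 = F m n x y 1 / (x ^ 2) ^ 2 := by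
  unfold F
  field_simp
  ring

private lemma et_lin {L : Type} [Field L] (m n : ℤ) (x y : L) (hx : x ≠ 0) (i : Fin 7) :
    x * lin m n (1 / x) (y / x) 1 i = lin m n 1 y x i := by
  fin_cases i <;> simp only [lin] <;> simp <;> field_simp

private lemma et_lin_map {R S : Type} [CommRing R] [CommRing S] (f : R →+* S) (m n : ℤ)
    (x y z : R) (i : Fin 7) : f (lin m n x y z i) = lin m n (f x) (f y) (f z) i := by
  fin_cases i <;> simp [lin]

private lemma et_lin_ne {m n : ℤ} (hb : bad m n ≠ 0) (i : Fin 7) :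
    lin m n (1 : ℚ) 1 0 i ≠ 0 := by
  have hm : (m : ℚ) ≠ 0 := by
    intro h
    apply hb
    have : m = 0 := by exact_mod_cast h
    rw [this]
    simp [bad]
  have hn : (n : ℚ) ≠ 0 := by
    intro h
    apply hb
    have : n = 0 := by exact_mod_cast h
    rw [this]
    simp [bad]
  have h1 : (m : ℚ) - n ≠ 0 := by
    intro h
    apply hb
    have : m = n := by exact_mod_cast sub_eq_zero.1 h
    rw [this]
    simp [bad]
  have h2 : (n : ℚ) + m ≠ 0 := by
    intro h
    apply hb
    have : n = - m := by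
      have : (n : ℚ) = ((-m : ℤ) : ℚ) := by
        push_cast
        linear_combination h
      exact_mod_cast this
    rw [this]
    simp [bad]
  fin_cases i <;> simp [lin, hm, hn, h1, h2]

/-- reduction modulo the first variable -/
private noncomputable def etRed : A2 →+* Polynomial ℚ :=
  (aeval ![(0 : Polynomial ℚ), Polynomial.X] : A2 →ₐ[ℚ] Polynomial ℚ).toRingHom

private lemma etRed_X0 : etRed (X 0) = 0 := by
  unfold etRed
  simp

private lemma etRed_dvd (q : A2) (hq : etRed q = 0) : X 0 ∣ q := by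
  have h : ∀ q : A2, X 0 ∣ q - (Polynomial.aeval (X 1 : A2)) (etRed q) := by
    intro q
    induction q using MvPolynomial.induction_on with
    | C a =>
      have : etRed (C a) = Polynomial.C a := by
        unfold etRed
        simp
      rw [this]
      simp
    | add p q hp hq =>
      rw [map_add, map_add]
      have := dvd_add hp hq
      convert this using 1
      ring
    | mul_X p i hp =>
      rw [map_mul, map_mul]
      have hi : X 0 ∣ (X i : A2) - (Polynomial.aeval (X 1 : A2)) (etRed (X i)) := by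
        fin_cases i
        · have : etRed (X 0) = 0 := etRed_X0
          simp [this]
        · have : etRed (X 1) = Polynomial.X := by
            unfold etRed
            simp
          simp [this]
      have := dvd_add (Dvd.dvd.mul_right hp (X i))
        (Dvd.dvd.mul_left hi ((Polynomial.aeval (X 1 : A2)) (etRed p)))
      convert this using 1
      ring
  have h1 := h q
  rwa [hq, map_zero, sub_zero] at h1

private lemma et_notsq {d : ℤ} (hd : ¬ IsSquare (d : ℚ)) : ¬ SqMod (X 0 : A2) (d : A2) := by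
  rintro ⟨r, q, hq, s, hs⟩
  have h1 := congrArg etRed hs
  rw [map_sub, map_pow, map_mul, map_pow, map_mul, etRed_X0, zero_mul, map_intCast,
    sub_eq_zero] at h1
  have hq' : etRed q ≠ 0 := fun h => hq (etRed_dvd q h)
  have h2 := congrArg Polynomial.leadingCoeff h1
  have h3 : ((d : ℤ) : Polynomial ℚ) = Polynomial.C (d : ℚ) := by simp
  rw [h3, Polynomial.leadingCoeff_mul, Polynomial.leadingCoeff_pow, Polynomial.leadingCoeff_pow,
    Polynomial.leadingCoeff_C] at h2
  have h4 : (etRed q).leadingCoeff ≠ 0 := Polynomial.leadingCoeff_ne_zero.2 hq'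
  apply hd
  refine ⟨(etRed r).leadingCoeff / (etRed q).leadingCoeff, ?_⟩
  rw [div_mul_div_comm, ← pow_two, ← pow_two, h2, mul_div_assoc, div_self (pow_ne_zero 2 h4),
    mul_one]

private lemma et_pow_eq {A : Type} [CommRing A] [IsDomain A] {f : A} (hf : f ≠ 0) (i j : ℕ)
    (u v : A) (hu : ¬ f ∣ u) (hv : ¬ f ∣ v) (h : f ^ i * u = f ^ j * v) : i = j := by
  rcases lt_trichotomy i j with hlt | heq | hlt
  · exfalso
    apply hu
    obtain ⟨k, rfl⟩ := Nat.exists_eq_add_of_lt hlt
    have h1 : f ^ i * u = f ^ i * (f * (f ^ k * v)) := by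
      rw [h]
      ring
    exact ⟨_, mul_left_cancel₀ (pow_ne_zero i hf) h1⟩
  · exact heq
  · exfalso
    apply hv
    obtain ⟨k, rfl⟩ := Nat.exists_eq_add_of_lt hlt
    have h1 : f ^ j * v = f ^ j * (f * (f ^ k * u)) := by
      rw [← h]
      ring
    exact ⟨_, mul_left_cancel₀ (pow_ne_zero j hf) h1⟩

/-- odd order -/
private lemma et_odd {A K : Type} [CommRing A] [IsDomain A] [UniqueFactorizationMonoid A]
    [Field K] [Algebra A K] [IsFractionRing A K] {f : A} (hf : Prime f) (t : K) (N : ℕ)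
    (P : A) (hP : ¬ f ∣ P) (ht : t * algebraMap A K f ^ N = algebraMap A K P)
    (he : EvenK A f t) : Even N := by
  obtain ⟨a, b, h, ha, hb, hh, e⟩ := he
  obtain ⟨p, q, hq, hpq⟩ := IsFractionRing.div_surjective (A := A) h
  have hq0 : q ≠ 0 := nonZeroDivisors.ne_zero hq
  have hp0 : p ≠ 0 := by
    rintro rfl
    apply hh
    rw [← hpq, map_zero, zero_div]
  have hq1 : algebraMap A K q ≠ 0 := by
    rw [Ne, map_eq_zero_iff _ (IsFractionRing.injective A K)]
    exact hq0
  obtain ⟨k, p', hp', hk⟩ := WfDvdMonoid.max_power_factor hp0 hf.irreducible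
  obtain ⟨l, q', hq', hl⟩ := WfDvdMonoid.max_power_factor hq0 hf.irreducible
  have e2 : P * b * q ^ 2 = a * p ^ 2 * f ^ N := by
    apply IsFractionRing.injective A K
    rw [map_mul, map_mul, map_mul, map_mul, map_pow, map_pow, map_pow, ← ht]
    have e3 : h * algebraMap A K q = algebraMap A K p := by
      rw [← hpq, div_mul_cancel₀ _ hq1]
    rw [← e3]
    linear_combination (algebraMap A K f ^ N * algebraMap A K q ^ 2) * e
  have e4 : f ^ (2 * l) * (P * b * q' ^ 2) = f ^ (2 * k + N) * (a * p' ^ 2) := by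
    rw [hk, hl] at e2
    linear_combination e2
  have n1 : ¬ f ∣ P * b * q' ^ 2 := by
    intro h
    rcases hf.dvd_or_dvd h with h | h
    · rcases hf.dvd_or_dvd h with h | h
      · exact hP h
      · exact hb h
    · exact hq' (hf.dvd_of_dvd_pow h)
  have n2 : ¬ f ∣ a * p' ^ 2 := by
    intro h
    rcases hf.dvd_or_dvd h with h | h
    · exact ha h
    · exact hp' (hf.dvd_of_dvd_pow h)
  have e5 := et_pow_eq hf.ne_zero _ _ _ _ n1 n2 e4
  exact ⟨l - k, by omega⟩

theorem even_card {m n d : ℤ} (hb : bad m n ≠ 0) (hd : ¬ IsSquare (d : ℚ)) (α : Fam m n d)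
    (hV : Van α) {K M : Type} [Field K] [Field M] [CharZero M] [Algebra K M] [Algebra A2 K]
    [Algebra A2 M] {w : M} {τ : M ≃+* M} (G : Gen m n d K M w τ) (c : ℚ) (hc : c ≠ 0)
    (T : Finset (Fin 7))
    (hs : α.val M (qring_field M) (eta G) =
      sym M (d : M) (algebraMap A2 M (MvPolynomial.C c * ∏ i ∈ T, linA m n i))) :
    Even T.card := by
  by_contra hodd
  have := G.frac
  have := G.tower
  have hd0 : d ≠ 0 := by
    rintro rfl
    exact hd ⟨0, by simp⟩
  have hAK : Function.Injective (algebraMap A2 K) := IsFractionRing.injective A2 K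
  have hKc : CharZero K := charZero_of_injective_algebraMap hAK
  obtain ⟨a, ha⟩ : ∃ a : K, a = algebraMap A2 K (X 0) := ⟨_, rfl⟩
  obtain ⟨b, hbb⟩ : ∃ b : K, b = algebraMap A2 K (X 1) := ⟨_, rfl⟩
  have ha0 : a ≠ 0 := by
    rw [ha, Ne, map_eq_zero_iff _ hAK]
    exact X_ne_zero 0
  obtain ⟨ψ₀, hψ₀⟩ : ∃ ψ : A2 →+* K, ψ = (aeval ![1 / a, b / a] : A2 →ₐ[ℚ] K).toRingHom :=
    ⟨_, rfl⟩
  have hψX0 : ψ₀ (X 0) = 1 / a := by
    rw [hψ₀]
    simp
  have hψX1 : ψ₀ (X 1) = b / a := by
    rw [hψ₀]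
    simp
  have hψC : ∀ x : ℚ, ψ₀ (C x) = algebraMap ℚ K x := by
    intro x
    rw [hψ₀]
    simp
  have hinj : Function.Injective ψ₀ := by
    rw [injective_iff_map_eq_zero]
    intro g hg
    have he : ∀ s ∈ g.support, s 0 + s 1 ≤ g.totalDegree := by
      intro s hs
      have h1 := le_totalDegree hs
      rwa [Finsupp.sum_fintype _ _ (fun _ => rfl), Fin.sum_univ_two] at h1
    have h1 := etGh_div g g.totalDegree he 1 b a ha0
    have h2 : (aeval ![1 / a, b / a] : A2 →ₐ[ℚ] K) g = 0 := by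
      rw [hψ₀] at hg
      exact hg
    have h3 : algebraMap A2 K (etGh g g.totalDegree 1 (X 1) (X 0)) = 0 := by
      rw [etGh_map, map_one, ← ha, ← hbb, ← h1, h2, mul_zero]
    have h4 : etGh g g.totalDegree 1 (X 1) (X 0) = (0 : A2) := (map_eq_zero_iff _ hAK).1 h3
    have h5 := congrArg ψ₀ h4
    rw [etGh_map, map_one, hψX0, hψX1, map_zero] at h5
    have ha1 : 1 / a ≠ 0 := one_div_ne_zero ha0
    have h6 := etGh_div g g.totalDegree he 1 (b / a) (1 / a) ha1
    rw [h5] at h6
    have h7 : (1 : K) / (1 / a) = a := by field_simp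
    have h8 : b / a / (1 / a) = b := by field_simp
    rw [h7, h8] at h6
    have h9 := (mul_eq_zero.1 h6).resolve_left (pow_ne_zero _ ha1)
    have h10 : algebraMap A2 K g = 0 := by
      rw [← h9]
      have : (algebraMap A2 K) = (aeval ![a, b] : A2 →ₐ[ℚ] K).toRingHom := by
        apply MvPolynomial.ringHom_ext
        · intro r
          have h11 := eq_ratCast ((algebraMap A2 K).comp C) r
          rw [RingHom.comp_apply] at h11
          simp [h11]
        · intro i
          fin_cases i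
          · simp [ha]
          · simp [hbb]
      rw [this]
      rfl
    exact (map_eq_zero_iff _ hAK).1 h10
  obtain ⟨ψ, hψ⟩ : ∃ ψ : K →+* K, ∀ q : A2, ψ (algebraMap A2 K q) = ψ₀ q :=
    ⟨IsFractionRing.lift hinj, fun q => IsFractionRing.lift_algebraMap hinj q⟩
  have hD : w ^ 2 = algebraMap K M (algebraMap A2 K ((d : A2) * F0 m n)) := by
    rw [G.sq, ← IsScalarTower.algebraMap_apply]
  have ha0' : algebraMap K M a ≠ 0 := by
    rw [Ne, map_eq_zero]
    exact ha0
  have hF0 : ψ₀ ((d : A2) * F0 m n) = (d : K) * F m n (1 / a) (b / a) 1 := by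
    rw [map_mul, map_intCast]
    unfold F0
    rw [← F_map ψ₀, hψX0, hψX1, map_one]
  have hF1 : algebraMap A2 K ((d : A2) * F0 m n) = (d : K) * F m n a b 1 := by
    rw [map_mul, map_intCast]
    unfold F0
    rw [← F_map, map_one, ← ha, ← hbb]
  have hω : (w / algebraMap K M a ^ 2) ^ 2 =
      ((algebraMap K M).comp ψ) (algebraMap A2 K ((d : A2) * F0 m n)) := by
    rw [RingHom.comp_apply, hψ, hF0, et_hom m n a b ha0, div_pow, hD, hF1, ← mul_div_assoc,
      map_div₀, map_pow, map_pow]
  obtain ⟨Θ, hΘ1, hΘ2⟩ := et_exists_ext G.quad ((algebraMap K M).comp ψ)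
    (w / algebraMap K M a ^ 2) _ hD hω
  have hΘA : ∀ q : A2, Θ (algebraMap A2 M q) = algebraMap K M (ψ₀ q) := by
    intro q
    rw [IsScalarTower.algebraMap_apply A2 K M, hΘ1, RingHom.comp_apply, hψ]
  have n1 := α.nat M M Θ (qring_field M) (qring_field M) (eta G) (eta G).swap
    ⟨algebraMap K M a, isUnit_iff_ne_zero.2 ha0', by
      change (1 : M) = algebraMap K M a * Θ (algebraMap A2 M (X 0))
      rw [hΘA, hψX0, ← map_mul, mul_one_div_cancel ha0, map_one], by
      change algebraMap A2 M (X 1) = algebraMap K M a * Θ (algebraMap A2 M (X 1))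
      rw [hΘA, hψX1, ← map_mul, mul_div_cancel₀ _ ha0, hbb, ← IsScalarTower.algebraMap_apply], by
      change algebraMap A2 M (X 0) = algebraMap K M a * Θ 1
      rw [map_one, mul_one, ha, ← IsScalarTower.algebraMap_apply], by
      change w = algebraMap K M a ^ 2 * Θ w
      rw [hΘ2, mul_div_cancel₀ _ (pow_ne_zero 2 ha0')]⟩
  obtain ⟨P, hP⟩ : ∃ P : A2, P = C c * ∏ i ∈ T, lin m n 1 (X 1) (X 0) i := ⟨_, rfl⟩
  obtain ⟨t, ht⟩ : ∃ t : K, t = ψ₀ (C c * ∏ i ∈ T, linA m n i) := ⟨_, rfl⟩
  have htP : t * algebraMap A2 K (X 0) ^ T.card = algebraMap A2 K P := by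
    have h1 : ∀ i, ψ₀ (linA m n i) = lin m n (1 / a) (b / a) 1 i := by
      intro i
      unfold linA
      rw [et_lin_map, hψX0, hψX1, map_one]
    have h2 : ∀ i, algebraMap A2 K (lin m n 1 (X 1) (X 0) i) = lin m n 1 b a i := by
      intro i
      rw [et_lin_map, map_one, ← ha, ← hbb]
    have h3 : algebraMap A2 K (C c) = ψ₀ (C c) := by
      have h4 := eq_ratCast ((algebraMap A2 K).comp C) c
      have h5 := eq_ratCast (ψ₀.comp C) c
      rw [RingHom.comp_apply] at h4 h5
      rw [h4, h5]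
    rw [ht, hP, map_mul, map_mul, map_prod, map_prod, h3, ← ha, mul_assoc, ← Finset.prod_const,
      ← Finset.prod_mul_distrib]
    congr 1
    refine Finset.prod_congr rfl fun i _ => ?_
    rw [h1, h2, mul_comm, et_lin m n a b ha0 i]
  have hPX : ¬ (X 0 : A2) ∣ P := by
    rintro ⟨q, hq⟩
    have h1 := congrArg (aeval ![(0 : ℚ), 1] : A2 →ₐ[ℚ] ℚ).toRingHom hq
    rw [map_mul, hP, map_mul, map_prod] at h1
    have h2 : (aeval ![(0 : ℚ), 1] : A2 →ₐ[ℚ] ℚ).toRingHom (X 0) = 0 := by simp
    have h3 : (aeval ![(0 : ℚ), 1] : A2 →ₐ[ℚ] ℚ).toRingHom (X 1) = 1 := by simp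
    have h4 : (aeval ![(0 : ℚ), 1] : A2 →ₐ[ℚ] ℚ).toRingHom (C c) = c := by simp
    rw [h2, h4, zero_mul] at h1
    rcases mul_eq_zero.1 h1 with h5 | h5
    · exact hc h5
    · rw [Finset.prod_eq_zero_iff] at h5
      obtain ⟨i, -, hi⟩ := h5
      rw [et_lin_map, map_one, h2, h3] at hi
      exact et_lin_ne hb i hi
  have hX : Prime (X 0 : A2) := MvPolynomial.X_prime
  have hP0 : P ≠ 0 := by
    intro h
    exact hPX (h ▸ dvd_zero _)
  have ht0 : t ≠ 0 := by
    intro h
    rw [h, zero_mul] at htP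
    exact hP0 ((map_eq_zero_iff _ hAK).1 htP.symm)
  have h2M : IsUnit (2 : M) := isUnit_iff_ne_zero.2 two_ne_zero
  have hdM : IsUnit (d : M) := isUnit_iff_ne_zero.2 (Int.cast_ne_zero.2 hd0)
  have hVs : Van α.swap := fun R _ _ _ _ h δ hδ Q => hV R h δ hδ Q.swap
  have hcon := contact hb hd α.swap hVs G t ht0 (by
    change α.val M (qring_field M) (eta G).swap = _
    have hu : IsUnit (algebraMap A2 M (C c * ∏ i ∈ T, linA m n i)) := by
      rw [isUnit_iff_ne_zero]
      intro h
      have h1 := hΘA (C c * ∏ i ∈ T, linA m n i)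
      rw [h, map_zero, ← ht] at h1
      exact ht0 ((map_eq_zero _).1 h1.symm)
    rw [← n1, hs, sym_map M M Θ _ _ hu hdM h2M, hΘA, map_intCast, ht]) (X 0) hX
    (et_notsq hd) (fun h => F0_coord hb ⟨0, 1, hX.not_dvd_one, by
      have : (0 : A2) ^ 2 - F0 m n * 1 ^ 2 = - F0 m n := by ring
      rw [this]
      exact (dvd_neg).2 h⟩)
    (fun he => hodd (et_odd hX t T.card P hPX htP he))
  exact F0_coord hb hcon

end Pool.Agent.Helper8.XS
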