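import Pool.Agent.Helper8.XS.Herm

set_option autoImplicit false

/-! XS-26: the classes `A_T` as families -/

open scoped TensorProduct
open MvPolynomial

namespace Pool.Agent.Helper8.XS

open Pool.Agent.Helper8.BR Pool.Agent.Helper8.DP2

private theorem FamA_isUnit_int {R : Type} [CommRing R] (h : QRing R) {d : ℤ} (hd : d ≠ 0) :
    IsUnit (d : R) := by
  have h1 := h d.natAbs (Int.natAbs_ne_zero.2 hd)
  rcases Int.natAbs_eq d with h2 | h2
  · rw [h2, Int.cast_natCast]; exact h1
  · rw [h2, Int.cast_neg, Int.cast_natCast]; exact h1.neg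

private theorem FamA_isUnit_two {R : Type} [CommRing R] (h : QRing R) : IsUnit (2 : R) := by
  have h1 := h 2 two_ne_zero
  rwa [Nat.cast_ofNat] at h1

private theorem FamA_sq (R : Type) [CommRing R] (d u : R) (hu : IsUnit u) :
    sym R d (u * u) = 0 :=
  sym_norm R d (u * u) u 0 (hu.mul hu) (by ring)

private theorem FamA_two (R : Type) [CommRing R] (d u : R) (hu : IsUnit u) :
    sym R d u + sym R d u = 0 := by
  rw [← sym_mul R d u u hu hu]
  exact FamA_sq R d u hu

private theorem FamA_eq (R : Type) [CommRing R] (d u v x y : R) (hu : IsUnit u) (hv : IsUnit v)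
    (h : u * v = x ^ 2 - d * y ^ 2) : sym R d u = sym R d v := by
  have h1 := sym_norm R d (u * v) x y (hu.mul hv) h
  rw [sym_mul R d u v hu hv] at h1
  have h2 := FamA_two R d v hv
  exact add_right_cancel (h1.trans h2.symm)

private theorem FamA_prod (R : Type) [CommRing R] (d : R) {ι : Type} (T : Finset ι) (g : ι → R)
    (hg : ∀ i, IsUnit (g i)) : sym R d (∏ i ∈ T, g i) = ∑ i ∈ T, sym R d (g i) := by
  classical
  induction T using Finset.induction_on with
  | empty =>
    rw [Finset.prod_empty, Finset.sum_empty]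
    exact sym_norm R d 1 1 0 isUnit_one (by ring)
  | insert a T ha ih =>
    rw [Finset.prod_insert ha, Finset.sum_insert ha, sym_mul R d _ _ (hg a), ih]
    exact Finset.prod_induction g IsUnit (fun a b ha hb => ha.mul hb) isUnit_one (fun i _ => hg i)

/-- the chosen unit -/
private theorem FamA_exists {m n d : ℤ} (hb : bad m n ≠ 0) (hd : d ≠ 0) (R : Type) [CommRing R]
    [IsDomain R] [Finite (MaximalSpectrum R)] (h : QRing R) (P : RPt m n d R) (i : Fin 7) :
    ∃ v : R, IsUnit v ∧ ∃ a b e f : R, v = herm P i a b e f := by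
  obtain ⟨a, b, e, f, h1⟩ := herm_unit hb hd R h P i
  exact ⟨_, h1, a, b, e, f, rfl⟩

private noncomputable def FamA_u {m n d : ℤ} (hb : bad m n ≠ 0) (hd : d ≠ 0) (R : Type)
    [CommRing R] [IsDomain R] [Finite (MaximalSpectrum R)] (h : QRing R) (P : RPt m n d R)
    (i : Fin 7) : R := Classical.choose (FamA_exists hb hd R h P i)

private theorem FamA_u_spec {m n d : ℤ} (hb : bad m n ≠ 0) (hd : d ≠ 0) (R : Type)
    [CommRing R] [IsDomain R] [Finite (MaximalSpectrum R)] (h : QRing R) (P : RPt m n d R)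
    (i : Fin 7) : IsUnit (FamA_u hb hd R h P i) ∧
      ∃ a b e f : R, FamA_u hb hd R h P i = herm P i a b e f :=
  Classical.choose_spec (FamA_exists hb hd R h P i)

/-- the family -/
private noncomputable def FamA_fam {m n d : ℤ} (hb : bad m n ≠ 0) (hd : d ≠ 0)
    (T : Finset (Fin 7)) (hT : Even T.card) : Fam m n d where
  val R _ _ _ h P := ∑ i ∈ T, sym R (d : R) (FamA_u hb hd R h P i)
  nat R S _ _ _ _ _ _ f hR hS P Q hPQ := by
    obtain ⟨u, hu, h1, h2, h3, h4⟩ := hPQ
    rw [map_sum]
    have hone : ∀ i, Br.map f (sym R (d : R) (FamA_u hb hd R hR P i)) =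
        sym S (d : S) u + sym S (d : S) (FamA_u hb hd S hS Q i) := by
      intro i
      obtain ⟨hPu, a, b, e, g, hPe⟩ := FamA_u_spec hb hd R hR P i
      obtain ⟨hQu, a', b', e', g', hQe⟩ := FamA_u_spec hb hd S hS Q i
      rw [sym_map R S f (d : R) _ hPu (FamA_isUnit_int hR hd) (FamA_isUnit_two hR), map_intCast]
      have hPf : IsUnit (f (FamA_u hb hd R hR P i)) := hPu.map f
      obtain ⟨a1, b1, e1, g1, him⟩ := herm_image f P Q u h1 h2 h3 h4 i a b e g
      rw [← hPe] at him
      obtain ⟨x, y, hxy⟩ := herm_mul Q i a1 b1 e1 g1 a' b' e' g'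
      rw [← him, ← hQe] at hxy
      have hu3 : IsUnit (u * f (FamA_u hb hd R hR P i) * u ^ 2) :=
        (hu.mul hPf).mul (hu.pow 2)
      have h5 := FamA_eq S (d : S) _ _ x y hu3 hQu hxy
      rw [sym_mul S (d : S) _ _ (hu.mul hPf) (hu.pow 2), sym_mul S (d : S) u _ hu hPf, pow_two,
        FamA_sq S (d : S) u hu, add_zero] at h5
      rw [← h5, ← add_assoc, FamA_two S (d : S) u hu, zero_add]
    rw [Finset.sum_congr rfl fun i _ => hone i, Finset.sum_add_distrib, Finset.sum_const]
    obtain ⟨k, hk⟩ := hT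
    rw [hk, add_nsmul, ← nsmul_add, FamA_two S (d : S) u hu, nsmul_zero, zero_add]

theorem exists_famA {m n d : ℤ} (hb : bad m n ≠ 0) (hd : d ≠ 0) (T : Finset (Fin 7))
    (hT : Even T.card) : ∃ α : Fam m n d, ∀ (E : Type) [Field E] [CharZero E]
      (P : RPt m n d E), α.val E (qring_field E) P =
        sym E (d : E) (∏ i ∈ T, ent (toPt P) i) := by
  classical
  refine ⟨FamA_fam hb hd T hT, ?_⟩
  intro E _ _ P
  have hdE : (d : E) ≠ 0 := Int.cast_ne_zero.mpr hd
  have hent : ∀ i, ent (toPt P) i ≠ 0 := by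
    intro i
    unfold ent
    split_ifs with h1 h2
    · exact h1
    · exact mul_ne_zero hdE h2
    · exact one_ne_zero
  rw [FamA_prod E (d : E) T _ fun i => (hent i).isUnit]
  change ∑ i ∈ T, sym E (d : E) (FamA_u hb hd E (qring_field E) P i) = _
  refine Finset.sum_congr rfl fun i _ => ?_
  obtain ⟨hu, a, b, e, g, he⟩ := FamA_u_spec hb hd E (qring_field E) P i
  have hx : (toPt P).x = P.x := rfl
  have hy : (toPt P).y = P.y := rfl
  have hz : (toPt P).z = P.z := rfl
  unfold ent
  rw [hx, hy, hz]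
  by_cases h1 : lin m n P.x P.y P.z i ≠ 0
  · rw [if_pos h1]
    obtain ⟨x, y, hxy⟩ := herm_lin P i a b e g
    rw [← he] at hxy
    exact (FamA_eq E (d : E) _ _ x y h1.isUnit hu hxy).symm
  · rw [if_neg h1]
    by_cases h2 : com m n P.x P.y P.z i ≠ 0
    · rw [if_pos h2]
      obtain ⟨x, y, hxy⟩ := herm_com P i a b e g
      rw [← he] at hxy
      exact (FamA_eq E (d : E) _ _ x y (mul_ne_zero hdE h2).isUnit hu hxy).symm
    · rw [if_neg h2]
      push Not at h1 h2
      have hbas := basic m n P.x P.y P.z i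
      rw [h1, zero_mul, add_zero] at hbas
      have hw := P.eq
      have hmain : ((scl m n i : E) * P.w) ^ 2 = (d : E) * qua m n P.x P.y P.z i ^ 2 := by
        rw [mul_pow, hw, ← hbas]
        ring
      have hq : qua m n P.x P.y P.z i ≠ 0 := by
        intro hq0
        rw [hq0] at hmain
        have hsw : (scl m n i : E) * P.w = 0 := by
          have : ((scl m n i : E) * P.w) ^ 2 = 0 := by rw [hmain]; ring
          exact pow_eq_zero_iff two_ne_zero |>.mp this
        apply hu.ne_zero
        rw [he, herm, h1, h2, hq0, hsw]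
        ring
      set c : E := (scl m n i : E) * P.w / qua m n P.x P.y P.z i with hc
      have hdc : (d : E) = c ^ 2 := by
        rw [hc, div_pow, hmain]
        field_simp
      have hc0 : c ≠ 0 := by
        intro h0
        rw [h0] at hdc
        exact hdE (by rw [hdc]; ring)
      have hz : ∀ v : E, IsUnit v → sym E (d : E) v = 0 := by
        intro v hv
        refine sym_norm E (d : E) v ((v + 1) / 2) ((v - 1) / (2 * c)) hv ?_
        rw [hdc]
        field_simp
        ring
      rw [hz _ hu, hz 1 isUnit_one]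

end Pool.Agent.Helper8.XS
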