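import Pool.Agent.Helper8.XS.Defs

set_option autoImplicit false

open scoped TensorProduct

namespace Pool.Agent.Helper8.XS

open Pool.Agent.Helper8.BR Pool.Agent.Helper8.DP2

/-- `H` is a class over `ℚ` whose local class is the nontrivial class split by `√d` exactly
at the primes in `S` (and at the real place if the number of these primes is odd) -/
structure GlobalH (d : ℤ) (S : Finset ℕ) (H : Br ℚ) : Prop where
  out : ∀ (p : ℕ) [Fact p.Prime], p ∉ S → Br.map (algebraMap ℚ ℚ_[p]) H = 0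
  inn : ∀ (p : ℕ) [Fact p.Prime], p ∈ S → ∀ e : ℚ_[p], e ≠ 0 →
    sym ℚ_[p] (d : ℚ_[p]) e ≠ 0 → Br.map (algebraMap ℚ ℚ_[p]) H = sym ℚ_[p] (d : ℚ_[p]) e
  even : Even S.card → Br.map (algebraMap ℚ ℝ) H = 0
  odd : Odd S.card → Br.map (algebraMap ℚ ℝ) H ≠ 0 ∧ ∀ e : ℝ, e ≠ 0 →
    sym ℝ (d : ℝ) e ≠ 0 → Br.map (algebraMap ℚ ℝ) H = sym ℝ (d : ℝ) e

/-- the adelic point in the sense of the previous file -/
noncomputable def toDP {m n d : ℤ} (x : Adelic m n d) : DP2.Adelic m n d where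
  real := toPt x.real
  fin p _ := toPt (x.fin p)

end Pool.Agent.Helper8.XS
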