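import Pool.Agent.Helper8.XS.LocSym
import Pool.Agent.Helper8.XS.GlobDefs

set_option autoImplicit false

/-! DB-6 -/

open scoped TensorProduct

namespace Pool.Agent.Helper8.XS

open Pool.Agent.Helper8.BR Pool.Agent.Helper8.DP2

private theorem g2881_map (E : Type) [Field E] [CharZero E] [Algebra ℚ E] (a b : ℤ) (ha : a ≠ 0)
    (hb : b ≠ 0) : Br.map (algebraMap ℚ E) (sym ℚ (a : ℚ) (b : ℚ)) = sym E (a : E) (b : E) := by
  rw [sym_map ℚ E (algebraMap ℚ E) (a : ℚ) (b : ℚ) (IsUnit.mk0 _ (Int.cast_ne_zero.2 hb))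
    (IsUnit.mk0 _ (Int.cast_ne_zero.2 ha)) (IsUnit.mk0 _ two_ne_zero), map_intCast, map_intCast]

private theorem g2881_ndvd {p q : ℕ} [hp : Fact p.Prime] [hq : Fact q.Prime] (h : p ≠ q) :
    ¬ (p : ℤ) ∣ -(q : ℤ) := by
  rw [dvd_neg, Int.natCast_dvd_natCast]
  intro h'
  exact h ((Nat.prime_dvd_prime_iff_eq hp.out hq.out).1 h')

private theorem g2881_ndvd1 {p : ℕ} [hp : Fact p.Prime] : ¬ (p : ℤ) ∣ -1 := by
  rw [dvd_neg]
  intro h'
  have h1 := Int.le_of_dvd one_pos h'
  have := hp.out.two_le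
  omega

/-- the symbol `(d, -1)` at a prime `q = 3 mod 4` dividing `d` exactly -/
private theorem g2881_ne {q : ℕ} [hq : Fact q.Prime] (hq4 : q % 4 = 3) (d e : ℤ)
    (hd : d = q * e) (he : ¬ (q : ℤ) ∣ e) : sym ℚ_[q] (d : ℚ_[q]) ((-1 : ℤ) : ℚ_[q]) ≠ 0 := by
  have hq2 : q ≠ 2 := by
    rintro rfl
    norm_num at hq4
  intro h
  rw [sym_ram q hq2 d e (-1) hd he g2881_ndvd1] at h
  have h1 : IsSquare (-1 : ZMod q) := by
    have : ((-1 : ℤ) : ZMod q) = -1 := by push_cast; rfl
    rwa [this] at h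
  rw [ZMod.exists_sq_eq_neg_one_iff] at h1
  exact h1 hq4

/-- value at `q` -/
private theorem g2881_at {q : ℕ} [hq : Fact q.Prime] (hq4 : q % 4 = 3) (d e : ℤ)
    (hd : d = q * e) (he : ¬ (q : ℤ) ∣ e) (x : ℚ_[q]) (hx : x ≠ 0)
    (h : sym ℚ_[q] (d : ℚ_[q]) x ≠ 0) :
    sym ℚ_[q] (d : ℚ_[q]) ((-1 : ℤ) : ℚ_[q]) = sym ℚ_[q] (d : ℚ_[q]) x := by
  have hq2 : q ≠ 2 := by
    rintro rfl
    norm_num at hq4
  exact sym_unique q hq2 d e hd he _ _ (by norm_num) hx (g2881_ne hq4 d e hd he) h

private theorem g2881_two (q : ℤ) (hq8 : q % 8 = 3) :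
    sym ℚ_[2] ((-q : ℤ) : ℚ_[2]) ((-1 : ℤ) : ℚ_[2]) = 0 := by
  obtain ⟨u, hu⟩ := isSquare_two (-(4 + q)) (by omega)
  apply sym_norm _ _ _ (u / 2) (1 / 2) (IsUnit.mk0 _ (by norm_num))
  have h1 : u * u = -(4 + (q : ℚ_[2])) := by
    rw [← hu]
    push_cast
    ring
  have h2 : (u / 2) ^ 2 = (u * u) / 4 := by ring
  rw [h2, h1]
  push_cast
  ring

private theorem g2881_single (q r : ℕ) [hq : Fact q.Prime] [hr : Fact r.Prime] (hqr : q ≠ r)
    (hq8 : q % 8 = 3) (hr2 : r ≠ 2) :
    GlobalH ((q : ℤ) * r) {q} (sym ℚ ((-(q : ℤ) : ℤ) : ℚ) ((-1 : ℤ) : ℚ)) := by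
  have hq0 : (-(q : ℤ)) ≠ 0 := by
    have := hq.out.pos
    omega
  have hr0 : (-(r : ℤ)) ≠ 0 := by
    have := hr.out.pos
    omega
  have hq2 : q ≠ 2 := by
    rintro rfl
    norm_num at hq8
  have hqr' : ¬ (q : ℤ) ∣ (r : ℤ) := by
    have := g2881_ndvd (p := q) (q := r) hqr
    rwa [dvd_neg] at this
  refine ⟨?_, ?_, ?_, ?_⟩
  · intro p hp hpS
    rw [Finset.mem_singleton] at hpS
    rw [g2881_map _ _ _ hq0 (by norm_num)]
    by_cases hp2 : p = 2
    · subst hp2
      exact g2881_two q (by omega)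
    · exact sym_unit p hp2 _ _ (g2881_ndvd hpS) g2881_ndvd1
  · intro p hp hpS x hx hne
    rw [Finset.mem_singleton] at hpS
    subst hpS
    rw [g2881_map _ _ _ hq0 (by norm_num)]
    rw [← g2881_at (by omega) ((p : ℤ) * r) r rfl hqr' x hx hne]
    have e1 : (((p : ℤ) * r : ℤ) : ℚ_[p]) = ((-(p : ℤ) : ℤ) : ℚ_[p]) * ((-(r : ℤ) : ℤ) : ℚ_[p]) := by
      push_cast
      ring
    have hm1 : ((-1 : ℤ) : ℚ_[p]) ≠ 0 := by norm_num
    have hp0 : ((-(p : ℤ) : ℤ) : ℚ_[p]) ≠ 0 := Int.cast_ne_zero.2 hq0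
    have hr0' : ((-(r : ℤ) : ℤ) : ℚ_[p]) ≠ 0 := Int.cast_ne_zero.2 hr0
    rw [e1, sym_comm' _ _ (mul_ne_zero hp0 hr0') hm1,
      sym_mul _ _ _ _ (IsUnit.mk0 _ hp0) (IsUnit.mk0 _ hr0'),
      sym_unit p hq2 (-1) (-(r : ℤ)) g2881_ndvd1 (g2881_ndvd hqr), add_zero,
      sym_comm' _ _ hm1 hp0]
  · intro h
    simp at h
  · intro _
    have h1 : ((-1 : ℤ) : ℝ) ≠ 0 := by norm_num
    have h2 : ((-(q : ℤ) : ℤ) : ℝ) ≠ 0 := Int.cast_ne_zero.2 hq0
    have h3 : ((-(q : ℤ) : ℤ) : ℝ) < 0 := by
      have : (0 : ℝ) < q := Nat.cast_pos.2 hq.out.pos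
      push_cast
      linarith
    have h4 : ((-1 : ℤ) : ℝ) < 0 := by norm_num
    constructor
    · rw [g2881_map _ _ _ hq0 (by norm_num), Ne, (sym_real _ _ h2 h1).1]
      rintro (h | h)
      · exact absurd h (not_lt.2 h3.le)
      · exact absurd h (not_lt.2 h4.le)
    · intro e he hne
      exfalso
      apply hne
      have h5 : (0 : ℝ) < (((q : ℤ) * r : ℤ) : ℝ) := by
        have h6 : (0 : ℝ) < q := Nat.cast_pos.2 hq.out.pos
        have h7 : (0 : ℝ) < r := Nat.cast_pos.2 hr.out.pos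
        push_cast
        exact mul_pos h6 h7
      exact ((sym_real _ _ h5.ne' he).1).2 (Or.inl h5)

theorem glob_2881 (S : Finset ℕ) (hS : S ⊆ {43, 67}) : ∃ H : Br ℚ, GlobalH (43 * 67) S H := by
  have f43 : Fact (Nat.Prime 43) := ⟨by norm_num⟩
  have f67 : Fact (Nat.Prime 67) := ⟨by norm_num⟩
  by_cases h43 : 43 ∈ S
  · by_cases h67 : 67 ∈ S
    · have hSe : S = {43, 67} := by
        apply Finset.Subset.antisymm hS
        intro x hx
        rw [Finset.mem_insert, Finset.mem_singleton] at hx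
        rcases hx with rfl | rfl
        · exact h43
        · exact h67
      subst hSe
      have hd0 : ((43 * 67 : ℤ)) ≠ 0 := by norm_num
      refine ⟨sym ℚ ((43 * 67 : ℤ) : ℚ) ((-1 : ℤ) : ℚ), ?_, ?_, ?_, ?_⟩
      · intro p hp hpS
        rw [g2881_map _ _ _ hd0 (by norm_num)]
        by_cases hp2 : p = 2
        · subst hp2
          exact sym_sq _ _ _ (Int.cast_ne_zero.2 hd0) (by norm_num)
            (Or.inl (isSquare_two _ (by norm_num)))
        · apply sym_unit p hp2 _ _ _ g2881_ndvd1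
          intro hdvd
          have hdvd' : p ∣ 43 * 67 := by exact_mod_cast hdvd
          apply hpS
          rw [Finset.mem_insert, Finset.mem_singleton]
          rcases (Nat.Prime.dvd_mul hp.out).1 hdvd' with h | h
          · exact Or.inl ((Nat.prime_dvd_prime_iff_eq hp.out f43.out).1 h)
          · exact Or.inr ((Nat.prime_dvd_prime_iff_eq hp.out f67.out).1 h)
      · intro p hp hpS x hx hne
        rw [g2881_map _ _ _ hd0 (by norm_num)]
        rw [Finset.mem_insert, Finset.mem_singleton] at hpS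
        rcases hpS with rfl | rfl
        · exact g2881_at (q := 43) (by norm_num) (43 * 67) 67 (by norm_num) (by norm_num) x hx hne
        · exact g2881_at (q := 67) (by norm_num) (43 * 67) 43 (by norm_num) (by norm_num) x hx hne
      · intro _
        rw [g2881_map _ _ _ hd0 (by norm_num)]
        exact ((sym_real _ _ (Int.cast_ne_zero.2 hd0) (by norm_num)).1).2
          (Or.inl (by norm_num))
      · intro h
        exfalso
        revert h
        decide
    · have hSe : S = {43} := by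
        ext x
        rw [Finset.mem_singleton]
        constructor
        · intro hx
          have h1 := hS hx
          rw [Finset.mem_insert, Finset.mem_singleton] at h1
          rcases h1 with h1 | h1
          · exact h1
          · exact absurd (h1 ▸ hx) h67
        · rintro rfl
          exact h43
      subst hSe
      exact ⟨_, by exact_mod_cast g2881_single 43 67 (by norm_num) (by norm_num) (by norm_num)⟩
  · by_cases h67 : 67 ∈ S
    · have hSe : S = {67} := by
        ext x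
        rw [Finset.mem_singleton]
        constructor
        · intro hx
          have h1 := hS hx
          rw [Finset.mem_insert, Finset.mem_singleton] at h1
          rcases h1 with h1 | h1
          · exact absurd (h1 ▸ hx) h43
          · exact h1
        · rintro rfl
          exact h67
      subst hSe
      have h := g2881_single 67 43 (by norm_num) (by norm_num) (by norm_num)
      rw [mul_comm] at h
      exact ⟨_, by exact_mod_cast h⟩
    · have hSe : S = ∅ := by
        ext x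
        constructor
        · intro hx
          have h1 := hS hx
          rw [Finset.mem_insert, Finset.mem_singleton] at h1
          rcases h1 with h1 | h1
          · exact absurd (h1 ▸ hx) h43
          · exact absurd (h1 ▸ hx) h67
        · intro hx
          exact absurd hx (Finset.notMem_empty x)
      subst hSe
      refine ⟨0, ?_, ?_, ?_, ?_⟩
      · intro p _ _
        exact map_zero _
      · intro p _ h
        exact absurd h (Finset.notMem_empty p)
      · intro _
        exact map_zero _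
      · intro h
        simp at h

end Pool.Agent.Helper8.XS
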