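import Pool.Agent.Helper8.XS.LocSym
import Pool.Agent.Helper8.XS.GlobDefs

set_option autoImplicit false

/-! DB-4 -/

open scoped TensorProduct

namespace Pool.Agent.Helper8.XS

open Pool.Agent.Helper8.BR Pool.Agent.Helper8.DP2

private theorem map_sym_int (E : Type) [Field E] [CharZero E] (f : ℚ →+* E) (a b : ℤ)
    (ha : a ≠ 0) (hb : b ≠ 0) : Br.map f (sym ℚ (a : ℚ) (b : ℚ)) = sym E (a : E) (b : E) := by
  rw [sym_map ℚ E f _ _ (IsUnit.mk0 _ (Int.cast_ne_zero.2 hb))
    (IsUnit.mk0 _ (Int.cast_ne_zero.2 ha)) (IsUnit.mk0 _ two_ne_zero), map_intCast, map_intCast]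

theorem glob_311 (S : Finset ℕ) (hS : S ⊆ {311}) : ∃ H : Br ℚ, GlobalH (-311) S H := by
  rcases Finset.subset_singleton_iff.1 hS with rfl | rfl
  · refine ⟨0, ⟨fun p _ _ => map_zero _, fun p _ hp => absurd hp (Finset.notMem_empty p),
      fun _ => map_zero _, fun h => ?_⟩⟩
    rw [Finset.card_empty] at h
    exact absurd h (by decide)
  · refine ⟨sym ℚ ((-311 : ℤ) : ℚ) ((-1 : ℤ) : ℚ), ⟨?_, ?_, ?_, ?_⟩⟩
    · intro p hp hpS
      rw [Finset.mem_singleton] at hpS
      rw [map_sym_int _ _ _ _ (by norm_num) (by norm_num)]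
      rcases eq_or_ne p 2 with rfl | hp2
      · refine sym_sq _ _ _ (by norm_num) (by norm_num) (Or.inl ?_)
        exact isSquare_two (-311) (by norm_num)
      · refine sym_unit p hp2 _ _ (fun h => hpS (dvd_311 hp.out h)) (fun h => ?_)
        rw [Int.dvd_neg] at h
        have h1 : (p : ℤ) = 1 := Int.eq_one_of_dvd_one (by positivity) h
        exact hp.out.one_lt.ne' (by exact_mod_cast h1)
    · intro p hp hpS e he hne
      rw [Finset.mem_singleton] at hpS
      subst hpS
      rw [map_sym_int _ _ _ _ (by norm_num) (by norm_num)]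
      refine sym_unique 311 (by norm_num) (-311) (-1) (by norm_num) (by norm_num) _ _
        (by norm_num) he ?_ hne
      intro h0
      have h1 := (sym_ram 311 (by norm_num) (-311) (-1) (-1) (by norm_num) (by norm_num)
        (by norm_num)).1 h0
      have h2 : (((-1 : ℤ) : ZMod 311)) = -1 := by push_cast; rfl
      rw [h2, ZMod.exists_sq_eq_neg_one_iff] at h1
      norm_num at h1
    · intro h
      rw [Finset.card_singleton] at h
      exact absurd h (by decide)
    · intro _
      have hr := sym_real (((-311 : ℤ) : ℝ)) (((-1 : ℤ) : ℝ)) (by norm_num) (by norm_num)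
      rw [map_sym_int _ _ _ _ (by norm_num) (by norm_num)]
      constructor
      · intro h0
        have := hr.1.1 h0
        norm_num at this
      · intro e he hne
        refine hr.2 _ _ (by norm_num) (by norm_num) (by norm_num) ?_
        by_contra hc
        push Not at hc
        exact hne ((sym_real (((-311 : ℤ) : ℝ)) e (by norm_num) he).1.2
          (Or.inr (lt_of_le_of_ne hc he.symm)))

end Pool.Agent.Helper8.XS
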