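import Pool.Agent.Helper8.XS.LocSym
import Pool.Agent.Helper8.XS.GlobDefs

set_option autoImplicit false

/-! DB-5 -/

open scoped TensorProduct

namespace Pool.Agent.Helper8.XS

open Pool.Agent.Helper8.BR Pool.Agent.Helper8.DP2

private theorem map_sym_int' (E : Type) [Field E] [CharZero E] (f : ℚ →+* E) (a b : ℤ)
    (ha : a ≠ 0) (hb : b ≠ 0) : Br.map f (sym ℚ (a : ℚ) (b : ℚ)) = sym E (a : E) (b : E) := by
  rw [sym_map ℚ E f _ _ (IsUnit.mk0 _ (Int.cast_ne_zero.2 hb))
    (IsUnit.mk0 _ (Int.cast_ne_zero.2 ha)) (IsUnit.mk0 _ two_ne_zero), map_intCast, map_intCast]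

private theorem sq_mod3 : IsSquare (((41 * 89 : ℤ)) : ZMod 3) := ⟨1, by decide⟩

private theorem nsq_41 : ¬ IsSquare (((3 : ℤ)) : ZMod 41) := by decide

private theorem nsq_89 : ¬ IsSquare (((3 : ℤ)) : ZMod 89) := by decide

/-- a prime which divides a prime is equal to it -/
private theorem eq_of_dvd {p q : ℕ} (hp : p.Prime) (hq : q.Prime) (a : ℤ) (ha : a = q ∨ a = -q)
    (h : (p : ℤ) ∣ a) : p = q := by
  have h1 : (p : ℤ) ∣ (q : ℤ) := by
    rcases ha with rfl | rfl
    · exact h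
    · rwa [Int.dvd_neg] at h
  exact (Nat.prime_dvd_prime_iff_eq hp hq).1 (Int.natCast_dvd_natCast.1 h1)

private theorem real_3649 (e : ℝ) (he : e ≠ 0) : sym ℝ (((41 * 89 : ℤ)) : ℝ) e = 0 :=
  (sym_real (((41 * 89 : ℤ)) : ℝ) e (by norm_num) he).1.2 (Or.inl (by norm_num))

/-- additivity in the first argument -/
private theorem sym_add_left (E : Type) [Field E] [CharZero E] (a b c : E) (ha : a ≠ 0)
    (hb : b ≠ 0) (hc : c ≠ 0) : sym E (a * b) c = sym E a c + sym E b c := by
  rw [sym_comm' (a * b) c (mul_ne_zero ha hb) hc, sym_mul E c a b (IsUnit.mk0 a ha)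
    (IsUnit.mk0 b hb), sym_comm' c a hc ha, sym_comm' c b hc hb]

/-- the class `(-q, -3)` -/
private theorem glob_one (q q' : ℕ) (hq : q.Prime) (hq' : q'.Prime) (hne : q ≠ q')
    (hq2 : q ≠ 2) (hq3 : q ≠ 3)
    (hqq : (41 * 89 : ℤ) = q * q') (h8 : (-3 - 4 * q : ℤ) % 8 = 1)
    (h3 : IsSquare (((-q : ℤ)) : ZMod 3)) (hns : ¬ IsSquare (((-3 : ℤ)) : ZMod q)) :
    GlobalH (41 * 89) {q} (sym ℚ ((-q : ℤ) : ℚ) ((-3 : ℤ) : ℚ)) := by
  have hq0 : (-q : ℤ) ≠ 0 := by
    have := hq.pos
    omega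
  have h30 : (-3 : ℤ) ≠ 0 := by norm_num
  refine ⟨?_, ?_, ?_, ?_⟩
  · intro p hp hpS
    rw [Finset.mem_singleton] at hpS
    rw [map_sym_int' _ _ _ _ hq0 h30]
    rcases eq_or_ne p 2 with rfl | hp2
    · obtain ⟨u, hu⟩ := isSquare_two (-3 - 4 * q) h8
      refine sym_norm ℚ_[2] _ _ u 2 (IsUnit.mk0 _ (by norm_num)) ?_
      rw [pow_two u, ← hu]
      push_cast
      ring
    · rcases eq_or_ne p 3 with rfl | hp3
      · refine sym_sq _ _ _ (Int.cast_ne_zero.2 hq0) (Int.cast_ne_zero.2 h30) (Or.inl ?_)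
        refine isSquare_int (by norm_num) _ (fun h => ?_) h3
        exact hq3 (eq_of_dvd Nat.prime_three hq _ (Or.inr rfl) h).symm
      · refine sym_unit p hp2 _ _ (fun h => ?_) (fun h => ?_)
        · exact hpS (eq_of_dvd hp.out hq _ (Or.inr rfl) h)
        · exact hp3 (eq_of_dvd hp.out Nat.prime_three _ (Or.inr rfl) h)
  · intro p hp hpS e he hne'
    rw [Finset.mem_singleton] at hpS
    subst hpS
    rw [map_sym_int' _ _ _ _ hq0 h30]
    have hq'0 : (-q' : ℤ) ≠ 0 := by
      have := hq'.pos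
      omega
    have hd1 : ¬ (p : ℤ) ∣ -q' := fun h => hne (eq_of_dvd hq hq' _ (Or.inr rfl) h)
    have hd2 : ¬ (p : ℤ) ∣ -3 := fun h => hq3 (eq_of_dvd hq Nat.prime_three _ (Or.inr rfl) h)
    have hd3 : ¬ (p : ℤ) ∣ (q' : ℤ) := fun h => hne (eq_of_dvd hq hq' _ (Or.inl rfl) h)
    have hz := sym_unit p hq2 (-q') (-3) hd1 hd2
    have hsplit : sym ℚ_[p] (((41 * 89 : ℤ)) : ℚ_[p]) (((-3 : ℤ)) : ℚ_[p])
        = sym ℚ_[p] (((-p : ℤ)) : ℚ_[p]) (((-3 : ℤ)) : ℚ_[p]) := by
      have h1 : (((41 * 89 : ℤ)) : ℚ_[p]) = (((-p : ℤ)) : ℚ_[p]) * (((-q' : ℤ)) : ℚ_[p]) := by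
        rw [hqq]
        push_cast
        ring
      rw [h1, sym_add_left _ _ _ _ (Int.cast_ne_zero.2 hq0) (Int.cast_ne_zero.2 hq'0)
        (Int.cast_ne_zero.2 h30), hz, add_zero]
    rw [← hsplit]
    refine sym_unique p hq2 (41 * 89) q' hqq hd3 _ _ (Int.cast_ne_zero.2 h30) he ?_ hne'
    intro h0
    exact hns ((sym_ram p hq2 (41 * 89) q' (-3) hqq hd3 hd2).1 h0)
  · intro h
    rw [Finset.card_singleton] at h
    exact absurd h (by decide)
  · intro _
    rw [map_sym_int' _ _ _ _ hq0 h30]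
    have hqr : (((-q : ℤ)) : ℝ) < 0 := by
      have : (0 : ℝ) < q := by exact_mod_cast hq.pos
      push_cast
      linarith
    have hr := sym_real (((-q : ℤ) : ℝ)) (((-3 : ℤ) : ℝ)) hqr.ne (by norm_num)
    constructor
    · intro h0
      rcases hr.1.1 h0 with h1 | h1
      · linarith
      · norm_num at h1
    · intro e he hne'
      exact absurd (real_3649 e he) hne'

theorem glob_3649 (S : Finset ℕ) (hS : S ⊆ {41, 89}) : ∃ H : Br ℚ, GlobalH (41 * 89) S H := by
  have hmem : S ∈ ({41, 89} : Finset ℕ).powerset := Finset.mem_powerset.2 hS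
  have hpow : ({41, 89} : Finset ℕ).powerset = {∅, {41}, {89}, {41, 89}} := by decide
  rw [hpow] at hmem
  simp only [Finset.mem_insert, Finset.mem_singleton] at hmem
  rcases hmem with rfl | rfl | rfl | rfl
  · refine ⟨0, ⟨fun p _ _ => map_zero _, fun p _ hp => absurd hp (Finset.notMem_empty p),
      fun _ => map_zero _, fun h => ?_⟩⟩
    rw [Finset.card_empty] at h
    exact absurd h (by decide)
  · exact ⟨_, glob_one 41 89 (by norm_num) (by norm_num) (by norm_num) (by norm_num)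
      (by norm_num) (by norm_num) (by norm_num) ⟨1, by decide⟩ (by decide)⟩
  · exact ⟨_, glob_one 89 41 (by norm_num) (by norm_num) (by norm_num) (by norm_num)
      (by norm_num) (by norm_num) (by norm_num) ⟨1, by decide⟩ (by decide)⟩
  · refine ⟨sym ℚ ((41 * 89 : ℤ) : ℚ) ((3 : ℤ) : ℚ), ⟨?_, ?_, ?_, ?_⟩⟩
    · intro p hp hpS
      simp only [Finset.mem_insert, Finset.mem_singleton, not_or] at hpS
      rw [map_sym_int' _ _ _ _ (by norm_num) (by norm_num)]
      rcases eq_or_ne p 2 with rfl | hp2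
      · refine sym_sq _ _ _ (by norm_num) (by norm_num) (Or.inl ?_)
        exact isSquare_two (41 * 89) (by norm_num)
      · rcases eq_or_ne p 3 with rfl | hp3
        · refine sym_sq _ _ _ (by norm_num) (by norm_num) (Or.inl ?_)
          exact isSquare_int (by norm_num) _ (by norm_num) sq_mod3
        · refine sym_unit p hp2 _ _ (fun h => ?_) (fun h => ?_)
          · rcases dvd_3649 hp.out h with h | h
            · exact hpS.1 h
            · exact hpS.2 h
          · exact hp3 (eq_of_dvd hp.out Nat.prime_three _ (Or.inl rfl) h)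
    · intro p hp hpS e he hne
      simp only [Finset.mem_insert, Finset.mem_singleton] at hpS
      rw [map_sym_int' _ _ _ _ (by norm_num) (by norm_num)]
      rcases hpS with rfl | rfl
      · refine sym_unique 41 (by norm_num) (41 * 89) 89 (by norm_num) (by norm_num) _ _
          (by norm_num) he ?_ hne
        intro h0
        exact nsq_41 ((sym_ram 41 (by norm_num) (41 * 89) 89 3 (by norm_num) (by norm_num)
          (by norm_num)).1 h0)
      · refine sym_unique 89 (by norm_num) (41 * 89) 41 (by norm_num) (by norm_num) _ _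
          (by norm_num) he ?_ hne
        intro h0
        exact nsq_89 ((sym_ram 89 (by norm_num) (41 * 89) 41 3 (by norm_num) (by norm_num)
          (by norm_num)).1 h0)
    · intro _
      rw [map_sym_int' _ _ _ _ (by norm_num) (by norm_num)]
      exact real_3649 _ (by norm_num)
    · intro h
      exact absurd h (by decide)

end Pool.Agent.Helper8.XS
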