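import Pool.Agent.Helper8.XS.QuadBasics

set_option autoImplicit false

/-! XS-11 -/

open scoped TensorProduct
open MvPolynomial

namespace Pool.Agent.Helper8.XS

open Pool.Agent.Helper8.BR Pool.Agent.Helper8.DP2

/-- a prime of `ℚ[a,b]` over which `d` is a square is a constant times a norm -/
theorem prime_norm (d : ℤ) (hd : ¬ IsSquare (d : ℚ)) (f : A2) (hf : Prime f)
    (h : SqMod f (d : A2)) : ∃ (c : ℚ) (p q : A2), c ≠ 0 ∧
      f = MvPolynomial.C c * (p ^ 2 - (d : A2) * q ^ 2) := by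
  classical
  obtain ⟨L, _, _, δ, σ, hL, hδ⟩ := exists_quadExt ℚ (d : ℚ) hd
  let ι : A2 →+* MvPolynomial (Fin 2) L := MvPolynomial.map (algebraMap ℚ L)
  let cj : MvPolynomial (Fin 2) L →+* MvPolynomial (Fin 2) L := MvPolynomial.map (σ : L →+* L)
  have hιinj : Function.Injective ι :=
    MvPolynomial.map_injective _ (algebraMap ℚ L).injective
  set D : MvPolynomial (Fin 2) L := MvPolynomial.C δ with hD
  have hDD : D * D = ι (d : A2) := by
    rw [hD, ← MvPolynomial.C_mul, ← sq, hδ]
    simp only [ι, map_intCast]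
  have hcjι : ∀ p : A2, cj (ι p) = ι p := by
    intro p
    simp only [cj, ι]
    have hcomp : (σ : L →+* L).comp (algebraMap ℚ L) = algebraMap ℚ L := Subsingleton.elim _ _
    rw [MvPolynomial.map_map, hcomp]
  have hcjD : cj D = -D := by
    simp only [cj, hD]
    rw [MvPolynomial.map_C]
    change MvPolynomial.C (σ δ) = _
    rw [hL.conj, map_neg]
  -- representation
  have hrep : ∀ b : MvPolynomial (Fin 2) L, ∃ p q : A2, b = ι p + D * ι q := by
    intro b
    induction b using MvPolynomial.induction_on with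
    | C a =>
      obtain ⟨x, y, hxy⟩ := hL.gen a
      refine ⟨MvPolynomial.C x, MvPolynomial.C y, ?_⟩
      simp only [ι, MvPolynomial.map_C, hD, ← MvPolynomial.C_mul, ← MvPolynomial.C_add]
      rw [hxy]
      congr 1
      ring
    | add p q hp hq =>
      obtain ⟨p1, p2, hp⟩ := hp
      obtain ⟨q1, q2, hq⟩ := hq
      refine ⟨p1 + q1, p2 + q2, ?_⟩
      rw [hp, hq, map_add, map_add]
      ring
    | mul_X p i hp =>
      obtain ⟨p1, p2, hp⟩ := hp
      refine ⟨p1 * X i, p2 * X i, ?_⟩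
      have : ι (X i) = X i := by simp only [ι, MvPolynomial.map_X]
      rw [hp, map_mul, map_mul, this]
      ring
  have huniq0 : ∀ p q : A2, ι p + D * ι q = 0 → p = 0 ∧ q = 0 := by
    intro p q hpq
    have hq : q = 0 := by
      ext m
      have h1 := congrArg (MvPolynomial.coeff m) hpq
      rw [MvPolynomial.coeff_add, hD, MvPolynomial.coeff_C_mul] at h1
      simp only [ι, MvPolynomial.coeff_map, MvPolynomial.coeff_zero] at h1
      rw [MvPolynomial.coeff_zero]
      by_contra hne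
      apply hL.notin (-(MvPolynomial.coeff m p) / MvPolynomial.coeff m q)
      have hne' : algebraMap ℚ L (MvPolynomial.coeff m q) ≠ 0 := (map_ne_zero _).mpr hne
      rw [map_div₀, map_neg, div_eq_iff hne']
      linear_combination -h1
    refine ⟨?_, hq⟩
    rw [hq, map_zero, mul_zero, add_zero] at hpq
    exact hιinj (by rw [hpq, map_zero])
  have huniq : ∀ p q p' q' : A2, ι p + D * ι q = ι p' + D * ι q' → p = p' ∧ q = q' := by
    intro p q p' q' h1
    have := huniq0 (p - p') (q - q') (by rw [map_sub, map_sub]; linear_combination h1)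
    exact ⟨sub_eq_zero.mp this.1, sub_eq_zero.mp this.2⟩
  have hnorm : ∀ p q : A2, (ι p + D * ι q) * cj (ι p + D * ι q) =
      ι (p ^ 2 - (d : A2) * q ^ 2) := by
    intro p q
    rw [map_add, map_mul cj, hcjι, hcjι, hcjD, map_sub, map_mul ι, map_pow, map_pow, ← hDD]
    ring
  have hdvd : ∀ g r q : A2, ι g ∣ ι r + D * ι q → g ∣ r ∧ g ∣ q := by
    rintro g r q ⟨b, hb⟩
    obtain ⟨b1, b2, rfl⟩ := hrep b
    have := huniq r q (g * b1) (g * b2) (by rw [hb, map_mul, map_mul]; ring)
    exact ⟨⟨b1, this.1⟩, ⟨b2, this.2⟩⟩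
  have hdvd1 : ∀ g r : A2, ι g ∣ ι r → g ∣ r := by
    intro g r h1
    exact (hdvd g r 0 (by rw [map_zero, mul_zero, add_zero]; exact h1)).1
  -- units
  have hιnu : ¬ IsUnit (ι f) := by
    intro hu
    have h1 : ι f ∣ ι 1 := hu.dvd
    exact hf.not_isUnit (isUnit_of_dvd_one (hdvd1 f 1 h1))
  have hι0 : ι f ≠ 0 := by
    intro h0
    exact hf.ne_zero (hιinj (by rw [h0, map_zero]))
  obtain ⟨π, hπ, ρ, hρ⟩ := WfDvdMonoid.exists_irreducible_factor hιnu hι0
  obtain ⟨p, q, hpq⟩ := hrep π
  obtain ⟨p', q', hpq'⟩ := hrep ρ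
  set n : A2 := p ^ 2 - (d : A2) * q ^ 2 with hn
  set m : A2 := p' ^ 2 - (d : A2) * q' ^ 2 with hm
  have hπn : π * cj π = ι n := by rw [hpq, hnorm]
  have hρm : ρ * cj ρ = ι m := by rw [hpq', hnorm]
  have hff : f * f = n * m := by
    apply hιinj
    rw [map_mul, map_mul, ← hπn, ← hρm]
    have h1 : cj (ι f) = cj π * cj ρ := by rw [hρ, map_mul]
    rw [hcjι] at h1
    calc ι f * ι f = (π * ρ) * (cj π * cj ρ) := by rw [← h1, ← hρ]
      _ = π * cj π * (ρ * cj ρ) := by ring
  -- m is not a unit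
  have hmu : ¬ IsUnit m := by
    intro hu
    have hρu : IsUnit ρ := by
      have h1 : IsUnit (ρ * cj ρ) := by rw [hρm]; exact hu.map ι
      exact isUnit_of_mul_isUnit_left h1
    have hπp : Prime (ι f) := by
      have h1 : Associated π (ι f) := ⟨hρu.unit, by rw [hρ]; rfl⟩
      exact h1.prime (UniqueFactorizationMonoid.irreducible_iff_prime.mp hπ)
    obtain ⟨r, s, hs, hrs⟩ := h
    have h2 : ι f ∣ (ι r + D * ι s) * (ι r + D * ι (-s)) := by
      have h3 : (ι r + D * ι s) * (ι r + D * ι (-s)) = ι (r ^ 2 - (d : A2) * s ^ 2) := by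
        rw [map_neg, map_sub, map_mul ι, map_pow, map_pow, ← hDD]
        ring
      rw [h3]
      exact map_dvd ι hrs
    rcases hπp.dvd_or_dvd h2 with h3 | h3
    · exact hs (hdvd f r s h3).2
    · exact hs ((dvd_neg).mp (hdvd f r (-s) h3).2)
  have hnu : ¬ IsUnit n := by
    intro hu
    apply hπ.not_isUnit
    have h1 : IsUnit (π * cj π) := by rw [hπn]; exact hu.map ι
    exact isUnit_of_mul_isUnit_left h1
  -- f and n are associated
  have hirr : Irreducible f := hf.irreducible
  have hkey : ∃ u : A2, IsUnit u ∧ f = u * n := by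
    rcases hf.dvd_or_dvd (⟨f, hff.symm⟩ : f ∣ n * m) with ⟨n', hn'⟩ | ⟨m', hm'⟩
    · have h1 : f = n' * m := by
        have : f * f = f * (n' * m) := by rw [hff, hn']; ring
        exact mul_left_cancel₀ hf.ne_zero this
      have h2 : IsUnit n' := (hirr.isUnit_or_isUnit h1).resolve_right hmu
      obtain ⟨v, hv⟩ := h2.exists_left_inv
      refine ⟨v, IsUnit.of_mul_eq_one n' hv, ?_⟩
      rw [hn']
      linear_combination (-f) * hv
    · have h1 : f = m' * n := by
        have : f * f = f * (m' * n) := by rw [hff, hm']; ring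
        exact mul_left_cancel₀ hf.ne_zero this
      exact ⟨m', (hirr.isUnit_or_isUnit h1).resolve_right hnu, h1⟩
  obtain ⟨u, hu, hfu⟩ := hkey
  obtain ⟨c, hc, hcu⟩ := MvPolynomial.isUnit_iff_eq_C_of_isReduced.mp hu
  exact ⟨c, p, q, hc.ne_zero, by rw [hfu, hcu]⟩

private lemma sqMod_of_assoc {f g : A2} {c : A2} (hfg : Associated f g) (h : SqMod g c) :
    SqMod f c := by
  obtain ⟨r, q, hq, hrq⟩ := h
  exact ⟨r, q, fun h1 => hq (hfg.symm.dvd.trans h1), hfg.dvd.trans hrq⟩

private lemma norm_mul' {K : Type} [Field K] [Algebra A2 K] (d : ℤ) {s t : K}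
    (hs : ∃ (c : ℚ) (x y : K), c ≠ 0 ∧
      s = algebraMap A2 K (MvPolynomial.C c) * (x ^ 2 - (d : K) * y ^ 2))
    (ht : ∃ (c : ℚ) (x y : K), c ≠ 0 ∧
      t = algebraMap A2 K (MvPolynomial.C c) * (x ^ 2 - (d : K) * y ^ 2)) :
    ∃ (c : ℚ) (x y : K), c ≠ 0 ∧
      s * t = algebraMap A2 K (MvPolynomial.C c) * (x ^ 2 - (d : K) * y ^ 2) := by
  obtain ⟨c, x, y, hc, rfl⟩ := hs
  obtain ⟨c', x', y', hc', rfl⟩ := ht
  refine ⟨c * c', x * x' + d * y * y', x * y' + x' * y, mul_ne_zero hc hc', ?_⟩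
  rw [MvPolynomial.C_mul, map_mul]
  ring

private lemma norm_sq {K : Type} [Field K] [Algebra A2 K] (d : ℤ) (z : K) :
    ∃ (c : ℚ) (x y : K), c ≠ 0 ∧
      z ^ 2 = algebraMap A2 K (MvPolynomial.C c) * (x ^ 2 - (d : K) * y ^ 2) := by
  refine ⟨1, z, 0, one_ne_zero, ?_⟩
  rw [MvPolynomial.C_1, map_one]
  ring

private lemma norm_poly (K : Type) [Field K] [Algebra A2 K] [IsFractionRing A2 K] (d : ℤ)
    (hd : ¬ IsSquare (d : ℚ)) (g : A2) (hg0 : g ≠ 0)
    (h : ∀ f : A2, Prime f → ¬ SqMod f (d : A2) → EvenK A2 f (algebraMap A2 K g)) :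
    ∃ (c : ℚ) (x y : K), c ≠ 0 ∧
      algebraMap A2 K g = algebraMap A2 K (MvPolynomial.C c) * (x ^ 2 - (d : K) * y ^ 2) := by
  have hinj : Function.Injective (algebraMap A2 K) := IsFractionRing.injective A2 K
  revert hg0 h
  induction g using (wellFounded_dvdNotUnit (α := A2)).induction with
  | _ g ih => ?_
  intro hg0 h
  by_cases hgu : IsUnit g
  · obtain ⟨c, hc, hcg⟩ := MvPolynomial.isUnit_iff_eq_C_of_isReduced.mp hgu
    refine ⟨c, 1, 0, hc.ne_zero, ?_⟩
    rw [hcg]
    ring
  obtain ⟨f, hfi, g', hg'⟩ := WfDvdMonoid.exists_irreducible_factor hgu hg0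
  have hf : Prime f := UniqueFactorizationMonoid.irreducible_iff_prime.mp hfi
  have hg'0 : g' ≠ 0 := by
    rintro rfl
    exact hg0 (by rw [hg', mul_zero])
  by_cases hsq : SqMod f (d : A2)
  · -- f is a norm
    obtain ⟨c, p, q, hc, hfpq⟩ := prime_norm d hd f hf hsq
    have h1 := ih g' ⟨hg'0, f, hf.not_isUnit, by rw [hg', mul_comm]⟩ hg'0 (by
      intro f1 hf1 hnsq
      obtain ⟨a, b, z, ha, hb, hz, e⟩ := h f1 hf1 hnsq
      have hnd : ¬ f1 ∣ f := by
        intro hdv
        exact hnsq (sqMod_of_assoc (hf1.associated_of_dvd hf hdv) hsq)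
      refine ⟨a, f * b, z, ha, fun h3 => (hf1.dvd_or_dvd h3).elim hnd hb, hz, ?_⟩
      rw [← e, hg', map_mul, map_mul]
      ring)
    rw [hg', map_mul]
    refine norm_mul' d ⟨c, algebraMap A2 K p, algebraMap A2 K q, hc, ?_⟩ h1
    rw [hfpq, map_mul, map_sub, map_mul, map_pow, map_pow, map_intCast]
  · -- the square of f divides g
    have hf2 : f ∣ g' := by
      by_contra hnd
      obtain ⟨a, b, z, ha, hb, hz, e⟩ := h f hf hsq
      obtain ⟨u, v, hv, rfl⟩ := IsFractionRing.div_surjective (A := A2) z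
      have hv0 : v ≠ 0 := nonZeroDivisors.ne_zero hv
      have hu0 : u ≠ 0 := by
        rintro rfl
        apply hz
        rw [map_zero, zero_div]
      have hvK : algebraMap A2 K v ≠ 0 := by
        intro h3
        exact hv0 (hinj (by rw [h3, map_zero]))
      have e2 : f * (g' * b * v ^ 2) = a * u ^ 2 := by
        apply hinj
        simp only [map_mul, map_pow]
        rw [hg', map_mul] at e
        field_simp at e
        linear_combination e
      have hb0 : b ≠ 0 := by
        rintro rfl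
        exact hb (dvd_zero f)
      have ha0 : a ≠ 0 := by
        rintro rfl
        exact ha (dvd_zero f)
      have m0 : ∀ s : A2, ¬ f ∣ s → emultiplicity f s = 0 := fun s hs =>
        emultiplicity_eq_zero.mpr hs
      have e3 := congrArg (emultiplicity f) e2
      rw [emultiplicity_mul hf, emultiplicity_mul hf, emultiplicity_mul hf,
        emultiplicity_mul hf, emultiplicity_pow hf, emultiplicity_pow hf, m0 g' hnd, m0 b hb,
        m0 a ha] at e3
      have hfv : FiniteMultiplicity f v := FiniteMultiplicity.of_prime_left hf hv0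
      have hfu : FiniteMultiplicity f u := FiniteMultiplicity.of_prime_left hf hu0
      have hff : FiniteMultiplicity f f := FiniteMultiplicity.of_prime_left hf hf.ne_zero
      have hff1 : multiplicity f f = 1 := by
        refine multiplicity_eq_of_dvd_of_not_dvd (by rw [pow_one]) ?_
        rintro ⟨s, hs⟩
        have h5 : f * (f * s) = f * 1 := by
          rw [mul_one]
          nth_rewrite 3 [hs]
          ring
        exact hf.not_isUnit (IsUnit.of_mul_eq_one s (mul_left_cancel₀ hf.ne_zero h5))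
      rw [hfv.emultiplicity_eq_multiplicity, hfu.emultiplicity_eq_multiplicity,
        hff.emultiplicity_eq_multiplicity, hff1] at e3
      norm_cast at e3
      omega
    obtain ⟨g'', hg''⟩ := hf2
    have hg''0 : g'' ≠ 0 := by
      rintro rfl
      exact hg'0 (by rw [hg'', mul_zero])
    have hfK : algebraMap A2 K f ≠ 0 := by
      intro h3
      exact hf.ne_zero (hinj (by rw [h3, map_zero]))
    have h1 := ih g'' ⟨hg''0, f * f, fun hu => hf.not_isUnit (isUnit_of_mul_isUnit_left hu),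
      by rw [hg', hg'']; ring⟩ hg''0 (by
      intro f1 hf1 hnsq
      obtain ⟨a, b, z, ha, hb, hz, e⟩ := h f1 hf1 hnsq
      refine ⟨a, b, z / algebraMap A2 K f, ha, hb, div_ne_zero hz hfK, ?_⟩
      rw [hg', hg'', map_mul, map_mul] at e
      rw [div_pow, mul_div_assoc', ← e]
      field_simp)
    have h2 : algebraMap A2 K g = (algebraMap A2 K f) ^ 2 * algebraMap A2 K g'' := by
      rw [hg', hg'', map_mul, map_mul]
      ring
    rw [h2]
    exact norm_mul' d (norm_sq d _) h1

theorem norm_of_even (K : Type) [Field K] [Algebra A2 K] [IsFractionRing A2 K] (d : ℤ)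
    (hd : ¬ IsSquare (d : ℚ)) (t : K) (ht : t ≠ 0)
    (h : ∀ f : A2, Prime f → ¬ SqMod f (d : A2) → EvenK A2 f t) :
    ∃ (c : ℚ) (x y : K), c ≠ 0 ∧
      t = algebraMap A2 K (MvPolynomial.C c) * (x ^ 2 - (d : K) * y ^ 2) := by
  have hinj : Function.Injective (algebraMap A2 K) := IsFractionRing.injective A2 K
  obtain ⟨a, b, hb, rfl⟩ := IsFractionRing.div_surjective (A := A2) t
  have hb0 : b ≠ 0 := nonZeroDivisors.ne_zero hb
  have ha0 : a ≠ 0 := by
    rintro rfl
    apply ht
    rw [map_zero, zero_div]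
  have hbK : algebraMap A2 K b ≠ 0 := by
    intro h3
    exact hb0 (hinj (by rw [h3, map_zero]))
  have h1 := norm_poly K d hd (a * b) (mul_ne_zero ha0 hb0) (by
    intro f hf hnsq
    obtain ⟨a', b', z, ha', hb', hz, e⟩ := h f hf hnsq
    refine ⟨a', b', z * algebraMap A2 K b, ha', hb', mul_ne_zero hz hbK, ?_⟩
    rw [mul_pow, ← mul_assoc, ← e, map_mul]
    field_simp)
  have h2 : algebraMap A2 K a / algebraMap A2 K b =
      algebraMap A2 K (a * b) * ((algebraMap A2 K b)⁻¹) ^ 2 := by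
    rw [map_mul]
    field_simp
  rw [h2]
  exact norm_mul' d h1 (norm_sq d _)

end Pool.Agent.Helper8.XS
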