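import Pool.Agent.Helper8.XS.EvenNorm
import Pool.Agent.Helper8.XS.NormUfd
import Pool.Agent.Helper8.XS.ConstNorm
import Pool.Agent.Helper8.XS.Biquad

set_option autoImplicit false

/-! XS-15 -/

open scoped TensorProduct
open MvPolynomial

namespace Pool.Agent.Helper8.XS

open Pool.Agent.Helper8.BR Pool.Agent.Helper8.DP2

theorem exists_t {m n d : ℤ} (hb : bad m n ≠ 0) (hd : ¬ IsSquare (d : ℚ)) (α : Fam m n d)
    (hV : Van α) {K M : Type} [Field K] [Field M] [CharZero M] [Algebra K M] [Algebra A2 K]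
    [Algebra A2 M] {w : M} {τ : M ≃+* M} (G : Gen m n d K M w τ) :
    ∃ t : K, t ≠ 0 ∧ α.val M (qring_field M) (eta G) = sym M (d : M) (algebraMap K M t) := by
  haveI := G.frac
  haveI := G.tower
  have hd0 : d ≠ 0 := by
    rintro rfl
    exact hd ⟨0, by simp⟩
  have hmn : m * n ≠ 0 := by
    intro h
    apply hb
    unfold bad
    rw [mul_assoc 2 m n, h]
    ring
  haveI : CharZero K := charZero_of_injective_algebraMap (IsFractionRing.injective A2 K)
  have hns := gen_nonsq hb hd G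
  obtain ⟨g, hg, hs⟩ := van_sym hd0 α hV M (qring_field M) (by
    intro x hx
    apply hns
    rw [IsLocalRing.maximalIdeal_eq_bot, Ideal.mem_bot, sub_eq_zero] at hx
    exact ⟨x, by rw [← hx, sq]⟩) (eta G)
  have hg0 : g ≠ 0 := hg.ne_zero
  obtain ⟨p, q, hpq⟩ := G.quad.gen g
  have hw : w ^ 2 = algebraMap K M (algebraMap A2 K ((d : A2) * F0 m n)) := by
    rw [G.sq, ← IsScalarTower.algebraMap_apply A2 K M]
  have hnorm := QuadExt.norm_eq G.quad _ hw p q
  rw [← hpq] at hnorm
  set N : K := p ^ 2 - algebraMap A2 K ((d : A2) * F0 m n) * q ^ 2 with hN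
  have hN0 : N ≠ 0 := by
    intro h
    rw [h, map_zero, mul_eq_zero] at hnorm
    rcases hnorm with h1 | h1
    · exact hg0 h1
    · exact hg0 (by simpa using h1)
  obtain ⟨c, x, y, hc, hcxy⟩ := norm_of_even K d hd N hN0 (fun f hf hsq =>
    even_norm hb hd α hV G g hg0 hs f hf hsq N hnorm.symm)
  obtain ⟨u, v, huv⟩ := const_norm hmn K d hd c hc p q x y (by
    rintro ⟨rfl, rfl⟩
    apply hN0
    rw [hN]; ring) (by rw [← hcxy])
  have hCc : algebraMap A2 K (MvPolynomial.C c) =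
      (algebraMap A2 K (C u)) ^ 2 - (d : K) * (algebraMap A2 K (C v)) ^ 2 := by
    rw [huv]
    simp only [map_sub, map_mul, map_pow, map_intCast]
  set u' := algebraMap A2 K (C u)
  set v' := algebraMap A2 K (C v)
  obtain ⟨t, a, b, ht, hgt⟩ := biquad K M w τ G.quad (d : K) (by
    rw [map_intCast]; exact hns) g hg0 (u' * x + d * v' * y) (u' * y + v' * x) (by
      rw [hnorm, hcxy, hCc]
      congr 1
      ring)
  refine ⟨t, ht, ?_⟩
  rw [hs, hgt]
  have hab : a ^ 2 - algebraMap K M (d : K) * b ^ 2 ≠ 0 := by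
    intro h
    apply hg0
    rw [hgt, h, mul_zero]
  rw [sym_mul M _ _ _ (isUnit_iff_ne_zero.2 ((map_ne_zero _).2 ht)) (isUnit_iff_ne_zero.2 hab),
    sym_norm M (d : M) (a ^ 2 - algebraMap K M (d : K) * b ^ 2) a b
      (isUnit_iff_ne_zero.2 hab) (by rw [map_intCast]), add_zero]

end Pool.Agent.Helper8.XS
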