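import Pool.Agent.Helper8.XS.SpCenter
import Pool.Agent.Helper8.XS.PlaceU
import Pool.Agent.Helper8.XS.PlaceR
import Pool.Agent.Helper8.XS.FIrr

set_option autoImplicit false

/-! XS-21 -/

open scoped TensorProduct
open MvPolynomial

namespace Pool.Agent.Helper8.XS

open Pool.Agent.Helper8.BR Pool.Agent.Helper8.DP2

theorem spf_isUnit {u : A2} (hu : IsUnit u) : ∃ c : ℚ, c ≠ 0 ∧ u = MvPolynomial.C c := by
  obtain ⟨c, hc, h⟩ := MvPolynomial.isUnit_iff_eq_C_of_isReduced.1 hu
  exact ⟨c, hc.ne_zero, h⟩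

/-- a prime dividing another prime of `ℚ[a, b]` -/
theorem spf_dvd_prime {g h : A2} (hg : Prime g) (hh : Prime h) (hd : g ∣ h) :
    ∃ c : ℚ, c ≠ 0 ∧ h = MvPolynomial.C c * g := by
  obtain ⟨u, hu⟩ := hd
  have h1 : IsUnit u := by
    rcases hh.irreducible.isUnit_or_isUnit hu with h2 | h2
    · exact absurd h2 hg.not_isUnit
    · exact h2
  obtain ⟨c, hc, rfl⟩ := spf_isUnit h1
  exact ⟨c, hc, by rw [hu, mul_comm]⟩

theorem spf_dvd_special {m n : ℤ} (hb : bad m n ≠ 0) {g : A2} (hg : Prime g)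
    (hd : g ∣ special m n) :
    ∃ c : ℚ, c ≠ 0 ∧ ((∃ i, lines13 m n i = MvPolynomial.C c * g) ∨
      conicZ m n = MvPolynomial.C c * g) := by
  rcases hg.dvd_or_dvd hd with h1 | h1
  · obtain ⟨i, _, hi⟩ := (Prime.dvd_finsetProd_iff hg _).1 h1
    obtain ⟨c, hc, h2⟩ := spf_dvd_prime hg (lines13_prime hb i) hi
    exact ⟨c, hc, Or.inl ⟨i, h2⟩⟩
  · obtain ⟨c, hc, h2⟩ := spf_dvd_prime hg (conicZ_prime hb) h1
    exact ⟨c, hc, Or.inr h2⟩

theorem spf_factor {m n : ℤ} (hb : bad m n ≠ 0) (P : A2) :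
    P ≠ 0 → (∀ g, Prime g → g ∣ P → g ∣ special m n) →
      ∃ (c : ℚ) (e : Fin 13 → ℕ) (k : ℕ), c ≠ 0 ∧
        P = MvPolynomial.C c * (∏ i, lines13 m n i ^ e i) * conicZ m n ^ k := by
  classical
  induction P using UniqueFactorizationMonoid.induction_on_prime with
  | h₁ => intro h; exact absurd rfl h
  | h₂ x hx =>
    intro _ _
    obtain ⟨c, hc, rfl⟩ := spf_isUnit hx
    exact ⟨c, 0, 0, hc, by simp⟩
  | h₃ a p ha hp ih =>
    intro _ hdiv
    obtain ⟨c, e, k, hc, h1⟩ := ih ha fun g hg hga => hdiv g hg (hga.mul_left p)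
    obtain ⟨c', hc', h2 | h2⟩ := spf_dvd_special hb hp (hdiv p hp (dvd_mul_right p a))
    · obtain ⟨i, hi⟩ := h2
      refine ⟨c'⁻¹ * c, e + Pi.single i 1, k, mul_ne_zero (inv_ne_zero hc') hc, ?_⟩
      have h3 : p = MvPolynomial.C c'⁻¹ * lines13 m n i := by
        rw [hi, ← mul_assoc, ← MvPolynomial.C_mul, inv_mul_cancel₀ hc', MvPolynomial.C_1, one_mul]
      have h4 : (∏ j, lines13 m n j ^ (e + Pi.single i 1 : Fin 13 → ℕ) j) =
          (∏ j, lines13 m n j ^ e j) * lines13 m n i := by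
        have h5 : ∀ j, lines13 m n j ^ (e + Pi.single i 1 : Fin 13 → ℕ) j =
            lines13 m n j ^ e j * (if j = i then lines13 m n i else 1) := by
          intro j
          rw [Pi.add_apply, pow_add]
          by_cases hj : j = i
          · subst hj
            rw [Pi.single_eq_same, pow_one, if_pos rfl]
          · rw [Pi.single_eq_of_ne hj, pow_zero, if_neg hj]
        rw [Finset.prod_congr rfl fun j _ => h5 j, Finset.prod_mul_distrib, Finset.prod_ite_eq']
        simp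
      rw [h4, h1, MvPolynomial.C_mul, h3]
      ring
    · refine ⟨c'⁻¹ * c, e, k + 1, mul_ne_zero (inv_ne_zero hc') hc, ?_⟩
      have h3 : p = MvPolynomial.C c'⁻¹ * conicZ m n := by
        rw [h2, ← mul_assoc, ← MvPolynomial.C_mul, inv_mul_cancel₀ hc', MvPolynomial.C_1, one_mul]
      rw [h1, MvPolynomial.C_mul, h3, pow_succ]
      ring

/-- the case of a special prime -/
theorem spf_special {m n : ℤ} (hb : bad m n ≠ 0) (K : Type) [Field K] [Algebra A2 K]
    (f : A2) (hf : Prime f) (hd : f ∣ special m n) :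
    ∃ (c : ℚ) (e : Fin 13 → ℕ) (k : ℕ) (p q : K), c ≠ 0 ∧
      algebraMap A2 K (MvPolynomial.C c * f * (∏ i, lines13 m n i ^ e i) * conicZ m n ^ k) =
        p ^ 2 - algebraMap A2 K (F0 m n) * q ^ 2 := by
  classical
  obtain ⟨c, hc, ⟨i, hi⟩ | h2⟩ := spf_dvd_special hb hf hd
  · refine ⟨c, Pi.single i 1, 0, algebraMap A2 K (lines13 m n i), 0, hc, ?_⟩
    have h4 : (∏ j, lines13 m n j ^ (Pi.single i 1 : Fin 13 → ℕ) j) = lines13 m n i := by
      have h5 : ∀ j, lines13 m n j ^ (Pi.single i 1 : Fin 13 → ℕ) j =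
          (if j = i then lines13 m n i else 1) := by
        intro j
        by_cases hj : j = i
        · subst hj
          rw [Pi.single_eq_same, pow_one, if_pos rfl]
        · rw [Pi.single_eq_of_ne hj, pow_zero, if_neg hj]
      rw [Finset.prod_congr rfl fun j _ => h5 j, Finset.prod_ite_eq']
      simp
    rw [h4, ← hi, pow_zero, mul_one, map_mul]
    ring
  · refine ⟨c, 0, 1, algebraMap A2 K (conicZ m n), 0, hc, ?_⟩
    simp only [Pi.zero_apply, pow_zero, Finset.prod_const_one, mul_one, pow_one]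
    rw [← h2, map_mul]
    ring

theorem spf_not_dvd_two {g : A2} (hg : Prime g) : ¬ g ∣ 2 := by
  intro h
  apply hg.not_isUnit
  refine isUnit_of_dvd_unit h ?_
  have : (2 : A2) = MvPolynomial.C 2 := by rw [map_ofNat]
  rw [this]
  exact (isUnit_iff_ne_zero.2 (by norm_num : (2 : ℚ) ≠ 0)).map MvPolynomial.C

theorem spf_center_of_place {L : Type} [Field L] [Algebra A2 L] {g : A2} {w π : L}
    {O : ValuationSubring L} (h : Place g w π O) : Center g O :=
  ⟨h.le_one, h.eq_one, h.f_lt⟩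

theorem spf_lt_iff {L : Type} [Field L] (O : ValuationSubring L) (x : L) :
    O.valuation x < 1 ↔ x = 0 ∨ x⁻¹ ∉ O := by
  rw [← ValuationSubring.mem_nonunits_iff, ValuationSubring.mem_nonunits_iff_or]

theorem spf_comap_le {L : Type} [Field L] (O : ValuationSubring L) (σ : L ≃+* L) (x : L) :
    (O.comap (σ : L →+* L)).valuation x ≤ 1 ↔ O.valuation (σ x) ≤ 1 := by
  rw [ValuationSubring.valuation_le_one_iff, ValuationSubring.valuation_le_one_iff]
  rfl

theorem spf_comap_lt {L : Type} [Field L] (O : ValuationSubring L) (σ : L ≃+* L) (x : L) :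
    (O.comap (σ : L →+* L)).valuation x < 1 ↔ O.valuation (σ x) < 1 := by
  rw [spf_lt_iff, spf_lt_iff]
  constructor
  · rintro (h | h)
    · left; rw [h, map_zero]
    · right
      intro h1
      apply h
      change σ x⁻¹ ∈ O
      rwa [map_inv₀]
  · rintro (h | h)
    · left; exact (map_eq_zero_iff σ σ.injective).1 h
    · right
      intro h1
      apply h
      have h2 : σ x⁻¹ ∈ O := h1
      rwa [map_inv₀] at h2

theorem spf_eq_one_of {L : Type} [Field L] (O : ValuationSubring L) (x : L)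
    (h1 : O.valuation x ≤ 1) (h2 : ¬ O.valuation x < 1) : O.valuation x = 1 :=
  le_antisymm h1 (not_lt.1 h2)

theorem spf_center_comap {L : Type} [Field L] [Algebra A2 L] {g : A2} {O : ValuationSubring L}
    (σ : L ≃+* L) (hσ : ∀ a : A2, σ (algebraMap A2 L a) = algebraMap A2 L a)
    (h : Center g O) : Center g (O.comap (σ : L →+* L)) := by
  refine ⟨fun a => ?_, fun a ha => ?_, ?_⟩
  · rw [spf_comap_le, hσ]; exact h.le_one a
  · apply spf_eq_one_of
    · rw [spf_comap_le, hσ]; exact h.le_one a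
    · rw [spf_comap_lt, hσ, h.eq_one a ha]; exact lt_irrefl _
  · rw [spf_comap_lt, hσ]; exact h.f_lt

theorem spf_key {m n : ℤ} (hb : bad m n ≠ 0) {K L : Type} [Field K] [Field L] [CharZero L]
    [Algebra K L] [Algebra A2 K] [Algebra A2 L] {r : L} {σ : L ≃+* L}
    (G : Gen m n 1 K L r σ) (f : A2) (hf : Prime f) (hsp : ¬ f ∣ special m n)
    (O : ValuationSubring L) (hO : Center f O) :
    ∃ Φ : L, Φ ≠ 0 ∧ O.valuation Φ < 1 ∧
      (∀ z : L, O.valuation z < 1 → O.valuation z ≤ O.valuation Φ) ∧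
      ∀ g : A2, Prime g → ¬ g ∣ special m n → ∀ O' : ValuationSubring L, Center g O' →
        O'.valuation Φ ≤ 1 ∧ (O'.valuation Φ < 1 → O' = O) := by
  obtain ⟨φ, hφ, h1, h2⟩ := sp_center hb G f hf hsp O hO
  have hle : ∀ p : A2, O.valuation ((aeval ![nu m n r, mu m n r] : A2 →ₐ[ℚ] L) p) ≤ 1 := by
    intro p
    refine (h2 _).2 ⟨p, 1, fun h => hφ.not_isUnit (isUnit_of_dvd_one h), ?_⟩
    rw [map_one, mul_one]
  refine ⟨(aeval ![nu m n r, mu m n r] : A2 →ₐ[ℚ] L) φ, ?_, (h1 φ).2 dvd_rfl, ?_, ?_⟩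
  · intro h
    exact hφ.ne_zero (gen_inj hb G (by rw [h, map_zero]))
  · intro z hz
    obtain ⟨p, q, hq, hzq⟩ := (h2 z).1 hz.le
    have hq1 : O.valuation ((aeval ![nu m n r, mu m n r] : A2 →ₐ[ℚ] L) q) = 1 :=
      spf_eq_one_of O _ (hle q) fun h => hq ((h1 q).1 h)
    have hzp : O.valuation z = O.valuation ((aeval ![nu m n r, mu m n r] : A2 →ₐ[ℚ] L) p) := by
      rw [← hzq, map_mul, hq1, mul_one]
    rw [hzp] at hz ⊢
    obtain ⟨p', rfl⟩ := (h1 p).1 hz
    rw [map_mul, map_mul]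
    exact mul_le_of_le_one_right' (hle p')
  · intro g hg hgs O' hO'
    obtain ⟨φ', hφ', h1', h2'⟩ := sp_center hb G g hg hgs O' hO'
    refine ⟨(h2' _).2 ⟨φ, 1, fun h => hφ'.not_isUnit (isUnit_of_dvd_one h), ?_⟩, fun hlt => ?_⟩
    · rw [map_one, mul_one]
    · have hdvd : φ' ∣ φ := (h1' φ).1 hlt
      have hass : Associated φ' φ := hφ'.associated_of_dvd hφ hdvd
      apply ValuationSubring.ext
      intro z
      rw [← ValuationSubring.valuation_le_one_iff, ← ValuationSubring.valuation_le_one_iff,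
        h2' z, h2 z]
      constructor
      · rintro ⟨p, q, hq, h⟩
        exact ⟨p, q, fun h3 => hq (hass.dvd.trans h3), h⟩
      · rintro ⟨p, q, hq, h⟩
        exact ⟨p, q, fun h3 => hq (hass.symm.dvd.trans h3), h⟩

theorem spf_not_isSquare {K : Type} [Field K] [Algebra A2 K] [IsFractionRing A2 K] {g : A2}
    (hg : Prime g) : ¬ IsSquare (algebraMap A2 K g) := by
  rintro ⟨s, hs⟩
  have h1 : IsIntegral A2 (s ^ 2) := by
    rw [pow_two, ← hs]
    exact isIntegral_algebraMap
  have h2 : IsIntegral A2 s := IsIntegral.of_pow (by norm_num) h1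
  obtain ⟨a, rfl⟩ := IsIntegrallyClosed.isIntegral_iff.1 h2
  rw [← map_mul] at hs
  have h3 : g = a * a := IsFractionRing.injective A2 K hs
  rcases hg.irreducible.isUnit_or_isUnit h3 with h4 | h4
  · exact hg.not_isUnit (by rw [h3]; exact h4.mul h4)
  · exact hg.not_isUnit (by rw [h3]; exact h4.mul h4)

theorem spf_exists_center {m n : ℤ} (hb : bad m n ≠ 0) (K L : Type) [Field K] [Field L]
    [Algebra A2 K] [Algebra K L] [Algebra A2 L] [IsScalarTower A2 K L] [IsFractionRing A2 K]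
    (r : L) (σ : L ≃+* L) (hL : QuadExt K L r σ) (hr : r ^ 2 = algebraMap A2 L (F0 m n))
    (g : A2) (hg : Prime g) : ∃ O : ValuationSubring L, Center g O := by
  by_cases h : g ∣ F0 m n
  · obtain ⟨c, hc, h1⟩ := spf_dvd_prime hg (F0_prime hb) h
    obtain ⟨O, hO⟩ := place_ram A2 K L r σ hL (F0 m n) g hr hg (spf_not_dvd_two hg) h (by
      intro h2
      have h3 : g * g ∣ MvPolynomial.C c * g := by rw [← h1, ← pow_two]; exact h2
      have h4 : g ∣ MvPolynomial.C c := (mul_dvd_mul_iff_right hg.ne_zero).1 h3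
      exact hg.not_isUnit (isUnit_of_dvd_unit h4
        ((isUnit_iff_ne_zero.2 hc).map MvPolynomial.C)))
    exact ⟨O, spf_center_of_place hO⟩
  · obtain ⟨O, hO⟩ := place_unram A2 K L r σ hL (F0 m n) g hr hg (spf_not_dvd_two hg) h
    exact ⟨O, spf_center_of_place hO⟩

theorem spf_center_lt {L : Type} [Field L] [Algebra A2 L] {g : A2} {O : ValuationSubring L}
    (h : Center g O) (a : A2) : O.valuation (algebraMap A2 L a) < 1 ↔ g ∣ a := by
  constructor
  · intro h1
    by_contra h2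
    rw [h.eq_one a h2] at h1
    exact lt_irrefl _ h1
  · rintro ⟨b, rfl⟩
    rw [map_mul, map_mul]
    exact (mul_le_of_le_one_right' (h.le_one b)).trans_lt h.f_lt

theorem spf_zpow_le {Γ : Type} [LinearOrderedCommGroupWithZero Γ] {v : Γ} (hv0 : v ≠ 0)
    (hv : v < 1) {k : ℤ} (hk : v ^ k < 1) : v ^ k ≤ v := by
  have hk1 : 1 ≤ k := by
    by_contra hcon
    have h1 : 1 ≤ v ^ k := by
      have h2 : k ≤ 0 := by omega
      obtain ⟨j, rfl⟩ : ∃ j : ℕ, k = -(j : ℤ) := ⟨(-k).toNat, by omega⟩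
      rw [zpow_neg, zpow_natCast]
      exact (one_le_inv₀ (zero_lt_iff.2 (pow_ne_zero _ hv0))).2 (pow_le_one' hv.le j)
    exact absurd hk (not_lt.2 h1)
  obtain ⟨j, rfl⟩ : ∃ j : ℕ, k = (j : ℤ) + 1 := ⟨(k - 1).toNat, by omega⟩
  rw [zpow_add_one₀ hv0, zpow_natCast]
  exact mul_le_of_le_one_left' (pow_le_one' hv.le j)

/-- the two places over a contact curve are exchanged by the involution -/
theorem spf_comap_ne {L : Type} [Field L] [Algebra A2 L] {m n : ℤ} {f : A2} (hf : Prime f)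
    {r : L} {σ : L ≃+* L} (hσr : σ r = -r) (hr : r ^ 2 = algebraMap A2 L (F0 m n))
    (hσ : ∀ a : A2, σ (algebraMap A2 L a) = algebraMap A2 L a)
    (O : ValuationSubring L) (hO : Center f O) (hw : O.valuation r ≤ 1)
    (hc : SqMod f (F0 m n)) (hF : ¬ f ∣ F0 m n) : O.comap (σ : L →+* L) ≠ O := by
  intro hEq
  have hlt : ∀ x : L, O.valuation x < 1 → O.valuation (σ x) < 1 := by
    intro x hx
    rw [← spf_comap_lt, hEq]
    exact hx
  obtain ⟨r0, q0, hq0, c, hcdvd⟩ := hc
  have hfact : (r * algebraMap A2 L q0 - algebraMap A2 L r0) *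
      (r * algebraMap A2 L q0 + algebraMap A2 L r0) = -(algebraMap A2 L (f * c)) := by
    rw [← hcdvd]
    simp only [map_sub, map_mul, map_pow]
    rw [← hr]
    ring
  have hprod : O.valuation ((r * algebraMap A2 L q0 - algebraMap A2 L r0) *
      (r * algebraMap A2 L q0 + algebraMap A2 L r0)) < 1 := by
    rw [hfact, Valuation.map_neg]
    exact (spf_center_lt hO _).2 (dvd_mul_right f c)
  have hle1 : O.valuation (r * algebraMap A2 L q0) ≤ 1 := by
    rw [map_mul]
    exact mul_le_one' hw (hO.le_one q0)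
  have hkey : ¬ O.valuation (algebraMap A2 L (2 * r0)) < 1 := by
    rw [spf_center_lt hO]
    intro h1
    have h2 : f ∣ r0 := (hf.dvd_or_dvd h1).resolve_left (spf_not_dvd_two hf)
    have h3 : f ∣ F0 m n * q0 ^ 2 := by
      have h4 : F0 m n * q0 ^ 2 = r0 ^ 2 - f * c := by rw [← hcdvd]; ring
      rw [h4]
      exact dvd_sub (dvd_pow h2 (by norm_num)) (dvd_mul_right f c)
    rcases hf.dvd_or_dvd h3 with h5 | h5
    · exact hF h5
    · exact hq0 (hf.dvd_of_dvd_pow h5)
  have hcases : O.valuation (r * algebraMap A2 L q0 - algebraMap A2 L r0) < 1 ∨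
      O.valuation (r * algebraMap A2 L q0 + algebraMap A2 L r0) < 1 := by
    by_contra hcon
    push Not at hcon
    rw [map_mul] at hprod
    exact absurd hprod (not_lt.2 (one_le_mul hcon.1 hcon.2))
  rcases hcases with h1 | h1
  · apply hkey
    have h2 := hlt _ h1
    have h3 : algebraMap A2 L (2 * r0) =
        -((r * algebraMap A2 L q0 - algebraMap A2 L r0) +
          σ (r * algebraMap A2 L q0 - algebraMap A2 L r0)) := by
      simp only [map_sub, map_mul, hσ, hσr, map_ofNat]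
      ring
    rw [h3, Valuation.map_neg]
    exact Valuation.map_add_lt _ h1 h2
  · apply hkey
    have h2 := hlt _ h1
    have h3 : algebraMap A2 L (2 * r0) =
        (r * algebraMap A2 L q0 + algebraMap A2 L r0) +
          σ (r * algebraMap A2 L q0 + algebraMap A2 L r0) := by
      simp only [map_add, map_mul, hσ, hσr, map_ofNat]
      ring
    rw [h3]
    exact Valuation.map_add_lt _ h1 h2

theorem sp_final {m n : ℤ} (hb : bad m n ≠ 0) (K : Type) [Field K] [Algebra A2 K]
    [IsFractionRing A2 K] (f : A2) (hf : Prime f) (hc : SqMod f (F0 m n))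
    (hF : ¬ f ∣ F0 m n) :
    ∃ (c : ℚ) (e : Fin 13 → ℕ) (k : ℕ) (p q : K), c ≠ 0 ∧
      algebraMap A2 K (MvPolynomial.C c * f * (∏ i, lines13 m n i ^ e i) * conicZ m n ^ k) =
        p ^ 2 - algebraMap A2 K (F0 m n) * q ^ 2 := by
  classical
  by_cases hsp : f ∣ special m n
  · exact spf_special hb K f hf hsp
  have hinjK : Function.Injective (algebraMap A2 K) := IsFractionRing.injective A2 K
  have hcharK : CharZero K := charZero_of_injective_algebraMap hinjK
  obtain ⟨L, _, _, r, σ, hL, hr⟩ := exists_quadExt K (algebraMap A2 K (F0 m n))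
    (spf_not_isSquare (F0_prime hb))
  let _ : Algebra A2 L := ((algebraMap K L).comp (algebraMap A2 K)).toAlgebra
  have htower : IsScalarTower A2 K L := IsScalarTower.of_algebraMap_eq' rfl
  have hcharL : CharZero L := charZero_of_injective_algebraMap (algebraMap K L).injective
  have hr' : r ^ 2 = algebraMap A2 L (F0 m n) := hr
  have G : Gen m n 1 K L r σ :=
    ⟨inferInstance, htower, hL, by rw [hr', Int.cast_one, one_mul]⟩
  have hfix : ∀ a : A2, σ (algebraMap A2 L a) = algebraMap A2 L a := fun a => hL.fix _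
  obtain ⟨O, hO⟩ := place_unram A2 K L r σ hL (F0 m n) f hr' hf (spf_not_dvd_two hf) hF
  have hOc := spf_center_of_place hO
  obtain ⟨Φ, hΦ0, hΦlt, hΦmax, hΦg⟩ := spf_key hb G f hf hsp O hOc
  have hinjL : Function.Injective (algebraMap A2 L) := (algebraMap K L).injective.comp hinjK
  have hvf0 : O.valuation (algebraMap A2 L f) ≠ 0 := by
    rw [Valuation.ne_zero_iff]
    intro h
    exact hf.ne_zero (hinjL (by rw [h, map_zero]))
  have hvΦ : O.valuation Φ = O.valuation (algebraMap A2 L f) := by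
    apply le_antisymm
    · obtain ⟨k, hk⟩ := hO.pow Φ hΦ0
      rw [hk]
      rw [hk] at hΦlt
      exact spf_zpow_le hvf0 hO.f_lt hΦlt
    · exact hΦmax _ hO.f_lt
  have hvσΦ : O.valuation (σ Φ) = 1 := by
    have h1 := hΦg f hf hsp _ (spf_center_comap σ hfix hOc)
    rw [spf_comap_le, spf_comap_lt] at h1
    exact spf_eq_one_of O _ h1.1 fun h2 =>
      spf_comap_ne hf hL.conj hr' hfix O hOc hO.w_le hc hF (h1.2 h2)
  obtain ⟨a, b, hab⟩ := hL.gen Φ
  have hnorm : Φ * σ Φ = algebraMap K L (a ^ 2 - algebraMap A2 K (F0 m n) * b ^ 2) := by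
    rw [hab]
    exact QuadExt.norm_eq hL _ hr a b
  obtain ⟨A, B, hAB, hmk⟩ := IsFractionRing.exists_reduced_fraction (A := A2)
    (a ^ 2 - algebraMap A2 K (F0 m n) * b ^ 2)
  have hB0 : (B : A2) ≠ 0 := nonZeroDivisors.ne_zero B.2
  have hN : (a ^ 2 - algebraMap A2 K (F0 m n) * b ^ 2) * algebraMap A2 K (B : A2) =
      algebraMap A2 K A := by
    rw [← hmk, IsLocalization.mk'_spec]
  have hNL : Φ * σ Φ * algebraMap A2 L (B : A2) = algebraMap A2 L A := by
    rw [hnorm]
    change _ * algebraMap K L (algebraMap A2 K (B : A2)) = algebraMap K L (algebraMap A2 K A)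
    rw [← map_mul, hN]
  have hA0 : A ≠ 0 := by
    rintro rfl
    rw [map_zero] at hNL
    have h1 : algebraMap A2 L (B : A2) ≠ 0 := fun h => hB0 (hinjL (by rw [h, map_zero]))
    have h2 : σ Φ ≠ 0 := fun h => hΦ0 ((map_eq_zero_iff σ σ.injective).1 h)
    exact mul_ne_zero (mul_ne_zero hΦ0 h2) h1 hNL
  -- primes which are not special
  have hprimes : ∀ g : A2, Prime g → g ∣ A * B → ¬ g ∣ special m n → g ∣ f := by
    intro g hg hgAB hgs
    by_contra hgf
    obtain ⟨O', hO'⟩ := spf_exists_center hb K L r σ hL hr' g hg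
    have h1 := hΦg g hg hgs O' hO'
    have h2 := hΦg g hg hgs _ (spf_center_comap σ hfix hO')
    rw [spf_comap_le, spf_comap_lt] at h2
    have h3 : O'.valuation Φ = 1 := spf_eq_one_of _ _ h1.1 fun h => hgf (by
      rw [← spf_center_lt hO', h1.2 h]
      exact hO.f_lt)
    have h4 : O'.valuation (σ Φ) = 1 := spf_eq_one_of _ _ h2.1 fun h => hgf (by
      rw [← spf_center_lt (spf_center_comap σ hfix hO'), h2.2 h]
      exact hO.f_lt)
    have h5 : O'.valuation (algebraMap A2 L (B : A2)) = O'.valuation (algebraMap A2 L A) := by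
      rw [← hNL, map_mul, map_mul, h3, h4, one_mul, one_mul]
    have h6 : g ∣ (B : A2) ↔ g ∣ A := by
      rw [← spf_center_lt hO', ← spf_center_lt hO', h5]
    rcases hg.dvd_or_dvd hgAB with h7 | h7
    · exact hg.not_isUnit (hAB h7 (h6.2 h7))
    · exact hg.not_isUnit (hAB (h6.1 h7) h7)
  have hvA : O.valuation (algebraMap A2 L A) =
      O.valuation (algebraMap A2 L f) * O.valuation (algebraMap A2 L (B : A2)) := by
    rw [← hNL, map_mul, map_mul, hvΦ, hvσΦ, mul_one]
  have hfA : f ∣ A := by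
    rw [← spf_center_lt hOc, hvA]
    exact (mul_le_of_le_one_right' (hOc.le_one _)).trans_lt hO.f_lt
  have hfB : ¬ f ∣ (B : A2) := fun h => hf.not_isUnit (hAB hfA h)
  obtain ⟨A', rfl⟩ := hfA
  have hfA' : ¬ f ∣ A' := by
    rw [← spf_center_lt hOc]
    rw [map_mul, map_mul, hOc.eq_one _ hfB, mul_one] at hvA
    have h1 : O.valuation (algebraMap A2 L A') = 1 := by
      apply mul_left_cancel₀ hvf0
      rw [hvA, mul_one]
    rw [h1]
    exact lt_irrefl _
  have hP0 : A' * (B : A2) ≠ 0 := mul_ne_zero (right_ne_zero_of_mul hA0) hB0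
  obtain ⟨c, e, k, hc0, hP⟩ := spf_factor hb (A' * (B : A2)) hP0 (by
    intro g hg hgP
    by_contra hgs
    have h1 : g ∣ f := hprimes g hg (by rw [mul_assoc]; exact hgP.mul_left f) hgs
    have h2 : f ∣ g := (hg.associated_of_dvd hf h1).symm.dvd
    rcases hf.dvd_or_dvd (h2.trans hgP) with h3 | h3
    · exact hfA' h3
    · exact hfB h3)
  refine ⟨c, e, k, a * algebraMap A2 K (B : A2), b * algebraMap A2 K (B : A2), hc0, ?_⟩
  have h1 : MvPolynomial.C c * f * (∏ i, lines13 m n i ^ e i) * conicZ m n ^ k =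
      f * A' * (B : A2) := by
    rw [mul_assoc f, hP]
    ring
  rw [h1, map_mul, ← hN]
  ring

end Pool.Agent.Helper8.XS
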