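import Pool.Agent.Helper8.XS.Rel
import Pool.Agent.Helper8.XS.SpFinal
import Pool.Agent.Helper8.XS.Contact
import Pool.Agent.Helper8.XS.NormUfd
import Pool.Agent.Helper8.XS.FIrr

set_option autoImplicit false

/-! XS-23 -/

open scoped TensorProduct
open MvPolynomial

namespace Pool.Agent.Helper8.XS

open Pool.Agent.Helper8.BR Pool.Agent.Helper8.DP2

section symfield

variable (M : Type) [Field M] (d : M)

private theorem rd_mul {u v : M} (hu : u ≠ 0) (hv : v ≠ 0) :
    sym M d (u * v) = sym M d u + sym M d v :=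
  sym_mul M d u v (IsUnit.mk0 u hu) (IsUnit.mk0 v hv)

private theorem rd_sq {u : M} (hu : u ≠ 0) : sym M d (u ^ 2) = 0 :=
  sym_norm M d (u ^ 2) u 0 (IsUnit.mk0 _ (pow_ne_zero 2 hu)) (by ring)

private theorem rd_self {u : M} (hu : u ≠ 0) : sym M d u + sym M d u = 0 := by
  rw [← rd_mul M d hu hu, ← sq, rd_sq M d hu]

private theorem rd_isN {u : M} (hu : u ≠ 0) (h : IsN M d u) : sym M d u = 0 := by
  obtain ⟨x, y, hxy⟩ := h
  exact sym_norm M d u x y (IsUnit.mk0 _ hu) hxy

/-- if the sum of the three symbols vanishes -/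
private theorem rd_third {u v t : M} (hu : u ≠ 0) (hv : v ≠ 0) (ht : t ≠ 0)
    (h : sym M d (u * v * t) = 0) : sym M d v = sym M d (u * t) := by
  rw [rd_mul M d (mul_ne_zero hu hv) ht, rd_mul M d hu hv] at h
  rw [rd_mul M d hu ht]
  have h2 := rd_self M d hv
  have h3 : sym M d v = -(sym M d v) := eq_neg_of_add_eq_zero_left h2
  rw [h3]
  have h4 : sym M d u + sym M d v + sym M d t = (sym M d u + sym M d t) + sym M d v := by abel
  rw [h4] at h
  exact (eq_neg_of_add_eq_zero_left h).symm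

end symfield

/-- in a factorial ring every nonzero element is a square times a squarefree element -/
private theorem rd_sqfree {A : Type} [CommRing A] [IsDomain A] [UniqueFactorizationMonoid A] (g : A)
    (hg : g ≠ 0) : ∃ h s : A, g = h ^ 2 * s ∧ Squarefree s := by
  induction g using UniqueFactorizationMonoid.induction_on_prime with
  | h₁ => exact absurd rfl hg
  | h₂ x hx => exact ⟨1, x, by ring, hx.squarefree⟩
  | h₃ a p ha hp ih =>
    obtain ⟨h, s, h1, h2⟩ := ih ha
    by_cases hps : p ∣ s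
    · obtain ⟨s', hs'⟩ := hps
      refine ⟨h * p, s', ?_, h2.squarefree_of_dvd ⟨p, by rw [hs']; ring⟩⟩
      rw [h1, hs']
      ring
    · refine ⟨h, p * s, ?_, ?_⟩
      · rw [h1]; ring
      · rw [squarefree_mul_iff]
        exact ⟨(hp.irreducible.isRelPrime_iff_not_dvd).2 hps, hp.irreducible.squarefree, h2⟩

/-- a prime which divides the squarefree part has odd order -/
private theorem rd_odd {A K : Type} [CommRing A] [IsDomain A] [UniqueFactorizationMonoid A] [Field K]
    [Algebra A K] [IsFractionRing A K] (t : K) (b h s f : A) (hb : b ≠ 0)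
    (hsq : Squarefree s) (ht : t * algebraMap A K b ^ 2 = algebraMap A K (h ^ 2 * s)) (hh : h ≠ 0)
    (hf : Prime f) (hfs : f ∣ s) : ¬ EvenK A f t := by
  rintro ⟨a', b', h', ha', hb', hh', he⟩
  have hinj : Function.Injective (algebraMap A K) := IsFractionRing.injective A K
  obtain ⟨u, v, hv, huv⟩ := IsFractionRing.div_surjective (A := A) h'
  have hv0 : v ≠ 0 := nonZeroDivisors.ne_zero hv
  have hu0 : u ≠ 0 := by
    intro hu
    rw [hu, map_zero, zero_div] at huv
    exact hh' huv.symm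
  have hvK : algebraMap A K v ≠ 0 := by
    intro h0
    exact hv0 (hinj (by rw [h0, map_zero]))
  have hbK : algebraMap A K b ≠ 0 := by
    intro h0
    exact hb (hinj (by rw [h0, map_zero]))
  obtain ⟨s', hs'⟩ := hfs
  have hfs' : ¬ f ∣ s' := by
    intro hd
    obtain ⟨s'', hs''⟩ := hd
    exact hf.not_isUnit (hsq f ⟨s'', by rw [hs', hs'']; ring⟩)
  have hs'0 : s' ≠ 0 := by
    intro h0
    exact hfs' (h0 ▸ dvd_zero f)
  have ha'0 : a' ≠ 0 := fun h0 => ha' (h0 ▸ dvd_zero f)
  have hb'0 : b' ≠ 0 := fun h0 => hb' (h0 ▸ dvd_zero f)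
  have key : f * (s' * b') * (h * v) ^ 2 = a' * (u * b) ^ 2 := by
    apply hinj
    have h1 : algebraMap A K (h ^ 2 * s) * algebraMap A K b' * algebraMap A K v ^ 2 =
        algebraMap A K a' * algebraMap A K u ^ 2 * algebraMap A K b ^ 2 := by
      rw [← ht]
      have h2 : (algebraMap A K u / algebraMap A K v) ^ 2 * algebraMap A K v ^ 2 =
          algebraMap A K u ^ 2 := by
        rw [← mul_pow, div_mul_cancel₀ _ hvK]
      calc t * algebraMap A K b ^ 2 * algebraMap A K b' * algebraMap A K v ^ 2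
          = (t * algebraMap A K b') * algebraMap A K b ^ 2 * algebraMap A K v ^ 2 := by ring
        _ = algebraMap A K a' * ((algebraMap A K u / algebraMap A K v) ^ 2 *
              algebraMap A K v ^ 2) * algebraMap A K b ^ 2 := by rw [he, ← huv]; ring
        _ = _ := by rw [h2]
    rw [hs'] at h1
    simp only [map_mul, map_pow] at h1 ⊢
    linear_combination h1
  have hfin : ∀ x : A, x ≠ 0 → FiniteMultiplicity f x := fun x hx =>
    FiniteMultiplicity.of_not_isUnit hf.not_isUnit hx
  have hhv : h * v ≠ 0 := mul_ne_zero hh hv0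
  have hub : u * b ≠ 0 := mul_ne_zero hu0 hb
  have hm := congrArg (multiplicity f) key
  rw [multiplicity_mul hf (hfin _ (mul_ne_zero (mul_ne_zero hf.ne_zero (mul_ne_zero hs'0 hb'0))
      (pow_ne_zero 2 hhv))),
    multiplicity_mul hf (hfin _ (mul_ne_zero hf.ne_zero (mul_ne_zero hs'0 hb'0))),
    multiplicity_mul hf (hfin _ (mul_ne_zero hs'0 hb'0)),
    multiplicity_mul hf (hfin _ (mul_ne_zero ha'0 (pow_ne_zero 2 hub))),
    (hfin _ hhv).multiplicity_pow hf, (hfin _ hub).multiplicity_pow hf,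
    multiplicity_eq_zero.2 hfs', multiplicity_eq_zero.2 hb', multiplicity_eq_zero.2 ha',
    multiplicity_self] at hm
  omega

section classes

variable {m n : ℤ} {M : Type} [Field M] [Algebra A2 M]

/-- the classes of products of lines -/
private def LC (m n : ℤ) (M : Type) [Field M] [Algebra A2 M] (d : M) : Set (Br M) :=
  {x | ∃ (c : ℚ) (T : Finset (Fin 7)), c ≠ 0 ∧
    x = sym M d (algebraMap A2 M (MvPolynomial.C c * ∏ i ∈ T, linA m n i))}

private theorem LC_add {d : M} (hinj : Function.Injective (algebraMap A2 M))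
    (hl : ∀ i, linA m n i ≠ 0) {x y : Br M} (hx : x ∈ LC m n M d) (hy : y ∈ LC m n M d) :
    x + y ∈ LC m n M d := by
  classical
  obtain ⟨c, T, hc, rfl⟩ := hx
  obtain ⟨c', T', hc', rfl⟩ := hy
  have hne : ∀ a : A2, a ≠ 0 → algebraMap A2 M a ≠ 0 := fun a ha h0 =>
    ha (hinj (by rw [h0, map_zero]))
  have hp : ∀ T : Finset (Fin 7), ∏ i ∈ T, linA m n i ≠ 0 := fun T =>
    Finset.prod_ne_zero_iff.2 fun i _ => hl i
  have hC : ∀ c : ℚ, c ≠ 0 → (MvPolynomial.C c : A2) ≠ 0 := fun c hc h0 =>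
    hc (by rwa [MvPolynomial.C_eq_zero] at h0)
  refine ⟨c * c', (T ∪ T') \ (T ∩ T'), mul_ne_zero hc hc', ?_⟩
  rw [← rd_mul M d (hne _ (mul_ne_zero (hC c hc) (hp T))) (hne _ (mul_ne_zero (hC c' hc') (hp T'))),
    ← map_mul]
  have h1 : (∏ i ∈ T, linA m n i) * (∏ i ∈ T', linA m n i) =
      (∏ i ∈ (T ∪ T') \ (T ∩ T'), linA m n i) * (∏ i ∈ T ∩ T', linA m n i) ^ 2 := by
    rw [← Finset.prod_union_inter, ← Finset.prod_sdiff
      (Finset.inter_subset_union : T ∩ T' ⊆ T ∪ T')]
    ring
  have h2 : (MvPolynomial.C c : A2) * (∏ i ∈ T, linA m n i) *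
      (MvPolynomial.C c' * (∏ i ∈ T', linA m n i)) =
      (MvPolynomial.C (c * c') * ∏ i ∈ (T ∪ T') \ (T ∩ T'), linA m n i) *
        (∏ i ∈ T ∩ T', linA m n i) ^ 2 := by
    rw [MvPolynomial.C_mul]
    linear_combination (MvPolynomial.C c : A2) * MvPolynomial.C c' * h1
  rw [h2, map_mul, rd_mul M d (hne _ (mul_ne_zero (hC _ (mul_ne_zero hc hc')) (hp _)))
    (hne _ (pow_ne_zero 2 (hp _))), map_pow, rd_sq M d (hne _ (hp _)), add_zero]

private theorem LC_const {d : M} {c : ℚ} (hc : c ≠ 0) :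
    sym M d (algebraMap A2 M (MvPolynomial.C c)) ∈ LC m n M d :=
  ⟨c, ∅, hc, by rw [Finset.prod_empty, mul_one]⟩

private theorem LC_zero {d : M} : (0 : Br M) ∈ LC m n M d := by
  have h := LC_const (m := m) (n := n) (M := M) (d := d) (c := 1) one_ne_zero
  rw [MvPolynomial.C_1, map_one] at h
  have h1 : sym M d (1 : M) = 0 := by
    have := rd_sq M d (u := 1) one_ne_zero
    rwa [one_pow] at this
  rwa [h1] at h

private theorem LC_self {d : M} (hinj : Function.Injective (algebraMap A2 M))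
    (hl : ∀ i, linA m n i ≠ 0) {x : Br M} (hx : x ∈ LC m n M d) : x + x = 0 := by
  obtain ⟨c, T, hc, rfl⟩ := hx
  refine rd_self M d fun h0 => ?_
  have h1 := hinj (h0.trans (map_zero _).symm)
  rcases mul_eq_zero.1 h1 with h2 | h2
  · exact hc (by rwa [MvPolynomial.C_eq_zero] at h2)
  · exact Finset.prod_ne_zero_iff.2 (fun i _ => hl i) h2

/-- the class of `a` is a product of lines -/
private def Good (m n : ℤ) (M : Type) [Field M] [Algebra A2 M] (d : M) (a : A2) : Prop :=
  a ≠ 0 ∧ sym M d (algebraMap A2 M a) ∈ LC m n M d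

private theorem Good.mul {d : M} (hinj : Function.Injective (algebraMap A2 M))
    (hl : ∀ i, linA m n i ≠ 0) {a b : A2} (ha : Good m n M d a) (hb : Good m n M d b) :
    Good m n M d (a * b) := by
  have hne : ∀ a : A2, a ≠ 0 → algebraMap A2 M a ≠ 0 := fun a ha h0 =>
    ha (hinj (by rw [h0, map_zero]))
  refine ⟨mul_ne_zero ha.1 hb.1, ?_⟩
  rw [map_mul, rd_mul M d (hne a ha.1) (hne b hb.1)]
  exact LC_add hinj hl ha.2 hb.2

private theorem Good.one {d : M} : Good m n M d 1 := by
  refine ⟨one_ne_zero, ?_⟩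
  have h := LC_const (m := m) (n := n) (M := M) (d := d) (c := 1) one_ne_zero
  rwa [MvPolynomial.C_1] at h

private theorem Good.const {d : M} {c : ℚ} (hc : c ≠ 0) : Good m n M d (MvPolynomial.C c) :=
  ⟨fun h0 => hc (by rwa [MvPolynomial.C_eq_zero] at h0), LC_const hc⟩

private theorem Good.pow {d : M} (hinj : Function.Injective (algebraMap A2 M))
    (hl : ∀ i, linA m n i ≠ 0) {a : A2} (ha : Good m n M d a) (k : ℕ) :
    Good m n M d (a ^ k) := by
  induction k with
  | zero => rw [pow_zero]; exact Good.one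
  | succ k ih => rw [pow_succ]; exact ih.mul hinj hl ha

private theorem Good.prod {d : M} (hinj : Function.Injective (algebraMap A2 M))
    (hl : ∀ i, linA m n i ≠ 0) {ι : Type} (s : Finset ι) (x : ι → A2)
    (hx : ∀ i ∈ s, Good m n M d (x i)) : Good m n M d (∏ i ∈ s, x i) := by
  classical
  induction s using Finset.induction_on with
  | empty => rw [Finset.prod_empty]; exact Good.one
  | insert a s ha ih =>
    rw [Finset.prod_insert ha]
    exact (hx a (Finset.mem_insert_self _ _)).mul hinj hl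
      (ih fun i hi => hx i (Finset.mem_insert_of_mem hi))

private theorem Good.msprod {d : M} (hinj : Function.Injective (algebraMap A2 M))
    (hl : ∀ i, linA m n i ≠ 0) (s : Multiset A2)
    (hx : ∀ a ∈ s, Good m n M d a) : Good m n M d s.prod := by
  induction s using Multiset.induction_on with
  | empty => rw [Multiset.prod_zero]; exact Good.one
  | cons a s ih =>
    rw [Multiset.prod_cons]
    exact (hx a (Multiset.mem_cons_self _ _)).mul hinj hl
      (ih fun i hi => hx i (Multiset.mem_cons_of_mem hi))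

private theorem Good.of_mul {d : M} (hinj : Function.Injective (algebraMap A2 M))
    (hl : ∀ i, linA m n i ≠ 0) {a b : A2} (ha : a ≠ 0) (hb : Good m n M d b)
    (h : sym M d (algebraMap A2 M (a * b)) = 0) : Good m n M d a := by
  have hne : ∀ a : A2, a ≠ 0 → algebraMap A2 M a ≠ 0 := fun a ha h0 =>
    ha (hinj (by rw [h0, map_zero]))
  refine ⟨ha, ?_⟩
  rw [map_mul, rd_mul M d (hne a ha) (hne b hb.1)] at h
  have h2 := LC_self hinj hl hb.2
  have h3 : sym M d (algebraMap A2 M a) = sym M d (algebraMap A2 M b) := by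
    rw [eq_neg_of_add_eq_zero_left h, ← eq_neg_of_add_eq_zero_left h2]
  rw [h3]
  exact hb.2

end classes

theorem reduce {m n d : ℤ} (hb : bad m n ≠ 0) (hd : ¬ IsSquare (d : ℚ)) (α : Fam m n d)
    (hV : Van α) {K M : Type} [Field K] [Field M] [CharZero M] [Algebra K M] [Algebra A2 K]
    [Algebra A2 M] {w : M} {τ : M ≃+* M} (G : Gen m n d K M w τ) (t : K) (ht : t ≠ 0)
    (hs : α.val M (qring_field M) (eta G) = sym M (d : M) (algebraMap K M t)) :
    ∃ (c : ℚ) (T : Finset (Fin 7)), c ≠ 0 ∧ α.val M (qring_field M) (eta G) =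
      sym M (d : M) (algebraMap A2 M (MvPolynomial.C c * ∏ i ∈ T, linA m n i)) := by
  classical
  have := G.frac
  have := G.tower
  have hd0 : d ≠ 0 := by
    rintro rfl
    exact hd ⟨0, by simp⟩
  have hdM : (d : M) ≠ 0 := Int.cast_ne_zero.2 hd0
  have hinjK : Function.Injective (algebraMap A2 K) := IsFractionRing.injective A2 K
  have hinj : Function.Injective (algebraMap A2 M) := by
    rw [IsScalarTower.algebraMap_eq A2 K M]
    exact (algebraMap K M).injective.comp hinjK
  have hne : ∀ a : A2, a ≠ 0 → algebraMap A2 M a ≠ 0 := fun a ha h0 =>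
    ha (hinj (by rw [h0, map_zero]))
  have hlin : ∀ i, linA m n i ≠ 0 := by
    intro i
    fin_cases i
    · exact (lines13_prime hb 0).ne_zero
    · exact (lines13_prime hb 3).ne_zero
    · exact (lines13_prime hb 4).ne_zero
    · exact (lines13_prime hb 7).ne_zero
    · exact (lines13_prime hb 8).ne_zero
    · exact (lines13_prime hb 11).ne_zero
    · exact (lines13_prime hb 12).ne_zero
  have hratC : ∀ c : ℚ, algebraMap A2 M (MvPolynomial.C c) = (c : M) := fun c =>
    eq_ratCast ((algebraMap A2 M).comp MvPolynomial.C) c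
  -- images of the forms
  set x : M := algebraMap A2 M (X 0) with hx
  set y : M := algebraMap A2 M (X 1) with hy
  have hw : w ^ 2 = (d : M) * F m n x y 1 := (eta G).eq
  have hl13 : ∀ i, algebraMap A2 M (lines13 m n i) = lin13 m n x y 1 i := by
    intro i
    fin_cases i <;> simp [lines13, lin13, hx, hy]
  have hl7 : ∀ i, algebraMap A2 M (linA m n i) = lin m n x y 1 i := by
    intro i
    fin_cases i <;> simp [linA, lin, hx, hy]
  have hcZ : algebraMap A2 M (conicZ m n) = conZ m n x y 1 := by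
    simp [conicZ, conZ, rho, kap, hx, hy]
  have hl : ∀ i, lin13 m n x y 1 i ≠ 0 := fun i => by
    rw [← hl13]
    exact hne _ (lines13_prime hb i).ne_zero
  have hz : conZ m n x y 1 ≠ 0 := by
    rw [← hcZ]
    exact hne _ (conicZ_prime hb).ne_zero
  have hr0 : ((m : ℚ) ^ 2 - n ^ 2) ≠ 0 := by
    intro h0
    apply hb
    have h1 : m ^ 2 - n ^ 2 = 0 := by exact_mod_cast h0
    unfold bad
    rw [h1]
    ring
  have hzz : zz m n x y 1 ≠ 0 := by
    have h1 : algebraMap A2 M (zz m n (X 0) (X 1) 1) = zz m n x y 1 := by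
      simp [zz, hx, hy]
    rw [← h1]
    refine hne _ fun h0 => ?_
    have h2 := congrArg (MvPolynomial.eval (fun _ : Fin 2 => (0 : ℚ))) h0
    simp only [zz, map_mul, map_add, map_sub, map_neg, map_pow, map_intCast, MvPolynomial.eval_X,
      map_zero, mul_zero, mul_one, zero_add, sub_zero, add_zero] at h2
    exact pow_ne_zero 3 hr0 (by linear_combination h2)
  -- the 13 lines and the conic
  have hG13 : ∀ i, Good m n M (d : M) (lines13 m n i) := by
    intro i
    refine ⟨(lines13_prime hb i).ne_zero, ?_⟩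
    obtain ⟨c, T, hc, hN⟩ := rel13 hb hd0 M x y 1 w hw hl hzz i
    refine ⟨c, T, hc, ?_⟩
    have hcM : (c : M) ≠ 0 := Rat.cast_ne_zero.2 hc
    have hpM : ∏ j ∈ T, lin m n x y 1 j ≠ 0 := Finset.prod_ne_zero_iff.2 fun j _ => by
      rw [← hl7]; exact hne _ (hlin j)
    have h1 := rd_isN M (d : M) (mul_ne_zero (mul_ne_zero hcM (hl i)) hpM) hN
    rw [hl13, rd_third M (d : M) hcM (hl i) hpM h1, map_mul, hratC, map_prod]
    simp only [hl7]
  have hGZ : Good m n M (d : M) (conicZ m n) := by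
    refine ⟨(conicZ_prime hb).ne_zero, ?_⟩
    obtain ⟨c, T, hc, hN⟩ := relZ hb hd0 M x y 1 w hw hl hzz hz
    refine ⟨c, T, hc, ?_⟩
    have hcM : (c : M) ≠ 0 := Rat.cast_ne_zero.2 hc
    have hpM : ∏ j ∈ T, lin m n x y 1 j ≠ 0 := Finset.prod_ne_zero_iff.2 fun j _ => by
      rw [← hl7]; exact hne _ (hlin j)
    have h1 := rd_isN M (d : M) (mul_ne_zero (mul_ne_zero hcM hz) hpM) hN
    rw [hcZ, rd_third M (d : M) hcM hz hpM h1, map_mul, hratC, map_prod]
    simp only [hl7]
  -- the quartic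
  have hF0 : F0 m n ≠ 0 := (F0_prime hb).ne_zero
  have hwF : w ^ 2 = (d : M) * algebraMap A2 M (F0 m n) := by
    rw [G.sq, map_mul, map_intCast]
  have hw0 : w ≠ 0 := by
    intro h0
    rw [h0] at hwF
    exact mul_ne_zero hdM (hne _ hF0) (by rw [← hwF]; ring)
  have hGF : Good m n M (d : M) (F0 m n) := by
    refine ⟨hF0, -1, ∅, by norm_num, ?_⟩
    rw [Finset.prod_empty, mul_one, hratC]
    have h1 : sym M (d : M) ((d : M) * algebraMap A2 M (F0 m n)) = 0 := by
      rw [← hwF]; exact rd_sq M (d : M) hw0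
    rw [rd_mul M (d : M) hdM (hne _ hF0)] at h1
    have h2 : sym M (d : M) (-(d : M)) = 0 :=
      sym_norm M (d : M) _ 0 1 (IsUnit.mk0 _ (neg_ne_zero.2 hdM)) (by ring)
    have h3 : (-(d : M)) = (((-1 : ℚ)) : M) * (d : M) := by push_cast; ring
    have h4 : (((-1 : ℚ)) : M) ≠ 0 := by push_cast; exact neg_ne_zero.2 one_ne_zero
    rw [h3, rd_mul M (d : M) h4 hdM] at h2
    have h5 := rd_self M (d : M) hdM
    rw [eq_neg_of_add_eq_zero_right h1, ← eq_neg_of_add_eq_zero_right h5,
      eq_neg_of_add_eq_zero_left h2, ← eq_neg_of_add_eq_zero_right h5]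
  -- units
  have hGu : ∀ u : A2, IsUnit u → Good m n M (d : M) u := by
    intro u hu
    obtain ⟨r, hr, rfl⟩ := MvPolynomial.isUnit_iff_eq_C_of_isReduced.1 hu
    exact Good.const hr.ne_zero
  -- primes of odd order
  have hGp : ∀ f : A2, Prime f → ¬ EvenK A2 f t → Good m n M (d : M) f := by
    intro f hf hodd
    by_cases hsd : SqMod f (d : A2)
    · obtain ⟨c, p, q, hc, hfe⟩ := prime_norm d hd f hf hsd
      have hpq : p ^ 2 - (d : A2) * q ^ 2 ≠ 0 := by
        intro h0
        exact hf.ne_zero (by rw [hfe, h0, mul_zero])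
      have hpqg : Good m n M (d : M) (p ^ 2 - (d : A2) * q ^ 2) := by
        refine ⟨hpq, ?_⟩
        have h1 : sym M (d : M) (algebraMap A2 M (p ^ 2 - (d : A2) * q ^ 2)) = 0 :=
          sym_norm M (d : M) _ (algebraMap A2 M p) (algebraMap A2 M q)
            (IsUnit.mk0 _ (hne _ hpq)) (by simp only [map_sub, map_mul, map_pow, map_intCast])
        rw [h1]
        exact LC_zero
      rw [hfe]
      exact (Good.const hc).mul hinj hlin hpqg
    · by_cases hfF : f ∣ F0 m n
      · obtain ⟨u, hu⟩ := (hf.associated_of_dvd (F0_prime hb) hfF).symm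
        rw [← hu]
        exact hGF.mul hinj hlin (hGu _ u.isUnit)
      · have hc := contact hb hd α hV G t ht hs f hf hsd hfF hodd
        obtain ⟨c, e, k, p, q, hc0, he⟩ := sp_final hb K f hf hc hfF
        have hgood : Good m n M (d : M)
            (MvPolynomial.C c * (∏ i, lines13 m n i ^ e i) * conicZ m n ^ k) :=
          ((Good.const hc0).mul hinj hlin (Good.prod hinj hlin _ _ fun i _ =>
            (hG13 i).pow hinj hlin (e i))).mul hinj hlin (hGZ.pow hinj hlin k)
        refine Good.of_mul hinj hlin hf.ne_zero hgood ?_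
        have h1 : f * (MvPolynomial.C c * (∏ i, lines13 m n i ^ e i) * conicZ m n ^ k) =
            MvPolynomial.C c * f * (∏ i, lines13 m n i ^ e i) * conicZ m n ^ k := by ring
        have h2 : algebraMap A2 M (f * (MvPolynomial.C c * (∏ i, lines13 m n i ^ e i) *
            conicZ m n ^ k)) = algebraMap K M p ^ 2 -
            algebraMap A2 M (F0 m n) * algebraMap K M q ^ 2 := by
          have h3 := congrArg (algebraMap K M) he
          rw [← IsScalarTower.algebraMap_apply, ← h1] at h3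
          rw [h3, map_sub, map_mul, map_pow, map_pow, ← IsScalarTower.algebraMap_apply]
        refine sym_norm M (d : M) _ (algebraMap K M p) (w * algebraMap K M q / (d : M))
          (IsUnit.mk0 _ (hne _ (mul_ne_zero hf.ne_zero hgood.1))) ?_
        rw [h2, div_pow, mul_pow, hwF]
        field_simp
  -- conclusion
  obtain ⟨a, b, hbm, hab⟩ := IsFractionRing.div_surjective (A := A2) t
  have hb0 : b ≠ 0 := nonZeroDivisors.ne_zero hbm
  have hbK : algebraMap A2 K b ≠ 0 := fun h0 => hb0 (hinjK (by rw [h0, map_zero]))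
  have ha0 : a ≠ 0 := by
    intro h0
    rw [h0, map_zero, zero_div] at hab
    exact ht hab.symm
  obtain ⟨h, s, hgs, hsq⟩ := rd_sqfree (a * b) (mul_ne_zero ha0 hb0)
  have hh0 : h ≠ 0 := by
    rintro rfl
    exact mul_ne_zero ha0 hb0 (by rw [hgs]; ring)
  have hs0 : s ≠ 0 := by
    rintro rfl
    exact mul_ne_zero ha0 hb0 (by rw [hgs]; ring)
  have htb : t * algebraMap A2 K b ^ 2 = algebraMap A2 K (h ^ 2 * s) := by
    rw [← hgs, map_mul, ← hab]
    field_simp
  have hGs : Good m n M (d : M) s := by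
    obtain ⟨φ, hφ, hφs⟩ := UniqueFactorizationMonoid.exists_prime_factors s hs0
    obtain ⟨u, hu⟩ := hφs
    rw [← hu]
    refine Good.mul hinj hlin (Good.msprod hinj hlin φ fun f hf => ?_) (hGu _ u.isUnit)
    have hfs : f ∣ s := (Multiset.dvd_prod hf).trans ⟨u, hu.symm⟩
    exact hGp f (hφ f hf) (rd_odd t b h s f hb0 hsq htb hh0 (hφ f hf) hfs)
  have htM : algebraMap K M t ≠ 0 := fun h0 => ht ((algebraMap K M).injective (by rw [h0, map_zero]))
  have hfin : sym M (d : M) (algebraMap K M t) = sym M (d : M) (algebraMap A2 M s) := by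
    have h1 := congrArg (algebraMap K M) htb
    rw [map_mul, map_pow, ← IsScalarTower.algebraMap_apply, ← IsScalarTower.algebraMap_apply,
      map_mul, map_pow] at h1
    have h2 := congrArg (sym M (d : M)) h1
    rw [rd_mul M (d : M) htM (pow_ne_zero 2 (hne _ hb0)), rd_sq M (d : M) (hne _ hb0), add_zero,
      rd_mul M (d : M) (pow_ne_zero 2 (hne _ hh0)) (hne _ hs0), rd_sq M (d : M) (hne _ hh0),
      zero_add] at h2
    exact h2
  obtain ⟨c, T, hc, hcT⟩ := hGs.2
  exact ⟨c, T, hc, by rw [hs, hfin, hcT]⟩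

end Pool.Agent.Helper8.XS
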