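import Pool.Agent.Helper8.XS.Eval
import Pool.Agent.Helper8.XS.FamA
import Pool.Agent.Helper8.XS.EvenT
import Pool.Agent.Helper8.XS.Reduce
import Pool.Agent.Helper8.XS.GenT
import Pool.Agent.Helper8.XS.Const

set_option autoImplicit false

/-! XS-29 -/

open scoped TensorProduct
open MvPolynomial

namespace Pool.Agent.Helper8.XS

open Pool.Agent.Helper8.BR Pool.Agent.Helper8.DP2

theorem gen_D_nonsq {m n e : ℤ} (hb : bad m n ≠ 0) (he : e ≠ 0) (K : Type) [Field K]
    [Algebra A2 K] [IsFractionRing A2 K] :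
    ¬ IsSquare (algebraMap A2 K ((e : A2) * F0 m n)) := by
  rintro ⟨r, hr⟩
  obtain ⟨p, hp⟩ := IsIntegrallyClosed.exists_algebraMap_eq_of_isIntegral_pow (R := A2) (K := K)
    (x := r) (n := 2) (by norm_num) (by rw [sq, ← hr]; exact isIntegral_algebraMap)
  rw [← hp, ← map_mul] at hr
  have h1 := IsFractionRing.injective A2 K hr
  have hF := F0_prime hb
  have h2 : F0 m n ∣ p := by
    have : F0 m n ∣ p * p := ⟨(e : A2), by rw [← h1]; ring⟩
    rcases hF.dvd_or_dvd this with h | h <;> exact h
  obtain ⟨q, rfl⟩ := h2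
  have h3 : (e : A2) = F0 m n * (q * q) := by
    have h4 : F0 m n * (e : A2) = F0 m n * (F0 m n * (q * q)) := by
      rw [mul_comm (F0 m n) (e : A2), h1]; ring
    exact mul_left_cancel₀ hF.ne_zero h4
  have hu : IsUnit (e : A2) := by
    have : (e : A2) = C (e : ℚ) := by simp
    rw [this]
    exact (isUnit_iff_ne_zero.2 (Int.cast_ne_zero.2 he)).map C
  exact hF.not_unit (isUnit_of_dvd_unit ⟨q * q, h3⟩ hu)

theorem exists_gen {m n e : ℤ} (hb : bad m n ≠ 0) (he : e ≠ 0) :
    ∃ (K M : Type) (_ : Field K) (_ : Field M) (_ : CharZero M) (_ : Algebra K M)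
      (_ : Algebra A2 K) (_ : Algebra A2 M) (w : M) (τ : M ≃+* M), Gen m n e K M w τ := by
  let K := FractionRing A2
  haveI : CharZero K := charZero_of_injective_algebraMap (IsFractionRing.injective A2 K)
  obtain ⟨M, iM, aM, δ, σ, hq, hδ⟩ := exists_quadExt K _ (gen_D_nonsq hb he K)
  haveI : CharZero M := charZero_of_injective_algebraMap (algebraMap K M).injective
  letI : Algebra A2 M := ((algebraMap K M).comp (algebraMap A2 K)).toAlgebra
  haveI : IsScalarTower A2 K M := IsScalarTower.of_algebraMap_eq (fun _ => rfl)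
  exact ⟨K, M, inferInstance, iM, inferInstance, aM, inferInstance, inferInstance, δ, σ,
    ⟨inferInstance, inferInstance, hq, hδ⟩⟩

theorem structure_thm {m n d : ℤ} (hb : bad m n ≠ 0) (hd : ¬ IsSquare (d : ℚ))
    (α : Fam m n d) : ∃ (c : Br ℚ) (T : Finset (Fin 7)), Even T.card ∧
      ∀ (E : Type) [Field E] [CharZero E] [Uncountable E] (P : RPt m n d E),
        α.val E (qring_field E) P = Br.map (algebraMap ℚ E) c +
          sym E (d : E) (∏ i ∈ T, ent (toPt P) i) := by
  have hd0 : d ≠ 0 := by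
    rintro rfl
    exact hd ⟨0, by simp⟩
  have hm : m ≠ 0 := by
    rintro rfl
    apply hb
    unfold bad
    ring
  have hn : n ≠ 0 := by
    rintro rfl
    apply hb
    unfold bad
    ring
  obtain ⟨c, hV⟩ := exists_const hb hd α
  obtain ⟨K, M, iK, iM, iC, aKM, aK, aM, w, τ, G⟩ := exists_gen (e := d) hb hd0
  haveI := G.frac
  haveI := G.tower
  have hinj : Function.Injective (algebraMap A2 M) := by
    rw [IsScalarTower.algebraMap_eq A2 K M]
    exact (algebraMap K M).injective.comp (IsFractionRing.injective A2 K)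
  obtain ⟨t, ht, hs⟩ := exists_t hb hd _ hV G
  obtain ⟨c', T, hc', hs'⟩ := reduce hb hd _ hV G t ht hs
  have hT := even_card hb hd _ hV G c' hc' T hs'
  obtain ⟨αT, hαT⟩ := exists_famA (m := m) (n := n) (d := d) hb hd0 T hT
  -- the lines do not vanish at the generic point
  have hlin : ∀ i, lin m n (algebraMap A2 M (X 0)) (algebraMap A2 M (X 1)) (1 : M) i =
      algebraMap A2 M (linA m n i) := by
    intro i
    unfold linA
    fin_cases i <;> simp [lin]
  have hlin0 : ∀ i, linA m n i ≠ 0 := by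
    intro i h
    have hm' : (m : ℚ) ≠ 0 := by exact_mod_cast hm
    have hn' : (n : ℚ) ≠ 0 := by exact_mod_cast hn
    have key : ∀ v : Fin 2 → ℚ, lin m n (v 0) (v 1) (1 : ℚ) i = 0 := by
      intro v
      have h1 : MvPolynomial.eval v (linA m n i) = 0 := by rw [h, map_zero]
      rw [← h1]
      unfold linA
      fin_cases i <;> simp [lin]
    have k1 := key ![1, 1]
    have k2 := key ![0, 1]
    have k3 := key ![1, 0]
    have k4 := key ![0, 0]
    fin_cases i <;> simp [lin] at k1 k2 k3 k4 <;> simp_all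
  have hent : ∏ i ∈ T, ent (toPt (eta G)) i = algebraMap A2 M (∏ i ∈ T, linA m n i) := by
    rw [map_prod]
    refine Finset.prod_congr rfl (fun i _ => ?_)
    have h1 : lin m n (toPt (eta G)).x (toPt (eta G)).y (toPt (eta G)).z i ≠ 0 := by
      change lin m n (algebraMap A2 M (X 0)) (algebraMap A2 M (X 1)) (1 : M) i ≠ 0
      rw [hlin i]
      exact (map_ne_zero_iff _ hinj).2 (hlin0 i)
    unfold ent
    rw [if_pos h1]
    exact hlin i
  have hprod0 : algebraMap A2 M (∏ i ∈ T, linA m n i) ≠ 0 :=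
    (map_ne_zero_iff _ hinj).2 (Finset.prod_ne_zero_iff.2 fun i _ => hlin0 i)
  have hC0 : algebraMap A2 M (C c') ≠ 0 :=
    (map_ne_zero_iff _ hinj).2 (by simpa using hc')
  have hCm : algebraMap A2 M (C c') = (algebraMap ℚ M) c' := by
    have : ((algebraMap A2 M).comp (C : ℚ →+* A2)) = algebraMap ℚ M := Subsingleton.elim _ _
    exact congrArg (fun f : ℚ →+* M => f c') this
  set κ : Br ℚ := sym ℚ (d : ℚ) c' with hκ
  have hκE : ∀ (E : Type) [Field E] [CharZero E], Br.map (algebraMap ℚ E) κ =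
      sym E (d : E) (algebraMap ℚ E c') := by
    intro E _ _
    rw [hκ, sym_map ℚ E (algebraMap ℚ E) (d : ℚ) c' (isUnit_iff_ne_zero.2 hc')
      (isUnit_iff_ne_zero.2 (by exact_mod_cast hd0)) (isUnit_iff_ne_zero.2 (by norm_num)),
      map_intCast]
  refine ⟨c + κ, T, hT, ?_⟩
  intro E _ _ _ P
  have h0 := eval_zero hb hd0
    (((α.sub (famConst m n d c)).sub αT).sub (famConst m n d κ)) G (by
      change (α.sub (famConst m n d c)).val M (qring_field M) (eta G) -
        αT.val M (qring_field M) (eta G) - Br.map (qring_field M).hom κ = 0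
      rw [hs', hαT M (eta G), hent, Subsingleton.elim (qring_field M).hom (algebraMap ℚ M),
        hκE M, map_mul, sym_mul M _ _ _ (isUnit_iff_ne_zero.2 hC0)
        (isUnit_iff_ne_zero.2 hprod0), hCm]
      abel) E P
  have h1 : α.val E (qring_field E) P - Br.map (qring_field E).hom c -
      αT.val E (qring_field E) P - Br.map (qring_field E).hom κ = 0 := h0
  rw [hαT E P, Subsingleton.elim (qring_field E).hom (algebraMap ℚ E)] at h1
  rw [map_add, ← sub_eq_zero, ← h1]
  abel

end Pool.Agent.Helper8.XS
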