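import Pool.Agent.Helper8.XS.OrthIff
import Pool.Agent.Helper8.XS.Structure
import Pool.Agent.Helper8.XS.Glob311
import Pool.Agent.Helper8.XS.Glob3649
import Pool.Agent.Helper8.XS.Glob2881

set_option autoImplicit false

/-! DB-8 -/

open scoped TensorProduct

namespace Pool.Agent.Helper8.XS

open Pool.Agent.Helper8.BR Pool.Agent.Helper8.DP2

/-- a point over a field in unimodular coordinates -/
def ofPt {m n d : ℤ} {E : Type} [Field E] (P : DP2.Pt m n d E) : RPt m n d E where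
  x := P.x
  y := P.y
  z := P.z
  w := P.w
  unimod := by
    by_contra h
    apply P.ne
    have h1 : Ideal.span {P.x, P.y, P.z} = ⊥ := by
      rcases Ideal.eq_bot_or_top (Ideal.span {P.x, P.y, P.z}) with h2 | h2
      · exact h2
      · exact absurd h2 h
    rw [Ideal.span_eq_bot] at h1
    exact ⟨h1 _ (by simp), h1 _ (by simp), h1 _ (by simp)⟩
  eq := P.eq

theorem toPt_ofPt {m n d : ℤ} {E : Type} [Field E] (P : DP2.Pt m n d E) :
    toPt (ofPt P) = P := rfl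

/-- an adelic point -/
noncomputable def ofDP {m n d : ℤ} (x : DP2.Adelic m n d) : Adelic m n d where
  real := ofPt x.real
  fin p _ := ofPt (x.fin p)

theorem toDP_ofDP {m n d : ℤ} (x : DP2.Adelic m n d) : toDP (ofDP x) = x := rfl

theorem obstruct_iff {m n d : ℤ} (hm : m ≠ 0) (hb : bad m n ≠ 0) (hd : ¬ IsSquare (d : ℚ))
    (hbad : ∀ (p : ℕ) [Fact p.Prime], (p : ℤ) ∣ bad m n → IsSquare (d : ℚ_[p]))
    (S0 : Finset ℕ) (hS0 : ∀ p : ℕ, p.Prime → (p : ℤ) ∣ d → p ∈ S0)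
    (hG : ∀ S ⊆ S0, ∃ H : Br ℚ, GlobalH d S H) (r : ℕ) :
    Obstruct m n d r ↔ DP2.Obstruct m n d r := by
  have hd0 : d ≠ 0 := by
    rintro rfl
    exact hd ⟨0, by simp⟩
  constructor
  · rintro ⟨α, hα⟩
    choose c T hT hval using fun j => structure_thm hb hd (toFam (α j))
    refine ⟨fun j => ⟨T j, hT j⟩, fun x => ?_⟩
    obtain ⟨j, hj⟩ := hα (ofDP x)
    refine ⟨j, fun hx => hj ?_⟩
    rw [orth_iff hm hb hd0 hbad S0 hS0 hG (ofDP x) (α j) (c j) (T j) (hT j) (hval j), toDP_ofDP]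
    exact hx
  · rintro ⟨α', hα'⟩
    choose F hF using fun j => exists_famA (m := m) (n := n) (d := d) hb hd0 (α' j).1 (α' j).2
    refine ⟨fun j => ofFam (F j), fun x => ?_⟩
    obtain ⟨j, hj⟩ := hα' (toDP x)
    refine ⟨j, fun hx => hj ?_⟩
    rw [orth_iff hm hb hd0 hbad S0 hS0 hG x (ofFam (F j)) 0 (α' j).1 (α' j).2 ?_] at hx
    · exact hx
    · intro E _ _ _ P
      rw [map_zero, zero_add, ← hF j E P]
      exact mk_ofFam (F j) E (qring_field E) P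

theorem final_of {m n d : ℤ} {s : ℕ} (hm : m ≠ 0) (hb : bad m n ≠ 0) (hd : ¬ IsSquare (d : ℚ))
    (hbad : ∀ (p : ℕ) [Fact p.Prime], (p : ℤ) ∣ bad m n → IsSquare (d : ℚ_[p]))
    (S0 : Finset ℕ) (hS0 : ∀ p : ℕ, p.Prime → (p : ℤ) ∣ d → p ∈ S0)
    (hG : ∀ S ⊆ S0, ∃ H : Br ℚ, GlobalH d S H) (hs : 1 ≤ s)
    (h : Nonempty (DP2.Adelic m n d) ∧ IsLeast {r | DP2.Obstruct m n d r} s) :
    SmoothQuartic m n ∧ d ≠ 0 ∧ Nonempty (Adelic m n d) ∧
      IsLeast {r | 1 ≤ r ∧ Obstruct m n d r} s := by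
  refine ⟨smooth_of hb, ?_, h.1.map ofDP, ⟨hs, ?_⟩, ?_⟩
  · rintro rfl
    exact hd ⟨0, by simp⟩
  · exact (obstruct_iff hm hb hd hbad S0 hS0 hG s).2 h.2.1
  · rintro r ⟨_, hr⟩
    exact h.2.2 ((obstruct_iff hm hb hd hbad S0 hS0 hG r).1 hr)

theorem not_sq_of_mod {d : ℤ} (p : ℕ) [Fact p.Prime] (h1 : (p : ℤ) ∣ d)
    (h2 : ¬ (p : ℤ) ^ 2 ∣ d) : ¬ IsSquare (d : ℚ) := by
  rw [Rat.isSquare_intCast_iff]
  rintro ⟨r, rfl⟩
  have hp : Prime (p : ℤ) := Nat.prime_iff_prime_int.1 (Fact.out : p.Prime)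
  have h3 : (p : ℤ) ∣ r := by
    rcases hp.dvd_or_dvd h1 with h | h <;> exact h
  exact h2 (by rw [sq]; exact mul_dvd_mul h3 h3)

theorem final :
    (SmoothQuartic 7 2 ∧ (-311 : ℤ) ≠ 0 ∧ Nonempty (Adelic 7 2 (-311)) ∧
      IsLeast {r | 1 ≤ r ∧ Obstruct 7 2 (-311) r} 3) ∧
    (SmoothQuartic 3 1 ∧ (41 * 89 : ℤ) ≠ 0 ∧ Nonempty (Adelic 3 1 (41 * 89)) ∧
      IsLeast {r | 1 ≤ r ∧ Obstruct 3 1 (41 * 89) r} 4) ∧
    (SmoothQuartic 2 1 ∧ (43 * 67 : ℤ) ≠ 0 ∧ Nonempty (Adelic 2 1 (43 * 67)) ∧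
      IsLeast {r | 1 ≤ r ∧ Obstruct 2 1 (43 * 67) r} 5) ∧
    (SmoothQuartic 3 1 ∧ (-311 : ℤ) ≠ 0 ∧ Nonempty (Adelic 3 1 (-311)) ∧
      IsLeast {r | 1 ≤ r ∧ Obstruct 3 1 (-311) r} 6) := by
  refine ⟨?_, ?_, ?_, ?_⟩
  · exact final_of (by norm_num) (by norm_num [bad, kap])
      (not_sq_of_mod 311 (by norm_num) (by norm_num)) sq_bad_72_311 {311}
      (fun p hp h => Finset.mem_singleton.2 (dvd_311 hp h)) glob_311 (by norm_num) case3
  · exact final_of (by norm_num) (by norm_num [bad, kap])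
      (not_sq_of_mod 41 (by norm_num) (by norm_num)) sq_bad_31_3649 {41, 89}
      (fun p hp h => by
        rcases dvd_3649 hp h with h | h <;> simp [h]) glob_3649 (by norm_num) case4
  · exact final_of (by norm_num) (by norm_num [bad, kap])
      (not_sq_of_mod 43 (by norm_num) (by norm_num)) sq_bad_21_2881 {43, 67}
      (fun p hp h => by
        rcases dvd_2881 hp h with h | h <;> simp [h]) glob_2881 (by norm_num) case5
  · exact final_of (by norm_num) (by norm_num [bad, kap])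
      (not_sq_of_mod 311 (by norm_num) (by norm_num)) sq_bad_31_311 {311}
      (fun p hp h => Finset.mem_singleton.2 (dvd_311 hp h)) glob_311 (by norm_num) case6

end Pool.Agent.Helper8.XS
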