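import Pool.Agent.Helper8.BR.Defs
import Pool.Agent.Helper8.DP2.Defs

set_option autoImplicit false

/-!
# The Brauer group of the surface `w ^ 2 = d F(x, y, z)` (MP_55a891_nt)

`X` is the surface `w ^ 2 = d F(x, y, z)` in the weighted projective space `P(1,1,1,2)` over `ℚ`.
The points of `X` with values in a semilocal ring are given by unimodular coordinates.
-/

open scoped TensorProduct

namespace Pool.Agent.Helper8.XS

open Pool.Agent.Helper8.BR

/-- the ring `R` contains the rational numbers -/
def QRing (R : Type) [CommRing R] : Prop := ∀ n : ℕ, n ≠ 0 → IsUnit (n : R)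

/-- A point of `X` with values in `R`. -/
structure RPt (m n d : ℤ) (R : Type) [CommRing R] where
  x : R
  y : R
  z : R
  w : R
  unimod : Ideal.span {x, y, z} = ⊤
  eq : w ^ 2 = (d : R) * DP2.F m n x y z

/-- `Q` is the image of `P` under `f` (coordinates are unique up to units). -/
def IsImage {m n d : ℤ} {R S : Type} [CommRing R] [CommRing S] (f : R →+* S)
    (P : RPt m n d R) (Q : RPt m n d S) : Prop :=
  ∃ u : S, IsUnit u ∧ Q.x = u * f P.x ∧ Q.y = u * f P.y ∧ Q.z = u * f P.z ∧
    Q.w = u ^ 2 * f P.w

/-- An element of the Brauer group of `X`: a family of Azumaya algebras `A(P)` over `R`, for all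
semilocal domains `R` containing `ℚ` and all `P` in `X(R)`, compatible with base change up to
Brauer equivalence. -/
structure BrX (m n d : ℤ) where
  /-- the value of the class at a point -/
  val : ∀ (R : Type) [CommRing R] [IsDomain R] [Finite (MaximalSpectrum R)], QRing R →
    RPt m n d R → Az R
  nat : ∀ (R S : Type) [CommRing R] [IsDomain R] [Finite (MaximalSpectrum R)] [CommRing S]
    [IsDomain S] [Finite (MaximalSpectrum S)] [Algebra R S] (hR : QRing R) (hS : QRing S)
    (P : RPt m n d R) (Q : RPt m n d S), IsImage (algebraMap R S) P Q →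
    BrEq S (S ⊗[R] (val R hR P)) (val S hS Q)

theorem qring_field (K : Type) [Field K] [CharZero K] : QRing K := fun n hn =>
  isUnit_iff_ne_zero.2 (Nat.cast_ne_zero.2 hn)

/-- An adelic point of `X`. -/
structure Adelic (m n d : ℤ) where
  real : RPt m n d ℝ
  fin : ∀ (p : ℕ) [Fact p.Prime], RPt m n d ℚ_[p]

/-- The adelic point `x` is orthogonal to the class `α`: the local classes `α(x_v)` come from a
class of the Brauer group of `ℚ`, that is (Albert, Brauer, Hasse, Noether) the sum of their local
invariants is zero. -/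
def Orth {m n d : ℤ} (x : Adelic m n d) (α : BrX m n d) : Prop :=
  ∃ β : Az ℚ, BrEq ℝ (ℝ ⊗[ℚ] β) (α.val ℝ (qring_field ℝ) x.real) ∧
    ∀ (p : ℕ) [Fact p.Prime],
      BrEq ℚ_[p] (ℚ_[p] ⊗[ℚ] β) (α.val ℚ_[p] (qring_field ℚ_[p]) (x.fin p))

/-- There are `r` classes in the Brauer group of `X` to which no adelic point is orthogonal. -/
def Obstruct (m n d : ℤ) (r : ℕ) : Prop :=
  ∃ α : Fin r → BrX m n d, ∀ x : Adelic m n d, ∃ j, ¬ Orth x (α j)

end Pool.Agent.Helper8.XS
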