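import Pool.Agent.Helper8.XS.Defs
import Pool.Agent.Helper8.DP2.Final

set_option autoImplicit false

/-! XS-25: units represented by rank one hermitian forms -/

open scoped TensorProduct
open MvPolynomial

namespace Pool.Agent.Helper8.XS

open Pool.Agent.Helper8.BR Pool.Agent.Helper8.DP2

/-- the hermitian form at the line `i` -/
def herm {m n d : ℤ} {R : Type} [CommRing R] (P : RPt m n d R) (i : Fin 7) (a b e f : R) : R :=
  lin m n P.x P.y P.z i * (a ^ 2 - d * b ^ 2)
    + 2 * (scl m n i * P.w * (e * a - d * f * b)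
      + d * qua m n P.x P.y P.z i * (f * a - e * b))
    + d * com m n P.x P.y P.z i * (e ^ 2 - d * f ^ 2)

/-- the form has rank one -/
private theorem herm_rel {m n d : ℤ} {R : Type} [CommRing R] (P : RPt m n d R) (i : Fin 7) :
    (scl m n i * P.w) ^ 2 - d * (qua m n P.x P.y P.z i) ^ 2 =
      lin m n P.x P.y P.z i * (d * com m n P.x P.y P.z i) := by
  have h := basic m n P.x P.y P.z i
  have h2 := P.eq
  linear_combination (scl m n i) ^ 2 * h2 + (d : R) * h

/-- reduction modulo a maximal ideal -/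
private theorem herm_field {m n d : ℤ} (k : Type) [Field k] (hb : ((bad m n : ℤ) : k) ≠ 0)
    (hd : (d : k) ≠ 0) (x y z w : k) (hne : ¬ (x = 0 ∧ y = 0 ∧ z = 0))
    (i : Fin 7) :
    ∃ a b e f : ℤ, lin m n x y z i * ((a : k) ^ 2 - d * b ^ 2)
    + 2 * (scl m n i * w * ((e : k) * a - d * f * b)
      + d * qua m n x y z i * ((f : k) * a - e * b))
    + d * com m n x y z i * ((e : k) ^ 2 - d * f ^ 2) ≠ 0 := by
  by_contra hcon
  push Not at hcon
  have h1 := hcon 1 0 0 0
  have h2 := hcon 0 0 1 0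
  have h4 := hcon 1 0 0 1
  have g2 := (bad_facts hb).1
  simp only [Int.cast_one, Int.cast_zero] at h1 h2 h4
  have e1 : lin m n x y z i = 0 := by linear_combination h1
  have e2 : com m n x y z i = 0 := by
    have : (d : k) * com m n x y z i = 0 := by linear_combination h2
    exact (mul_eq_zero.1 this).resolve_left hd
  rw [e1, e2] at h4
  have e3 : qua m n x y z i = 0 := by
    have : (2 * (d : k)) * qua m n x y z i = 0 := by linear_combination h4
    exact (mul_eq_zero.1 this).resolve_left (mul_ne_zero g2 hd)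
  exact hne (no_common_zero hb x y z i e1 e2 e3)

private theorem map_lin {R S : Type} [CommRing R] [CommRing S] (φ : R →+* S) (m n : ℤ)
    (x y z : R) (i : Fin 7) : lin m n (φ x) (φ y) (φ z) i = φ (lin m n x y z i) := by
  fin_cases i <;> simp [lin]

private theorem map_com {R S : Type} [CommRing R] [CommRing S] (φ : R →+* S) (m n : ℤ)
    (x y z : R) (i : Fin 7) : com m n (φ x) (φ y) (φ z) i = φ (com m n x y z i) := by
  fin_cases i <;> simp [com, kap, map_ofNat]

private theorem map_qua {R S : Type} [CommRing R] [CommRing S] (φ : R →+* S) (m n : ℤ)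
    (x y z : R) (i : Fin 7) : qua m n (φ x) (φ y) (φ z) i = φ (qua m n x y z i) := by
  fin_cases i <;> simp [qua]

private theorem map_scl {R S : Type} [CommRing R] [CommRing S] (φ : R →+* S) (m n : ℤ)
    (i : Fin 7) : scl m n i = φ (scl m n i) := by
  unfold scl
  split_ifs <;> simp

theorem herm_unit {m n d : ℤ} (hb : bad m n ≠ 0) (hd : d ≠ 0) (R : Type) [CommRing R]
    [IsDomain R] [Finite (MaximalSpectrum R)] (h : QRing R) (P : RPt m n d R) (i : Fin 7) :
    ∃ a b e f : R, IsUnit (herm P i a b e f) := by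
  classical
  have hint : ∀ t : ℤ, t ≠ 0 → IsUnit (t : R) := by
    intro t ht
    have h1 := h t.natAbs (Int.natAbs_ne_zero.2 ht)
    rcases Int.natAbs_eq t with h2 | h2
    · rw [h2, Int.cast_natCast]; exact h1
    · rw [h2, Int.cast_neg, Int.cast_natCast]; exact h1.neg
  have hloc : ∀ M : MaximalSpectrum R, ∃ v : Fin 4 → ℤ,
      herm P i (v 0 : R) (v 1 : R) (v 2 : R) (v 3 : R) ∉ M.asIdeal := by
    intro M
    have hmax := M.isMaximal
    let _ : Field (R ⧸ M.asIdeal) := Ideal.Quotient.field M.asIdeal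
    let φ := Ideal.Quotient.mk M.asIdeal
    have hne0 : ∀ t : ℤ, t ≠ 0 → ((t : ℤ) : R ⧸ M.asIdeal) ≠ 0 := by
      intro t ht h0
      have h1 : IsUnit (φ (t : R)) := (hint t ht).map φ
      rw [map_intCast, h0] at h1
      exact not_isUnit_zero h1
    have hpt : ¬ (φ P.x = 0 ∧ φ P.y = 0 ∧ φ P.z = 0) := by
      rintro ⟨h1, h2, h3⟩
      have h4 : Ideal.span {P.x, P.y, P.z} ≤ M.asIdeal := by
        rw [Ideal.span_le]
        intro t ht
        simp only [Set.mem_insert_iff, Set.mem_singleton_iff] at ht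
        rcases ht with rfl | rfl | rfl
        · exact Ideal.Quotient.eq_zero_iff_mem.1 h1
        · exact Ideal.Quotient.eq_zero_iff_mem.1 h2
        · exact Ideal.Quotient.eq_zero_iff_mem.1 h3
      rw [P.unimod] at h4
      exact hmax.ne_top (top_le_iff.1 h4)
    obtain ⟨a, b, e, f, hv⟩ := herm_field (m := m) (n := n) (d := d) (R ⧸ M.asIdeal)
      (hne0 _ hb) (hne0 _ hd) (φ P.x) (φ P.y) (φ P.z) (φ P.w) hpt i
    refine ⟨![a, b, e, f], ?_⟩
    intro hmem
    apply hv
    have h5 : φ (herm P i (a : R) (b : R) (e : R) (f : R)) = 0 :=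
      Ideal.Quotient.eq_zero_iff_mem.2 hmem
    rw [map_lin, map_com, map_qua, map_scl φ, ← h5]
    unfold herm
    simp only [map_add, map_mul, map_sub, map_pow, map_intCast, map_ofNat]
  choose v hv using hloc
  have hcop : Pairwise (Function.onFun IsCoprime fun M : MaximalSpectrum R => M.asIdeal) := by
    intro M N hMN
    have h1 := M.isMaximal
    have h2 := N.isMaximal
    apply Ideal.isCoprime_of_isMaximal
    intro heq
    exact hMN (MaximalSpectrum.ext heq)
  have hcrt : ∀ j : Fin 4, ∃ a : R, ∀ M : MaximalSpectrum R, a - (v M j : R) ∈ M.asIdeal := by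
    intro j
    obtain ⟨a, ha⟩ := Ideal.pi_quotient_surjective hcop
      (fun M => Ideal.Quotient.mk M.asIdeal (v M j : R))
    exact ⟨a, fun M => Ideal.Quotient.eq.1 (ha M)⟩
  choose c hc using hcrt
  refine ⟨c 0, c 1, c 2, c 3, ?_⟩
  by_contra hnu
  obtain ⟨M, hM, hmem⟩ := exists_max_ideal_of_mem_nonunits hnu
  let MM : MaximalSpectrum R := ⟨M, hM⟩
  apply hv MM
  have h0 : ∀ j : Fin 4, Ideal.Quotient.mk M (c j) = Ideal.Quotient.mk M (v MM j : R) :=
    fun j => Ideal.Quotient.eq.2 (hc j MM)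
  change herm P i (v MM 0 : R) (v MM 1 : R) (v MM 2 : R) (v MM 3 : R) ∈ M
  rw [← Ideal.Quotient.eq_zero_iff_mem] at hmem ⊢
  rw [← hmem]
  unfold herm
  simp only [map_add, map_mul, map_sub, map_pow, h0]

theorem herm_mul {m n d : ℤ} {R : Type} [CommRing R] (P : RPt m n d R) (i : Fin 7)
    (a b e f a' b' e' f' : R) :
    ∃ x y : R, herm P i a b e f * herm P i a' b' e' f' = x ^ 2 - d * y ^ 2 := by
  have hr := herm_rel P i
  refine ⟨lin m n P.x P.y P.z i * (a * a' - d * b * b') +
      scl m n i * P.w * (a * e' - d * b * f') + d * qua m n P.x P.y P.z i * (a * f' - b * e') +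
      scl m n i * P.w * (e * a' - d * f * b') - d * qua m n P.x P.y P.z i * (e * b' - f * a') +
      d * com m n P.x P.y P.z i * (e * e' - d * f * f'),
    lin m n P.x P.y P.z i * (a * b' - b * a') +
      scl m n i * P.w * (a * f' - b * e') + qua m n P.x P.y P.z i * (a * e' - d * b * f') +
      scl m n i * P.w * (e * b' - f * a') - qua m n P.x P.y P.z i * (e * a' - d * f * b') +
      d * com m n P.x P.y P.z i * (e * f' - f * e'), ?_⟩
  unfold herm
  linear_combination (-((a * e' + d * b * f' - a' * e - d * b' * f) ^ 2 -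
    d * (a * f' + b * e' - a' * f - b' * e) ^ 2)) * hr

theorem herm_lin {m n d : ℤ} {R : Type} [CommRing R] (P : RPt m n d R) (i : Fin 7)
    (a b e f : R) :
    ∃ x y : R, lin m n P.x P.y P.z i * herm P i a b e f = x ^ 2 - d * y ^ 2 := by
  have hr := herm_rel P i
  refine ⟨lin m n P.x P.y P.z i * a + scl m n i * P.w * e + d * qua m n P.x P.y P.z i * f,
    lin m n P.x P.y P.z i * b + scl m n i * P.w * f + qua m n P.x P.y P.z i * e, ?_⟩
  unfold herm
  linear_combination (-(e ^ 2 - d * f ^ 2)) * hr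

theorem herm_com {m n d : ℤ} {R : Type} [CommRing R] (P : RPt m n d R) (i : Fin 7)
    (a b e f : R) :
    ∃ x y : R, d * com m n P.x P.y P.z i * herm P i a b e f = x ^ 2 - d * y ^ 2 := by
  have hr := herm_rel P i
  refine ⟨scl m n i * P.w * a - d * qua m n P.x P.y P.z i * b + d * com m n P.x P.y P.z i * e,
    scl m n i * P.w * b - qua m n P.x P.y P.z i * a + d * com m n P.x P.y P.z i * f, ?_⟩
  unfold herm
  linear_combination (-(a ^ 2 - d * b ^ 2)) * hr

theorem herm_image {m n d : ℤ} {R S : Type} [CommRing R] [CommRing S] (φ : R →+* S)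
    (P : RPt m n d R) (Q : RPt m n d S) (u : S) (h1 : Q.x = u * φ P.x) (h2 : Q.y = u * φ P.y)
    (h3 : Q.z = u * φ P.z) (h4 : Q.w = u ^ 2 * φ P.w) (i : Fin 7) (a b e f : R) :
    ∃ a' b' e' f' : S, u * φ (herm P i a b e f) * u ^ 2 = herm Q i a' b' e' f' := by
  refine ⟨u * φ a, u * φ b, φ e, φ f, ?_⟩
  unfold herm
  rw [h1, h2, h3, h4]
  simp only [map_add, map_mul, map_sub, map_pow, map_intCast, map_ofNat]
  rw [← map_lin φ, ← map_com φ, ← map_qua φ, ← map_scl φ]
  fin_cases i <;> simp [lin, com, qua, kap] <;> ring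

end Pool.Agent.Helper8.XS
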