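import Pool.Agent.Helper8.XS.Defs
import Pool.Agent.Helper8.Hey.Final
import Pool.Agent.Helper8.BR.Fields

set_option autoImplicit false

/-! DB-2 -/

open scoped TensorProduct

namespace Pool.Agent.Helper8.XS

open Pool.Agent.Helper8.BR Pool.Agent.Helper8.DP2

theorem hey_zero (β : Br ℚ)
    (h : ∀ (p : ℕ) [Fact p.Prime], Br.map (algebraMap ℚ ℚ_[p]) β = 0) : β = 0 := by
  obtain ⟨A, rfl⟩ := Br.exists_mk β
  obtain ⟨D, _, _, n, hn, _, _, _, ⟨e⟩⟩ := exists_division ℚ A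
  have hD : Br.mk ℚ A = Br.mk ℚ D :=
    (Br.mk_eq_iff ℚ A D).2 ((BrEq.of_algEquiv e).trans (BrEq.matrix ℚ D n hn))
  have h1 : Module.finrank ℚ D = 1 := by
    refine Hey.hey D ?_
    intro p _
    have h2 := h p
    rw [hD] at h2
    exact (Br.map_mk_eq_iff ℚ ℚ_[p] D ℚ_[p]).1 h2
  have h3 : Function.Bijective (Algebra.ofId ℚ D) := by
    have h4 : Function.Bijective (algebraMap ℚ D) := by
      rw [Algebra.bijective_algebraMap_iff]
      exact (Subalgebra.bot_eq_top_iff_finrank_eq_one.mpr h1).symm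
    exact h4
  rw [hD, Br.mk_eq_zero_iff]
  exact BrEq.of_algEquiv (AlgEquiv.ofBijective (Algebra.ofId ℚ D) h3).symm

end Pool.Agent.Helper8.XS
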