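import Pool.Agent.Helper8.XS.Defs
import Pool.Agent.Helper8.DP2.Final

set_option autoImplicit false

/-! DB-1 -/

open scoped TensorProduct

namespace Pool.Agent.Helper8.XS

open Pool.Agent.Helper8.BR Pool.Agent.Helper8.DP2

theorem sym_eq_zero_iff {E : Type} [Field E] [CharZero E] (d u : E) (hd : d ≠ 0) (hu : u ≠ 0) :
    sym E d u = 0 ↔ IsN E d u := by
  constructor
  · intro h
    exact sym_eq_zero E two_ne_zero d u hd hu h
  · rintro ⟨x, y, h⟩
    exact sym_norm E d u x y (IsUnit.mk0 u hu) h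

theorem inv_iff {m n d : ℤ} (hd : d ≠ 0) (E : Type) [Field E] [CharZero E]
    (P : DP2.Pt m n d E) (T : Finset (Fin 7)) :
    DP2.inv P T = 0 ↔ sym E (d : E) (∏ i ∈ T, ent P i) = 0 := by
  have hd' : (d : E) ≠ 0 := by exact_mod_cast hd
  have h0 : (∏ i ∈ T, ent P i) ≠ 0 := Finset.prod_ne_zero_iff.2 fun i _ => ent_ne_zero hd' P i
  rw [inv_eq_zero_iff two_ne_zero hd', sym_eq_zero_iff _ _ hd' h0]

theorem sym_comm' {E : Type} [Field E] [CharZero E] (a b : E) (ha : a ≠ 0) (hb : b ≠ 0) :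
    sym E a b = sym E b a := by
  have h2 : IsUnit (2 : E) := IsUnit.mk0 _ two_ne_zero
  have ha' := IsUnit.mk0 a ha
  have hb' := IsUnit.mk0 b hb
  unfold sym
  rw [dif_pos ⟨hb', ha', h2⟩, dif_pos ⟨ha', hb', h2⟩]
  haveI := quat_az E b a hb' ha' h2
  haveI := quat_az E a b ha' hb' h2
  exact (Br.mk_eq_iff E _ _).2 (BrEq.of_algEquiv (QuaternionAlgebra.swapEquiv b a))

end Pool.Agent.Helper8.XS
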