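import Pool.Agent.Helper8.XS.Curve

set_option autoImplicit false

/-! XS-2: lines and conics on the surface -/

open scoped TensorProduct
open MvPolynomial

namespace Pool.Agent.Helper8.XS

open Pool.Agent.Helper8.BR Pool.Agent.Helper8.DP2

private theorem lc_scale {m n d : ℤ} (α : Fam m n d) (E : Type) [Field E] [CharZero E]
    (P S : RPt m n d E) (u : E) (hu : u ≠ 0) (hx : S.x = u * P.x) (hy : S.y = u * P.y)
    (hz : S.z = u * P.z) (hw : S.w = u ^ 2 * P.w) :
    α.val E (qring_field E) P = α.val E (qring_field E) S := by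
  have h := α.nat E E (RingHom.id E) (qring_field E) (qring_field E) P S
    ⟨u, isUnit_iff_ne_zero.2 hu, hx, hy, hz, hw⟩
  rw [Br.map_id] at h
  exact h

/-- the scaled point -/
private noncomputable def lc_smul {m n d : ℤ} {E : Type} [Field E] (u : E) (hu : u ≠ 0)
    (P : RPt m n d E) : RPt m n d E where
  x := u * P.x
  y := u * P.y
  z := u * P.z
  w := u ^ 2 * P.w
  unimod := by
    rw [eq_top_iff, ← P.unimod, Ideal.span_le]
    rintro a (rfl | rfl | rfl)
    · have h : P.x = u⁻¹ * (u * P.x) := by rw [← mul_assoc, inv_mul_cancel₀ hu, one_mul]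
      rw [SetLike.mem_coe]
      rw [h]
      apply Ideal.mul_mem_left
      rw [← mul_assoc, ← mul_assoc, mul_inv_cancel₀ hu, one_mul]
      exact Ideal.subset_span (by simp)
    · have h : P.y = u⁻¹ * (u * P.y) := by rw [← mul_assoc, inv_mul_cancel₀ hu, one_mul]
      rw [SetLike.mem_coe]
      rw [h]
      apply Ideal.mul_mem_left
      rw [← mul_assoc, ← mul_assoc, mul_inv_cancel₀ hu, one_mul]
      exact Ideal.subset_span (by simp)
    · have h : P.z = u⁻¹ * (u * P.z) := by rw [← mul_assoc, inv_mul_cancel₀ hu, one_mul]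
      rw [SetLike.mem_coe]
      rw [h]
      apply Ideal.mul_mem_left
      rw [← mul_assoc, ← mul_assoc, mul_inv_cancel₀ hu, one_mul]
      exact Ideal.subset_span (by simp)
  eq := by
    have h := P.eq
    unfold F at h ⊢
    linear_combination u ^ 4 * h

private theorem lc_prop {m n d : ℤ} (α : Fam m n d) (E : Type) [Field E] [CharZero E]
    (w1 w2 w3 : E) (P S : RPt m n d E)
    (h1 : P.x * S.y = P.y * S.x) (h2 : P.y * S.z = P.z * S.y) (h3 : P.x * S.z = P.z * S.x)
    (hP : P.w = w1 * P.x ^ 2 + w2 * P.y ^ 2 + w3 * P.z ^ 2)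
    (hS : S.w = w1 * S.x ^ 2 + w2 * S.y ^ 2 + w3 * S.z ^ 2) :
    α.val E (qring_field E) P = α.val E (qring_field E) S := by
  obtain ⟨u, hx, hy, hz⟩ : ∃ u : E, S.x = u * P.x ∧ S.y = u * P.y ∧ S.z = u * P.z := by
    by_cases hx : P.x = 0
    · by_cases hy : P.y = 0
      · have hz : P.z ≠ 0 := fun hz => (toPt P).ne ⟨hx, hy, hz⟩
        refine ⟨S.z / P.z, ?_, ?_, ?_⟩
        · rw [div_mul_eq_mul_div, eq_div_iff hz]; linear_combination -h3
        · rw [div_mul_eq_mul_div, eq_div_iff hz]; linear_combination -h2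
        · rw [div_mul_cancel₀ _ hz]
      · refine ⟨S.y / P.y, ?_, ?_, ?_⟩
        · rw [div_mul_eq_mul_div, eq_div_iff hy]; linear_combination -h1
        · rw [div_mul_cancel₀ _ hy]
        · rw [div_mul_eq_mul_div, eq_div_iff hy]; linear_combination h2
    · refine ⟨S.x / P.x, ?_, ?_, ?_⟩
      · rw [div_mul_cancel₀ _ hx]
      · rw [div_mul_eq_mul_div, eq_div_iff hx]; linear_combination h1
      · rw [div_mul_eq_mul_div, eq_div_iff hx]; linear_combination h3
  refine lc_scale α E P S u ?_ hx hy hz ?_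
  · rintro rfl
    exact (toPt S).ne ⟨by change S.x = 0; rw [hx, zero_mul], by change S.y = 0; rw [hy, zero_mul],
      by change S.z = 0; rw [hz, zero_mul]⟩
  · rw [hS, hP, hx, hy, hz]
    ring

theorem line_const {m n d : ℤ} (α : Fam m n d) (E : Type) [Field E] [CharZero E]
    (w1 w2 w3 : E) (P S : RPt m n d E)
    (h : ∀ s t : E, (w1 * (s * P.x + t * S.x) ^ 2 + w2 * (s * P.y + t * S.y) ^ 2 +
      w3 * (s * P.z + t * S.z) ^ 2) ^ 2 =
        (d : E) * F m n (s * P.x + t * S.x) (s * P.y + t * S.y) (s * P.z + t * S.z))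
    (hP : P.w = w1 * P.x ^ 2 + w2 * P.y ^ 2 + w3 * P.z ^ 2)
    (hS : S.w = w1 * S.x ^ 2 + w2 * S.y ^ 2 + w3 * S.z ^ 2) :
    α.val E (qring_field E) P = α.val E (qring_field E) S := by
  by_cases hm : P.x * S.y = P.y * S.x ∧ P.y * S.z = P.z * S.y ∧ P.x * S.z = P.z * S.x
  · exact lc_prop α E w1 w2 w3 P S hm.1 hm.2.1 hm.2.2 hP hS
  have hhom : ∀ a b : E, (C a * X 0 + C b * X 1 : MvPolynomial (Fin 2) E).IsHomogeneous 1 :=
    fun a b => (isHomogeneous_C_mul_X a 0).add (isHomogeneous_C_mul_X b 1)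
  refine curve_const α E 1 (C P.x * X 0 + C S.x * X 1) (C P.y * X 0 + C S.y * X 1)
    (C P.z * X 0 + C S.z * X 1)
    (C w1 * (C P.x * X 0 + C S.x * X 1) ^ 2 + C w2 * (C P.y * X 0 + C S.y * X 1) ^ 2 +
      C w3 * (C P.z * X 0 + C S.z * X 1) ^ 2) (hhom _ _) (hhom _ _) (hhom _ _) ?_ ?_ ?_
    ![1, 0] ![0, 1] ?_ ?_ P S ?_ ?_
  · have h2 : ∀ c a b : E,
        (C c * (C a * X 0 + C b * X 1) ^ 2 : MvPolynomial (Fin 2) E).IsHomogeneous (2 * 1) := by
      intro c a b
      have h3 := (isHomogeneous_C (Fin 2) c).mul ((hhom a b).pow 2)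
      rwa [zero_add, mul_comm 1 2] at h3
    exact ((h2 _ _ _).add (h2 _ _ _)).add (h2 _ _ _)
  · apply MvPolynomial.funext
    intro v
    rw [map_mul, ← F_map]
    have h1 := h (v 0) (v 1)
    simp only [map_add, map_mul, map_pow, eval_C, eval_X, map_intCast]
    simp only [mul_comm (P.x) (v 0), mul_comm (P.y) (v 0), mul_comm (P.z) (v 0),
      mul_comm (S.x) (v 1), mul_comm (S.y) (v 1), mul_comm (S.z) (v 1)]
    exact h1
  · rintro k _ _ v hv ⟨hA, hB, hC⟩
    simp only [map_add, map_mul, aeval_C, aeval_X] at hA hB hC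
    apply hm
    have hinj := (algebraMap E k).injective
    have key : ∀ x : k, v 0 * x = 0 → v 1 * x = 0 → x = 0 := by
      intro x h1 h2
      by_contra hx
      apply hv
      funext i
      fin_cases i
      · exact (mul_eq_zero.1 h1).resolve_right hx
      · exact (mul_eq_zero.1 h2).resolve_right hx
    refine ⟨?_, ?_, ?_⟩
    · apply hinj
      rw [← sub_eq_zero, map_mul, map_mul]
      apply key
      · linear_combination (algebraMap E k S.y) * hA - (algebraMap E k S.x) * hB
      · linear_combination (algebraMap E k P.x) * hB - (algebraMap E k P.y) * hA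
    · apply hinj
      rw [← sub_eq_zero, map_mul, map_mul]
      apply key
      · linear_combination (algebraMap E k S.z) * hB - (algebraMap E k S.y) * hC
      · linear_combination (algebraMap E k P.y) * hC - (algebraMap E k P.z) * hB
    · apply hinj
      rw [← sub_eq_zero, map_mul, map_mul]
      apply key
      · linear_combination (algebraMap E k S.z) * hA - (algebraMap E k S.x) * hC
      · linear_combination (algebraMap E k P.x) * hC - (algebraMap E k P.z) * hA
  · intro h0
    exact one_ne_zero (congrFun h0 0)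
  · intro h0
    exact one_ne_zero (congrFun h0 1)
  · refine ⟨by simp, by simp, by simp, ?_⟩
    rw [hP]
    simp
  · refine ⟨by simp, by simp, by simp, ?_⟩
    rw [hS]
    simp

private theorem conic_aux {m n d : ℤ} (α : Fam m n d) (E : Type) [Field E] [CharZero E]
    (w1 w2 w3 a b c g1 g2 g3 : E) (ha : a ≠ 0) (hb : b ≠ 0) (hc : c ≠ 0)
    (hid : ∀ x y z : E, (w1 * x ^ 2 + w2 * y ^ 2 + w3 * z ^ 2) ^ 2 = (d : E) * F m n x y z +
      (a * x ^ 2 + b * y ^ 2 + c * z ^ 2) * (g1 * x ^ 2 + g2 * y ^ 2 + g3 * z ^ 2))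
    (P S : RPt m n d E) (hPq : a * P.x ^ 2 + b * P.y ^ 2 + c * P.z ^ 2 = 0)
    (hSq : a * S.x ^ 2 + b * S.y ^ 2 + c * S.z ^ 2 = 0)
    (hP : P.w = w1 * P.x ^ 2 + w2 * P.y ^ 2 + w3 * P.z ^ 2)
    (hS : S.w = w1 * S.x ^ 2 + w2 * S.y ^ 2 + w3 * S.z ^ 2) (hSz : S.z ≠ 0) :
    α.val E (qring_field E) P = α.val E (qring_field E) S := by
  -- the key identity
  have hkey : ∀ (k : Type) [Field k] [Algebra E k] (s t : k),
      algebraMap E k a * s ^ 2 + algebraMap E k b * t ^ 2 = 0 →
      algebraMap E k a * algebraMap E k S.x * s + algebraMap E k b * algebraMap E k S.y * t = 0 →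
      s = 0 ∧ t = 0 := by
    intro k _ _ s t hq hB
    have hne : ∀ x : E, x ≠ 0 → algebraMap E k x ≠ 0 := fun x hx => (map_ne_zero _).2 hx
    have hS' := congrArg (algebraMap E k) hSq
    simp only [map_add, map_mul, map_pow, map_zero] at hS'
    have h1 : algebraMap E k a * algebraMap E k c * algebraMap E k S.z ^ 2 * s ^ 2 = 0 := by
      linear_combination (algebraMap E k a * s ^ 2) * hS'
        - (algebraMap E k a * algebraMap E k S.x * s - algebraMap E k b * algebraMap E k S.y * t)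
          * hB - (algebraMap E k b * algebraMap E k S.y ^ 2) * hq
    have hs : s = 0 := by
      rcases mul_eq_zero.1 h1 with h2 | h2
      · exfalso
        exact mul_ne_zero (mul_ne_zero (hne a ha) (hne c hc)) (pow_ne_zero 2 (hne _ hSz)) h2
      · exact pow_eq_zero_iff (two_ne_zero) |>.1 h2
    refine ⟨hs, ?_⟩
    rw [hs] at hq
    have h3 : algebraMap E k b * t ^ 2 = 0 := by linear_combination hq
    exact pow_eq_zero_iff (two_ne_zero) |>.1 ((mul_eq_zero.1 h3).resolve_left (hne b hb))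
  -- the parametrisation
  let q : MvPolynomial (Fin 2) E := C a * X 0 ^ 2 + C b * X 1 ^ 2
  let l : MvPolynomial (Fin 2) E := C (a * S.x) * X 0 + C (b * S.y) * X 1
  let A : MvPolynomial (Fin 2) E := q * C S.x - C 2 * l * X 0
  let B : MvPolynomial (Fin 2) E := q * C S.y - C 2 * l * X 1
  let D : MvPolynomial (Fin 2) E := q * C S.z
  have hq : q.IsHomogeneous 2 := by
    have h1 : ∀ (e : E) (i : Fin 2), (C e * X i ^ 2 : MvPolynomial (Fin 2) E).IsHomogeneous 2 := by
      intro e i
      have h3 := (isHomogeneous_C (Fin 2) e).mul ((isHomogeneous_X E i).pow 2)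
      rwa [zero_add, one_mul] at h3
    exact (h1 a 0).add (h1 b 1)
  have hqC : ∀ e : E, (q * C e).IsHomogeneous 2 := fun e => hq.mul (isHomogeneous_C (Fin 2) e)
  have hl : l.IsHomogeneous 1 := (isHomogeneous_C_mul_X _ 0).add (isHomogeneous_C_mul_X _ 1)
  have hlX : ∀ i : Fin 2, (C 2 * l * X i).IsHomogeneous 2 := by
    intro i
    have h3 := ((isHomogeneous_C (Fin 2) (2 : E)).mul hl).mul (isHomogeneous_X E i)
    rwa [zero_add] at h3
  have hA : A.IsHomogeneous 2 := (hqC _).sub (hlX _)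
  have hB : B.IsHomogeneous 2 := (hqC _).sub (hlX _)
  have hD : D.IsHomogeneous 2 := hqC _
  let W : MvPolynomial (Fin 2) E := C w1 * A ^ 2 + C w2 * B ^ 2 + C w3 * D ^ 2
  have hW : W.IsHomogeneous (2 * 2) := by
    have h2 : ∀ (e : E) (p : MvPolynomial (Fin 2) E), p.IsHomogeneous 2 →
        (C e * p ^ 2).IsHomogeneous (2 * 2) := by
      intro e p hp
      have h3 := (isHomogeneous_C (Fin 2) e).mul (hp.pow 2)
      rwa [zero_add] at h3
    exact ((h2 _ _ hA).add (h2 _ _ hB)).add (h2 _ _ hD)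
  have heA : ∀ v : Fin 2 → E, eval v A = (a * v 0 ^ 2 + b * v 1 ^ 2) * S.x
      - 2 * (a * S.x * v 0 + b * S.y * v 1) * v 0 := by
    intro v; simp [A, q, l]
  have heB : ∀ v : Fin 2 → E, eval v B = (a * v 0 ^ 2 + b * v 1 ^ 2) * S.y
      - 2 * (a * S.x * v 0 + b * S.y * v 1) * v 1 := by
    intro v; simp [B, q, l]
  have heD : ∀ v : Fin 2 → E, eval v D = (a * v 0 ^ 2 + b * v 1 ^ 2) * S.z := by
    intro v; simp [D, q]
  have heW : ∀ v : Fin 2 → E, eval v W = w1 * eval v A ^ 2 + w2 * eval v B ^ 2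
      + w3 * eval v D ^ 2 := by
    intro v; simp [W]
  have heq : W ^ 2 = (d : MvPolynomial (Fin 2) E) * F m n A B D := by
    apply MvPolynomial.funext
    intro v
    rw [map_mul, ← F_map, map_pow, heW, hid, map_intCast]
    have hz : a * eval v A ^ 2 + b * eval v B ^ 2 + c * eval v D ^ 2 = 0 := by
      rw [heA, heB, heD]
      linear_combination ((a * v 0 ^ 2 + b * v 1 ^ 2) ^ 2) * hSq
    rw [hz, zero_mul, add_zero]
  have h0 : ∀ (k : Type) [Field k] [Algebra E k] (v : Fin 2 → k), v ≠ 0 →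
      ¬ (aeval v A = 0 ∧ aeval v B = 0 ∧ aeval v D = 0) := by
    rintro k _ _ v hv ⟨h1, h2, h3⟩
    simp only [A, B, D, q, l, map_sub, map_add, map_mul, map_pow, aeval_C, aeval_X,
      map_ofNat] at h1 h2 h3
    have hne : ∀ x : E, x ≠ 0 → algebraMap E k x ≠ 0 := fun x hx => (map_ne_zero _).2 hx
    have h2k : (2 : k) ≠ 0 := by
      have := hne 2 two_ne_zero
      rwa [map_ofNat] at this
    have h4 := (mul_eq_zero.1 h3).resolve_right (hne _ hSz)
    rw [h4, zero_mul, zero_sub, neg_eq_zero] at h1 h2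
    have h5 : algebraMap E k a * algebraMap E k S.x * v 0
        + algebraMap E k b * algebraMap E k S.y * v 1 = 0 := by
      by_contra h6
      apply hv
      funext i
      fin_cases i
      · exact (mul_eq_zero.1 h1).resolve_left (mul_ne_zero h2k h6)
      · exact (mul_eq_zero.1 h2).resolve_left (mul_ne_zero h2k h6)
    obtain ⟨h6, h7⟩ := hkey k (v 0) (v 1) h4 h5
    apply hv
    funext i
    fin_cases i
    · exact h6
    · exact h7
  by_cases hβ : a * S.x * P.x + b * S.y * P.y + c * S.z * P.z = 0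
  · -- `P` and `S` are proportional
    obtain ⟨h1, h2⟩ := hkey E (S.z * P.x - P.z * S.x) (S.z * P.y - P.z * S.y)
      (by
        simp only [Algebra.algebraMap_self, RingHom.id_apply]
        linear_combination (S.z ^ 2) * hPq + (P.z ^ 2) * hSq - (2 * S.z * P.z) * hβ)
      (by
        simp only [Algebra.algebraMap_self, RingHom.id_apply]
        linear_combination S.z * hβ - P.z * hSq)
    refine lc_prop α E w1 w2 w3 P S ?_ ?_ ?_ hP hS
    · apply mul_left_cancel₀ hSz
      linear_combination S.y * h1 - S.x * h2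
    · linear_combination h2
    · linear_combination h1
  · -- the chord construction
    have hu : -(a * b * c * S.z ^ 2) ≠ 0 :=
      neg_ne_zero.2 (mul_ne_zero (mul_ne_zero (mul_ne_zero ha hb) hc) (pow_ne_zero 2 hSz))
    have hu' : -(2 * S.z ^ 2 * (a * S.x * P.x + b * S.y * P.y + c * S.z * P.z)) ≠ 0 :=
      neg_ne_zero.2 (mul_ne_zero (mul_ne_zero two_ne_zero (pow_ne_zero 2 hSz)) hβ)
    rw [lc_scale α E P (lc_smul _ hu' P) _ hu' rfl rfl rfl rfl,
      lc_scale α E S (lc_smul _ hu S) _ hu rfl rfl rfl rfl]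
    refine curve_const α E 2 A B D W hA hB hD hW heq h0
      ![S.z * P.x - P.z * S.x, S.z * P.y - P.z * S.y] ![-(b * S.y), a * S.x] ?_ ?_ _ _ ?_ ?_
    · intro h1
      apply hβ
      have h2 : S.z * P.x - P.z * S.x = 0 := congrFun h1 0
      have h3 : S.z * P.y - P.z * S.y = 0 := congrFun h1 1
      apply mul_left_cancel₀ hSz
      linear_combination (a * S.x) * h2 + (b * S.y) * h3 + P.z * hSq
    · intro h1
      have h2 : -(b * S.y) = 0 := congrFun h1 0
      have h3 : a * S.x = 0 := congrFun h1 1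
      rw [neg_eq_zero] at h2
      have h4 : c * S.z ^ 2 = 0 := by linear_combination hSq - S.x * h3 - S.y * h2
      exact mul_ne_zero hc (pow_ne_zero 2 hSz) h4
    · have h1 : (lc_smul _ hu' P).x
          = eval ![S.z * P.x - P.z * S.x, S.z * P.y - P.z * S.y] A := by
        rw [heA]
        simp only [lc_smul, Matrix.cons_val_zero, Matrix.cons_val_one]
        linear_combination -(S.x * S.z ^ 2) * hPq
          - (S.x * P.z ^ 2 + 2 * P.z * (S.z * P.x - P.z * S.x)) * hSq
      have h2 : (lc_smul _ hu' P).y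
          = eval ![S.z * P.x - P.z * S.x, S.z * P.y - P.z * S.y] B := by
        rw [heB]
        simp only [lc_smul, Matrix.cons_val_zero, Matrix.cons_val_one]
        linear_combination -(S.y * S.z ^ 2) * hPq
          - (S.y * P.z ^ 2 + 2 * P.z * (S.z * P.y - P.z * S.y)) * hSq
      have h3 : (lc_smul _ hu' P).z
          = eval ![S.z * P.x - P.z * S.x, S.z * P.y - P.z * S.y] D := by
        rw [heD]
        simp only [lc_smul, Matrix.cons_val_zero, Matrix.cons_val_one]
        linear_combination -(S.z ^ 3) * hPq - (S.z * P.z ^ 2) * hSq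
      refine ⟨h1, h2, h3, ?_⟩
      rw [heW, ← h1, ← h2, ← h3]
      simp only [lc_smul]
      rw [hP]
      ring
    · have h1 : (lc_smul _ hu S).x = eval ![-(b * S.y), a * S.x] A := by
        rw [heA]
        simp only [lc_smul, Matrix.cons_val_zero, Matrix.cons_val_one]
        linear_combination -(a * b * S.x) * hSq
      have h2 : (lc_smul _ hu S).y = eval ![-(b * S.y), a * S.x] B := by
        rw [heB]
        simp only [lc_smul, Matrix.cons_val_zero, Matrix.cons_val_one]
        linear_combination -(a * b * S.y) * hSq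
      have h3 : (lc_smul _ hu S).z = eval ![-(b * S.y), a * S.x] D := by
        rw [heD]
        simp only [lc_smul, Matrix.cons_val_zero, Matrix.cons_val_one]
        linear_combination -(a * b * S.z) * hSq
      refine ⟨h1, h2, h3, ?_⟩
      rw [heW, ← h1, ← h2, ← h3]
      simp only [lc_smul]
      rw [hS]
      ring

theorem conic_const {m n d : ℤ} (α : Fam m n d) (E : Type) [Field E] [CharZero E]
    (w1 w2 w3 a b c g1 g2 g3 : E) (ha : a ≠ 0) (hb : b ≠ 0) (hc : c ≠ 0)
    (hid : ∀ x y z : E, (w1 * x ^ 2 + w2 * y ^ 2 + w3 * z ^ 2) ^ 2 = (d : E) * F m n x y z +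
      (a * x ^ 2 + b * y ^ 2 + c * z ^ 2) * (g1 * x ^ 2 + g2 * y ^ 2 + g3 * z ^ 2))
    (P S : RPt m n d E) (hPq : a * P.x ^ 2 + b * P.y ^ 2 + c * P.z ^ 2 = 0)
    (hSq : a * S.x ^ 2 + b * S.y ^ 2 + c * S.z ^ 2 = 0)
    (hP : P.w = w1 * P.x ^ 2 + w2 * P.y ^ 2 + w3 * P.z ^ 2)
    (hS : S.w = w1 * S.x ^ 2 + w2 * S.y ^ 2 + w3 * S.z ^ 2) :
    α.val E (qring_field E) P = α.val E (qring_field E) S := by
  by_cases hSz : S.z = 0
  · have hSx : S.x ≠ 0 := by
      intro hSx
      rw [hSz, hSx] at hSq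
      have h1 : b * S.y ^ 2 = 0 := by linear_combination hSq
      have h2 := pow_eq_zero_iff (two_ne_zero) |>.1 ((mul_eq_zero.1 h1).resolve_left hb)
      exact (toPt S).ne ⟨hSx, h2, hSz⟩
    refine conic_aux α.swap E w3 w2 w1 c b a g3 g2 g1 hc hb ha ?_ P.swap S.swap ?_ ?_ ?_ ?_ hSx
    · intro x y z
      have h1 := hid z y x
      rw [F_swap] at h1
      linear_combination h1
    · change c * P.z ^ 2 + b * P.y ^ 2 + a * P.x ^ 2 = 0
      linear_combination hPq
    · change c * S.z ^ 2 + b * S.y ^ 2 + a * S.x ^ 2 = 0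
      linear_combination hSq
    · change P.w = w3 * P.z ^ 2 + w2 * P.y ^ 2 + w1 * P.x ^ 2
      linear_combination hP
    · change S.w = w3 * S.z ^ 2 + w2 * S.y ^ 2 + w1 * S.x ^ 2
      linear_combination hS
  · exact conic_aux α E w1 w2 w3 a b c g1 g2 g3 ha hb hc hid P S hPq hSq hP hS hSz

end Pool.Agent.Helper8.XS
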