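import Pool.Agent.Helper8.XS.InvSym

set_option autoImplicit false

/-! DB-3 -/

open scoped TensorProduct

namespace Pool.Agent.Helper8.XS

open Pool.Agent.Helper8.BR Pool.Agent.Helper8.DP2
open Pool.Agent.Helper8.DP2.SqAux Pool.Agent.Helper8.DP2.RamAux

private theorem locSym_unit {p : ℕ} [Fact p.Prime] (a : ℤ) (ha : ¬ (p : ℤ) ∣ a) :
    IsUnit (a : ℤ_[p]) := by
  rw [isUnit_iff_toZMod, map_intCast, Ne, ZMod.intCast_zmod_eq_zero_iff_dvd]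
  exact ha

private theorem locSym_ne {p : ℕ} [Fact p.Prime] (a : ℤ) (ha : ¬ (p : ℤ) ∣ a) :
    (a : ℚ_[p]) ≠ 0 := by
  have : a ≠ 0 := by
    rintro rfl
    exact ha (dvd_zero _)
  exact_mod_cast this

private theorem locSym_two_torsion (E : Type) [Field E] (d u : E) (hu : u ≠ 0) :
    sym E d u + sym E d u = 0 := by
  rw [← sym_mul E d u u (IsUnit.mk0 u hu) (IsUnit.mk0 u hu)]
  exact sym_norm E d (u * u) u 0 ((IsUnit.mk0 u hu).mul (IsUnit.mk0 u hu)) (by ring)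

private theorem locSym_eq_of (E : Type) [Field E] (d u v : E) (hu : u ≠ 0) (hv : v ≠ 0)
    (h : sym E d (u * v) = 0) : sym E d u = sym E d v := by
  rw [sym_mul E d u v (IsUnit.mk0 u hu) (IsUnit.mk0 v hv)] at h
  have h2 := locSym_two_torsion E d v hv
  rw [add_eq_zero_iff_eq_neg] at h h2
  rw [h, ← h2]

theorem sym_unit (p : ℕ) [Fact p.Prime] (hp : p ≠ 2) (a b : ℤ) (ha : ¬ (p : ℤ) ∣ a)
    (hb : ¬ (p : ℤ) ∣ b) : sym ℚ_[p] (a : ℚ_[p]) (b : ℚ_[p]) = 0 := by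
  rw [sym_eq_zero_iff _ _ (locSym_ne a ha) (locSym_ne b hb)]
  have := isN_unit hp a ha (b : ℤ_[p]) (locSym_unit b hb)
  rwa [PadicInt.coe_intCast] at this

theorem sym_sq (E : Type) [Field E] [CharZero E] (a b : E) (ha : a ≠ 0) (hb : b ≠ 0)
    (h : IsSquare a ∨ IsSquare b) : sym E a b = 0 := by
  rw [sym_eq_zero_iff _ _ ha hb]
  rcases h with h | ⟨c, rfl⟩
  · exact IsN.of_isSquare two_ne_zero ha h b
  · exact ⟨c, 0, by ring⟩

theorem sym_ram (p : ℕ) [Fact p.Prime] (hp : p ≠ 2) (d e a : ℤ) (hd : d = p * e)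
    (he : ¬ (p : ℤ) ∣ e) (ha : ¬ (p : ℤ) ∣ a) :
    sym ℚ_[p] (d : ℚ_[p]) (a : ℚ_[p]) = 0 ↔ IsSquare (a : ZMod p) := by
  have hd0 : d ≠ 0 := by
    have hp0 : (p : ℤ) ≠ 0 := by exact_mod_cast (Fact.out : p.Prime).ne_zero
    have he0 : e ≠ 0 := by
      rintro rfl
      exact he (dvd_zero _)
    rw [hd]
    exact mul_ne_zero hp0 he0
  rw [sym_eq_zero_iff _ _ (by exact_mod_cast hd0) (locSym_ne a ha)]
  have := isN_ram hp d e hd he (a : ℤ_[p]) (locSym_unit a ha)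
  rwa [PadicInt.coe_intCast, map_intCast] at this

private theorem locSym_zpow (K : Type) [Field K] (d : K) (hd : d ≠ 0) (k : ℤ) :
    IsN K d ((-d) ^ k) := by
  have hpos : ∀ n : ℕ, IsN K d ((-d) ^ n) := by
    intro n
    induction n with
    | zero => rw [pow_zero]; exact IsN.one d
    | succ n ih => rw [pow_succ]; exact ih.mul (IsN.neg_self d)
  have hd' : -d ≠ 0 := neg_ne_zero.2 hd
  rcases Int.eq_nat_or_neg k with ⟨n, rfl | rfl⟩
  · rw [zpow_natCast]; exact hpos n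
  · have h1 : (-d) ^ (-(n : ℤ)) = (((-d) ^ n)⁻¹) ^ 2 * (-d) ^ n := by
      rw [zpow_neg, zpow_natCast]
      have := pow_ne_zero n hd'
      field_simp
    rw [h1]
    exact (IsN.sq_mul_iff (inv_ne_zero (pow_ne_zero n hd'))).2 (hpos n)

/-- every nonzero element is a norm times a unit -/
private theorem locSym_exists_unit {p : ℕ} [Fact p.Prime] (d e : ℤ) (hd : d = p * e)
    (he : ¬ (p : ℤ) ∣ e) (a : ℚ_[p]) (ha : a ≠ 0) :
    ∃ u : ℤ_[p], IsUnit u ∧ IsN ℚ_[p] (d : ℚ_[p]) (a * (u : ℚ_[p])) := by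
  have hp0 : (0 : ℝ) < p := by exact_mod_cast (Fact.out : p.Prime).pos
  have heN : ‖(e : ℚ_[p])‖ = 1 := by
    refine le_antisymm (Padic.norm_int_le_one e) (not_lt.1 fun h => he ?_)
    exact Padic.norm_intCast_lt_one_iff.1 h
  have hdN : ‖(-(d : ℚ_[p]))‖ = (p : ℝ) ^ (-1 : ℤ) := by
    rw [norm_neg, hd]
    push_cast
    rw [norm_mul, heN, mul_one, Padic.norm_p, zpow_neg_one]
  have hd0 : (d : ℚ_[p]) ≠ 0 := by
    intro h
    rw [h, neg_zero, norm_zero] at hdN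
    exact (zpow_pos hp0 (-1)).ne hdN
  set k := a.valuation with hk
  set c : ℚ_[p] := a * (-(d : ℚ_[p])) ^ (-k) with hc
  have hcN : ‖c‖ = 1 := by
    rw [hc, norm_mul, norm_zpow, hdN, Padic.norm_eq_zpow_neg_valuation ha, ← zpow_mul,
      ← zpow_add₀ hp0.ne', ← hk]
    have : -k + -1 * -k = 0 := by ring
    rw [this, zpow_zero]
  refine ⟨⟨c, hcN.le⟩, ?_, ?_⟩
  · rw [PadicInt.isUnit_iff]
    exact hcN
  · show IsN ℚ_[p] (d : ℚ_[p]) (a * c)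
    have : a * c = a ^ 2 * (-(d : ℚ_[p])) ^ (-k) := by rw [hc]; ring
    rw [this]
    exact (IsN.sq_mul_iff ha).2 (locSym_zpow _ _ hd0 _)

theorem sym_unique (p : ℕ) [Fact p.Prime] (hp : p ≠ 2) (d e : ℤ) (hd : d = p * e)
    (he : ¬ (p : ℤ) ∣ e) (a b : ℚ_[p]) (ha : a ≠ 0) (hb : b ≠ 0)
    (h1 : sym ℚ_[p] (d : ℚ_[p]) a ≠ 0) (h2 : sym ℚ_[p] (d : ℚ_[p]) b ≠ 0) :
    sym ℚ_[p] (d : ℚ_[p]) a = sym ℚ_[p] (d : ℚ_[p]) b := by
  have hd0 : (d : ℚ_[p]) ≠ 0 := by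
    have hp0 : (p : ℤ) ≠ 0 := by exact_mod_cast (Fact.out : p.Prime).ne_zero
    have he0 : e ≠ 0 := by
      rintro rfl
      exact he (dvd_zero _)
    have : d ≠ 0 := by
      rw [hd]
      exact mul_ne_zero hp0 he0
    exact_mod_cast this
  obtain ⟨u, hu, hau⟩ := locSym_exists_unit d e hd he a ha
  obtain ⟨v, hv, hbv⟩ := locSym_exists_unit d e hd he b hb
  have hu0 : (u : ℚ_[p]) ≠ 0 := by
    intro h
    exact hu.ne_zero (Subtype.ext h)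
  have hv0 : (v : ℚ_[p]) ≠ 0 := by
    intro h
    exact hv.ne_zero (Subtype.ext h)
  have hun : ¬ IsSquare (PadicInt.toZMod u) := by
    rw [← isN_ram hp d e hd he u hu]
    intro h
    apply h1
    rw [sym_eq_zero_iff _ _ hd0 ha]
    rw [mul_comm] at hau
    exact (IsN.mul_iff hu0 h).1 hau
  have hvn : ¬ IsSquare (PadicInt.toZMod v) := by
    rw [← isN_ram hp d e hd he v hv]
    intro h
    apply h2
    rw [sym_eq_zero_iff _ _ hd0 hb]
    rw [mul_comm] at hbv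
    exact (IsN.mul_iff hv0 h).1 hbv
  have huv : IsN ℚ_[p] (d : ℚ_[p]) ((u * v : ℤ_[p]) : ℚ_[p]) := by
    rw [isN_ram hp d e hd he (u * v) (hu.mul hv), map_mul,
      isSquare_mul_iff_fin ((isUnit_iff_toZMod u).1 hu) ((isUnit_iff_toZMod v).1 hv)]
    tauto
  apply locSym_eq_of ℚ_[p] _ a b ha hb
  rw [sym_eq_zero_iff _ _ hd0 (mul_ne_zero ha hb)]
  rw [PadicInt.coe_mul] at huv
  have h3 := hau.mul hbv
  have h4 : a * (u : ℚ_[p]) * (b * (v : ℚ_[p])) = ((u : ℚ_[p]) * v) * (a * b) := by ring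
  rw [h4] at h3
  exact (IsN.mul_iff (mul_ne_zero hu0 hv0) huv).1 h3

theorem sym_real (a b : ℝ) (ha : a ≠ 0) (hb : b ≠ 0) :
    (sym ℝ a b = 0 ↔ 0 < a ∨ 0 < b) ∧
      ∀ a' b' : ℝ, a < 0 → b < 0 → a' < 0 → b' < 0 → sym ℝ a b = sym ℝ a' b' := by
  have hsq : ∀ x : ℝ, 0 < x → IsSquare x := fun x hx => ⟨√x, (Real.mul_self_sqrt hx.le).symm⟩
  refine ⟨⟨fun h => ?_, fun h => ?_⟩, fun a' b' ha1 hb1 ha2 hb2 => ?_⟩
  · rw [sym_eq_zero_iff _ _ ha hb] at h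
    obtain ⟨u, v, huv⟩ := h
    by_contra hcon
    push Not at hcon
    have h1 : a < 0 := lt_of_le_of_ne hcon.1 ha
    have h2 : b < 0 := lt_of_le_of_ne hcon.2 hb
    nlinarith [sq_nonneg u, sq_nonneg v, mul_nonneg (neg_nonneg.2 hcon.1) (sq_nonneg v)]
  · exact sym_sq ℝ a b ha hb (h.imp (hsq a) (hsq b))
  · have e1 : sym ℝ a b = sym ℝ a b' := by
      apply locSym_eq_of ℝ a b b' hb hb2.ne
      exact sym_sq ℝ a (b * b') ha (mul_ne_zero hb hb2.ne)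
        (Or.inr (hsq _ (mul_pos_of_neg_of_neg hb1 hb2)))
    have e2 : sym ℝ b' a = sym ℝ b' a' := by
      apply locSym_eq_of ℝ b' a a' ha ha2.ne
      exact sym_sq ℝ b' (a * a') hb2.ne (mul_ne_zero ha ha2.ne)
        (Or.inr (hsq _ (mul_pos_of_neg_of_neg ha1 ha2)))
    rw [e1, sym_comm' a b' ha hb2.ne, e2, sym_comm' b' a' hb2.ne ha2.ne]

end Pool.Agent.Helper8.XS
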