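import Pool.Agent.Helper8.XS.InvSym
import Pool.Agent.Helper8.XS.HeyZero
import Pool.Agent.Helper8.XS.GlobDefs

set_option autoImplicit false

/-! DB-7 -/

open scoped TensorProduct

namespace Pool.Agent.Helper8.XS

open Pool.Agent.Helper8.BR Pool.Agent.Helper8.DP2

private theorem oi_uncountable (p : ℕ) [Fact p.Prime] : Uncountable ℚ_[p] := by
  rw [← Cardinal.aleph0_lt_mk_iff]
  exact Cardinal.aleph0_lt_continuum.trans_le
    (continuum_le_cardinal_of_nontriviallyNormedField ℚ_[p])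

private theorem oi_ent_ne {m n d : ℤ} (hd : d ≠ 0) {E : Type} [Field E] [CharZero E]
    (P : DP2.Pt m n d E) (T : Finset (Fin 7)) : (∏ i ∈ T, ent P i) ≠ 0 := by
  rw [Finset.prod_ne_zero_iff]
  intro i _
  unfold ent
  split_ifs with h1 h2
  · exact h1
  · exact mul_ne_zero (Int.cast_ne_zero.2 hd) h2
  · exact one_ne_zero

/-- orthogonality in terms of the Brauer groups -/
private theorem oi_orth {m n d : ℤ} (x : Adelic m n d) (α : BrX m n d) (c : Br ℚ)
    (T : Finset (Fin 7))
    (hα : ∀ (E : Type) [Field E] [CharZero E] [Uncountable E] (P : RPt m n d E),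
        (toFam α).val E (qring_field E) P = Br.map (algebraMap ℚ E) c +
          sym E (d : E) (∏ i ∈ T, ent (toPt P) i)) :
    Orth x α ↔ ∃ b : Br ℚ,
      Br.map (algebraMap ℚ ℝ) b = sym ℝ (d : ℝ) (∏ i ∈ T, ent (toPt x.real) i) ∧
      ∀ (p : ℕ) [Fact p.Prime], Br.map (algebraMap ℚ ℚ_[p]) b =
        sym ℚ_[p] (d : ℚ_[p]) (∏ i ∈ T, ent (toPt (x.fin p)) i) := by
  have hR := hα ℝ x.real
  have hP : ∀ (p : ℕ) [Fact p.Prime], (toFam α).val ℚ_[p] (qring_field ℚ_[p]) (x.fin p) =
      Br.map (algebraMap ℚ ℚ_[p]) c + sym ℚ_[p] (d : ℚ_[p])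
        (∏ i ∈ T, ent (toPt (x.fin p)) i) := by
    intro p hp
    have := oi_uncountable p
    exact hα ℚ_[p] (x.fin p)
  have hR' : (toFam α).val ℝ (qring_field ℝ) x.real =
      Br.mk ℝ (α.val ℝ (qring_field ℝ) x.real) := rfl
  have hP' : ∀ (p : ℕ) [Fact p.Prime], (toFam α).val ℚ_[p] (qring_field ℚ_[p]) (x.fin p) =
      Br.mk ℚ_[p] (α.val ℚ_[p] (qring_field ℚ_[p]) (x.fin p)) := fun p _ => rfl
  constructor
  · rintro ⟨β, h1, h2⟩
    refine ⟨Br.mk ℚ β - c, ?_, ?_⟩
    · rw [map_sub, (Br.map_mk_eq_iff ℚ ℝ _ _).2 h1, ← hR', hR, add_sub_cancel_left]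
    · intro p hp
      rw [map_sub, (Br.map_mk_eq_iff ℚ ℚ_[p] _ _).2 (h2 p), ← hP' p, hP p, add_sub_cancel_left]
  · rintro ⟨b, h1, h2⟩
    obtain ⟨β, hβ⟩ := Br.exists_mk (b + c)
    refine ⟨β, ?_, ?_⟩
    · rw [← Br.map_mk_eq_iff, ← hβ, ← hR', hR, map_add, h1, add_comm]
    · intro p hp
      rw [← Br.map_mk_eq_iff, ← hβ, ← hP' p, hP p, map_add, h2 p, add_comm]

theorem orth_iff {m n d : ℤ} (hm : m ≠ 0) (hb : bad m n ≠ 0) (hd : d ≠ 0)
    (hbad : ∀ (p : ℕ) [Fact p.Prime], (p : ℤ) ∣ bad m n → IsSquare (d : ℚ_[p]))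
    (S0 : Finset ℕ) (hS0 : ∀ p : ℕ, p.Prime → (p : ℤ) ∣ d → p ∈ S0)
    (hG : ∀ S ⊆ S0, ∃ H : Br ℚ, GlobalH d S H) (x : Adelic m n d) (α : BrX m n d) (c : Br ℚ)
    (T : Finset (Fin 7)) (hT : Even T.card)
    (hα : ∀ (E : Type) [Field E] [CharZero E] [Uncountable E] (P : RPt m n d E),
        (toFam α).val E (qring_field E) P = Br.map (algebraMap ℚ E) c +
          sym E (d : E) (∏ i ∈ T, ent (toPt P) i)) :
    Orth x α ↔ (toDP x).Orth T := by
  classical
  rw [oi_orth x α c T hα]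
  let S : Finset ℕ := S0.filter fun p => (toDP x).invAt T p ≠ 0
  obtain ⟨H, hH⟩ := hG S (Finset.filter_subset _ _)
  -- the local invariants at the primes
  have hinvAt : ∀ (p : ℕ) [hp : Fact p.Prime], (toDP x).invAt T p = 0 ↔
      sym ℚ_[p] (d : ℚ_[p]) (∏ i ∈ T, ent (toPt (x.fin p)) i) = 0 := by
    intro p hp
    rw [← inv_iff hd ℚ_[p] (toPt (x.fin p)) T]
    unfold DP2.Adelic.invAt
    rw [dif_pos hp.out]
    rfl
  have hout : ∀ p, p ∉ S → (toDP x).invAt T p = 0 := by
    intro p hp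
    by_cases hpp : p.Prime
    · by_cases hpd : (p : ℤ) ∣ d
      · by_contra hne
        exact hp (Finset.mem_filter.2 ⟨hS0 p hpp hpd, hne⟩)
      · haveI : Fact p.Prime := ⟨hpp⟩
        have h1 := (triv_place (n := n) hm hd hbad p hpd).1 (toPt (x.fin p)) T hT
        unfold DP2.Adelic.invAt
        rw [dif_pos hpp]
        refine Eq.trans h1 ?_
        simp
    · unfold DP2.Adelic.invAt
      rw [dif_neg hpp]
  have hin : ∀ p, p ∈ S → (toDP x).invAt T p = 1 := by
    intro p hp
    have h1 := (Finset.mem_filter.1 hp).2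
    revert h1
    generalize (toDP x).invAt T p = t
    revert t
    decide
  -- the orthogonality in terms of the number of places
  have hOrth : (toDP x).Orth T ↔ DP2.inv (toPt x.real) T + (S.card : ZMod 2) = 0 := by
    have hsum : ∀ S' : Finset ℕ, (∀ p ∉ S', (toDP x).invAt T p = 0) →
        ∑ p ∈ S', (toDP x).invAt T p = (S.card : ZMod 2) := by
      intro S' hS'
      have e1 : ∑ p ∈ S', (toDP x).invAt T p = ∑ p ∈ S ∪ S', (toDP x).invAt T p := by
        apply Finset.sum_subset Finset.subset_union_right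
        intro p _ hp
        exact hS' p hp
      have e2 : ∑ p ∈ S, (toDP x).invAt T p = ∑ p ∈ S ∪ S', (toDP x).invAt T p := by
        apply Finset.sum_subset Finset.subset_union_left
        intro p _ hp
        exact hout p hp
      rw [e1, ← e2, Finset.sum_congr rfl hin]
      simp
    constructor
    · rintro ⟨S', h1, h2⟩
      rw [hsum S' h1] at h2
      exact h2
    · intro h
      refine ⟨S, hout, ?_⟩
      rw [hsum S hout]
      exact h
  rw [hOrth]
  -- the class `H` has the right local values at the primes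
  have hHp : ∀ (p : ℕ) [Fact p.Prime], Br.map (algebraMap ℚ ℚ_[p]) H =
      sym ℚ_[p] (d : ℚ_[p]) (∏ i ∈ T, ent (toPt (x.fin p)) i) := by
    intro p hp
    by_cases hpS : p ∈ S
    · apply hH.inn p hpS _ (oi_ent_ne hd _ T)
      intro h0
      have h1 := (hinvAt p).2 h0
      rw [hin p hpS] at h1
      exact one_ne_zero h1
    · rw [hH.out p hpS]
      exact ((hinvAt p).1 (hout p hpS)).symm
  have hreal := inv_iff hd ℝ (toPt x.real) T
  have hinvR : DP2.inv (toPt x.real) T = 0 ∨ DP2.inv (toPt x.real) T = 1 := by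
    generalize DP2.inv (toPt x.real) T = t
    revert t
    decide
  constructor
  · rintro ⟨b, h1, h2⟩
    have hbH : b = H := by
      rw [← sub_eq_zero]
      apply hey_zero
      intro p hp
      rw [map_sub, h2 p, hHp p, sub_self]
    subst hbH
    rcases Nat.even_or_odd S.card with he | ho
    · have h3 := hH.even he
      rw [h1] at h3
      rw [hreal.2 h3, (ZMod.natCast_eq_zero_iff _ 2).2 he.two_dvd, add_zero]
    · have h3 := (hH.odd ho).1
      rw [h1] at h3
      have h4 : DP2.inv (toPt x.real) T = 1 := by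
        rcases hinvR with h | h
        · exact absurd (hreal.1 h) h3
        · exact h
      obtain ⟨k, hk⟩ := ho
      rw [h4, hk]
      push_cast
      have h5 : (2 : ZMod 2) = 0 := rfl
      rw [h5, zero_mul, zero_add]
      rfl
  · intro h
    refine ⟨H, ?_, hHp⟩
    rcases Nat.even_or_odd S.card with he | ho
    · rw [(ZMod.natCast_eq_zero_iff _ 2).2 he.two_dvd, add_zero] at h
      rw [hH.even he, hreal.1 h]
    · have h4 : DP2.inv (toPt x.real) T ≠ 0 := by
        intro h0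
        obtain ⟨k, hk⟩ := ho
        rw [h0, hk, zero_add] at h
        push_cast at h
        have h5 : (2 : ZMod 2) = 0 := rfl
        rw [h5, zero_mul, zero_add] at h
        exact one_ne_zero h
      exact (hH.odd ho).2 _ (oi_ent_ne hd _ T) fun h0 => h4 (hreal.2 h0)

end Pool.Agent.Helper8.XS
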