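import Pool.Agent.Helper8.XS.SpIdent
import Pool.Agent.Helper8.DP2.Final

set_option autoImplicit false

/-! XS-22: relations between the lines -/

open scoped TensorProduct
open MvPolynomial

namespace Pool.Agent.Helper8.XS

open Pool.Agent.Helper8.BR Pool.Agent.Helper8.DP2

/-- the product of three auxiliary lines -/
def zz {R : Type} [CommRing R] (m n : ℤ) (x y z : R) : R :=
  (-((m : R) ^ 2 + n ^ 2) * x + ((m : R) ^ 2 + n ^ 2) * y + ((m : R) ^ 2 - n ^ 2) * z) *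
  (((m : R) ^ 2 + n ^ 2) * x - ((m : R) ^ 2 + n ^ 2) * y + ((m : R) ^ 2 - n ^ 2) * z) *
  (((m : R) ^ 2 + n ^ 2) * x + ((m : R) ^ 2 + n ^ 2) * y + ((m : R) ^ 2 - n ^ 2) * z)

private lemma rel_isN_mul {M : Type} [Field M] {d a b : M} (ha : IsN M d a) (hb : IsN M d b) :
    IsN M d (a * b) := by
  obtain ⟨u, v, rfl⟩ := ha
  obtain ⟨s, t, rfl⟩ := hb
  exact ⟨u * s + d * v * t, u * t + v * s, by ring⟩

private lemma rel_isN_sq {M : Type} [Field M] (d a : M) : IsN M d (a ^ 2) := ⟨a, 0, by ring⟩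

private lemma rel_isN_of {M : Type} [Field M] {d X K S : M} (hK : IsN M d K) (hS : S ≠ 0)
    (h : X * S ^ 2 = K) : IsN M d X := by
  obtain ⟨u, v, hu⟩ := hK
  refine ⟨u / S, v / S, ?_⟩
  have : X = K / S ^ 2 := by rw [← h]; field_simp
  rw [this, hu]
  field_simp

private lemma rel_isN_F {M : Type} [Field M] {d w f : M} (hd : d ≠ 0) (hw : w ^ 2 = d * f)
    (A s : M) : IsN M d (A ^ 2 - s ^ 2 * f) := by
  refine ⟨A, s * w / d, ?_⟩
  have : f = w ^ 2 / d := by rw [hw]; field_simp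
  rw [this]
  field_simp

private lemma rel_ne {m n : ℤ} (hb : bad m n ≠ 0) : m ≠ 0 ∧ n ≠ 0 ∧ m ^ 2 - n ^ 2 ≠ 0 ∧
    m ^ 2 + n ^ 2 ≠ 0 ∧ (kap m n : ℤ) ≠ 0 ∧ m ^ 2 - m * n + n ^ 2 ≠ 0 ∧
    m ^ 2 + m * n + n ^ 2 ≠ 0 := by
  unfold bad at hb
  have h1 := right_ne_zero_of_mul hb
  have h2 := left_ne_zero_of_mul hb
  have h3 := right_ne_zero_of_mul h2
  have h4 := left_ne_zero_of_mul h2
  have h5 := right_ne_zero_of_mul h4
  have h6 := left_ne_zero_of_mul h4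
  have h7 := right_ne_zero_of_mul h6
  have h8 := left_ne_zero_of_mul h6
  have h9 := right_ne_zero_of_mul h8
  have h10 : (m ^ 2 - m * n + n ^ 2) * (m ^ 2 + m * n + n ^ 2) ≠ 0 := by
    have : (kap m n : ℤ) = (m ^ 2 - m * n + n ^ 2) * (m ^ 2 + m * n + n ^ 2) := by
      unfold kap; simp only [Int.cast_id]; ring
    rw [← this]; exact h1
  exact ⟨h9, h7, h5, h3, h1, left_ne_zero_of_mul h10, right_ne_zero_of_mul h10⟩

private lemma rel_comb {M : Type} [Field M] {s r' r l1 l2 l3 a b c : M} :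
    r * (l1 * l2 * l3) * (8 * r' * s * (a * b * c)) ^ 2 =
      (4 * r' * s ^ 2 * l1 * a * b) * (4 * r' * l2 * a * c) * (4 * r * l3 * b * c) := by ring

private lemma rel_six {m n d : ℤ} (hb : bad m n ≠ 0) (hd : d ≠ 0) (M : Type) [Field M] [CharZero M]
    (x y z w : M) (hw : w ^ 2 = (d : M) * F m n x y z)
    (hzz : zz m n x y z ≠ 0) :
    IsN M (d : M) (((m : M) ^ 2 - m * n + n ^ 2) * ((((m : M) * x + n * y) * (n * x + m * y)) *
      ((m * y - n * z) * (n * y + m * z)) * ((m * z - n * x) * (n * z + m * x)))) := by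
  obtain ⟨hm, hn, hr, hs, hk, hρ, hρ'⟩ := rel_ne hb
  have hdM : (d : M) ≠ 0 := by exact_mod_cast hd
  have hsM : (m : M) ^ 2 + n ^ 2 ≠ 0 := by exact_mod_cast hs
  have hρM : (m : M) ^ 2 + m * n + n ^ 2 ≠ 0 := by exact_mod_cast hρ'
  have a1 := rel_isN_F hdM hw (((m : M) + n) ^ 2 * (((m : M) ^ 2 + n ^ 2) ^ 2 * z ^ 2 -
    ((m : M) ^ 4 + n ^ 4) * (x ^ 2 + y ^ 2)) + 2 * ((m : M) - n) ^ 2 * (m ^ 2 + m * n + n ^ 2) *
      ((m * x + n * y) * (n * x + m * y))) (((m : M) + n) ^ 2 * (m ^ 2 + n ^ 2))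
  have a2 := rel_isN_F hdM hw ((((m : M) ^ 2 + n ^ 2) ^ 2 * x ^ 2 -
    ((m : M) ^ 4 + n ^ 4) * (y ^ 2 + z ^ 2)) - 2 * (m ^ 2 + m * n + n ^ 2) *
      ((m * y - n * z) * (n * y + m * z))) ((m : M) ^ 2 + n ^ 2)
  have a3 := rel_isN_F hdM hw ((((m : M) ^ 2 + n ^ 2) ^ 2 * y ^ 2 -
    ((m : M) ^ 4 + n ^ 4) * (x ^ 2 + z ^ 2)) - 2 * (m ^ 2 - m * n + n ^ 2) *
      ((m * z - n * x) * (n * z + m * x))) ((m : M) ^ 2 + n ^ 2)
  have e1 : ((((m : M) + n) ^ 2 * (((m : M) ^ 2 + n ^ 2) ^ 2 * z ^ 2 -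
        ((m : M) ^ 4 + n ^ 4) * (x ^ 2 + y ^ 2)) + 2 * ((m : M) - n) ^ 2 * (m ^ 2 + m * n + n ^ 2) *
          ((m * x + n * y) * (n * x + m * y))) ^ 2 - (((m : M) + n) ^ 2 * (m ^ 2 + n ^ 2)) ^ 2 *
          F m n x y z) =
        4 * ((m : M) ^ 2 + m * n + n ^ 2) * (m ^ 2 + n ^ 2) ^ 2 *
          ((m * x + n * y) * (n * x + m * y)) *
          (-((m : M) ^ 2 + n ^ 2) * x + ((m : M) ^ 2 + n ^ 2) * y + ((m : M) ^ 2 - n ^ 2) * z) *
          (((m : M) ^ 2 + n ^ 2) * x - ((m : M) ^ 2 + n ^ 2) * y + ((m : M) ^ 2 - n ^ 2) * z) := by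
    unfold F; ring
  have e2 : (((((m : M) ^ 2 + n ^ 2) ^ 2 * x ^ 2 -
        ((m : M) ^ 4 + n ^ 4) * (y ^ 2 + z ^ 2)) - 2 * (m ^ 2 + m * n + n ^ 2) *
          ((m * y - n * z) * (n * y + m * z))) ^ 2 - ((m : M) ^ 2 + n ^ 2) ^ 2 * F m n x y z) =
        4 * ((m : M) ^ 2 + m * n + n ^ 2) * ((m * y - n * z) * (n * y + m * z)) *
          (-((m : M) ^ 2 + n ^ 2) * x + ((m : M) ^ 2 + n ^ 2) * y + ((m : M) ^ 2 - n ^ 2) * z) *
          (((m : M) ^ 2 + n ^ 2) * x + ((m : M) ^ 2 + n ^ 2) * y + ((m : M) ^ 2 - n ^ 2) * z) := by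
    unfold F; ring
  have e3 : (((((m : M) ^ 2 + n ^ 2) ^ 2 * y ^ 2 -
        ((m : M) ^ 4 + n ^ 4) * (x ^ 2 + z ^ 2)) - 2 * (m ^ 2 - m * n + n ^ 2) *
          ((m * z - n * x) * (n * z + m * x))) ^ 2 - ((m : M) ^ 2 + n ^ 2) ^ 2 * F m n x y z) =
        4 * ((m : M) ^ 2 - m * n + n ^ 2) * ((m * z - n * x) * (n * z + m * x)) *
          (((m : M) ^ 2 + n ^ 2) * x - ((m : M) ^ 2 + n ^ 2) * y + ((m : M) ^ 2 - n ^ 2) * z) *
          (((m : M) ^ 2 + n ^ 2) * x + ((m : M) ^ 2 + n ^ 2) * y + ((m : M) ^ 2 - n ^ 2) * z) := by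
    unfold F; ring
  rw [e1] at a1
  rw [e2] at a2
  rw [e3] at a3
  clear e1 e2 e3
  unfold zz at hzz
  exact rel_isN_of (rel_isN_mul (rel_isN_mul a1 a2) a3)
    (mul_ne_zero (mul_ne_zero (mul_ne_zero (by norm_num) hρM) hsM) hzz) rel_comb

/-- the products `N * L` which are norms up to constants -/
private lemma rel_prod {m n d : ℤ} (hb : bad m n ≠ 0) (hd : d ≠ 0) (M : Type) [Field M] [CharZero M]
    (x y z w : M) (hw : w ^ 2 = (d : M) * F m n x y z) :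
    IsN M (d : M) (-((kap m n : ℤ) : M) * ((((m : M) * x - n * y) * (m * x + n * y)) *
      ((n * x - m * y) * (n * x + m * y)))) ∧
    IsN M (d : M) ((((m : M) * x - n * y) * (m * x + n * y)) *
      ((m * y - n * z) * (m * y + n * z))) ∧
    IsN M (d : M) ((((m : M) * x - n * y) * (m * x + n * y)) *
      ((m * z - n * x) * (m * z + n * x))) ∧
    IsN M (d : M) (-((kap m n : ℤ) : M) * ((((m : M) * x - n * y) * (m * x + n * y)) *
      ((n * y - m * z) * (n * y + m * z)))) ∧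
    IsN M (d : M) (-((kap m n : ℤ) : M) * ((((m : M) * x - n * y) * (m * x + n * y)) *
      ((n * z - m * x) * (n * z + m * x)))) ∧
    IsN M (d : M) ((((m : M) * x - n * y) * (m * x + n * y)) * conZ m n x y z) := by
  obtain ⟨hm, hn, hr, hs, hk, hρ, hρ'⟩ := rel_ne hb
  have hdM : (d : M) ≠ 0 := by exact_mod_cast hd
  have hsM : (m : M) ^ 2 + n ^ 2 ≠ 0 := by exact_mod_cast hs
  have h2s : 2 * ((m : M) ^ 2 + n ^ 2) ≠ 0 := mul_ne_zero two_ne_zero hsM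
  have hkM : ((kap m n : ℤ) : M) = (m : M) ^ 4 + m ^ 2 * n ^ 2 + n ^ 4 := by
    unfold kap; push_cast; rfl
  rw [hkM]
  refine ⟨?_, ?_, ?_, ?_, ?_, ?_⟩
  · refine rel_isN_of (rel_isN_F hdM hw (qQ m n x y z) ((m : M) ^ 2 + n ^ 2))
      (two_ne_zero (α := M)) ?_
    unfold qQ F; ring
  · refine rel_isN_of (rel_isN_F hdM hw (qQ m n x y z - 2 * (n : M) ^ 2 * qN m n x y)
      ((m : M) ^ 2 + n ^ 2)) h2s ?_
    unfold qQ qN F; ring
  · refine rel_isN_of (rel_isN_F hdM hw (qQ m n x y z + 2 * (m : M) ^ 2 * qN m n x y)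
      ((m : M) ^ 2 + n ^ 2)) h2s ?_
    unfold qQ qN F; ring
  · refine rel_isN_of (rel_isN_F hdM hw ((m : M) ^ 2 * qQ m n x y z + 2 * kap m n * qN m n x y)
      ((m : M) ^ 2 * ((m : M) ^ 2 + n ^ 2))) h2s ?_
    unfold qQ qN F kap; ring
  · refine rel_isN_of (rel_isN_F hdM hw ((n : M) ^ 2 * qQ m n x y z - 2 * kap m n * qN m n x y)
      ((n : M) ^ 2 * ((m : M) ^ 2 + n ^ 2))) h2s ?_
    unfold qQ qN F kap; ring
  · refine rel_isN_of (rel_isN_F hdM hw (((m : M) - n) * qQ m n x y z +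
      2 * (rho m n * ((m : M) + n)) * qN m n x y)
      (((m : M) - n) * ((m : M) ^ 2 + n ^ 2))) (two_ne_zero (α := M)) ?_
    unfold qQ qN F conZ kap rho; ring

theorem rel13 {m n d : ℤ} (hb : bad m n ≠ 0) (hd : d ≠ 0) (M : Type) [Field M] [CharZero M]
    (x y z w : M) (hw : w ^ 2 = (d : M) * F m n x y z) (hl : ∀ i, lin13 m n x y z i ≠ 0)
    (hzz : zz m n x y z ≠ 0) (i : Fin 13) : ∃ (c : ℚ) (T : Finset (Fin 7)), c ≠ 0 ∧
      IsN M (d : M) ((c : M) * lin13 m n x y z i * ∏ j ∈ T, lin m n x y z j) := by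
  obtain ⟨hm, hn, hr, hs, hk, hρ, hρ'⟩ := rel_ne hb
  have h6 := rel_six hb hd M x y z w hw hzz
  obtain ⟨p1, p2, p3, p4, p5, -⟩ := rel_prod hb hd M x y z w hw
  have e13 : lin13 m n x y z = ![(m : M) * x - n * y, (m : M) * x + n * y,
    (n : M) * x - m * y, (n : M) * x + m * y,
    (m : M) * y - n * z, (m : M) * y + n * z, (n : M) * y - m * z, (n : M) * y + m * z,
    (m : M) * z - n * x, (m : M) * z + n * x, (n : M) * z - m * x, (n : M) * z + m * x,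
    x + y + z] := rfl
  have e7 : lin m n x y z = ![(m : M) * x - n * y, (n : M) * x + m * y,
    (m : M) * y - n * z, (n : M) * y + m * z,
    (m : M) * z - n * x, (n : M) * z + m * x, x + y + z] := rfl
  have hρQ : ((m ^ 2 - m * n + n ^ 2 : ℤ) : ℚ) ≠ 0 := by exact_mod_cast hρ
  have hκρQ : (-((kap m n : ℤ) : ℚ) * ((m ^ 2 - m * n + n ^ 2 : ℤ) : ℚ)) ≠ 0 :=
    mul_ne_zero (neg_ne_zero.2 (by exact_mod_cast hk)) hρQ
  have c1 : (((m ^ 2 - m * n + n ^ 2 : ℤ) : ℚ) : M) = (m : M) ^ 2 - m * n + n ^ 2 := by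
    push_cast; ring
  have c2 : ((-((kap m n : ℤ) : ℚ) * ((m ^ 2 - m * n + n ^ 2 : ℤ) : ℚ) : ℚ) : M) =
      -((kap m n : ℤ) : M) * ((m : M) ^ 2 - m * n + n ^ 2) := by
    push_cast; ring
  rw [e13] at hl ⊢
  rw [e7]
  generalize ((kap m n : ℤ) : M) = κ at *
  have hsum : x + y + z = x + y + z := rfl
  generalize (m : M) ^ 2 - m * n + n ^ 2 = r at *
  generalize (m : M) * x - n * y = a0 at *
  generalize (m : M) * x + n * y = a1 at *
  generalize (n : M) * x - m * y = a2 at *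
  generalize (n : M) * x + m * y = a3 at *
  generalize (m : M) * y - n * z = a4 at *
  generalize (m : M) * y + n * z = a5 at *
  generalize (n : M) * y - m * z = a6 at *
  generalize (n : M) * y + m * z = a7 at *
  generalize (m : M) * z - n * x = a8 at *
  generalize (m : M) * z + n * x = a9 at *
  generalize (n : M) * z - m * x = a10 at *
  generalize (n : M) * z + m * x = a11 at *
  generalize x + y + z = a12 at *
  have g1 : a1 ≠ 0 := hl 1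
  have g3 : a3 ≠ 0 := hl 3
  have g4 : a4 ≠ 0 := hl 4
  have g7 : a7 ≠ 0 := hl 7
  have g8 : a8 ≠ 0 := hl 8
  have g11 : a11 ≠ 0 := hl 11
  have self : ∀ (a : M) (j : Fin 7), a = (![a0, a3, a4, a7, a8, a11, a12] : Fin 7 → M) j →
      ∃ (c : ℚ) (T : Finset (Fin 7)), c ≠ 0 ∧
        IsN M (d : M) ((c : M) * a * ∏ j ∈ T, (![a0, a3, a4, a7, a8, a11, a12] : Fin 7 → M) j) := by
    intro a j ha
    refine ⟨1, {j}, one_ne_zero, ?_⟩
    rw [Finset.prod_singleton, ← ha]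
    have : ((1 : ℚ) : M) * a * a = a ^ 2 := by push_cast; ring
    rw [this]; exact rel_isN_sq _ _
  have q5 : ∀ (i₁ i₂ i₃ i₄ i₅ : Fin 7) (f : Fin 7 → M), i₁ ∉ ({i₂, i₃, i₄, i₅} : Finset (Fin 7)) →
      i₂ ∉ ({i₃, i₄, i₅} : Finset (Fin 7)) → i₃ ∉ ({i₄, i₅} : Finset (Fin 7)) →
      i₄ ∉ ({i₅} : Finset (Fin 7)) →
      ∏ j ∈ ({i₁, i₂, i₃, i₄, i₅} : Finset (Fin 7)), f j = f i₁ * (f i₂ * (f i₃ * (f i₄ * f i₅))) := by
    intro i₁ i₂ i₃ i₄ i₅ f h1 h2 h3 h4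
    rw [Finset.prod_insert h1, Finset.prod_insert h2, Finset.prod_insert h3,
      Finset.prod_insert h4, Finset.prod_singleton]
  fin_cases i
  · exact self _ 0 rfl
  · refine ⟨_, {1, 2, 3, 4, 5}, hρQ, ?_⟩
    rw [c1, q5 _ _ _ _ _ _ (by decide) (by decide) (by decide) (by decide)]
    change IsN M (d : M) (r * a1 * (a3 * (a4 * (a7 * (a8 * a11)))))
    convert h6 using 1
    ring
  · refine ⟨_, {0, 2, 3, 4, 5}, hκρQ, ?_⟩
    rw [c2, q5 _ _ _ _ _ _ (by decide) (by decide) (by decide) (by decide)]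
    change IsN M (d : M) (-κ * r * a2 * (a0 * (a4 * (a7 * (a8 * a11)))))
    exact rel_isN_of (rel_isN_mul p1 h6) (mul_ne_zero g1 g3) (by ring)
  · exact self _ 1 rfl
  · exact self _ 2 rfl
  · refine ⟨_, {0, 1, 3, 4, 5}, hρQ, ?_⟩
    rw [c1, q5 _ _ _ _ _ _ (by decide) (by decide) (by decide) (by decide)]
    change IsN M (d : M) (r * a5 * (a0 * (a3 * (a7 * (a8 * a11)))))
    exact rel_isN_of (rel_isN_mul p2 h6) (mul_ne_zero g1 g4) (by ring)
  · refine ⟨_, {0, 1, 2, 4, 5}, hκρQ, ?_⟩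
    rw [c2, q5 _ _ _ _ _ _ (by decide) (by decide) (by decide) (by decide)]
    change IsN M (d : M) (-κ * r * a6 * (a0 * (a3 * (a4 * (a8 * a11)))))
    exact rel_isN_of (rel_isN_mul p4 h6) (mul_ne_zero g1 g7) (by ring)
  · exact self _ 3 rfl
  · exact self _ 4 rfl
  · refine ⟨_, {0, 1, 2, 3, 5}, hρQ, ?_⟩
    rw [c1, q5 _ _ _ _ _ _ (by decide) (by decide) (by decide) (by decide)]
    change IsN M (d : M) (r * a9 * (a0 * (a3 * (a4 * (a7 * a11)))))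
    exact rel_isN_of (rel_isN_mul p3 h6) (mul_ne_zero g1 g8) (by ring)
  · refine ⟨_, {0, 1, 2, 3, 4}, hκρQ, ?_⟩
    rw [c2, q5 _ _ _ _ _ _ (by decide) (by decide) (by decide) (by decide)]
    change IsN M (d : M) (-κ * r * a10 * (a0 * (a3 * (a4 * (a7 * a8)))))
    exact rel_isN_of (rel_isN_mul p5 h6) (mul_ne_zero g1 g11) (by ring)
  · exact self _ 5 rfl
  · exact self _ 6 rfl

theorem relZ {m n d : ℤ} (hb : bad m n ≠ 0) (hd : d ≠ 0) (M : Type) [Field M] [CharZero M]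
    (x y z w : M) (hw : w ^ 2 = (d : M) * F m n x y z) (hl : ∀ i, lin13 m n x y z i ≠ 0)
    (hzz : zz m n x y z ≠ 0) (hz : conZ m n x y z ≠ 0) : ∃ (c : ℚ) (T : Finset (Fin 7)), c ≠ 0 ∧
      IsN M (d : M) ((c : M) * conZ m n x y z * ∏ j ∈ T, lin m n x y z j) := by
  obtain ⟨hm, hn, hr, hs, hk, hρ, hρ'⟩ := rel_ne hb
  have h6 := rel_six hb hd M x y z w hw hzz
  obtain ⟨-, -, -, -, -, p6⟩ := rel_prod hb hd M x y z w hw
  have g1 : (m : M) * x + n * y ≠ 0 := hl 1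
  have hρQ : ((m ^ 2 - m * n + n ^ 2 : ℤ) : ℚ) ≠ 0 := by exact_mod_cast hρ
  have e7 : lin m n x y z = ![(m : M) * x - n * y, (n : M) * x + m * y,
    (m : M) * y - n * z, (n : M) * y + m * z,
    (m : M) * z - n * x, (n : M) * z + m * x, x + y + z] := rfl
  have c1 : (((m ^ 2 - m * n + n ^ 2 : ℤ) : ℚ) : M) = (m : M) ^ 2 - m * n + n ^ 2 := by
    push_cast; ring
  refine ⟨((m ^ 2 - m * n + n ^ 2 : ℤ) : ℚ), {0, 1, 2, 3, 4, 5}, hρQ, ?_⟩
  rw [Finset.prod_insert (by decide), Finset.prod_insert (by decide),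
    Finset.prod_insert (by decide), Finset.prod_insert (by decide),
    Finset.prod_insert (by decide), Finset.prod_singleton, c1, e7]
  generalize conZ m n x y z = Z at *
  generalize (m : M) ^ 2 - m * n + n ^ 2 = r at *
  generalize (m : M) * x - n * y = a0 at *
  generalize (m : M) * x + n * y = a1 at *
  generalize (n : M) * x + m * y = a3 at *
  generalize (m : M) * y - n * z = a4 at *
  generalize (n : M) * y + m * z = a7 at *
  generalize (m : M) * z - n * x = a8 at *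
  generalize (n : M) * z + m * x = a11 at *
  change IsN M (d : M) (r * Z * (a0 * (a3 * (a4 * (a7 * (a8 * a11))))))
  exact rel_isN_of (rel_isN_mul p6 h6) g1 (by ring)

end Pool.Agent.Helper8.XS
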