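import Pool.Agent.Helper8.XS.SpVal

set_option autoImplicit false

/-! XS-20 -/

open scoped TensorProduct
open MvPolynomial

namespace Pool.Agent.Helper8.XS

open Pool.Agent.Helper8.BR Pool.Agent.Helper8.DP2

private theorem SpCenter_dim : ringKrullDim A2 = 2 := by
  have h := MvPolynomial.ringKrullDim_of_isNoetherianRing (R := ℚ) (ι := Fin 2)
  rw [ringKrullDim_eq_zero_of_field] at h
  rw [h]
  simp

/-- a prime ideal of `ℚ[a, b]` which is larger than a principal prime is maximal -/
private theorem SpCenter_max (P : Ideal A2) (hP : P.IsPrime) (φ : A2) (hφ : Prime φ)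
    (hmem : φ ∈ P) (G : A2) (hG : G ∈ P) (hnd : ¬ φ ∣ G) : P.IsMaximal := by
  by_contra hmax
  obtain ⟨M, hM, hPM⟩ := Ideal.exists_le_maximal P hP.ne_top
  have hlt : P < M := lt_of_le_of_ne hPM (by rintro rfl; exact hmax hM)
  have hφP : (Ideal.span {φ}).IsPrime := (Ideal.span_singleton_prime hφ.ne_zero).2 hφ
  have hlt1 : (⊥ : Ideal A2) < Ideal.span {φ} := by
    rw [bot_lt_iff_ne_bot, Ne, Ideal.span_singleton_eq_bot]
    exact hφ.ne_zero
  have hlt2 : Ideal.span {φ} < P := by
    refine lt_of_le_of_ne ((Ideal.span_singleton_le_iff_mem P).2 hmem) ?_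
    intro h
    rw [← h, Ideal.mem_span_singleton] at hG
    exact hnd hG
  let s : LTSeries (PrimeSpectrum A2) :=
    { length := 3
      toFun := ![⟨⊥, Ideal.isPrime_bot⟩, ⟨Ideal.span {φ}, hφP⟩, ⟨P, hP⟩, ⟨M, hM.isPrime⟩]
      step := by
        intro i
        fin_cases i
        · exact hlt1
        · exact hlt2
        · exact hlt }
  have h1 : (s.length : WithBot ℕ∞) ≤ ringKrullDim A2 := Order.LTSeries.length_le_krullDim s
  rw [SpCenter_dim] at h1
  have h2 : ((3 : ℕ) : WithBot ℕ∞) ≤ ((2 : ℕ) : WithBot ℕ∞) := h1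
  rw [Nat.cast_le] at h2
  omega

private theorem SpCenter_alg {κ : Type} [Field κ] [Algebra ℚ κ] (ψ : A2 →ₐ[ℚ] κ)
    (h : (RingHom.ker ψ).IsMaximal) (p : A2) : IsAlgebraic ℚ (ψ p) := by
  let _ := Ideal.Quotient.field (RingHom.ker ψ)
  have hfin : Module.Finite ℚ (A2 ⧸ RingHom.ker ψ) :=
    finite_of_finite_type_of_isJacobsonRing ℚ (A2 ⧸ RingHom.ker ψ)
  have h1 : IsIntegral ℚ (Ideal.Quotient.mk (RingHom.ker ψ) p) := IsIntegral.of_finite ℚ _
  have h2 := h1.map (Ideal.kerLiftAlg ψ)
  have h3 : Ideal.kerLiftAlg ψ (Ideal.Quotient.mk (RingHom.ker ψ) p) = ψ p :=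
    Ideal.kerLiftAlg_mk ψ p
  rw [h3] at h2
  exact h2.isAlgebraic

private theorem SpCenter_deg (a : Polynomial ℚ) (i j : Fin 2) (hij : i ≠ j) :
    (Polynomial.aeval (X i : A2) a).degreeOf j = 0 := by
  by_contra hne
  rw [← Ne, ← mem_vars_iff_degreeOf_ne_zero] at hne
  have h1 : Polynomial.aeval (X i : A2) a ∈ supported ℚ ({i} : Set (Fin 2)) := by
    have h2 := Polynomial.aeval_mem_adjoin_singleton ℚ (p := a) (X i : A2)
    rw [supported_eq_adjoin_X, Set.image_singleton]
    exact h2
  rw [mem_supported] at h1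
  have h3 := h1 (Finset.mem_coe.2 hne)
  exact hij (Set.mem_singleton_iff.1 h3).symm

private theorem SpCenter_notalg {κ : Type} [Field κ] [Algebra ℚ κ] (ψ : A2 →ₐ[ℚ] κ) (f : A2)
    (hf : Prime f) (hker : ∀ a, ψ a = 0 → f ∣ a) (h : ∀ i, IsAlgebraic ℚ (ψ (X i))) :
    False := by
  have key : ∀ i j : Fin 2, i ≠ j → f.degreeOf j = 0 := by
    intro i j hij
    obtain ⟨a, ha0, ha⟩ := h i
    have h1 : ψ (Polynomial.aeval (X i : A2) a) = 0 := by
      rw [← ha]
      exact (Polynomial.aeval_algHom_apply ψ (X i : A2) a).symm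
    obtain ⟨g, hg⟩ := hker _ h1
    have h2 : Polynomial.aeval (X i : A2) a ≠ 0 := by
      intro h3
      exact ha0 ((transcendental_iff.1 (transcendental_X ℚ i)) a h3)
    have hg0 : g ≠ 0 := by
      rintro rfl
      exact h2 (by rw [hg, mul_zero])
    have h3 := degreeOf_mul_eq (n := j) hf.ne_zero hg0
    rw [← hg, SpCenter_deg a i j hij] at h3
    omega
  have h0 : ∀ j : Fin 2, f.degreeOf j = 0 := by
    intro j
    fin_cases j
    · exact key 1 0 (by decide)
    · exact key 0 1 (by decide)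
  have hv : f.vars = ∅ := by
    rw [Finset.eq_empty_iff_forall_notMem]
    intro j hj
    rw [mem_vars_iff_degreeOf_ne_zero] at hj
    exact hj (h0 j)
  obtain ⟨c, hc⟩ : ∃ c : ℚ, f = MvPolynomial.C c := by
    refine ⟨f.coeff 0, ?_⟩
    exact vars_eq_empty_iff_eq_C.1 hv
  have hc0 : c ≠ 0 := by
    rintro rfl
    exact hf.ne_zero (by rw [hc, map_zero])
  apply hf.not_isUnit
  rw [hc]
  exact (IsUnit.mk0 c hc0).map MvPolynomial.C

theorem sp_center {m n : ℤ} (hb : bad m n ≠ 0) {K L : Type} [Field K] [Field L] [CharZero L]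
    [Algebra K L] [Algebra A2 K] [Algebra A2 L] {r : L} {σ : L ≃+* L}
    (G : Gen m n 1 K L r σ) (f : A2) (hf : Prime f) (hsp : ¬ f ∣ special m n)
    (O : ValuationSubring L) (hO : Center f O) :
    ∃ φ : A2, Prime φ ∧
      (∀ p : A2, O.valuation ((aeval ![nu m n r, mu m n r] : A2 →ₐ[ℚ] L) p) < 1 ↔ φ ∣ p) ∧
      ∀ z : L, O.valuation z ≤ 1 ↔ ∃ p q : A2, ¬ φ ∣ q ∧
        z * (aeval ![nu m n r, mu m n r] : A2 →ₐ[ℚ] L) q =
          (aeval ![nu m n r, mu m n r] : A2 →ₐ[ℚ] L) p := by
  have hsp' := sp_val hb G f hf hsp O hO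
  obtain ⟨hv1, hv2, hv3, hv4⟩ := hsp'
  obtain ⟨hN0, hT0⟩ := gen_ne hb G
  have hinj := gen_inj hb G
  have hfrac := gen_frac hb G
  have hFr := G.frac
  have hTw := G.tower
  have hinjL : Function.Injective (algebraMap A2 L) := by
    rw [IsScalarTower.algebraMap_eq A2 K L]
    exact (algebraMap K L).injective.comp (IsFractionRing.injective A2 K)
  have hbL : ((bad m n : ℤ) : L) ≠ 0 := Int.cast_ne_zero.2 hb
  have hs : (m : L) ^ 2 + n ^ 2 ≠ 0 := by
    intro h
    apply hbL
    unfold bad
    push_cast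
    rw [h]
    ring
  have hr : r ^ 2 = F m n (algebraMap A2 L (X 0)) (algebraMap A2 L (X 1)) 1 := by
    rw [G.sq, Int.cast_one, one_mul]
    unfold F0
    rw [← F_map, map_one]
  obtain ⟨-, -, h3, h4, h5, -⟩ := sp_ident L hs (algebraMap A2 L (X 0)) (algebraMap A2 L (X 1)) r
    (nu m n r) (mu m n r) hr hN0 rfl hT0 rfl
  set ev : A2 →ₐ[ℚ] L := aeval ![nu m n r, mu m n r] with hevdef
  have hev0 : ev (X 0) = nu m n r := by simp [hevdef]
  have hev1 : ev (X 1) = mu m n r := by simp [hevdef]
  have hQ : (algebraMap ℚ L) = (algebraMap A2 L).comp MvPolynomial.C := Subsingleton.elim _ _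
  have hle : ∀ p : A2, ev p ∈ O := by
    intro p
    induction p using MvPolynomial.induction_on with
    | C c =>
      have h1 : ev (MvPolynomial.C c) = algebraMap A2 L (MvPolynomial.C c) := by
        have h2 : ev (MvPolynomial.C c) = algebraMap ℚ L c := aeval_C _ _
        rw [h2, hQ]
        rfl
      rw [h1]
      exact (O.valuation_le_one_iff _).1 (hO.le_one _)
    | add p q hp hq =>
      rw [map_add]
      exact O.add_mem _ _ hp hq
    | mul_X p i hp =>
      rw [map_mul]
      refine O.mul_mem _ _ hp ?_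
      fin_cases i
      · change ev (X 0) ∈ O
        rw [hev0]
        exact (O.valuation_le_one_iff _).1 hv1
      · change ev (X 1) ∈ O
        rw [hev1]
        exact (O.valuation_le_one_iff _).1 hv2
  have hval : ∀ p : A2, O.valuation (ev p) ≤ 1 := fun p => (O.valuation_le_one_iff _).2 (hle p)
  let evO : A2 →+* O := (ev : A2 →+* L).codRestrict O hle
  let algO : A2 →+* O := (algebraMap A2 L).codRestrict O
    (fun a => (O.valuation_le_one_iff _).1 (hO.le_one a))
  let ψ1 : A2 →+* IsLocalRing.ResidueField O := (IsLocalRing.residue O).comp evO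
  let ψ2 : A2 →+* IsLocalRing.ResidueField O := (IsLocalRing.residue O).comp algO
  let _ : Algebra ℚ (IsLocalRing.ResidueField O) := (ψ1.comp MvPolynomial.C).toAlgebra
  let ψ1a : A2 →ₐ[ℚ] IsLocalRing.ResidueField O := { ψ1 with commutes' := fun c => rfl }
  have h12 : ψ2.comp MvPolynomial.C = ψ1.comp MvPolynomial.C := Subsingleton.elim _ _
  let ψ2a : A2 →ₐ[ℚ] IsLocalRing.ResidueField O :=
    { ψ2 with commutes' := fun c => RingHom.congr_fun h12 c }
  have hk1 : ∀ p, ψ1a p = 0 ↔ O.valuation (ev p) < 1 := by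
    intro p
    change IsLocalRing.residue O (evO p) = 0 ↔ _
    rw [IsLocalRing.residue_eq_zero_iff, O.valuation_lt_one_iff]
    rfl
  have hk2 : ∀ p, ψ2a p = 0 ↔ O.valuation (algebraMap A2 L p) < 1 := by
    intro p
    change IsLocalRing.residue O (algO p) = 0 ↔ _
    rw [IsLocalRing.residue_eq_zero_iff, O.valuation_lt_one_iff]
    rfl
  have hPp : (RingHom.ker ψ1a).IsPrime := RingHom.ker_isPrime ψ1a
  have hmul1 : ∀ a b : L, O.valuation a < 1 → O.valuation b ≤ 1 → O.valuation (a * b) < 1 := by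
    intro a b ha hb'
    rw [map_mul]
    exact mul_lt_one_of_lt_of_le ha hb'
  have hP0 : RingHom.ker ψ1a ≠ ⊥ := by
    obtain ⟨p, q, hq, hpq⟩ := hfrac (algebraMap A2 L f)
    intro h
    have h1 : p ∈ RingHom.ker ψ1a := by
      rw [RingHom.mem_ker, hk1, ← hpq]
      exact hmul1 _ _ hO.f_lt (hval q)
    rw [h, Ideal.mem_bot] at h1
    rw [h1, map_zero] at hpq
    rcases mul_eq_zero.1 hpq with h2 | h2
    · exact hf.ne_zero (hinjL (by rw [h2, map_zero]))
    · exact hq (hinj (by rw [map_zero]; exact h2))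
  obtain ⟨φ, hφmem, hφ⟩ := hPp.exists_mem_prime_of_ne_bot hP0
  have hval2 : O.valuation (2 : L) = 1 := by
    have h1 := hO.eq_one (MvPolynomial.C 2) (by
      intro h
      exact hf.not_isUnit (isUnit_of_dvd_unit h
        ((IsUnit.mk0 (2 : ℚ) two_ne_zero).map MvPolynomial.C)))
    rw [show (MvPolynomial.C (2 : ℚ) : A2) = 2 from map_ofNat _ 2, map_ofNat] at h1
    exact h1
  have hdvd : ∀ p : A2, O.valuation (ev p) < 1 ↔ φ ∣ p := by
    intro p
    constructor
    · intro hp
      by_contra hnd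
      have hpm : p ∈ RingHom.ker ψ1a := by rw [RingHom.mem_ker, hk1]; exact hp
      have hmax := SpCenter_max (RingHom.ker ψ1a) hPp φ hφ hφmem p hpm hnd
      have halg := SpCenter_alg ψ1a hmax
      -- the polynomials
      have hca : ev (ca m n (X 0)) = ca m n (nu m n r) := by
        unfold ca kap
        simp only [map_sub, map_mul, map_add, map_pow, map_intCast, hev0]
      have hcb : ev (cb m n (X 0)) = cb m n (nu m n r) := by
        unfold cb kap
        simp only [map_sub, map_mul, map_add, map_pow, map_intCast, map_neg, hev0]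
      have hcc : ev (cc m n (X 0)) = cc m n (nu m n r) := by
        unfold cc
        simp only [map_sub, map_mul, map_add, map_pow, map_intCast, hev0]
      have hsx : ev (sx m n (X 0)) = sx m n (nu m n r) := by
        unfold sx rho
        simp only [map_sub, map_mul, map_add, map_pow, map_intCast, hev0]
      have hsy : ev (sy m n (X 0)) = sy m n (nu m n r) := by
        unfold sy rho
        simp only [map_sub, map_mul, map_add, map_pow, map_intCast, hev0]
      have hsz : ev (sz m n (X 0)) = sz m n (nu m n r) := by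
        unfold sz rho
        simp only [map_sub, map_mul, map_add, map_pow, map_intCast, hev0]
      obtain ⟨P3, hP3⟩ : ∃ P3 : A2, ev P3 =
          (ca m n (nu m n r) * cb m n (nu m n r) * mu m n r ^ 2 + 1) * sz m n (nu m n r) :=
        ⟨(ca m n (X 0) * cb m n (X 0) * X 1 ^ 2 + 1) * sz m n (X 0), by
          rw [map_mul, map_add, map_mul, map_mul, map_pow, map_one, hca, hcb, hsz, hev1]⟩
      obtain ⟨P1, hP1⟩ : ∃ P1 : A2, ev P1 =
          (ca m n (nu m n r) * cb m n (nu m n r) * mu m n r ^ 2 - 1) * sx m n (nu m n r)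
            - 2 * cb m n (nu m n r) * mu m n r * sy m n (nu m n r) :=
        ⟨(ca m n (X 0) * cb m n (X 0) * X 1 ^ 2 - 1) * sx m n (X 0)
          - 2 * cb m n (X 0) * X 1 * sy m n (X 0), by
          simp only [map_sub, map_mul, map_pow, map_one, map_ofNat, hca, hcb, hsx, hsy, hev1]⟩
      obtain ⟨P2, hP2⟩ : ∃ P2 : A2, ev P2 =
          (ca m n (nu m n r) * cb m n (nu m n r) * mu m n r ^ 2 - 1) * sy m n (nu m n r)
            + 2 * ca m n (nu m n r) * mu m n r * sx m n (nu m n r) :=
        ⟨(ca m n (X 0) * cb m n (X 0) * X 1 ^ 2 - 1) * sy m n (X 0)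
          + 2 * ca m n (X 0) * X 1 * sx m n (X 0), by
          simp only [map_sub, map_add, map_mul, map_pow, map_one, map_ofNat, hca, hcb, hsx, hsy,
            hev1]⟩
      have hTO : tT m n (nu m n r) (algebraMap A2 L (X 0)) (algebraMap A2 L (X 1)) ∈ O := by
        unfold tT
        rw [← hca, ← hcb, ← hcc, ← hsx, ← hsy, ← hsz]
        have hX : ∀ a : A2, algebraMap A2 L a ∈ O := fun a =>
          (O.valuation_le_one_iff _).1 (hO.le_one a)
        exact O.add_mem _ _ (O.add_mem _ _ (O.mul_mem _ _ (O.mul_mem _ _ (hle _) (hle _)) (hX _))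
          (O.mul_mem _ _ (O.mul_mem _ _ (hle _) (hle _)) (hX _))) (O.mul_mem _ _ (hle _) (hle _))
      have hP3v : O.valuation (ev P3) = 1 := by
        refine le_antisymm (hval P3) (not_lt.1 ?_)
        intro hlt
        have h6 := hmul1 _ _ hlt ((O.valuation_le_one_iff _).2 hTO)
        rw [hP3, h3, map_mul, map_mul, map_pow, hval2, hv3, hv4] at h6
        simp at h6
      have hP30 : ψ1a P3 ≠ 0 := by
        intro h
        rw [hk1, hP3v] at h
        exact lt_irrefl _ h
      have hX0 : ψ2a (X 0) * ψ1a P3 = ψ1a P1 := by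
        have h6 : algO (X 0) * evO P3 = evO P1 := by
          apply Subtype.ext
          change algebraMap A2 L (X 0) * ev P3 = ev P1
          rw [hP3, hP1, h4]
        change IsLocalRing.residue O (algO (X 0)) * IsLocalRing.residue O (evO P3) =
          IsLocalRing.residue O (evO P1)
        rw [← map_mul, h6]
      have hX1 : ψ2a (X 1) * ψ1a P3 = ψ1a P2 := by
        have h6 : algO (X 1) * evO P3 = evO P2 := by
          apply Subtype.ext
          change algebraMap A2 L (X 1) * ev P3 = ev P2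
          rw [hP3, hP2, h5]
        change IsLocalRing.residue O (algO (X 1)) * IsLocalRing.residue O (evO P3) =
          IsLocalRing.residue O (evO P2)
        rw [← map_mul, h6]
      refine SpCenter_notalg ψ2a f hf ?_ ?_
      · intro a ha
        by_contra hna
        rw [hk2, hO.eq_one a hna] at ha
        exact lt_irrefl _ ha
      · intro i
        fin_cases i
        · change IsAlgebraic ℚ (ψ2a (X 0))
          rw [eq_div_of_mul_eq hP30 hX0, div_eq_mul_inv]
          exact (halg P1).mul (halg P3).inv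
        · change IsAlgebraic ℚ (ψ2a (X 1))
          rw [eq_div_of_mul_eq hP30 hX1, div_eq_mul_inv]
          exact (halg P2).mul (halg P3).inv
    · rintro ⟨g, rfl⟩
      rw [map_mul]
      have h1 : O.valuation (ev φ) < 1 := (hk1 φ).1 (RingHom.mem_ker.1 hφmem)
      exact hmul1 _ _ h1 (hval g)
  refine ⟨φ, hφ, hdvd, ?_⟩
  have heq1 : ∀ q : A2, ¬ φ ∣ q → O.valuation (ev q) = 1 := by
    intro q hq
    refine le_antisymm (hval q) (not_lt.1 ?_)
    intro h
    exact hq ((hdvd q).1 h)
  intro z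
  constructor
  · intro hz
    obtain ⟨p, q, hq, hpq⟩ := hfrac z
    obtain ⟨q', p', c, hrel, hcq, hcp⟩ :=
      UniqueFactorizationMonoid.exists_reduced_factors q hq p
    have hc0 : ev c ≠ 0 := by
      intro h
      apply hq
      rw [← hcq, hinj (h.trans (map_zero ev).symm), zero_mul]
    have h1 : z * ev q' = ev p' := by
      apply mul_left_cancel₀ hc0
      rw [← map_mul, hcp, ← hpq, ← hcq, map_mul]
      ring
    refine ⟨p', q', ?_, h1⟩
    intro hdiv
    have h2 : O.valuation (ev q') < 1 := (hdvd q').2 hdiv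
    have h3' : O.valuation (ev p') < 1 := by
      rw [← h1, mul_comm]
      exact hmul1 _ _ h2 hz
    exact hφ.not_isUnit (hrel hdiv ((hdvd p').1 h3'))
  · rintro ⟨p, q, hq, hpq⟩
    have h1 : O.valuation (z * ev q) ≤ 1 := by
      rw [hpq]
      exact hval p
    rw [map_mul, heq1 q hq, mul_one] at h1
    exact h1

end Pool.Agent.Helper8.XS
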