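import Pool.Agent.Helper8.XS.SpIdent
import Pool.Agent.Helper8.XS.QuadBasics

set_option autoImplicit false

/-! XS-18: the generators `ν`, `μ` of the function field of `r^2 = F` -/

open scoped TensorProduct
open MvPolynomial

namespace Pool.Agent.Helper8.XS

open Pool.Agent.Helper8.BR Pool.Agent.Helper8.DP2

/-- `ν` -/
noncomputable def nu (m n : ℤ) {L : Type} [Field L] [Algebra A2 L] (r : L) : L :=
  (((m : L) ^ 2 + n ^ 2) * r - qQ m n (algebraMap A2 L (X 0)) (algebraMap A2 L (X 1)) 1) /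
    (2 * qN m n (algebraMap A2 L (X 0)) (algebraMap A2 L (X 1)))

/-- `μ` -/
noncomputable def mu (m n : ℤ) {L : Type} [Field L] [Algebra A2 L] (r : L) : L :=
  (sy m n (nu m n r) * algebraMap A2 L (X 0) - sx m n (nu m n r) * algebraMap A2 L (X 1)) /
    tT m n (nu m n r) (algebraMap A2 L (X 0)) (algebraMap A2 L (X 1))

private theorem spg_consts {m n : ℤ} (hb : bad m n ≠ 0) :
    m ≠ 0 ∧ n ≠ 0 ∧ m - n ≠ 0 ∧ m ^ 2 + n ^ 2 ≠ 0 ∧ (kap m n : ℤ) ≠ 0 ∧
      m ^ 2 - m * n + n ^ 2 ≠ 0 := by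
  unfold bad at hb
  simp only [ne_eq, mul_eq_zero, not_or] at hb
  obtain ⟨⟨⟨⟨⟨_, hm⟩, hn⟩, hmn⟩, hs⟩, hk⟩ := hb
  refine ⟨hm, hn, ?_, hs, hk, ?_⟩
  · intro h
    apply hmn
    have : m ^ 2 - n ^ 2 = (m - n) * (m + n) := by ring
    rw [this, h, zero_mul]
  · intro h
    apply hk
    have : (kap m n : ℤ) = (m ^ 2 - m * n + n ^ 2) * (m ^ 2 + m * n + n ^ 2) := by
      unfold kap
      push_cast
      ring
    rw [this, h, zero_mul]

section

variable {m n : ℤ} {K L : Type} [Field K] [Field L] [CharZero L]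
    [Algebra K L] [Algebra A2 K] [Algebra A2 L] {r : L} {σ : L ≃+* L}

private theorem spg_inj (G : Gen m n 1 K L r σ) : Function.Injective (algebraMap A2 L) := by
  have := G.frac
  have := G.tower
  rw [IsScalarTower.algebraMap_eq A2 K L]
  exact (algebraMap K L).injective.comp (IsFractionRing.injective A2 K)

private theorem spg_ne (G : Gen m n 1 K L r σ) {p : A2} (hp : p ≠ 0) : algebraMap A2 L p ≠ 0 := by
  intro h
  exact hp (spg_inj G (by rw [h, map_zero]))

private theorem spg_qN (hb : bad m n ≠ 0) (G : Gen m n 1 K L r σ) :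
    qN m n (algebraMap A2 L (X 0)) (algebraMap A2 L (X 1)) ≠ 0 := by
  obtain ⟨hm, hn, hmn, hs, hk, hr⟩ := spg_consts hb
  have h1 : qN m n (algebraMap A2 L (X 0)) (algebraMap A2 L (X 1)) =
      algebraMap A2 L (qN m n (X 0) (X 1)) := by
    simp [qN]
  rw [h1]
  apply spg_ne G
  intro h
  have h2 := congrArg (eval ![(1 : ℚ), 0]) h
  simp [qN] at h2
  exact hm h2

private theorem spg_r (hb : bad m n ≠ 0) (G : Gen m n 1 K L r σ) :
    r ^ 2 = F m n (algebraMap A2 L (X 0)) (algebraMap A2 L (X 1)) 1 := by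
  rw [G.sq, ← map_one (algebraMap A2 L), F_map, F0]
  simp

private theorem spg_conic (hb : bad m n ≠ 0) (G : Gen m n 1 K L r σ) :
    ca m n (nu m n r) * algebraMap A2 L (X 0) ^ 2 + cb m n (nu m n r) * algebraMap A2 L (X 1) ^ 2
      + cc m n (nu m n r) = 0 := by
  have hN := spg_qN hb G
  have hr := spg_r hb G
  have h1 := conic_factor m n (nu m n r) (algebraMap A2 L (X 0)) (algebraMap A2 L (X 1)) 1
  have h2 : nu m n r * (2 * qN m n (algebraMap A2 L (X 0)) (algebraMap A2 L (X 1))) =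
      ((m : L) ^ 2 + n ^ 2) * r - qQ m n (algebraMap A2 L (X 0)) (algebraMap A2 L (X 1)) 1 := by
    unfold nu
    exact div_mul_cancel₀ _ (mul_ne_zero two_ne_zero hN)
  rw [← hr] at h1
  have h3 : 4 * qN m n (algebraMap A2 L (X 0)) (algebraMap A2 L (X 1)) *
      (ca m n (nu m n r) * algebraMap A2 L (X 0) ^ 2 + cb m n (nu m n r) * algebraMap A2 L (X 1) ^ 2
      + cc m n (nu m n r)) = 0 := by
    have h4 : qQ m n (algebraMap A2 L (X 0)) (algebraMap A2 L (X 1)) 1 +
        2 * nu m n r * qN m n (algebraMap A2 L (X 0)) (algebraMap A2 L (X 1)) =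
        ((m : L) ^ 2 + n ^ 2) * r := by linear_combination h2
    rw [h4] at h1
    linear_combination h1
  exact (mul_eq_zero.1 h3).resolve_left (mul_ne_zero (by norm_num) hN)

private theorem spg_cast (G : Gen m n 1 K L r σ) (q : ℚ) : algebraMap A2 L (C q) = (q : L) :=
  eq_ratCast ((algebraMap A2 L).comp C) q

private theorem spg_nu (hb : bad m n ≠ 0) (G : Gen m n 1 K L r σ) (q : ℚ) :
    nu m n r ≠ (q : L) := by
  obtain ⟨hm, hn, hmn, hs, hk, hr⟩ := spg_consts hb
  intro h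
  have h1 := spg_conic hb G
  rw [h, ← spg_cast G q] at h1
  have h2 : algebraMap A2 L (ca m n (C q) * X 0 ^ 2 + cb m n (C q) * X 1 ^ 2 + cc m n (C q)) = 0 := by
    rw [← h1]
    simp [ca, cb, cc, kap]
  have h3 : (ca m n (C q) * X 0 ^ 2 + cb m n (C q) * X 1 ^ 2 + cc m n (C q) : A2) = 0 :=
    spg_inj G (by rw [h2, map_zero])
  have h4 := congrArg (eval ![(0 : ℚ), 0]) h3
  have h5 := congrArg (eval ![(1 : ℚ), 0]) h3
  have h6 : ((m : ℚ) ^ 2 + n ^ 2) ≠ 0 := by exact_mod_cast hs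
  simp only [map_add, map_mul, map_pow, eval_X, eval_C, Matrix.cons_val_zero,
    Matrix.cons_val_one, ca, cb, cc, kap, map_sub, map_neg, map_intCast, map_zero] at h4 h5
  have h7 : ((m : ℚ) ^ 2 + n ^ 2) ^ 2 * q = 0 := by linear_combination h4
  have h8 : q = 0 := (mul_eq_zero.1 h7).resolve_left (pow_ne_zero 2 h6)
  rw [h8] at h5
  have h9 : ((m : ℚ) ^ 4 + (m : ℚ) ^ 2 * (n : ℚ) ^ 2 + (n : ℚ) ^ 4) * (n : ℚ) ^ 2 = 0 := by
    linear_combination (-1 : ℚ) * h5
  have h10 : ((m : ℚ) ^ 4 + (m : ℚ) ^ 2 * (n : ℚ) ^ 2 + (n : ℚ) ^ 4) ≠ 0 := by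
    have : (kap m n : ℤ) = m ^ 4 + m ^ 2 * n ^ 2 + n ^ 4 := by unfold kap; push_cast; ring
    rw [this] at hk
    exact_mod_cast hk
  exact (mul_ne_zero h10 (pow_ne_zero 2 (by exact_mod_cast hn))) h9

private theorem spg_units (hb : bad m n ≠ 0) (G : Gen m n 1 K L r σ) :
    ca m n (nu m n r) ≠ 0 ∧ cb m n (nu m n r) ≠ 0 ∧ cc m n (nu m n r) ≠ 0 ∧
      sz m n (nu m n r) ≠ 0 := by
  obtain ⟨hm, hn, hmn, hs, hk, hr⟩ := spg_consts hb
  have hm' : (m : L) ≠ 0 := by exact_mod_cast hm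
  have hn' : (n : L) ≠ 0 := by exact_mod_cast hn
  have hmn' : (m : L) - n ≠ 0 := by exact_mod_cast hmn
  have hs' : (m : L) ^ 2 + (n : L) ^ 2 ≠ 0 := by exact_mod_cast hs
  refine ⟨?_, ?_, ?_, ?_⟩
  · unfold ca
    apply mul_ne_zero
    · intro h
      apply spg_nu hb G (kap m n / (m : ℚ) ^ 2)
      unfold kap at h ⊢
      push_cast
      rw [eq_div_iff (pow_ne_zero 2 hm')]
      linear_combination h
    · intro h
      apply spg_nu hb G (-(n : ℚ) ^ 2)
      push_cast
      linear_combination h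
  · unfold cb
    rw [neg_ne_zero]
    apply mul_ne_zero
    · intro h
      apply spg_nu hb G ((m : ℚ) ^ 2)
      push_cast
      linear_combination h
    · intro h
      apply spg_nu hb G (-(kap m n / (n : ℚ) ^ 2))
      unfold kap at h ⊢
      push_cast
      rw [← neg_div, eq_div_iff (pow_ne_zero 2 hn')]
      linear_combination h
  · unfold cc
    apply mul_ne_zero (pow_ne_zero 2 hs')
    intro h
    apply spg_nu hb G 0
    rw [h]; simp
  · unfold sz
    intro h
    apply spg_nu hb G (rho m n * ((m : ℚ) + n) / ((m : ℚ) - n))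
    unfold rho at h ⊢
    push_cast
    rw [eq_div_iff hmn']
    linear_combination h

private theorem spg_T (hb : bad m n ≠ 0) (G : Gen m n 1 K L r σ) :
    tT m n (nu m n r) (algebraMap A2 L (X 0)) (algebraMap A2 L (X 1)) ≠ 0 := by
  obtain ⟨hm, hn, hmn, hs, hk, hr⟩ := spg_consts hb
  obtain ⟨ha0, hb0, hc0, hz0⟩ := spg_units hb G
  have h1 := spg_conic hb G
  have h2 := section_conic m n (nu m n r)
  have h11 : (algebraMap A2 L (X 0)) + (algebraMap A2 L (X 1)) + 1 ≠ 0 := by
    have : (algebraMap A2 L (X 0)) + (algebraMap A2 L (X 1)) + 1 =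
      algebraMap A2 L (X 0 + X 1 + 1) := by simp
    rw [this]
    apply spg_ne G
    intro h
    have := congrArg (eval ![(0 : ℚ), 0]) h
    simp at this
  have hsum : sx m n (nu m n r) + sy m n (nu m n r) + sz m n (nu m n r) = 0 := by
    unfold sx sy sz; ring
  unfold tT
  generalize ca m n (nu m n r) = a at *
  generalize cb m n (nu m n r) = b at *
  generalize cc m n (nu m n r) = c at *
  generalize sx m n (nu m n r) = U at *
  generalize sy m n (nu m n r) = V at *
  generalize sz m n (nu m n r) = W at *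
  generalize (algebraMap A2 L (X 0)) = x at *
  generalize (algebraMap A2 L (X 1)) = y at *
  intro hT
  -- `a b D² = T (2 c Z - T) = 0`
  have hD2 : a * b * (V * x - U * y) ^ 2 = 0 := by
    linear_combination (a * U ^ 2 + b * V ^ 2) * h1 - c * h2 +
      (2 * c * W - (a * U * x + b * V * y + c * W)) * hT
  have hD : V * x = U * y := by
    have := (mul_eq_zero.1 hD2).resolve_left (mul_ne_zero ha0 hb0)
    have := pow_eq_zero_iff (two_ne_zero) |>.1 this
    linear_combination this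
  -- multiply `T = 0` by `W`, using the conic of the section
  have e1 : c * W * W * (x + y + 1) = 0 := by
    linear_combination c * W * hsum - (U + V) * hT + (x + y) * h2 - (b * V - a * U) * hD
  exact (mul_ne_zero (mul_ne_zero (mul_ne_zero hc0 hz0) hz0) h11) e1

private theorem spg_mem_sub (E : Subfield L) (G : Gen m n 1 K L r σ)
    (hx : algebraMap A2 L (X 0) ∈ E) (hy : algebraMap A2 L (X 1) ∈ E) (hr : r ∈ E) (z : L) :
    z ∈ E := by
  have hA : ∀ p : A2, algebraMap A2 L p ∈ E := by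
    intro p
    induction p using MvPolynomial.induction_on with
    | C q =>
      rw [spg_cast G q]
      exact SubfieldClass.ratCast_mem E q
    | add p q hp hq => rw [map_add]; exact E.add_mem hp hq
    | mul_X p i hp =>
      rw [map_mul]
      apply E.mul_mem hp
      fin_cases i
      · exact hx
      · exact hy
  have := G.frac
  have := G.tower
  have hK : ∀ a : K, algebraMap K L a ∈ E := by
    intro a
    obtain ⟨p, q, _, rfl⟩ := IsFractionRing.div_surjective (A := A2) a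
    rw [map_div₀, ← IsScalarTower.algebraMap_apply, ← IsScalarTower.algebraMap_apply]
    exact E.div_mem (hA p) (hA q)
  obtain ⟨a, b, rfl⟩ := G.quad.gen z
  exact E.add_mem (hK a) (E.mul_mem (hK b) hr)

/-- Every element is a quotient of polynomials in `ν`, `μ` with nonzero denominator. -/
private theorem spg_frac (hb : bad m n ≠ 0) (G : Gen m n 1 K L r σ) (z : L) :
    ∃ p q : A2, (aeval ![nu m n r, mu m n r] : A2 →ₐ[ℚ] L) q ≠ 0 ∧
      z * (aeval ![nu m n r, mu m n r] : A2 →ₐ[ℚ] L) q =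
      (aeval ![nu m n r, mu m n r] : A2 →ₐ[ℚ] L) p := by
  set ev := (aeval ![nu m n r, mu m n r] : A2 →ₐ[ℚ] L) with hev
  let E : Subfield L := Subfield.closure ((ev.toRingHom.range : Subring L) : Set L)
  have hsub : ∀ p : A2, ev p ∈ E := fun p => Subfield.subset_closure ⟨p, rfl⟩
  have hnu : nu m n r ∈ E := by
    have := hsub (X 0)
    rwa [hev, aeval_X] at this
  have hmu : mu m n r ∈ E := by
    have := hsub (X 1)
    rwa [hev, aeval_X] at this
  have hint : ∀ k : ℤ, (k : L) ∈ E := fun k => E.intCast_mem k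
  obtain ⟨ha0, hb0, hc0, hz0⟩ := spg_units hb G
  obtain ⟨hm, hn, hmn, hs, hk, hrr⟩ := spg_consts hb
  have hs' : (m : L) ^ 2 + (n : L) ^ 2 ≠ 0 := by exact_mod_cast hs
  obtain ⟨i1, i2, i3, i4, i5, i6⟩ := sp_ident L hs' _ _ r (nu m n r) (mu m n r) (spg_r hb G)
    (spg_qN hb G) rfl (spg_T hb G) rfl
  have hk' : (kap m n : L) ∈ E := by
    unfold kap
    exact E.add_mem (E.add_mem (E.pow_mem (hint m) 4) (E.mul_mem (E.pow_mem (hint m) 2)
      (E.pow_mem (hint n) 2))) (E.pow_mem (hint n) 4)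
  have hrho : (rho m n : L) ∈ E := by
    unfold rho
    exact E.add_mem (E.sub_mem (E.pow_mem (hint m) 2) (E.mul_mem (hint m) (hint n)))
      (E.pow_mem (hint n) 2)
  have hca : ca m n (nu m n r) ∈ E := by
    unfold ca
    exact E.mul_mem (E.sub_mem (E.mul_mem (E.pow_mem (hint m) 2) hnu) hk')
      (E.add_mem hnu (E.pow_mem (hint n) 2))
  have hcb : cb m n (nu m n r) ∈ E := by
    unfold cb
    exact E.neg_mem (E.mul_mem (E.sub_mem hnu (E.pow_mem (hint m) 2))
      (E.add_mem (E.mul_mem (E.pow_mem (hint n) 2) hnu) hk'))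
  have hsx : sx m n (nu m n r) ∈ E := by
    unfold sx
    exact E.add_mem (E.mul_mem (hint n) hnu) (E.mul_mem hrho (hint m))
  have hsy : sy m n (nu m n r) ∈ E := by
    unfold sy
    exact E.sub_mem (E.mul_mem hrho (hint n)) (E.mul_mem (hint m) hnu)
  have hsz : sz m n (nu m n r) ∈ E := by
    unfold sz
    exact E.sub_mem (E.mul_mem (E.sub_mem (hint m) (hint n)) hnu)
      (E.mul_mem hrho (E.add_mem (hint m) (hint n)))
  have h1 : (1 : L) ∈ E := E.one_mem
  have h2 : (2 : L) ∈ E := by exact_mod_cast hint 2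
  have hX3 : (ca m n (nu m n r) * cb m n (nu m n r) * mu m n r ^ 2 + 1) * sz m n (nu m n r) ∈ E :=
    E.mul_mem (E.add_mem (E.mul_mem (E.mul_mem hca hcb) (E.pow_mem hmu 2)) h1) hsz
  have hX3' : (ca m n (nu m n r) * cb m n (nu m n r) * mu m n r ^ 2 + 1) * sz m n (nu m n r) ≠
      0 := by
    intro h
    rw [h, zero_mul] at i3
    exact (mul_ne_zero (mul_ne_zero two_ne_zero hc0) (pow_ne_zero 2 hz0)) i3.symm
  have hm1 : ca m n (nu m n r) * cb m n (nu m n r) * mu m n r ^ 2 - 1 ∈ E :=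
    E.sub_mem (E.mul_mem (E.mul_mem hca hcb) (E.pow_mem hmu 2)) h1
  have hx : algebraMap A2 L (X 0) ∈ E := by
    have : algebraMap A2 L (X 0) = ((ca m n (nu m n r) * cb m n (nu m n r) * mu m n r ^ 2 - 1) *
        sx m n (nu m n r) - 2 * cb m n (nu m n r) * mu m n r * sy m n (nu m n r)) /
        ((ca m n (nu m n r) * cb m n (nu m n r) * mu m n r ^ 2 + 1) * sz m n (nu m n r)) := by
      rw [eq_div_iff hX3', i4]
    rw [this]
    exact E.div_mem (E.sub_mem (E.mul_mem hm1 hsx)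
      (E.mul_mem (E.mul_mem (E.mul_mem h2 hcb) hmu) hsy)) hX3
  have hy : algebraMap A2 L (X 1) ∈ E := by
    have : algebraMap A2 L (X 1) = ((ca m n (nu m n r) * cb m n (nu m n r) * mu m n r ^ 2 - 1) *
        sy m n (nu m n r) + 2 * ca m n (nu m n r) * mu m n r * sx m n (nu m n r)) /
        ((ca m n (nu m n r) * cb m n (nu m n r) * mu m n r ^ 2 + 1) * sz m n (nu m n r)) := by
      rw [eq_div_iff hX3', i5]
    rw [this]
    exact E.div_mem (E.add_mem (E.mul_mem hm1 hsy)
      (E.mul_mem (E.mul_mem (E.mul_mem h2 hca) hmu) hsx)) hX3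
  have hr : r ∈ E := by
    have : r = (qQ m n (algebraMap A2 L (X 0)) (algebraMap A2 L (X 1)) 1 +
        2 * nu m n r * qN m n (algebraMap A2 L (X 0)) (algebraMap A2 L (X 1))) /
        ((m : L) ^ 2 + (n : L) ^ 2) := by
      rw [eq_div_iff hs', ← i6]; ring
    rw [this]
    apply E.div_mem _ (E.add_mem (E.pow_mem (hint m) 2) (E.pow_mem (hint n) 2))
    apply E.add_mem
    · unfold qQ
      exact E.sub_mem (E.mul_mem (E.pow_mem (E.add_mem (E.pow_mem (hint m) 2)
        (E.pow_mem (hint n) 2)) 2) (E.pow_mem h1 2)) (E.mul_mem (E.add_mem (E.pow_mem (hint m) 4)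
        (E.pow_mem (hint n) 4)) (E.add_mem (E.pow_mem hx 2) (E.pow_mem hy 2)))
    · apply E.mul_mem (E.mul_mem h2 hnu)
      unfold qN
      exact E.sub_mem (E.mul_mem (E.pow_mem (hint m) 2) (E.pow_mem hx 2))
        (E.mul_mem (E.pow_mem (hint n) 2) (E.pow_mem hy 2))
  have hz := spg_mem_sub E G hx hy hr z
  rw [Subfield.mem_closure_iff] at hz
  obtain ⟨y, hy', w, hw', hyw⟩ := hz
  rw [Subring.closure_eq] at hy' hw'
  obtain ⟨p, rfl⟩ := hy'
  obtain ⟨q, rfl⟩ := hw'
  by_cases hq : ev q = 0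
  · refine ⟨0, 1, ?_, ?_⟩
    · rw [map_one]; exact one_ne_zero
    · have : z = 0 := by
        rw [← hyw]
        change ev p / ev q = 0
        rw [hq, div_zero]
      rw [this, map_zero, zero_mul]
  · refine ⟨p, q, hq, ?_⟩
    rw [← hyw]
    change ev p / ev q * ev q = ev p
    exact div_mul_cancel₀ _ hq

end

theorem gen_ne {m n : ℤ} (hb : bad m n ≠ 0) {K L : Type} [Field K] [Field L] [CharZero L]
    [Algebra K L] [Algebra A2 K] [Algebra A2 L] {r : L} {σ : L ≃+* L}
    (G : Gen m n 1 K L r σ) :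
    qN m n (algebraMap A2 L (X 0)) (algebraMap A2 L (X 1)) ≠ 0 ∧
      tT m n (nu m n r) (algebraMap A2 L (X 0)) (algebraMap A2 L (X 1)) ≠ 0 :=
  ⟨spg_qN hb G, spg_T hb G⟩

theorem gen_inj {m n : ℤ} (hb : bad m n ≠ 0) {K L : Type} [Field K] [Field L] [CharZero L]
    [Algebra K L] [Algebra A2 K] [Algebra A2 L] {r : L} {σ : L ≃+* L}
    (G : Gen m n 1 K L r σ) :
    Function.Injective (aeval ![nu m n r, mu m n r] : A2 →ₐ[ℚ] L) := by
  have hxy : AlgebraicIndependent ℚ ![algebraMap A2 L (X 0), algebraMap A2 L (X 1)] := by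
    rw [algebraicIndependent_iff_injective_aeval]
    have h1 : ∀ p : A2, aeval ![algebraMap A2 L (X 0), algebraMap A2 L (X 1)] p =
        algebraMap A2 L p := by
      intro p
      induction p using MvPolynomial.induction_on with
      | C q =>
        rw [spg_cast G q, aeval_C]
        exact eq_ratCast (algebraMap ℚ L) q
      | add p q hp hq => rw [map_add, map_add, hp, hq]
      | mul_X p i hp =>
        rw [map_mul, map_mul, hp, aeval_X]
        fin_cases i <;> rfl
    intro p q hpq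
    rw [h1, h1] at hpq
    exact spg_inj G hpq
  have htr := hxy.cardinalMk_le_trdeg
  have halg : Algebra.IsAlgebraic (Algebra.adjoin ℚ (Set.range ![nu m n r, mu m n r])) L := by
    constructor
    intro z
    obtain ⟨p, q, hq, hpq⟩ := spg_frac hb G z
    have hmem : ∀ p : A2, (aeval ![nu m n r, mu m n r] : A2 →ₐ[ℚ] L) p ∈
        Algebra.adjoin ℚ (Set.range ![nu m n r, mu m n r]) := by
      intro p
      rw [Algebra.adjoin_range_eq_range_aeval]
      exact ⟨p, rfl⟩
    let a : Algebra.adjoin ℚ (Set.range ![nu m n r, mu m n r]) := ⟨_, hmem q⟩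
    let b : Algebra.adjoin ℚ (Set.range ![nu m n r, mu m n r]) := ⟨_, hmem p⟩
    have ha : a ≠ 0 := fun h => hq (congrArg Subtype.val h)
    refine ⟨Polynomial.C a * Polynomial.X - Polynomial.C b, ?_, ?_⟩
    · intro h
      have h2 := congrArg (fun f => Polynomial.coeff f 1) h
      simp at h2
      exact ha h2
    · rw [map_sub, map_mul, Polynomial.aeval_C, Polynomial.aeval_C, Polynomial.aeval_X]
      change (aeval ![nu m n r, mu m n r] : A2 →ₐ[ℚ] L) q * z -
        (aeval ![nu m n r, mu m n r] : A2 →ₐ[ℚ] L) p = 0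
      rw [← hpq]; ring
  have hb' := Algebra.IsAlgebraic.isTranscendenceBasis_of_le_trdeg_of_finite ℚ
    ![nu m n r, mu m n r] htr
  exact algebraicIndependent_iff_injective_aeval.1 hb'.1

theorem gen_frac {m n : ℤ} (hb : bad m n ≠ 0) {K L : Type} [Field K] [Field L] [CharZero L]
    [Algebra K L] [Algebra A2 K] [Algebra A2 L] {r : L} {σ : L ≃+* L}
    (G : Gen m n 1 K L r σ) (z : L) :
    ∃ p q : A2, q ≠ 0 ∧ z * (aeval ![nu m n r, mu m n r] : A2 →ₐ[ℚ] L) q =
      (aeval ![nu m n r, mu m n r] : A2 →ₐ[ℚ] L) p := by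
  obtain ⟨p, q, hq, hpq⟩ := spg_frac hb G z
  refine ⟨p, q, ?_, hpq⟩
  rintro rfl
  exact hq (map_zero _)

end Pool.Agent.Helper8.XS
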