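import Pool.Agent.Helper8.XS.Defs

set_option autoImplicit false

/-! XS-17: the birational parametrisation -/

open scoped TensorProduct
open MvPolynomial

namespace Pool.Agent.Helper8.XS

open Pool.Agent.Helper8.BR Pool.Agent.Helper8.DP2

/-- `T(S(v), P)` -/
def tT {R : Type} [CommRing R] (m n : ℤ) (v x y : R) : R :=
  ca m n v * sx m n v * x + cb m n v * sy m n v * y + cc m n v * sz m n v

theorem section_conic {R : Type} [CommRing R] (m n : ℤ) (v : R) :
    ca m n v * sx m n v ^ 2 + cb m n v * sy m n v ^ 2 + cc m n v * sz m n v ^ 2 = 0 := by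
  unfold ca cb cc sx sy sz rho kap
  ring

theorem conic_factor {R : Type} [CommRing R] (m n : ℤ) (v x y z : R) :
    ((m : R) ^ 2 + n ^ 2) ^ 2 * F m n x y z = (qQ m n x y z + 2 * v * qN m n x y) ^ 2
      - 4 * qN m n x y * (ca m n v * x ^ 2 + cb m n v * y ^ 2 + cc m n v * z ^ 2) := by
  unfold ca cb cc qQ qN F kap
  ring

private theorem chord_ident {L : Type} [Field L] (a b c X Y Z x y u : L)
    (hS : a * X ^ 2 + b * Y ^ 2 + c * Z ^ 2 = 0) (hP : a * x ^ 2 + b * y ^ 2 + c = 0)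
    (hT : a * X * x + b * Y * y + c * Z ≠ 0)
    (hu : u = (Y * x - X * y) / (a * X * x + b * Y * y + c * Z)) :
    a * b * (Y * x - X * y) ^ 2 =
      (a * X * x + b * Y * y + c * Z) * (2 * c * Z - (a * X * x + b * Y * y + c * Z)) ∧
    (a * b * u ^ 2 + 1) * Z * (a * X * x + b * Y * y + c * Z) = 2 * c * Z ^ 2 ∧
    (a * b * u ^ 2 - 1) * X - 2 * b * u * Y = x * ((a * b * u ^ 2 + 1) * Z) ∧
    (a * b * u ^ 2 - 1) * Y + 2 * a * u * X = y * ((a * b * u ^ 2 + 1) * Z) := by
  obtain ⟨T, hTdef⟩ : ∃ T, T = a * X * x + b * Y * y + c * Z := ⟨_, rfl⟩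
  rw [← hTdef] at hT hu ⊢
  have huT : u * T = Y * x - X * y := by
    rw [hu]; field_simp
  have h1 : a * b * (Y * x - X * y) ^ 2 = T * (2 * c * Z - T) := by
    rw [hTdef]
    linear_combination (a * x ^ 2 + b * y ^ 2) * hS - c * Z ^ 2 * hP
  have h2 : a * b * u ^ 2 * T = 2 * c * Z - T := by
    have h3 : T * (a * b * u ^ 2 * T) = T * (2 * c * Z - T) := by
      rw [← h1, ← huT]; ring
    exact mul_left_cancel₀ hT h3
  refine ⟨h1, ?_, ?_, ?_⟩
  · linear_combination Z * h2
  · apply mul_right_cancel₀ hT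
    have e1 : ((a * b * u ^ 2 - 1) * X - 2 * b * u * Y) * T =
        (2 * c * Z - T - T) * X - 2 * b * Y * (Y * x - X * y) := by
      rw [← huT]; linear_combination X * h2
    have e2 : x * ((a * b * u ^ 2 + 1) * Z) * T = 2 * c * Z ^ 2 * x := by
      linear_combination x * Z * h2
    rw [e1, e2, hTdef]
    linear_combination (-2 * x) * hS
  · apply mul_right_cancel₀ hT
    have e1 : ((a * b * u ^ 2 - 1) * Y + 2 * a * u * X) * T =
        (2 * c * Z - T - T) * Y + 2 * a * X * (Y * x - X * y) := by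
      rw [← huT]; linear_combination Y * h2
    have e2 : y * ((a * b * u ^ 2 + 1) * Z) * T = 2 * c * Z ^ 2 * y := by
      linear_combination y * Z * h2
    rw [e1, e2, hTdef]
    linear_combination (-2 * y) * hS

theorem sp_ident {m n : ℤ} (L : Type) [Field L] [CharZero L] (hs : (m : L) ^ 2 + n ^ 2 ≠ 0)
    (x y r v u : L) (hr : r ^ 2 = F m n x y 1) (hN : qN m n x y ≠ 0)
    (hv : v = (((m : L) ^ 2 + n ^ 2) * r - qQ m n x y 1) / (2 * qN m n x y))
    (hT : tT m n v x y ≠ 0)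
    (hu : u = (sy m n v * x - sx m n v * y) / tT m n v x y) :
    ca m n v * x ^ 2 + cb m n v * y ^ 2 + cc m n v = 0 ∧
    ca m n v * cb m n v * (sy m n v * x - sx m n v * y) ^ 2 =
      tT m n v x y * (2 * cc m n v * sz m n v - tT m n v x y) ∧
    (ca m n v * cb m n v * u ^ 2 + 1) * sz m n v * tT m n v x y =
      2 * cc m n v * sz m n v ^ 2 ∧
    (ca m n v * cb m n v * u ^ 2 - 1) * sx m n v - 2 * cb m n v * u * sy m n v =
      x * ((ca m n v * cb m n v * u ^ 2 + 1) * sz m n v) ∧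
    (ca m n v * cb m n v * u ^ 2 - 1) * sy m n v + 2 * ca m n v * u * sx m n v =
      y * ((ca m n v * cb m n v * u ^ 2 + 1) * sz m n v) ∧
    ((m : L) ^ 2 + n ^ 2) * r = qQ m n x y 1 + 2 * v * qN m n x y := by
  have h2N : 2 * qN m n x y ≠ 0 := mul_ne_zero two_ne_zero hN
  have h6 : ((m : L) ^ 2 + n ^ 2) * r = qQ m n x y 1 + 2 * v * qN m n x y := by
    rw [hv]; field_simp; ring
  have hP : ca m n v * x ^ 2 + cb m n v * y ^ 2 + cc m n v = 0 := by
    have h := conic_factor m n v x y 1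
    rw [← h6, ← hr] at h
    have h3 : 4 * qN m n x y * (ca m n v * x ^ 2 + cb m n v * y ^ 2 + cc m n v) = 0 := by
      linear_combination h
    rcases mul_eq_zero.1 h3 with h4 | h4
    · exact absurd h4 (mul_ne_zero (by norm_num) hN)
    · exact h4
  have hS := section_conic m n v
  obtain ⟨h1, h2, h3, h4⟩ := chord_ident (ca m n v) (cb m n v) (cc m n v) (sx m n v) (sy m n v)
    (sz m n v) x y u hS hP hT hu
  exact ⟨hP, h1, h2, h3, h4, h6⟩


end Pool.Agent.Helper8.XS
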