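import Pool.Agent.Helper8.XS.SpGen

set_option autoImplicit false

/-! XS-19 -/

open scoped TensorProduct
open MvPolynomial

namespace Pool.Agent.Helper8.XS

open Pool.Agent.Helper8.BR Pool.Agent.Helper8.DP2

/-- the product of the 13 lines and of the conic -/
noncomputable def special (m n : ℤ) : A2 := (∏ i, lines13 m n i) * conicZ m n

/-- `f` is the centre of `O` on `ℚ[a, b]` -/
structure Center {L : Type} [Field L] [Algebra A2 L] (f : A2) (O : ValuationSubring L) :
    Prop where
  le_one : ∀ a : A2, O.valuation (algebraMap A2 L a) ≤ 1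
  eq_one : ∀ a : A2, ¬ f ∣ a → O.valuation (algebraMap A2 L a) = 1
  f_lt : O.valuation (algebraMap A2 L f) < 1

private theorem spVal_alg {m n : ℤ} (hb : bad m n ≠ 0) {k : Type} [Field k] [CharZero k]
    (x y v : k) (hC : ca m n v * x ^ 2 + cb m n v * y ^ 2 + cc m n v = 0)
    (hlin : ∀ i, lin13 m n x y 1 i ≠ 0) (hcon : conZ m n x y 1 ≠ 0) :
    cc m n v ≠ 0 ∧ sz m n v ≠ 0 ∧ tT m n v x y ≠ 0 := by
  have hbk : ((bad m n : ℤ) : k) ≠ 0 := Int.cast_ne_zero.2 hb
  have hbad : ((bad m n : ℤ) : k) = 2 * m * n * ((m : k) ^ 2 - n ^ 2) * ((m : k) ^ 2 + n ^ 2) *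
      kap m n := by
    unfold bad kap
    push_cast
    ring
  rw [hbad] at hbk
  have hm : (m : k) ≠ 0 := fun h => hbk (by rw [h]; ring)
  have hn : (n : k) ≠ 0 := fun h => hbk (by rw [h]; ring)
  have hs : (m : k) ^ 2 + n ^ 2 ≠ 0 := fun h => hbk (by rw [h]; ring)
  have hk : (kap m n : k) ≠ 0 := fun h => hbk (by rw [h]; ring)
  have hmn : (m : k) - n ≠ 0 := fun h => hbk (by
    have : (m : k) ^ 2 - n ^ 2 = 0 := by linear_combination ((m : k) + n) * h
    rw [this]; ring)
  have l0 : (m : k) * x - n * y ≠ 0 := by simpa [lin13] using hlin 0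
  have l1 : (m : k) * x + n * y ≠ 0 := by simpa [lin13] using hlin 1
  have l2 : (n : k) * x - m * y ≠ 0 := by simpa [lin13] using hlin 2
  have l3 : (n : k) * x + m * y ≠ 0 := by simpa [lin13] using hlin 3
  have l4 : (m : k) * y - n ≠ 0 := by simpa [lin13] using hlin 4
  have l5 : (m : k) * y + n ≠ 0 := by simpa [lin13] using hlin 5
  have l6 : (n : k) * y - m ≠ 0 := by simpa [lin13] using hlin 6
  have l7 : (n : k) * y + m ≠ 0 := by simpa [lin13] using hlin 7
  have l8 : (m : k) - n * x ≠ 0 := by simpa [lin13] using hlin 8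
  have l9 : (m : k) + n * x ≠ 0 := by simpa [lin13] using hlin 9
  have l10 : (n : k) - m * x ≠ 0 := by simpa [lin13] using hlin 10
  have l11 : (n : k) + m * x ≠ 0 := by simpa [lin13] using hlin 11
  have l12 : x + y + 1 ≠ 0 := by simpa [lin13] using hlin 12
  have hca : ca m n v ≠ 0 := by
    intro h
    unfold ca at h
    rcases mul_eq_zero.1 h with h1 | h1
    · -- v = kap / m ^ 2
      have h2 : ((m : k) ^ 2 + n ^ 2) ^ 2 * kap m n * (((m : k) + n * y) * (m - n * y)) = 0 := by
        unfold ca cb cc at hC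
        unfold kap at h1 hC ⊢
        linear_combination (m : k) ^ 4 * hC - ((m : k) ^ 4 * (v + n ^ 2) * x ^ 2 -
          ((n : k) ^ 2 * (m ^ 2 * v) + m ^ 2 * (m ^ 4 + m ^ 2 * n ^ 2 + n ^ 4) +
            n ^ 2 * (m ^ 2 * n ^ 2 + n ^ 4)) * y ^ 2 + ((m : k) ^ 2 + n ^ 2) ^ 2 * m ^ 2) * h1
      rcases mul_eq_zero.1 h2 with h3 | h3
      · exact (mul_ne_zero (pow_ne_zero 2 hs) hk) h3
      · rcases mul_eq_zero.1 h3 with h4 | h4
        · exact l7 (by linear_combination h4)
        · exact l6 (by linear_combination -h4)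
    · -- v = - n ^ 2
      have h3 : v = -(n : k) ^ 2 := by linear_combination h1
      rw [h3] at hC
      have h2 : ((m : k) ^ 2 + n ^ 2) ^ 2 * ((m * y - n) * (m * y + n)) = 0 := by
        rw [← hC]
        unfold ca cb cc kap
        ring
      rcases mul_eq_zero.1 h2 with h3 | h3
      · exact pow_ne_zero 2 hs h3
      · rcases mul_eq_zero.1 h3 with h4 | h4
        · exact l4 h4
        · exact l5 h4
  have hcb : cb m n v ≠ 0 := by
    intro h
    unfold cb at h
    rcases mul_eq_zero.1 (neg_eq_zero.1 h) with h1 | h1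
    · -- v = m ^ 2
      have h3 : v = (m : k) ^ 2 := by linear_combination h1
      rw [h3] at hC
      have h2 : ((m : k) ^ 2 + n ^ 2) ^ 2 * ((m - n * x) * (m + n * x)) = 0 := by
        rw [← hC]
        unfold ca cb cc kap
        ring
      rcases mul_eq_zero.1 h2 with h3 | h3
      · exact pow_ne_zero 2 hs h3
      · rcases mul_eq_zero.1 h3 with h4 | h4
        · exact l8 h4
        · exact l9 h4
    · -- v = - kap / n ^ 2
      have h2 : ((m : k) ^ 2 + n ^ 2) ^ 2 * kap m n * (((n : k) - m * x) * (n + m * x)) = 0 := by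
        unfold ca cb cc at hC
        unfold kap at h1 hC ⊢
        linear_combination -(n : k) ^ 4 * hC + (((m : k) ^ 2 * (n ^ 2 * v + n ^ 4) -
          (m ^ 2 + n ^ 2) * (m ^ 4 + m ^ 2 * n ^ 2 + n ^ 4)) * x ^ 2 -
          (n : k) ^ 4 * (v - m ^ 2) * y ^ 2 + n ^ 2 * ((m : k) ^ 2 + n ^ 2) ^ 2) * h1
      rcases mul_eq_zero.1 h2 with h3 | h3
      · exact (mul_ne_zero (pow_ne_zero 2 hs) hk) h3
      · rcases mul_eq_zero.1 h3 with h4 | h4
        · exact l10 h4
        · exact l11 h4
  have hcc : cc m n v ≠ 0 := by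
    intro h
    unfold cc at h
    rcases mul_eq_zero.1 h with h1 | h1
    · exact pow_ne_zero 2 hs h1
    · rw [h1] at hC
      have h2 : kap m n * (((n : k) * x - m * y) * (n * x + m * y)) = 0 := by
        unfold ca cb cc kap at hC
        unfold kap
        linear_combination -hC
      rcases mul_eq_zero.1 h2 with h3 | h3
      · exact hk h3
      · rcases mul_eq_zero.1 h3 with h4 | h4
        · exact l2 h4
        · exact l3 h4
  have hsz : sz m n v ≠ 0 := by
    intro h
    apply hcon
    unfold sz at h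
    unfold conZ
    unfold ca cb cc at hC
    have h1 : rho m n * ((m : k) + n) = (m - n) * v := by linear_combination -h
    rw [h1]
    linear_combination ((m : k) - n) ^ 2 * hC
  refine ⟨hcc, hsz, ?_⟩
  intro hT
  have hsec := section_conic (R := k) m n v
  have hid : ca m n v * cb m n v * (sy m n v * x - sx m n v * y) ^ 2 =
      tT m n v x y * (2 * cc m n v * sz m n v - tT m n v x y) := by
    unfold tT
    linear_combination (ca m n v * sx m n v ^ 2 + cb m n v * sy m n v ^ 2) * hC -
      cc m n v * hsec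
  have hD : sy m n v * x - sx m n v * y = 0 := by
    rw [hT, zero_mul] at hid
    rcases mul_eq_zero.1 hid with h1 | h1
    · exact absurd h1 (mul_ne_zero hca hcb)
    · exact pow_eq_zero_iff (two_ne_zero) |>.1 h1
  unfold tT at hT
  have hq : cc m n v * sz m n v ^ 2 * (sz m n v * y - sy m n v) = 0 := by
    linear_combination (sz m n v * y - sy m n v) * hsec - sy m n v * (sz m n v * hT - hsec) +
      ca m n v * sx m n v * sz m n v * hD
  have hp : cc m n v * sz m n v ^ 2 * (sz m n v * x - sx m n v) = 0 := by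
    linear_combination (sz m n v * x - sx m n v) * hsec - sx m n v * (sz m n v * hT - hsec) -
      cb m n v * sy m n v * sz m n v * hD
  have hne : cc m n v * sz m n v ^ 2 ≠ 0 := mul_ne_zero hcc (pow_ne_zero 2 hsz)
  have hq' := (mul_eq_zero.1 hq).resolve_left hne
  have hp' := (mul_eq_zero.1 hp).resolve_left hne
  have hsum : sx m n v + sy m n v + sz m n v = 0 := by
    unfold sx sy sz rho
    ring
  have hfin : sz m n v * (x + y + 1) = 0 := by linear_combination hq' + hp' + hsum
  exact (mul_ne_zero hsz l12) hfin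

private theorem spVal_ca {R S : Type} [CommRing R] [CommRing S] (f : R →+* S) (m n : ℤ) (v : R) :
    ca m n (f v) = f (ca m n v) := by
  unfold ca kap
  simp only [map_mul, map_sub, map_add, map_pow, map_intCast]

private theorem spVal_cb {R S : Type} [CommRing R] [CommRing S] (f : R →+* S) (m n : ℤ) (v : R) :
    cb m n (f v) = f (cb m n v) := by
  unfold cb kap
  simp only [map_mul, map_sub, map_add, map_pow, map_intCast, map_neg]

private theorem spVal_cc {R S : Type} [CommRing R] [CommRing S] (f : R →+* S) (m n : ℤ) (v : R) :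
    cc m n (f v) = f (cc m n v) := by
  unfold cc
  simp only [map_mul, map_add, map_pow, map_intCast]

private theorem spVal_sx {R S : Type} [CommRing R] [CommRing S] (f : R →+* S) (m n : ℤ) (v : R) :
    sx m n (f v) = f (sx m n v) := by
  unfold sx rho
  simp only [map_mul, map_sub, map_add, map_pow, map_intCast]

private theorem spVal_sy {R S : Type} [CommRing R] [CommRing S] (f : R →+* S) (m n : ℤ) (v : R) :
    sy m n (f v) = f (sy m n v) := by
  unfold sy rho
  simp only [map_mul, map_sub, map_add, map_pow, map_intCast]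

private theorem spVal_sz {R S : Type} [CommRing R] [CommRing S] (f : R →+* S) (m n : ℤ) (v : R) :
    sz m n (f v) = f (sz m n v) := by
  unfold sz rho
  simp only [map_mul, map_sub, map_add, map_pow, map_intCast]

private theorem spVal_tT {R S : Type} [CommRing R] [CommRing S] (f : R →+* S) (m n : ℤ)
    (v x y : R) : tT m n (f v) (f x) (f y) = f (tT m n v x y) := by
  unfold tT
  simp only [spVal_ca, spVal_cb, spVal_cc, spVal_sx, spVal_sy, spVal_sz, map_mul, map_add]

private theorem spVal_conZ {R S : Type} [CommRing R] [CommRing S] (f : R →+* S) (m n : ℤ)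
    (x y z : R) : conZ m n (f x) (f y) (f z) = f (conZ m n x y z) := by
  unfold conZ kap rho
  simp only [map_mul, map_sub, map_add, map_pow, map_intCast]

private theorem spVal_lin {R S : Type} [CommRing R] [CommRing S] (f : R →+* S) (m n : ℤ)
    (x y z : R) (i : Fin 13) : lin13 m n (f x) (f y) (f z) i = f (lin13 m n x y z i) := by
  fin_cases i <;> simp [lin13]

theorem sp_val {m n : ℤ} (hb : bad m n ≠ 0) {K L : Type} [Field K] [Field L] [CharZero L]
    [Algebra K L] [Algebra A2 K] [Algebra A2 L] {r : L} {σ : L ≃+* L}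
    (G : Gen m n 1 K L r σ) (f : A2) (hf : Prime f) (hsp : ¬ f ∣ special m n)
    (O : ValuationSubring L) (hO : Center f O) :
    O.valuation (nu m n r) ≤ 1 ∧ O.valuation (mu m n r) ≤ 1 ∧
      O.valuation (cc m n (nu m n r)) = 1 ∧ O.valuation (sz m n (nu m n r)) = 1 := by
  classical
  -- the special polynomials are units at `f`
  have hl : ∀ i, ¬ f ∣ lines13 m n i := by
    intro i hi
    apply hsp
    unfold special
    exact Dvd.dvd.mul_right (hi.trans (Finset.dvd_prod_of_mem _ (Finset.mem_univ i))) _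
  have hc : ¬ f ∣ conicZ m n := by
    intro hi
    apply hsp
    unfold special
    exact Dvd.dvd.mul_left hi _
  have hC : ∀ q : ℚ, q ≠ 0 → ¬ f ∣ (C q : A2) := by
    intro q hq hi
    apply hf.not_unit
    refine isUnit_of_dvd_unit hi ?_
    exact (isUnit_iff_ne_zero.2 hq).map (C : ℚ →+* A2)
  -- the residue field
  let ι : A2 →+* O :=
    { toFun := fun a => ⟨algebraMap A2 L a, (O.valuation_le_one_iff _).1 (hO.le_one a)⟩
      map_one' := Subtype.ext (map_one _)
      map_mul' := fun a b => Subtype.ext (map_mul _ a b)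
      map_zero' := Subtype.ext (map_zero _)
      map_add' := fun a b => Subtype.ext (map_add _ a b) }
  have hι : ∀ a, ((ι a : O) : L) = algebraMap A2 L a := fun a => rfl
  let ψ : O →+* IsLocalRing.ResidueField O := IsLocalRing.residue O
  have hψ : ∀ z : O, ψ z ≠ 0 ↔ O.valuation (z : L) = 1 := by
    intro z
    rw [← ValuationSubring.valuation_eq_one_iff]
    exact IsLocalRing.residue_ne_zero_iff_isUnit z
  have hne : ∀ a : A2, ¬ f ∣ a → ψ (ι a) ≠ 0 := by
    intro a ha
    rw [hψ, hι]
    exact hO.eq_one a ha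
  have hchar : CharZero (IsLocalRing.ResidueField O) := by
    have g : ℚ →+* IsLocalRing.ResidueField O := (ψ.comp ι).comp (C : ℚ →+* A2)
    exact charZero_of_injective_ringHom g.injective
  obtain ⟨hN0, hT0⟩ := gen_ne hb G
  have hr1 : O.valuation r ≤ 1 := by
    have h1 : O.valuation r ^ 2 ≤ 1 := by
      rw [← map_pow, G.sq]
      exact hO.le_one _
    exact (pow_le_one_iff two_ne_zero).1 h1
  let rO : O := ⟨r, (O.valuation_le_one_iff _).1 hr1⟩
  have hbL : (m : L) ^ 2 + n ^ 2 ≠ 0 := by
    intro h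
    have hbk : ((bad m n : ℤ) : L) ≠ 0 := Int.cast_ne_zero.2 hb
    apply hbk
    unfold bad kap
    push_cast
    linear_combination (2 * (m : L) * n * (m ^ 2 - n ^ 2) *
      (m ^ 4 + m ^ 2 * n ^ 2 + n ^ 4)) * h
  have hden : (2 : L) * qN m n (algebraMap A2 L (X 0)) (algebraMap A2 L (X 1)) =
      algebraMap A2 L (C 2 * (lines13 m n 0 * lines13 m n 1)) := by
    have h2 : algebraMap A2 L (C 2) = 2 := by
      rw [show (C (2 : ℚ) : A2) = 2 from map_ofNat C 2, map_ofNat]
    rw [map_mul, h2]
    congr 1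
    unfold lines13 lin13 qN
    simp only [Matrix.cons_val_zero, Matrix.cons_val_one, map_mul, map_sub, map_add,
      map_intCast]
    ring
  have hvden : O.valuation ((2 : L) * qN m n (algebraMap A2 L (X 0))
      (algebraMap A2 L (X 1))) = 1 := by
    rw [hden]
    apply hO.eq_one
    intro hi
    rcases hf.dvd_or_dvd hi with h | h
    · exact hC 2 two_ne_zero h
    · rcases hf.dvd_or_dvd h with h | h
      · exact hl 0 h
      · exact hl 1 h
  have hvnum : O.valuation (((m : L) ^ 2 + n ^ 2) * r -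
      qQ m n (algebraMap A2 L (X 0)) (algebraMap A2 L (X 1)) 1) ≤ 1 := by
    rw [O.valuation_le_one_iff]
    have h1 : ((m : L) ^ 2 + n ^ 2) * r -
        qQ m n (algebraMap A2 L (X 0)) (algebraMap A2 L (X 1)) 1 =
        (((((m : ℤ) : O) ^ 2 + (n : O) ^ 2) * rO - qQ m n (ι (X 0)) (ι (X 1)) 1 : O) : L) := by
      unfold qQ
      push_cast
      simp only [hι]
      rfl
    rw [h1]
    exact Subtype.property _
  have hnu : O.valuation (nu m n r) ≤ 1 := by
    unfold nu
    rw [map_div₀, hvden, div_one]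
    exact hvnum
  let vO : O := ⟨nu m n r, (O.valuation_le_one_iff _).1 hnu⟩
  obtain ⟨e1, -, -, -, -, -⟩ := sp_ident L hbL (algebraMap A2 L (X 0)) (algebraMap A2 L (X 1)) r
    (nu m n r) (mu m n r) (by
      rw [G.sq, map_mul]
      have h1 : algebraMap A2 L ((1 : ℤ) : A2) = 1 := by rw [Int.cast_one, map_one]
      rw [h1, one_mul]
      unfold F0
      rw [← F_map, map_one]) hN0 rfl hT0 rfl
  have e1O : ca m n vO * (ι (X 0)) ^ 2 + cb m n vO * (ι (X 1)) ^ 2 + cc m n vO = 0 := by
    apply Subtype.ext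
    have h1 := spVal_ca O.subtype m n vO
    have h2 := spVal_cb O.subtype m n vO
    have h3 := spVal_cc O.subtype m n vO
    change O.subtype (ca m n vO * (ι (X 0)) ^ 2 + cb m n vO * (ι (X 1)) ^ 2 + cc m n vO) = 0
    rw [map_add, map_add, map_mul, map_mul, ← h1, ← h2, ← h3, map_pow, map_pow]
    exact e1
  have e1k := congrArg ψ e1O
  rw [map_add, map_add, map_mul, map_mul, map_pow, map_pow, map_zero, ← spVal_ca, ← spVal_cb,
    ← spVal_cc] at e1k
  obtain ⟨r1, r2, r3⟩ := spVal_alg hb (ψ (ι (X 0))) (ψ (ι (X 1))) (ψ vO) e1k (by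
    intro i
    have h1 := hne _ (hl i)
    rw [← map_one ψ, ← map_one ι, spVal_lin, spVal_lin]
    exact h1) (by
    have h1 := hne _ hc
    rw [← map_one ψ, ← map_one ι, spVal_conZ, spVal_conZ]
    exact h1)
  rw [spVal_cc, hψ] at r1
  rw [spVal_sz, hψ] at r2
  rw [spVal_tT, hψ] at r3
  have r1' : O.valuation (cc m n (nu m n r)) = 1 := by
    have h1 := spVal_cc O.subtype m n vO
    change cc m n (nu m n r) = ((cc m n vO : O) : L) at h1
    rw [h1]; exact r1
  have r2' : O.valuation (sz m n (nu m n r)) = 1 := by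
    have h1 := spVal_sz O.subtype m n vO
    change sz m n (nu m n r) = ((sz m n vO : O) : L) at h1
    rw [h1]; exact r2
  have r3' : O.valuation (tT m n (nu m n r) (algebraMap A2 L (X 0)) (algebraMap A2 L (X 1))) =
      1 := by
    have h1 := spVal_tT O.subtype m n vO (ι (X 0)) (ι (X 1))
    change tT m n (nu m n r) (algebraMap A2 L (X 0)) (algebraMap A2 L (X 1)) =
      ((tT m n vO (ι (X 0)) (ι (X 1)) : O) : L) at h1
    rw [h1]; exact r3
  refine ⟨hnu, ?_, r1', r2'⟩
  unfold mu
  rw [map_div₀, r3', div_one, O.valuation_le_one_iff]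
  have h1 := spVal_sx O.subtype m n vO
  have h2 := spVal_sy O.subtype m n vO
  change sx m n (nu m n r) = ((sx m n vO : O) : L) at h1
  change sy m n (nu m n r) = ((sy m n vO : O) : L) at h2
  rw [h1, h2, ← hι, ← hι]
  exact Subtype.property (sy m n vO * ι (X 0) - sx m n vO * ι (X 1) : O)

end Pool.Agent.Helper8.XS
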