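import Pool.Agent.Helper8.XS.LineConic
import Pool.Agent.Helper8.XS.SpIdent

set_option autoImplicit false

/-! XS-3: over a field containing `√d` all values are equal -/

open scoped TensorProduct
open MvPolynomial

namespace Pool.Agent.Helper8.XS

open Pool.Agent.Helper8.BR Pool.Agent.Helper8.DP2

private theorem thmA_unimod {E : Type} [Field E] {x y z : E} (h : ¬ (x = 0 ∧ y = 0 ∧ z = 0)) :
    Ideal.span {x, y, z} = (⊤ : Ideal E) := by
  by_contra hne
  apply h
  have h1 : Ideal.span {x, y, z} = (⊥ : Ideal E) := by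
    rcases eq_bot_or_eq_top (Ideal.span {x, y, z} : Ideal E) with h2 | h2
    · exact h2
    · exact absurd h2 hne
  rw [Ideal.span_eq_bot] at h1
  exact ⟨h1 x (by simp), h1 y (by simp), h1 z (by simp)⟩

private theorem thmA_ne {m n d : ℤ} {E : Type} [Field E] (P : RPt m n d E) :
    ¬ (P.x = 0 ∧ P.y = 0 ∧ P.z = 0) := (toPt P).ne

private def thmA_pt {m n d : ℤ} {E : Type} [Field E] (x y z w : E)
    (h : ¬ (x = 0 ∧ y = 0 ∧ z = 0)) (e : w ^ 2 = (d : E) * F m n x y z) : RPt m n d E :=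
  ⟨x, y, z, w, thmA_unimod h, e⟩

private structure ThmABase {m n d : ℤ} {E : Type} [Field E] (δ : E) (S : RPt m n d E) : Prop where
  lin : S.x + S.y + S.z = 0
  w : S.w = δ * (m * n * (S.x ^ 2 + S.y ^ 2 + S.z ^ 2))

private theorem thmA_line_id {R : Type} [CommRing R] (m n : ℤ) (x y z : R) (h : x + y + z = 0) :
    F m n x y z = ((m : R) * n * (x ^ 2 + y ^ 2 + z ^ 2)) ^ 2 := by
  have hz : z = -x - y := by linear_combination h
  subst hz
  unfold F
  ring

private theorem thmA_base_eq {m n d : ℤ} (α : Fam m n d) (E : Type) [Field E] [CharZero E] (δ : E)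
    (hδ : δ ^ 2 = (d : E)) (P S : RPt m n d E) (hP : ThmABase δ P) (hS : ThmABase δ S) :
    α.val E (qring_field E) P = α.val E (qring_field E) S := by
  apply line_const α E (δ * (m * n)) (δ * (m * n)) (δ * (m * n)) P S
  · intro s t
    rw [thmA_line_id m n _ _ _ (show s * P.x + t * S.x + (s * P.y + t * S.y) +
      (s * P.z + t * S.z) = 0 by linear_combination s * hP.lin + t * hS.lin), ← hδ]
    ring
  · rw [hP.w]; ring
  · rw [hS.w]; ring

private theorem thmA_I1 {R : Type} [CommRing R] (m n : ℤ) (x y z : R) :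
    ((m : R) ^ 2 + n ^ 2) ^ 2 * F m n x y z =
      qQ m n x y z ^ 2 + 4 * kap m n * qN m n x y * qN' m n x y := by
  unfold F qQ qN qN' kap
  ring

private theorem thmA_I3 {R : Type} [CommRing R] (m n : ℤ) (v : R) :
    qQ m n (sx m n v) (sy m n v) (sz m n v) + 2 * v * qN m n (sx m n v) (sy m n v) =
      ((m : R) ^ 2 + n ^ 2) * (m * n * (sx m n v ^ 2 + sy m n v ^ 2 + sz m n v ^ 2)) := by
  unfold qQ qN sx sy sz rho
  ring

private theorem thmA_conic {R : Type} [CommRing R] (m n : ℤ) (v x y z : R) :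
    ca m n v * x ^ 2 + cb m n v * y ^ 2 + cc m n v * z ^ 2 =
      v ^ 2 * qN m n x y + v * qQ m n x y z - kap m n * qN' m n x y := by
  unfold ca cb cc qN qQ qN' kap
  ring

private theorem thmA_sum {R : Type} [CommRing R] (m n : ℤ) (v : R) :
    sx m n v + sy m n v + sz m n v = 0 := by
  unfold sx sy sz rho
  ring

private theorem thmA_kap {R : Type} [CommRing R] (m n : ℤ) :
    (kap m n : R) = rho m n * ((m : R) ^ 2 + m * n + n ^ 2) := by
  unfold kap rho
  ring

/-- case (a): `P` lies on the conic `C_v` and `s w' = Q + 2 v N` -/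
private theorem thmA_caseA {m n d : ℤ} (α : Fam m n d) (E : Type) [Field E] [CharZero E]
    (k v : E) (hs : (m : E) ^ 2 + n ^ 2 ≠ 0) (hr : (rho m n : E) ≠ 0)
    (hd : (d : E) = k ^ 2 * ((m : E) ^ 2 + n ^ 2) ^ 2) (P : RPt m n d E)
    (hC : ca m n v * P.x ^ 2 + cb m n v * P.y ^ 2 + cc m n v * P.z ^ 2 = 0)
    (hw : P.w = k * (qQ m n P.x P.y P.z + 2 * v * qN m n P.x P.y)) :
    ∃ S : RPt m n d E, ThmABase (k * ((m : E) ^ 2 + n ^ 2)) S ∧
      α.val E (qring_field E) P = α.val E (qring_field E) S := by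
  set w1 : E := k * (2 * v * m ^ 2 - ((m : E) ^ 4 + n ^ 4)) with hw1
  set w2 : E := k * (-(2 * v * n ^ 2) - ((m : E) ^ 4 + n ^ 4)) with hw2
  set w3 : E := k * ((m : E) ^ 2 + n ^ 2) ^ 2 with hw3
  have hW : ∀ x y z : E, w1 * x ^ 2 + w2 * y ^ 2 + w3 * z ^ 2 =
      k * (qQ m n x y z + 2 * v * qN m n x y) := by
    intro x y z
    rw [hw1, hw2, hw3]
    unfold qQ qN
    ring
  have hid : ∀ x y z : E, (w1 * x ^ 2 + w2 * y ^ 2 + w3 * z ^ 2) ^ 2 = (d : E) * F m n x y z +
      (ca m n v * x ^ 2 + cb m n v * y ^ 2 + cc m n v * z ^ 2) *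
        (4 * k ^ 2 * m ^ 2 * x ^ 2 + -(4 * k ^ 2 * n ^ 2) * y ^ 2 + 0 * z ^ 2) := by
    intro x y z
    rw [hW, hd]
    have h1 := conic_factor m n v x y z
    unfold qN at h1 ⊢
    linear_combination (-k ^ 2) * h1
  have hSC := section_conic (R := E) m n v
  have hSne : ¬ (sx m n v = 0 ∧ sy m n v = 0 ∧ sz m n v = 0) := by
    rintro ⟨h1, h2, -⟩
    have h3 : (rho m n : E) * ((m : E) ^ 2 + n ^ 2) = 0 := by
      unfold sx at h1
      unfold sy at h2
      linear_combination (m : E) * h1 + n * h2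
    rcases mul_eq_zero.mp h3 with h4 | h4
    · exact hr h4
    · exact hs h4
  let S : RPt m n d E := thmA_pt (sx m n v) (sy m n v) (sz m n v)
    (w1 * sx m n v ^ 2 + w2 * sy m n v ^ 2 + w3 * sz m n v ^ 2) hSne (by
      rw [hid, hSC, zero_mul, add_zero])
  have hSbase : ThmABase (k * ((m : E) ^ 2 + n ^ 2)) S := by
    refine ⟨thmA_sum m n v, ?_⟩
    change w1 * sx m n v ^ 2 + w2 * sy m n v ^ 2 + w3 * sz m n v ^ 2 = _
    rw [hW, thmA_I3]
    change _ = k * ((m : E) ^ 2 + n ^ 2) * (m * n * (sx m n v ^ 2 + sy m n v ^ 2 + sz m n v ^ 2))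
    ring
  refine ⟨S, hSbase, ?_⟩
  have hPw : P.w = w1 * P.x ^ 2 + w2 * P.y ^ 2 + w3 * P.z ^ 2 := by rw [hW, hw]
  -- lines through a coordinate vertex
  have hline : ∀ V : RPt m n d E, V.w = w1 * V.x ^ 2 + w2 * V.y ^ 2 + w3 * V.z ^ 2 →
      (∀ T : RPt m n d E, ca m n v * T.x ^ 2 + cb m n v * T.y ^ 2 + cc m n v * T.z ^ 2 = 0 →
        ∀ s t : E, ca m n v * (s * T.x + t * V.x) ^ 2 + cb m n v * (s * T.y + t * V.y) ^ 2 +
          cc m n v * (s * T.z + t * V.z) ^ 2 = 0) →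
      α.val E (qring_field E) P = α.val E (qring_field E) S := by
    intro V hVw hV
    have h1 : α.val E (qring_field E) P = α.val E (qring_field E) V := by
      apply line_const α E w1 w2 w3 P V _ hPw hVw
      intro s t
      rw [hid, hV P hC s t, zero_mul, add_zero]
    have h2 : α.val E (qring_field E) S = α.val E (qring_field E) V := by
      apply line_const α E w1 w2 w3 S V _ rfl hVw
      intro s t
      rw [hid, hV S hSC s t, zero_mul, add_zero]
    rw [h1, h2]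
  by_cases ha : ca m n v = 0
  · let V : RPt m n d E := thmA_pt 1 0 0 (w1 * 1 ^ 2 + w2 * 0 ^ 2 + w3 * 0 ^ 2)
      (fun h => one_ne_zero h.1) (by rw [hid, ha]; ring)
    apply hline V rfl
    intro T hT s t
    change ca m n v * (s * T.x + t * 1) ^ 2 + cb m n v * (s * T.y + t * 0) ^ 2 +
          cc m n v * (s * T.z + t * 0) ^ 2 = 0
    rw [ha] at hT ⊢
    linear_combination s ^ 2 * hT
  by_cases hb : cb m n v = 0
  · let V : RPt m n d E := thmA_pt 0 1 0 (w1 * 0 ^ 2 + w2 * 1 ^ 2 + w3 * 0 ^ 2)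
      (fun h => one_ne_zero h.2.1) (by rw [hid, hb]; ring)
    apply hline V rfl
    intro T hT s t
    change ca m n v * (s * T.x + t * 0) ^ 2 + cb m n v * (s * T.y + t * 1) ^ 2 +
          cc m n v * (s * T.z + t * 0) ^ 2 = 0
    rw [hb] at hT ⊢
    linear_combination s ^ 2 * hT
  by_cases hc : cc m n v = 0
  · let V : RPt m n d E := thmA_pt 0 0 1 (w1 * 0 ^ 2 + w2 * 0 ^ 2 + w3 * 1 ^ 2)
      (fun h => one_ne_zero h.2.2) (by rw [hid, hc]; ring)
    apply hline V rfl
    intro T hT s t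
    change ca m n v * (s * T.x + t * 0) ^ 2 + cb m n v * (s * T.y + t * 0) ^ 2 +
          cc m n v * (s * T.z + t * 1) ^ 2 = 0
    rw [hc] at hT ⊢
    linear_combination s ^ 2 * hT
  · exact conic_const α E w1 w2 w3 (ca m n v) (cb m n v) (cc m n v) (4 * k ^ 2 * m ^ 2)
      (-(4 * k ^ 2 * n ^ 2)) 0 ha hb hc hid P S hC hSC hPw rfl

/-- case (b): `N(P) = 0` and `s w' = -Q` -/
private theorem thmA_caseB {m n d : ℤ} (α : Fam m n d) (E : Type) [Field E] [CharZero E]
    (k : E) (hm : (m : E) ≠ 0)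
    (hd : (d : E) = k ^ 2 * ((m : E) ^ 2 + n ^ 2) ^ 2) (P : RPt m n d E)
    (hN : qN m n P.x P.y = 0)
    (hw : P.w = -(k * qQ m n P.x P.y P.z)) :
    ∃ S : RPt m n d E, ThmABase (k * ((m : E) ^ 2 + n ^ 2)) S ∧
      α.val E (qring_field E) P = α.val E (qring_field E) S := by
  set w1 : E := k * ((m : E) ^ 4 + n ^ 4) with hw1
  set w3 : E := -(k * ((m : E) ^ 2 + n ^ 2) ^ 2) with hw3
  have hW : ∀ x y z : E, w1 * x ^ 2 + w1 * y ^ 2 + w3 * z ^ 2 = -(k * qQ m n x y z) := by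
    intro x y z
    rw [hw1, hw3]
    unfold qQ
    ring
  have hid : ∀ x y z : E, qN m n x y = 0 →
      (w1 * x ^ 2 + w1 * y ^ 2 + w3 * z ^ 2) ^ 2 = (d : E) * F m n x y z := by
    intro x y z h
    rw [hW, hd]
    have h1 := thmA_I1 m n x y z
    rw [h] at h1
    linear_combination (-k ^ 2) * h1
  let V : RPt m n d E := thmA_pt 0 0 1 (w1 * 0 ^ 2 + w1 * 0 ^ 2 + w3 * 1 ^ 2)
    (fun h => one_ne_zero h.2.2) (hid 0 0 1 (by unfold qN; ring))
  have hSN : qN m n (n : E) (-(m : E)) = 0 := by unfold qN; ring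
  let S : RPt m n d E := thmA_pt (n : E) (-(m : E)) ((m : E) - n)
    (w1 * (n : E) ^ 2 + w1 * (-(m : E)) ^ 2 + w3 * ((m : E) - n) ^ 2)
    (fun h => hm (neg_eq_zero.mp h.2.1)) (hid _ _ _ hSN)
  have hSbase : ThmABase (k * ((m : E) ^ 2 + n ^ 2)) S := by
    refine ⟨?_, ?_⟩
    · change (n : E) + -(m : E) + ((m : E) - n) = 0
      ring
    · change w1 * (n : E) ^ 2 + w1 * (-(m : E)) ^ 2 + w3 * ((m : E) - n) ^ 2 =
        k * ((m : E) ^ 2 + n ^ 2) * (m * n * ((n : E) ^ 2 + (-(m : E)) ^ 2 + ((m : E) - n) ^ 2))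
      rw [hw1, hw3]
      ring
  refine ⟨S, hSbase, ?_⟩
  have hPw : P.w = w1 * P.x ^ 2 + w1 * P.y ^ 2 + w3 * P.z ^ 2 := by rw [hW, hw]
  have hV : ∀ T : RPt m n d E, qN m n T.x T.y = 0 → ∀ s t : E,
      qN m n (s * T.x + t * V.x) (s * T.y + t * V.y) = 0 := by
    intro T hT s t
    change qN m n (s * T.x + t * 0) (s * T.y + t * 0) = 0
    unfold qN at hT ⊢
    linear_combination s ^ 2 * hT
  have h1 : α.val E (qring_field E) P = α.val E (qring_field E) V := by
    apply line_const α E w1 w1 w3 P V _ hPw rfl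
    intro s t
    exact hid _ _ _ (hV P hN s t)
  have h2 : α.val E (qring_field E) S = α.val E (qring_field E) V := by
    apply line_const α E w1 w1 w3 S V _ rfl rfl
    intro s t
    exact hid _ _ _ (hV S hSN s t)
  rw [h1, h2]

private theorem thmA_exists_base {m n d : ℤ} (hb : bad m n ≠ 0) (α : Fam m n d)
    (E : Type) [Field E] [CharZero E] (δ : E) (hδ : δ ^ 2 = (d : E)) (hδ0 : δ ≠ 0)
    (P : RPt m n d E) :
    ∃ S : RPt m n d E, ThmABase δ S ∧
      α.val E (qring_field E) P = α.val E (qring_field E) S := by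
  have hbE : ((bad m n : ℤ) : E) ≠ 0 := Int.cast_ne_zero.mpr hb
  have hcast : ((bad m n : ℤ) : E) =
      2 * m * n * ((m : E) ^ 2 - n ^ 2) * ((m : E) ^ 2 + n ^ 2) * kap m n := by
    unfold bad kap
    push_cast
    ring
  rw [hcast] at hbE
  have hkap : (kap m n : E) ≠ 0 := right_ne_zero_of_mul hbE
  have h1 := left_ne_zero_of_mul hbE
  have hs : (m : E) ^ 2 + n ^ 2 ≠ 0 := right_ne_zero_of_mul h1
  have h2 := left_ne_zero_of_mul (left_ne_zero_of_mul h1)
  have hm : (m : E) ≠ 0 := right_ne_zero_of_mul (left_ne_zero_of_mul h2)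
  have hr : (rho m n : E) ≠ 0 := by
    intro h
    apply hkap
    rw [thmA_kap, h, zero_mul]
  obtain ⟨k, hk⟩ : ∃ k : E, δ = k * ((m : E) ^ 2 + n ^ 2) :=
    ⟨δ / ((m : E) ^ 2 + n ^ 2), by field_simp⟩
  have hd : (d : E) = k ^ 2 * ((m : E) ^ 2 + n ^ 2) ^ 2 := by
    rw [← hδ, hk]; ring
  have hk0 : k ≠ 0 := by
    intro h
    rw [h, zero_mul] at hk
    exact hδ0 hk
  obtain ⟨w', hw'⟩ : ∃ w' : E, P.w = k * w' := ⟨P.w / k, by field_simp⟩
  -- `w' = s w / δ`, so `w'^2 = s^2 F`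
  have hF : w' ^ 2 = ((m : E) ^ 2 + n ^ 2) ^ 2 * F m n P.x P.y P.z := by
    have h3 := P.eq
    rw [hw', hd] at h3
    have h4 : k ^ 2 * (w' ^ 2 - ((m : E) ^ 2 + n ^ 2) ^ 2 * F m n P.x P.y P.z) = 0 := by
      linear_combination h3
    rcases mul_eq_zero.mp h4 with h5 | h5
    · exact absurd (pow_eq_zero_iff (two_ne_zero) |>.mp h5) hk0
    · linear_combination h5
  have h2E : (2 : E) ≠ 0 := two_ne_zero
  rw [hk]
  by_cases hN : qN m n P.x P.y = 0
  · have h5 : (w' - qQ m n P.x P.y P.z) * (w' + qQ m n P.x P.y P.z) = 0 := by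
      have h6 := thmA_I1 m n P.x P.y P.z
      rw [hN] at h6
      linear_combination hF + h6
    by_cases hQ : w' + qQ m n P.x P.y P.z = 0
    · exact thmA_caseB α E k hm hd P hN (by rw [hw']; linear_combination k * hQ)
    · have hw'Q : w' = qQ m n P.x P.y P.z := by
        rcases mul_eq_zero.mp h5 with h6 | h6
        · linear_combination h6
        · exact absurd h6 hQ
      have hQ0 : qQ m n P.x P.y P.z ≠ 0 := by
        intro h
        apply hQ
        rw [hw'Q, h, add_zero]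
      refine thmA_caseA α E k (kap m n * qN' m n P.x P.y / qQ m n P.x P.y P.z) hs hr hd P ?_ ?_
      · rw [thmA_conic, hN]
        field_simp
        ring
      · rw [hN, hw', hw'Q]
        ring
  · have hv : w' = qQ m n P.x P.y P.z +
        2 * ((w' - qQ m n P.x P.y P.z) / (2 * qN m n P.x P.y)) * qN m n P.x P.y := by
      field_simp
      ring
    refine thmA_caseA α E k ((w' - qQ m n P.x P.y P.z) / (2 * qN m n P.x P.y)) hs hr hd P ?_ ?_
    · have h6 := conic_factor m n ((w' - qQ m n P.x P.y P.z) / (2 * qN m n P.x P.y)) P.x P.y P.z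
      rw [← hv, ← hF] at h6
      have h7 : 4 * qN m n P.x P.y * (ca m n ((w' - qQ m n P.x P.y P.z) /
          (2 * qN m n P.x P.y)) * P.x ^ 2 + cb m n ((w' - qQ m n P.x P.y P.z) /
          (2 * qN m n P.x P.y)) * P.y ^ 2 + cc m n ((w' - qQ m n P.x P.y P.z) /
          (2 * qN m n P.x P.y)) * P.z ^ 2) = 0 := by
        linear_combination h6
      rcases mul_eq_zero.mp h7 with h8 | h8
      · rcases mul_eq_zero.mp h8 with h9 | h9
        · norm_num at h9
        · exact absurd h9 hN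
      · exact h8
    · rw [← hv, hw']

theorem constancy {m n d : ℤ} (hb : bad m n ≠ 0) (hd : d ≠ 0) (α : Fam m n d) (E : Type)
    [Field E] [CharZero E] (δ : E) (hδ : δ ^ 2 = (d : E)) (P P' : RPt m n d E) :
    α.val E (qring_field E) P = α.val E (qring_field E) P' := by
  have hδ0 : δ ≠ 0 := by
    intro h
    rw [h] at hδ
    have h1 : (d : E) = 0 := by rw [← hδ]; ring
    exact hd (Int.cast_eq_zero.mp h1)
  obtain ⟨S, hS, h1⟩ := thmA_exists_base hb α E δ hδ hδ0 P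
  obtain ⟨S', hS', h2⟩ := thmA_exists_base hb α E δ hδ hδ0 P'
  rw [h1, h2]
  exact thmA_base_eq α E δ hδ S S' hS hS'

end Pool.Agent.Helper8.XS
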