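import Pool.Agent.Helper8.XS.Defs

set_option autoImplicit false

/-! XS-27 -/

open scoped TensorProduct
open MvPolynomial

namespace Pool.Agent.Helper8.XS

open Pool.Agent.Helper8.BR Pool.Agent.Helper8.DP2

/-- coefficients of the square root of a power series -/
private noncomputable def sqrtCoeff {E : Type} [Field E] (f : PowerSeries E) (c : E) : ℕ → E
  | 0 => c
  | n + 1 => (PowerSeries.coeff (n + 1) f -
      ∑ i : Fin n, sqrtCoeff f c (i + 1) * sqrtCoeff f c (n - i)) / (2 * c)
termination_by n => n
decreasing_by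
  all_goals omega

theorem exists_sqrt_ps (E : Type) [Field E] [CharZero E] (f : PowerSeries E) (c : E)
    (hc : c ≠ 0) (h : PowerSeries.constantCoeff f = c ^ 2) :
    ∃ g : PowerSeries E, g ^ 2 = f ∧ PowerSeries.constantCoeff g = c := by
  refine ⟨PowerSeries.mk (sqrtCoeff f c), ?_, ?_⟩
  · ext n
    rw [sq, PowerSeries.coeff_mul]
    simp only [PowerSeries.coeff_mk]
    rw [Finset.Nat.sum_antidiagonal_eq_sum_range_succ
      (fun i j => sqrtCoeff f c i * sqrtCoeff f c j)]
    cases n with
    | zero =>
      have h0 : PowerSeries.coeff 0 f = c ^ 2 := by rw [← h]; simp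
      rw [h0]
      simp [sqrtCoeff, sq]
    | succ n =>
      rw [Finset.sum_range_succ, Finset.sum_range_succ']
      have h1 : ∑ k ∈ Finset.range n, sqrtCoeff f c (k + 1) * sqrtCoeff f c (n + 1 - (k + 1)) =
          ∑ i : Fin n, sqrtCoeff f c (i + 1) * sqrtCoeff f c (n - i) := by
        rw [Finset.sum_range]
        refine Finset.sum_congr rfl fun i _ => ?_
        rw [Nat.add_sub_add_right]
      have h2 : sqrtCoeff f c (n + 1) = (PowerSeries.coeff (n + 1) f -
          ∑ i : Fin n, sqrtCoeff f c (i + 1) * sqrtCoeff f c (n - i)) / (2 * c) := by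
        rw [sqrtCoeff]
      have h3 : sqrtCoeff f c 0 = c := by rw [sqrtCoeff]
      rw [h1, Nat.sub_self, Nat.sub_zero, h3, h2]
      have h2c : (2 : E) * c ≠ 0 := mul_ne_zero two_ne_zero hc
      field_simp
      ring
  · rw [← PowerSeries.coeff_zero_eq_constantCoeff_apply, PowerSeries.coeff_mk, sqrtCoeff]

private theorem exists_transc (E : Type) [Field E] [CharZero E] [Uncountable E] (s : Set E)
    (hs : s.Finite) : ∃ θ : E, Transcendental (IntermediateField.adjoin ℚ s) θ := by
  by_contra hcon
  push Not at hcon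
  have hcount : Countable (IntermediateField.adjoin ℚ s) := by
    rw [← Cardinal.mk_le_aleph0_iff]
    refine (IntermediateField.cardinalMk_adjoin_le ℚ s).trans ?_
    have h1 : Cardinal.mk ℚ ≤ Cardinal.aleph0 := Cardinal.mk_le_aleph0_iff.2 inferInstance
    have h2 : Cardinal.mk s ≤ Cardinal.aleph0 := hs.countable.le_aleph0
    exact sup_le (sup_le h1 h2) le_rfl
  have h := Algebraic.countable (IntermediateField.adjoin ℚ s) E
  have huniv : {x : E | IsAlgebraic (IntermediateField.adjoin ℚ s) x} = Set.univ := by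
    ext x
    simp only [Set.mem_ofPred_eq, Set.mem_univ, iff_true]
    have := hcon x
    rwa [Transcendental, not_not] at this
  rw [huniv, Set.countable_univ_iff] at h
  exact not_countable h

/-- two transcendental elements avoiding a linear condition -/
theorem exists_trans (E : Type) [Field E] [CharZero E] [Uncountable E] (a b c : E)
    (h : ¬ (a = 0 ∧ b = 0 ∧ c = 0)) : ∃ θ₁ θ₂ : E, a + b * θ₁ + c * θ₂ ≠ 0 ∧
      ∀ G : A2, G ≠ 0 → eval₂ (algebraMap ℚ E) ![θ₁, θ₂] G ≠ 0 := by
  obtain ⟨θ₂, hθ₂⟩ := exists_transc E {a, b, c} (Set.toFinite _)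
  obtain ⟨θ₁, hθ₁⟩ := exists_transc E {a, b, c, θ₂} (Set.toFinite _)
  have key : AlgebraicIndependent ℚ ![θ₁, θ₂] := by
    have h2 : Transcendental ℚ θ₂ := Transcendental.of_tower_top ℚ hθ₂
    have hx : AlgebraicIndependent ℚ (fun _ : Fin 1 => θ₂) := by
      rw [algebraicIndependent_unique_type_iff]
      exact h2
    have h3 : AlgebraicIndependent ℚ (fun o : Option (Fin 1) => o.elim θ₁ (fun _ => θ₂)) := by
      rw [hx.option_iff_transcendental]
      refine Transcendental.of_tower_top_of_subalgebra_le
        (B := (IntermediateField.adjoin ℚ {a, b, c, θ₂}).toSubalgebra) ?_ hθ₁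
      rw [Algebra.adjoin_le_iff]
      rintro _ ⟨_, rfl⟩
      exact IntermediateField.subset_adjoin ℚ _ (by simp)
    have h4 := (algebraicIndependent_equiv (finSuccEquiv 1)).2 h3
    convert h4 using 1
    funext i
    fin_cases i <;> rfl
  refine ⟨θ₁, θ₂, ?_, ?_⟩
  · intro h0
    have haK : ∀ x ∈ ({a, b, c, θ₂} : Set E), x ∈ IntermediateField.adjoin ℚ {a, b, c, θ₂} :=
      fun x hx => IntermediateField.subset_adjoin ℚ _ hx
    by_cases hb : b = 0
    · subst hb
      by_cases hc : c = 0
      · subst hc
        apply h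
        refine ⟨?_, rfl, rfl⟩
        simpa using h0
      · have h5 : θ₂ = -a / c := by
          field_simp
          linear_combination h0
        have h6 : θ₂ ∈ IntermediateField.adjoin ℚ {a, 0, c} := by
          rw [h5]
          exact div_mem (neg_mem (IntermediateField.subset_adjoin ℚ _ (by simp)))
            (IntermediateField.subset_adjoin ℚ _ (by simp))
        exact hθ₂ (isAlgebraic_algebraMap (⟨θ₂, h6⟩ : IntermediateField.adjoin ℚ {a, 0, c}))
    · have h5 : θ₁ = -(a + c * θ₂) / b := by
        field_simp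
        linear_combination h0
      have h6 : θ₁ ∈ IntermediateField.adjoin ℚ {a, b, c, θ₂} := by
        rw [h5]
        exact div_mem (neg_mem (add_mem (haK a (by simp)) (mul_mem (haK c (by simp))
          (haK θ₂ (by simp))))) (haK b (by simp))
      exact hθ₁ (isAlgebraic_algebraMap (⟨θ₁, h6⟩ : IntermediateField.adjoin ℚ {a, b, c, θ₂}))
  · intro G hG h0
    apply hG
    rw [algebraicIndependent_iff] at key
    exact key G h0

end Pool.Agent.Helper8.XS
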