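import Pool.Agent.Helper8.XS.Defs
import Pool.Agent.Helper8.BR.Quad
import Pool.Agent.Helper8.BR.QuadDvr

set_option autoImplicit false

/-! XS-6 -/

open scoped TensorProduct Quaternion
open MvPolynomial

namespace Pool.Agent.Helper8.XS

open Pool.Agent.Helper8.BR Pool.Agent.Helper8.DP2

/-- image of a point under a ring homomorphism -/
private def vsMap {m n d : ℤ} {R S : Type} [CommRing R] [CommRing S] (f : R →+* S)
    (P : RPt m n d R) : RPt m n d S where
  x := f P.x
  y := f P.y
  z := f P.z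
  w := f P.w
  unimod := by
    have h1 := congrArg (Ideal.map f) P.unimod
    rw [Ideal.map_span, Ideal.map_top] at h1
    rw [← h1]
    congr 1
    rw [Set.image_insert_eq, Set.image_insert_eq, Set.image_singleton]
  eq := by
    have h1 := congrArg f P.eq
    rw [map_pow, map_mul, map_intCast] at h1
    rw [h1]
    congr 1
    unfold F
    simp only [map_add, map_sub, map_mul, map_pow, map_intCast, map_ofNat, map_neg]

theorem van_sym {m n d : ℤ} (hd : d ≠ 0) (α : Fam m n d) (hV : Van α) (R : Type) [CommRing R]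
    [IsDomain R] [IsPrincipalIdealRing R] [IsLocalRing R] [Finite (MaximalSpectrum R)]
    (h : QRing R) (hns : ∀ x : R, ¬ (x ^ 2 - (d : R) ∈ IsLocalRing.maximalIdeal R))
    (P : RPt m n d R) : ∃ u : R, IsUnit u ∧ α.val R h P = sym R (d : R) u := by
  have h2 : IsUnit (2 : R) := by
    have := h 2 two_ne_zero
    rwa [Nat.cast_ofNat] at this
  have hdu : IsUnit (d : R) := by
    have h1 := h d.natAbs (Int.natAbs_ne_zero.2 hd)
    rcases Int.natAbs_eq d with h3 | h3
    · rw [h3, Int.cast_natCast]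
      exact h1
    · rw [h3, Int.cast_neg, Int.cast_natCast]
      exact h1.neg
  obtain ⟨hS1, hS2, hS3⟩ := quad_pid R (d : R) h2 hns
  have hSf : Finite (MaximalSpectrum (QuadraticAlgebra R (d : R) 0)) := by
    have : Subsingleton (MaximalSpectrum (QuadraticAlgebra R (d : R) 0)) := by
      constructor
      intro a b
      apply MaximalSpectrum.ext
      rw [IsLocalRing.eq_maximalIdeal a.isMaximal, IsLocalRing.eq_maximalIdeal b.isMaximal]
    infer_instance
  have hSQ : QRing (QuadraticAlgebra R (d : R) 0) := by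
    intro k hk
    have h1 := (h k hk).map (algebraMap R (QuadraticAlgebra R (d : R) 0))
    rwa [map_natCast] at h1
  let f : R →+* QuadraticAlgebra R (d : R) 0 := algebraMap R (QuadraticAlgebra R (d : R) 0)
  have hδ : (⟨0, 1⟩ : QuadraticAlgebra R (d : R) 0) ^ 2 =
      ((d : ℤ) : QuadraticAlgebra R (d : R) 0) := by
    rw [sq]
    ext <;> simp
  have h0 := hV (QuadraticAlgebra R (d : R) 0) hSQ ⟨0, 1⟩ hδ (vsMap f P)
  have h1 := α.nat R (QuadraticAlgebra R (d : R) 0) f h hSQ P (vsMap f P)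
    ⟨1, isUnit_one, by rw [one_mul]; rfl, by rw [one_mul]; rfl, by rw [one_mul]; rfl, by
      rw [one_pow, one_mul]; rfl⟩
  rw [h0] at h1
  obtain ⟨A, hA⟩ := Br.exists_mk (α.val R h P)
  rw [hA] at h1 ⊢
  have h3 : (0 : Br (QuadraticAlgebra R (d : R) 0)) =
      Br.mk (QuadraticAlgebra R (d : R) 0) (QuadraticAlgebra R (d : R) 0) :=
    ((Br.mk_eq_zero_iff _ _).2 (BrEq.refl _ _)).symm
  rw [h3] at h1
  have h4 := (Br.map_mk_eq_iff R (QuadraticAlgebra R (d : R) 0) A
    (QuadraticAlgebra R (d : R) 0)).1 h1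
  let _ : Algebra ℚ R := h.hom.toAlgebra
  obtain ⟨u, hu, hAu⟩ := split_quadratic R A (d : R) hdu h4
  refine ⟨u, hu, ?_⟩
  have hq := quat_az R u (d : R) hu hdu h2
  have h5 : sym R (d : R) u = Br.mk R ℍ[R, u, (d : R)] := by
    unfold sym
    exact dif_pos ⟨hu, hdu, h2⟩
  rw [h5]
  exact (Br.mk_eq_iff R A ℍ[R, u, (d : R)]).2 hAu

end Pool.Agent.Helper8.XS
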